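import Pool.Agent.Lib.MP_6e5bed_ag_BI.P2
import Pool.Agent.Lib.MP_6e5bed_ag_WW.StepF

set_option autoImplicit false
set_option linter.unusedVariables false

/-!
# MP_6e5bed_ag, THEOREM T, section 8: the class of a coherent bisheaf with support in the point
-/

noncomputable section

namespace Pool.Agent.MP_6e5bed_ag_BI

open Pool.Agent.MP_6e5bed_ag_NC Pool.Agent.MP_6e5bed_ag_GG Pool.Agent.MP_6e5bed_ag_WW
open Pool.Agent.MP_6e5bed_ag_PN hiding Ch
open Pool.Agent.MP_6e5bed_ag_NS (Cx CHom ringH)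

universe u

variable {k : Type u} [Field k] {i j : Type} [Fintype i] [Fintype j]
  {A : CA k i} {A' : CA k j} {E : BS A A'} {m : Ch i}

section coh2aux

variable {W : DGA k} (g : GD A m)

/-- the section `1` of `ss` -/
private def Coh2_u (c : Ch i) : ((ss g.cone).M c).M := (fun _ => 1 : PLift (g.cone.D c) → g.S)

private theorem Coh2_u_deg (c : Ch i) : ((ss g.cone).M c).dg.IsDeg 0 (Coh2_u g c) :=
  Dg.conc_deg _

private theorem Coh2_u_d (c : Ch i) : ((ss g.cone).M c).dg.d (Coh2_u g c) = 0 := rfl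

private theorem Coh2_u_s (c : Ch i) : ((ss g.cone).M c).dg.s (Coh2_u g c) = Coh2_u g c :=
  Dg.conc_s (k := k) _

private theorem Coh2_u_ρ {c d : Ch i} (h : c ≤ d) :
    ((ss g.cone).ρ h).f (Coh2_u g c) = Coh2_u g d := rfl

private theorem Coh2_u_l {c : Ch i} (h : c ≤ m) (a : A.A c) :
    ((ss g.cone).M c).l a (Coh2_u g c) = ((ss g.cone).M c).r (g.psi (A.res h a)) (Coh2_u g c) :=
  funext fun h' => by
    change g.psi (A.res h'.down a) * 1 = 1 * g.psi (A.res h a)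
    rw [mul_one, one_mul]

private theorem Coh2_zero {c : Ch i} (h : ¬ c ≤ m) (v : ((ss g.cone).M c).M) : v = 0 :=
  show (show PLift (g.cone.D c) → g.S from v) = 0 from funext fun h' => absurd h'.down h

private theorem Coh2_tzero {c : Ch i} (h : ¬ c ≤ m) {Z : Bim (ring k g.S) W}
    (v : (tb ((ss g.cone).M c) Z).M) : v = 0 :=
  tb_ind (M := (ss g.cone).M c) (N := Z) (P := fun v => v = 0) rfl
    (fun x y hx hy => by rw [hx, hy, add_zero])
    (fun v z => by rw [Coh2_zero g h v]; exact tm_zero_left z) v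

variable (X : PB A.pa (PA.con i W))

open Classical in
/-- the value of the morphism at `c` -/
private def Coh2_f (c : Ch i) : (X.M c).M →ₗ[k] (tb ((ss g.cone).M c) (sl g (X.M m))).M :=
  if h : c ≤ m then (tmB ((ss g.cone).M c) (sl g (X.M m)) (Coh2_u g c)) ∘ₗ
    (sli g (X.M m)).f ∘ₗ (X.ρ h).f else 0

private theorem Coh2_f_pos {c : Ch i} (h : c ≤ m) (x : (X.M c).M) :
    Coh2_f g X c x = tm (M := (ss g.cone).M c) (N := sl g (X.M m)) (Coh2_u g c)
      (slt g (X.M m) 1 ((X.ρ h).f x)) := by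
  unfold Coh2_f
  rw [dif_pos h]
  rfl

private theorem Coh2_f_l (c : Ch i) (a : A.A c) (x : (X.M c).M) :
    Coh2_f g X c ((X.M c).l a x) =
      (tb ((ss g.cone).M c) (sl g (X.M m))).l a (Coh2_f g X c x) := by
  by_cases h : c ≤ m
  · rw [Coh2_f_pos g X h, Coh2_f_pos g X h]
    refine Eq.trans ?_ (tb_l (M := (ss g.cone).M c) (N := sl g (X.M m)) a _ _).symm
    rw [Coh2_u_l g h]
    refine Eq.trans ?_ (tm_r_l (M := (ss g.cone).M c) (N := sl g (X.M m)) _ _ _).symm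
    refine congrArg (tm (M := (ss g.cone).M c) (N := sl g (X.M m)) (Coh2_u g c)) ?_
    have h1 : (X.ρ h).f ((X.M c).l a x) = (X.M m).l (A.res h a) ((X.ρ h).f x) :=
      gm_l (X.ρ h) a x
    rw [h1]
    refine Eq.trans ?_ (slt_l g (X.M m) _ _ _).symm
    refine (slt_r g (X.M m) 1 (A.res h a) ((X.ρ h).f x)).symm.trans ?_
    refine congrArg (fun t : g.S => slt g (X.M m) t ((X.ρ h).f x)) ?_
    rw [mul_one, one_mul]
  · exact (Coh2_tzero g h _).trans (Coh2_tzero g h _).symm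

private theorem Coh2_f_r (c : Ch i) (w : W.A) (x : (X.M c).M) :
    Coh2_f g X c ((X.M c).r w x) =
      (tb ((ss g.cone).M c) (sl g (X.M m))).r w (Coh2_f g X c x) := by
  by_cases h : c ≤ m
  · rw [Coh2_f_pos g X h, Coh2_f_pos g X h]
    refine Eq.trans ?_ (tb_r (M := (ss g.cone).M c) (N := sl g (X.M m)) w _ _).symm
    refine congrArg (tm (M := (ss g.cone).M c) (N := sl g (X.M m)) (Coh2_u g c)) ?_
    have h1 : (X.ρ h).f ((X.M c).r w x) = (X.M m).r w ((X.ρ h).f x) := gm_r (X.ρ h) w x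
    rw [h1]
    exact (tb_r (M := Sb g) (N := X.M m) w (1 : g.S) _).symm
  · exact (Coh2_tzero g h _).trans (Coh2_tzero g h _).symm

private theorem Coh2_f_deg (c : Ch i) {n : ℤ} {x : (X.M c).M} (hx : (X.M c).dg.IsDeg n x) :
    (tb ((ss g.cone).M c) (sl g (X.M m))).dg.IsDeg (n + 0) (Coh2_f g X c x) := by
  by_cases h : c ≤ m
  · rw [Coh2_f_pos g X h]
    have h1 : (X.M m).dg.IsDeg (n + 0) ((X.ρ h).f x) := (X.ρ h).deg hx
    have h2 : (sl g (X.M m)).dg.IsDeg (n + 0 + 0) (slt g (X.M m) 1 ((X.ρ h).f x)) :=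
      (sli g (X.M m)).deg h1
    have h3 := tb_deg (M := (ss g.cone).M c) (N := sl g (X.M m)) (Coh2_u_deg g c) h2
    rw [zero_add, add_zero] at h3
    exact h3
  · rw [Coh2_tzero g h (Coh2_f g X c x)]
    exact Dg.IsDeg.zero _

private theorem Coh2_f_d (c : Ch i) (x : (X.M c).M) :
    (tb ((ss g.cone).M c) (sl g (X.M m))).dg.d (Coh2_f g X c x) =
      Coh2_f g X c ((X.M c).dg.d x) := by
  by_cases h : c ≤ m
  · rw [Coh2_f_pos g X h, Coh2_f_pos g X h]
    refine (tb_d (M := (ss g.cone).M c) (N := sl g (X.M m)) _ _).trans ?_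
    rw [Coh2_u_d, Coh2_u_s, sl_d]
    have h1 : (X.ρ h).f ((X.M c).dg.d x) = (X.M m).dg.d ((X.ρ h).f x) :=
      (gm_d (X.dd h) x).symm
    rw [h1]
    refine Eq.trans (congrArg (· + _) (tm_zero_left (M := (ss g.cone).M c)
      (N := sl g (X.M m)) _)) ?_
    exact zero_add _
  · exact (Coh2_tzero g h _).trans (Coh2_tzero g h _).symm

/-- the morphism -/
private def Coh2_h : PBH X (PB.tbR (ss g.cone) (sl g (X.M m))) where
  f := fun c =>
    { f := Coh2_f g X c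
      deg := fun {n x} hx => Coh2_f_deg g X c hx
      map_l := fun a x => by
        rw [Dg.sp_zero]
        exact Coh2_f_l g X c a x
      map_r := fun w x => Coh2_f_r g X c w x }
  dd := fun c => by
    refine LinearMap.ext fun x => ?_
    rw [GMap.dd_apply, sg_zero, one_smul, LinearMap.zero_apply, sub_eq_zero]
    exact Coh2_f_d g X c x
  nat := fun {c d} h x => by
    by_cases hd : d ≤ m
    · have hc : c ≤ m := h.trans hd
      change ((PB.tbR (ss g.cone) (sl g (X.M m))).ρ h).f (Coh2_f g X c x) =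
        Coh2_f g X d ((X.ρ h).f x)
      rw [Coh2_f_pos g X hc, Coh2_f_pos g X hd]
      refine (PB.tbR_ρ (ss g.cone) (sl g (X.M m)) h _ _).trans ?_
      rw [Coh2_u_ρ, X.ρ_ρ h hd]
    · exact (Coh2_tzero g hd _).trans (Coh2_tzero g hd _).symm

variable {X}

/-- the inverse of `z ↦ 1 ⊗ z` at `m` -/
private def Coh2_inv (Z : Bim (ring k g.S) W) : (tb ((ss g.cone).M m) Z).M →ₗ[k] Z.M :=
  tlift (M := (ss g.cone).M m) (N := Z)
    (Z.l ∘ₗ (show ((ss g.cone).M m).M →ₗ[k] g.S from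
      { toFun := fun v => (show PLift (g.cone.D m) → g.S from v) ⟨le_refl m⟩
        map_add' := fun _ _ => rfl
        map_smul' := fun _ _ => rfl }))
    (fun v t z => Z.l_mul ((show PLift (g.cone.D m) → g.S from v) ⟨le_refl m⟩) t z)

private theorem Coh2_inv_u (Z : Bim (ring k g.S) W) (z : Z.M) :
    Coh2_inv g Z (tm (M := (ss g.cone).M m) (N := Z) (Coh2_u g m) z) = z := by
  unfold Coh2_inv
  refine (tlift_tm (M := (ss g.cone).M m) (N := Z) _ _ _ z).trans ?_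
  exact Z.l_one z

private theorem Coh2_surj (Z : Bim (ring k g.S) W) (y : (tb ((ss g.cone).M m) Z).M) :
    ∃ z : Z.M, y = tm (M := (ss g.cone).M m) (N := Z) (Coh2_u g m) z := by
  refine tb_ind (M := (ss g.cone).M m) (N := Z)
    (P := fun y => ∃ z : Z.M, y = tm (M := (ss g.cone).M m) (N := Z) (Coh2_u g m) z)
    ⟨0, (tm_zero_right (M := (ss g.cone).M m) (N := Z) _).symm⟩ ?_ ?_ y
  · rintro _ _ ⟨z, rfl⟩ ⟨z', rfl⟩
    exact ⟨z + z', (tm_add_right (M := (ss g.cone).M m) (N := Z) _ z z').symm⟩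
  · intro v z
    refine ⟨Z.l ((show PLift (g.cone.D m) → g.S from v) ⟨le_refl m⟩) z, ?_⟩
    refine Eq.trans ?_ (tm_r_l (M := (ss g.cone).M m) (N := Z) (Coh2_u g m)
      ((show PLift (g.cone.D m) → g.S from v) ⟨le_refl m⟩) z)
    refine congrArg (fun w => tm (M := (ss g.cone).M m) (N := Z) w z) ?_
    refine funext fun h' => ?_
    change (show PLift (g.cone.D m) → g.S from v) h' = 1 *
      (show PLift (g.cone.D m) → g.S from v) ⟨le_refl m⟩
    rw [one_mul]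

end coh2aux

/-- Coh2a. The morphism of a presheaf `X` to `ss ⊗ (S ⊗ X_m)`: for `c ≤ m` it is
`x ↦ 1 ⊗ (1 ⊗ res x)`, for the other `c` the value of `ss` is zero. At `m` it is a localisation at
the functions in `sgR hR`, if `X` is killed by `ann E`.
PROOF. `locS_sli_of_kill` and the isomorphism `ss_m = S` (`ssI`, `ssI_bij`, WW/Ss). -/
theorem exists_ssm (hR : Red E m) {W : DGA k} {X : PB A.pa (PA.con i W)}
    (kX : KlX (ann E) X) :
    ∃ f : PBH X (PB.tbR (ss hR.gd.cone) (sl hR.gd (X.M m))),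
      LocS (V := (X.M m).M) (V' := ((PB.tbR (ss hR.gd.cone) (sl hR.gd (X.M m))).M m).M)
        (f.f m).f
        (fun s : sgR hR => (X.M m).l (algebraMap (RR k m.1) (A.A m) s.1))
        (fun s : sgR hR => ((PB.tbR (ss hR.gd.cone) (sl hR.gd (X.M m))).M m).l
          (algebraMap (RR k m.1) (A.A m) s.1)) := by
  have hk : ∀ a, hR.gd.psi a = 0 → ∀ x : (X.M m).M, (X.M m).l a x = 0 := fun a ha x =>
    kX m a ((hR.gd_psi a).1 ha) x
  have hL := locS_sli_of_kill hR.gd (X.M m) hk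
  refine ⟨Coh2_h hR.gd X, ?_⟩
  have hf : ∀ x : (X.M m).M, ((Coh2_h hR.gd X).f m).f x =
      tm (M := (ss hR.gd.cone).M m) (N := sl hR.gd (X.M m)) (Coh2_u hR.gd m)
        (slt hR.gd (X.M m) 1 x) := fun x => by
    refine (Coh2_f_pos hR.gd X (le_refl m) x).trans ?_
    rw [X.ρ_id]
  refine ⟨fun s t x => ?_, fun s t x => ?_, fun s x => ?_, fun y => ?_, fun x hx => ?_⟩
  · rw [Submonoid.coe_mul, map_mul]
    exact (X.M m).l_mul _ _ x
  · rw [Submonoid.coe_mul, map_mul]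
    exact ((PB.tbR (ss hR.gd.cone) (sl hR.gd (X.M m))).M m).l_mul _ _ x
  · exact Coh2_f_l hR.gd X m _ x
  · obtain ⟨z, rfl⟩ := Coh2_surj hR.gd (sl hR.gd (X.M m)) y
    obtain ⟨s, x, hx⟩ := hL.surj z
    refine ⟨⟨s.1, (hR.gd_fn s.1).1 s.2⟩, x, ?_⟩
    refine (hf x).trans ?_
    refine Eq.trans ?_ (tb_l (M := (ss hR.gd.cone).M m) (N := sl hR.gd (X.M m)) _ _ z).symm
    have h1 : slt hR.gd (X.M m) 1 x = (sl hR.gd (X.M m)).l (hR.gd.fn s.1) z := hx
    rw [h1, Coh2_u_l hR.gd (le_refl m)]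
    refine Eq.trans ?_ (tm_r_l (M := (ss hR.gd.cone).M m) (N := sl hR.gd (X.M m)) _ _ z).symm
    rw [A.res_id]
    rfl
  · have h1 := congrArg (Coh2_inv hR.gd (sl hR.gd (X.M m))) ((hf x).symm.trans hx)
    have h2 : slt hR.gd (X.M m) 1 x = 0 :=
      ((Coh2_inv_u hR.gd (sl hR.gd (X.M m)) _).symm.trans h1).trans
        (map_zero (Coh2_inv hR.gd (sl hR.gd (X.M m))))
    obtain ⟨s, hs⟩ := hL.inj x h2
    exact ⟨⟨s.1, (hR.gd_fn s.1).1 s.2⟩, hs⟩

variable {V : Type*} [AddCommGroup V] [Module ℚ V]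

variable {hR : Red E m} {cl : AddFn (S := bs A A') Sh.Coh V}
  {ql : K0Q (TT A) (TT A') →ₗ[ℚ] V}
  (hL : LOC A) (hN : (bs A A').Noe) (ih : ∀ F : BS A A', F.Coh → ann E < ann F → cl.cl F = 0)
  (hRes : ∀ Z : BS A A', Z.Coh → HasRes Z.bp.BB)
  (hq : ∀ (Z : BS A A') (h : Z.Coh), cl.cl Z = ql (rcls Z.bp.BB (hRes Z h)))
  (hA : Smooth (TT A)) (hA' : Smooth (TT A')) (hg : GI hR.gd)

include hL hN ih hq hA' in
/-- Coh2b. The value of `Gm` at the composition of the class of the point with the class of a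
coherent bisheaf `F` with `ann E ≤ ann F` is the class of `F`.
PROOF. Let `X = XF F.bp`, `kX = (kl_bp hF').XF`. `p2_coh` gives `h : HasRes (sl hR.gd (X.M m))` and
the composition is `rcls _ h = cls P hP`, `γ : P → sl hR.gd (X.M m)` a quasi-isomorphism.
`CP.of_coh` gives `CP hR cl ql.toAddMonoidHom (pT A') X (rcls F.bp.BB _)`; `CP.iff_locS` with
`exists_ssm` gives it for `PB.tbR (ss ..) (sl hR.gd (X.M m))`, `CP.iff_tbR` with `γ`
(`ss_flat_gd`) for `PB.tbR (ss ..) P`, and `CP.eval` with `w = K0Q.one hA'` (`K0Q.comp_one`) gives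
`Gm (cls P hP) = ql (rcls F.bp.BB _) = cl.cl F`. Compare `ke_of` (WW/K4). -/
theorem coh2 {Gm : K0Q (ring k hR.gd.S) (TT A') →ₗ[ℚ] V}
    (hGm : ∀ (M : Bim (ring k hR.gd.S) (TT A')) (hM : Perf M),
      Gm (cls M hM) = chi hR cl (BPB.cmp (ss hR.gd.cone) M (YY A')))
    {F : BS A A'} (hF : F.Coh) (hF' : ann E ≤ ann F) :
    Gm (K0Q.comp (pT A) (xg hR.gd hg hA) (rcls F.bp.BB (hRes F hF))) = cl.cl F := by
  obtain ⟨h, e0⟩ := p2_coh hL hA hA' hg hF (hRes F hF)
  have kX : KlX (ann E) (XF F.bp) := (kl_bp hF').XF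
  have hX : QCl (XF F.bp) := qcl_push2 (Sh.bp_qc F) _ _
  have e1 : CP hR cl ql.toAddMonoidHom (pT A') (XF F.bp) (rcls F.bp.BB (hRes F hF)) :=
    CP.of_coh hN ih ql.toAddMonoidHom hRes hq hA hA' (pT A') hF hF' _
  obtain ⟨f, hf⟩ := exists_ssm hR kX
  have hs : QCl (ss hR.gd.cone) := ss_qcl hR.gd.cone
  have ks : KlX (ann E) (ss hR.gd.cone) := ss_klx hR
  have e2 : CP hR cl ql.toAddMonoidHom (pT A') (PB.tbR (ss hR.gd.cone)
      (sl hR.gd ((XF F.bp).M m))) (rcls F.bp.BB (hRes F hF)) :=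
    (CP.iff_locS hN ih hX (qcl_tbR hs _) kX (ks.tbR _) hf).1 e1
  obtain ⟨P, γ, hP, hγ⟩ : ∃ (P : Bim (ring k hR.gd.S) (TT A'))
    (γ : GMap 0 P (sl hR.gd ((XF F.bp).M m))), Perf P ∧ QIso γ := id h
  have e3 := (CP.iff_tbR hN ih hs ks (ss_flat_gd hR) hγ).2 e2
  have e4 := CP.eval hN ih hs ks hGm hP e3 (K0Q.one hA')
  rw [K0Q.comp_one hA' (pT A'), K0Q.comp_one hA' (pT A')] at e4
  have e5 : rcls (sl hR.gd ((XF F.bp).M m)) h = cls P hP := rcls_eq h hP γ hγ
  exact (congrArg Gm (e0.trans e5)).trans (e4.trans (hq F hF).symm)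

end Pool.Agent.MP_6e5bed_ag_BI
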