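import Pool.Agent.Lib.MP_6e5bed_ag_BI.Pts

set_option autoImplicit false
set_option linter.unusedVariables false

/-!
# MP_6e5bed_ag, THEOREM T, section 10: isolated points and reduced bisheaves
-/

noncomputable section

namespace Pool.Agent.MP_6e5bed_ag_BI

open Pool.Agent.MP_6e5bed_ag_NC Pool.Agent.MP_6e5bed_ag_GG Pool.Agent.MP_6e5bed_ag_WW
open Pool.Agent.MP_6e5bed_ag_PN hiding Ch
open Pool.Agent.MP_6e5bed_ag_PS (SPJ)
open Pool.Agent.MP_6e5bed_ag_GP (LV)

universe u

variable {k : Type u} [Field k] {i : Type} [Fintype i] {A : CA k i}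

/-- The annihilator of a reduced bisheaf is determined by its value at `m`. -/
private theorem Dis_mem {E : BS A A} {m : Ch i} (hR : Red E m) {c : Ch i} (h : c ≤ m)
    {a : A.A c} : a ∈ ann E c ↔ A.res h a ∈ ann E m := by
  refine ⟨fun ha => ann_res h ha, fun ha => ?_⟩
  rw [mem_ann]
  intro c' e
  refine hR.inj c c' h _ ?_
  rw [E.res_lo]
  exact ha c' _

/-- Off the chart everything is in the annihilator. -/
private theorem Dis_off {E : BS A A} {m : Ch i} (hR : Red E m) {c : Ch i} (h : ¬ c ≤ m)
    (a : A.A c) : a ∈ ann E c := by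
  rw [mem_ann]
  intro c' e
  exact hR.z c c' h _

/-- Pts4. An isolated point `g` which is in the support of a reduced bisheaf is its generic
point.
PROOF. Suppose `psi_g` is zero on `ann E m'`. If `m' ≤ m` fails, `1 ∈ ann E m'` (`hR.z`),
contradiction. So `m' ≤ m`, and `ann E m'` is the set of the `a` with `res a ∈ ann E m` (`hR.inj`,
`Red.gd_psi`). Let `c` be as in `GI g`, `P = ker psi_g`. For `x ∈ P` and all `z ∈ A_{m'}`
`c z x = 0`; every element of `A_m` is `res z / res t` with a product `t` of functions `tt`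
(`A.qc` or the like: `A_m` is a localisation of `A_{m'}`), so `psi(res c) y psi(res x) = 0` for all
`y` in `S_E`, and `psi(res c) = 0` or `psi(res x) = 0` (`hR.gd.pr`); the first is impossible,
`c ∈ ann E m'` gives `psi_g c = 0`. So `P = ann E m'`. If `m' ≠ m`, take `l ∈ m`, `l ∉ m'`,
`g0 ∈ m'`: `tt l g0 ∈ P` (`g.zero`), but it is a unit in `A_m`. -/
theorem dis {E : BS A A} {m : Ch i} (hR : Red E m) {m' : Ch i} (g : GD A m') (hg : GI g)
    (h : ¬ SameK hR.gd g) : ∃ a ∈ ann E m', g.psi a ≠ 0 := by
  by_contra hcon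
  have h1 : ∀ a ∈ ann E m', g.psi a = 0 := fun a ha => by
    by_contra h2
    exact hcon ⟨a, ha, h2⟩
  have hle : m' ≤ m := by
    by_contra hc
    have h2 := h1 1 (Dis_off hR hc 1)
    rw [map_one] at h2
    exact g.ne h2
  obtain ⟨c, hc, hc'⟩ := hg
  have hcE : A.res hle c ∉ ann E m := fun h2 => hc (h1 c ((Dis_mem hR hle).2 h2))
  -- the kernel of `psi` is the annihilator
  have h3 : ∀ x : A.A m', g.psi x = 0 → x ∈ ann E m' := by
    intro x hx
    have h4 : ∀ y : A.A m, A.res hle c * y * A.res hle x ∈ ann E m := by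
      intro y
      obtain ⟨u, z, hu, hz⟩ := A.gen hle y
      have h5 : c * (z * x) = 0 := (hc' (z * x) (by rw [map_mul, hx, mul_zero])).1
      have h6 : u • (A.res hle c * y * A.res hle x) = 0 := by
        have h7 := congrArg (A.res hle) h5
        rw [map_mul, map_mul, map_zero, hz, smul_mul_assoc, mul_smul_comm, ← mul_assoc] at h7
        exact h7
      have h8 : A.res hle c * y * A.res hle x = 0 := by
        obtain ⟨v, hv⟩ := hu.exists_left_inv
        have h9 := congrArg (fun w => v • w) h6
        simp only [smul_zero] at h9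
        rwa [← mul_smul, hv, one_smul] at h9
      rw [h8]
      exact (ann E m).zero_mem
    rcases hR.pr _ _ h4 with h5 | h5
    · exact absurd h5 hcE
    · exact (Dis_mem hR hle).2 h5
  have hme : m = m' := by
    refine le_antisymm ?_ hle
    intro l hl
    by_contra hlm
    obtain ⟨g0, hg0⟩ := m'.2.1
    have h4 := h3 _ (g.zero hg0 l hlm)
    have h5 := (Dis_mem hR hle).1 h4
    rw [A.res_R] at h5
    have h6 : IsUnit (rinc (k := k) hle (tt k l hg0)) := by
      have h7 : rinc (k := k) hle (tt k l hg0) = tt k l (hle hg0) := Subtype.ext rfl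
      rw [h7]
      exact tt_unit hl _
    obtain ⟨v, hv⟩ := h6.exists_left_inv
    have h7 := (ann E m).mul_mem_left (algebraMap (RR k m.1) (A.A m) v) h5
    rw [← map_mul, hv, map_one] at h7
    exact hR.one h7
  subst hme
  refine h ⟨rfl, fun d hd hd' a => ?_⟩
  rw [hR.gd_psi]
  exact ⟨fun h4 => h1 _ h4, fun h4 => h3 _ h4⟩

/-- Pts5. The annihilator of a reduced bisheaf is determined by its value at `m`.
PROOF. `hR.z`, `hR.inj`: for `c ≤ m` an element `a` of `A_c` is in `ann E c` iff `res a` is in
`ann E m`; for the other `c` everything is in `ann E c`. `ann F` is compatible with restrictions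
(a lemma `ann_res` or the like in GG). -/
theorem ann_le_of_red {E F : BS A A} {m : Ch i} (hR : Red E m)
    (h : ∀ a ∈ ann F m, a ∈ ann E m) : ann F ≤ ann E := by
  intro c a ha
  by_cases hc : c ≤ m
  · exact (Dis_mem hR hc).2 (h _ (ann_res hc ha))
  · exact Dis_off hR hc a

/-- Pts6. The converse direction: if `F` is reduced at `m` too. -/
theorem ann_le_of_red' {E F : BS A A} {m : Ch i} (hR : Red F m)
    (h : ∀ a ∈ ann E m, a ∈ ann F m) : ann E ≤ ann F := ann_le_of_red hR h

variable {Good : DGA k → Prop} {ι : Type}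

/-- Pts7. A bisheaf with support strictly smaller than that of a reduced bisheaf has all its points
among the good ones.
PROOF. Let `g'` be a point of the support of `F`. If `SameK g' (P.g s)`, then `g'` is isolated and
in the support of `E`, so `SameK hR.gd g'` by `dis`; so `m' = m` and `ann F m` is contained in the
kernel of `psi_{g'}`, which is `ann E m`; `ann_le_of_red` contradicts `ann E < ann F`. -/
theorem lv_of_lt (P : Pts Good A ι) {E F : BS A A} {m : Ch i} (hR : Red E m)
    (h : ann E < ann F) : LV Good F := by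
  intro m' g' hg'
  rcases P.all m' g' with ⟨s, hs⟩ | hX
  · exfalso
    have hgi : GI g' := GI.of_sameK (SameK.symm hs) (P.gi s)
    have hS : SameK hR.gd g' := by
      by_contra hcon
      obtain ⟨a, ha, ha'⟩ := dis hR g' hgi hcon
      exact ha' (hg' a (h.le m' ha))
    refine h.not_ge (ann_le_of_red hR fun a ha => ?_)
    obtain ⟨rfl, hS⟩ := hS
    have h1 := hS m le_rfl le_rfl a
    simp only [A.res_id] at h1
    rw [← hR.gd_psi]
    exact h1.2 (hg' a ha)
  · exact hX

end Pool.Agent.MP_6e5bed_ag_BI
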