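import Mathlib

set_option autoImplicit false
set_option linter.unusedVariables false

/-!
# MP_6e5bed_ag, THEOREM T: corners of simple algebras
-/

noncomputable section

namespace Pool.Agent.MP_6e5bed_ag_BI

universe u

private theorem eCo_sum {Q : Type u} [Ring Q] (hQ : IsSimpleRing Q) {x : Q} (hx : x ≠ 0) :
    ∃ (n : ℕ) (a b : Fin n → Q), ∑ t, a t * x * b t = 1 := by
  have h1 : (1 : Q) ∈ TwoSidedIdeal.span ({x} : Set Q) :=
    IsSimpleRing.one_mem_of_ne_zero_mem _ hx (TwoSidedIdeal.subset_span rfl)
  rw [TwoSidedIdeal.mem_span_iff_mem_addSubgroup_closure] at h1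
  generalize (1 : Q) = z at h1
  induction h1 using AddSubgroup.closure_induction with
  | mem z hz =>
    obtain ⟨w, ⟨a, -, y, hy, rfl⟩, b, -, rfl⟩ := hz
    obtain rfl : y = x := hy
    exact ⟨1, fun _ => a, fun _ => b, by simp⟩
  | zero => exact ⟨0, Fin.elim0, Fin.elim0, by simp⟩
  | add z w _ _ hz hw =>
    obtain ⟨n, a, b, rfl⟩ := hz
    obtain ⟨m, a', b', rfl⟩ := hw
    exact ⟨n + m, Fin.append a a', Fin.append b b', by simp [Fin.sum_univ_add]⟩
  | neg z _ hz =>
    obtain ⟨n, a, b, rfl⟩ := hz
    exact ⟨n, fun t => - a t, b, by simp⟩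

/-- ECo1. Corners: for an idempotent `e ≠ 0` of a simple `F`-algebra `Q` there are a simple
`F`-algebra `Q0` and an injective additive map `j : Q0 → Q` with the image `e Q e`, which respects
products and scalars, `j 1 = e`, and the centres of `Q0` and `Q` are isomorphic over `F`.
PROOF. `Q0` is the corner `e Q e` (Mathlib: `IsIdempotentElem.Corner`, or the subtype of the
`x` with `e x e = x`). Simple: if `I` is a two-sided ideal of `e Q e`, then `Q I Q` is an ideal of `Q` and
`e Q I Q e = I`. The centre: `z ↦ e z`; injective: `Q e Q = Q`; surjective: for `c` in the centre of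
`e Q e`, write `1 = ∑ a_t e b_t` and put `z = ∑ a_t c b_t`; for `x ∈ Q`,
`x z = ∑ x a_t c b_t = ∑∑ a_s e b_s x a_t c b_t = ∑∑ a_s c b_s x a_t e b_t = z x` and `e z = c`. -/
theorem exists_corner {F Q : Type u} [Field F] [Ring Q] [Algebra F Q] (hQ : IsSimpleRing Q)
    {e : Q} (he : e * e = e) (h0 : e ≠ 0) :
    ∃ (Q0 : Type u) (_ : Ring Q0) (_ : Algebra F Q0) (j : Q0 →ₗ[F] Q), IsSimpleRing Q0 ∧
      Function.Injective j ∧ (∀ x, (∃ y, j y = x) ↔ e * x * e = x) ∧
      (∀ x y, j (x * y) = j x * j y) ∧ j 1 = e ∧
      ∃ c : Subalgebra.center F Q0 ≃+* Subalgebra.center F Q,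
        ∀ s : F, c (algebraMap F _ s) = algebraMap F _ s := by
  have hi : IsIdempotentElem e := he
  have hm : ∀ x : Q, x ∈ Subsemigroup.corner e ↔ e * x = x ∧ x * e = x := fun x =>
    Subsemigroup.mem_corner_iff hi
  have hl : ∀ x : hi.Corner, e * x.1 = x.1 := fun x => ((hm _).1 x.2).1
  have hr : ∀ x : hi.Corner, x.1 * e = x.1 := fun x => ((hm _).1 x.2).2
  have hin : ∀ x : Q, e * x * e ∈ Subsemigroup.corner e := fun x => ⟨x, rfl⟩
  have hsm : ∀ (r : F) (x : hi.Corner), r • x.1 ∈ Subsemigroup.corner e := fun r x =>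
    (hm _).2 ⟨by rw [mul_smul_comm, hl], by rw [smul_mul_assoc, hr]⟩
  have hse : ∀ r : F, r • e ∈ Subsemigroup.corner e := fun r =>
    (hm _).2 ⟨by rw [mul_smul_comm, he], by rw [smul_mul_assoc, he]⟩
  let f : F →+* hi.Corner :=
    { toFun := fun r => ⟨r • e, hse r⟩
      map_one' := Subtype.ext (one_smul F e)
      map_mul' := fun r s => Subtype.ext (by
        change (r * s) • e = (r • e) * (s • e)
        rw [smul_mul_smul_comm, he])
      map_zero' := Subtype.ext (zero_smul F e)
      map_add' := fun r s => Subtype.ext (add_smul r s e) }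
  let k : Q → hi.Corner := fun x => ⟨e * x * e, hin x⟩
  let al : Algebra F hi.Corner :=
    { smul := fun r x => ⟨r • x.1, hsm r x⟩
      algebraMap := f
      commutes' := fun r x => Subtype.ext (by
        change (r • e) * x.1 = x.1 * (r • e)
        rw [smul_mul_assoc, mul_smul_comm, hl, hr])
      smul_def' := fun r x => Subtype.ext (by
        change r • x.1 = (r • e) * x.1
        rw [smul_mul_assoc, hl]) }
  let j : hi.Corner →ₗ[F] Q :=
    { toFun := fun x => x.1
      map_add' := fun _ _ => rfl
      map_smul' := fun _ _ => rfl }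
  have hne : (1 : hi.Corner) ≠ 0 := fun h => h0 (congrArg Subtype.val h)
  refine ⟨hi.Corner, inferInstance, al, j, ?_, fun x y h => Subtype.ext h, fun x => ?_,
    fun _ _ => rfl, rfl, ?_⟩
  · have : Nontrivial hi.Corner := ⟨⟨1, 0, hne⟩⟩
    refine IsSimpleRing.of_eq_bot_or_eq_top fun I => ?_
    rw [or_iff_not_imp_left]
    intro hI
    rw [← I.one_mem_iff]
    obtain ⟨y, hy, hy0⟩ := SetLike.exists_of_lt (bot_lt_iff_ne_bot.2 hI)
    have hy1 : y.1 ≠ 0 := fun h => hy0 (by
      have : y = 0 := Subtype.ext h
      rw [this]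
      exact zero_mem _)
    obtain ⟨n, a, b, hab⟩ := eCo_sum hQ hy1
    have h1 : (1 : hi.Corner) = ∑ t, k (a t) * y * k (b t) := by
      apply Subtype.ext
      change e = j (∑ t, k (a t) * y * k (b t))
      rw [map_sum]
      calc e = e * (∑ t, a t * y.1 * b t) * e := by rw [hab, mul_one, he]
        _ = ∑ t, e * (a t * y.1 * b t) * e := by rw [Finset.mul_sum, Finset.sum_mul]
        _ = _ := Finset.sum_congr rfl fun t _ => by
          change e * (a t * y.1 * b t) * e = (e * a t * e) * y.1 * (e * b t * e)
          simp only [mul_assoc]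
          rw [← mul_assoc e y.1, hl, ← mul_assoc y.1 e, hr]
    rw [h1]
    exact sum_mem fun t _ => I.mul_mem_right _ _ (I.mul_mem_left _ _ hy)
  · constructor
    · rintro ⟨y, rfl⟩
      change e * y.1 * e = y.1
      rw [hl, hr]
    · intro h
      exact ⟨⟨x, x, h⟩, rfl⟩
  · obtain ⟨n, a, b, hab⟩ := eCo_sum hQ h0
    have hc : ∀ z : Subalgebra.center F Q, ∀ x : Q, x * z.1 = z.1 * x := fun z x =>
      (Subalgebra.mem_center_iff.1 z.2 x)
    have hz : ∀ z : Subalgebra.center F Q, e * z.1 ∈ Subsemigroup.corner e := fun z =>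
      (hm _).2 ⟨by rw [← mul_assoc, he], by rw [mul_assoc, ← hc z, ← mul_assoc, he]⟩
    let φ : Subalgebra.center F Q →+* Subalgebra.center F hi.Corner :=
      { toFun := fun z => ⟨⟨e * z.1, hz z⟩, Subalgebra.mem_center_iff.2 fun x => Subtype.ext (by
          change x.1 * (e * z.1) = (e * z.1) * x.1
          rw [← mul_assoc, hr, hc z, mul_assoc, ← hc z, ← mul_assoc, hl, hc z])⟩
        map_one' := Subtype.ext (Subtype.ext (mul_one e))
        map_mul' := fun z w => Subtype.ext (Subtype.ext (by
          change e * (z.1 * w.1) = (e * z.1) * (e * w.1)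
          rw [mul_assoc e z.1, ← mul_assoc z.1 e, ← hc z e, mul_assoc e z.1, ← mul_assoc e e, he]))
        map_zero' := Subtype.ext (Subtype.ext (mul_zero e))
        map_add' := fun z w => Subtype.ext (Subtype.ext (mul_add e z.1 w.1)) }
    have hφ : Function.Bijective φ := by
      constructor
      · rw [injective_iff_map_eq_zero]
        intro z h
        have h2 : e * z.1 = 0 := congrArg (fun w => w.1.1) h
        apply Subtype.ext
        calc z.1 = (∑ t, a t * e * b t) * z.1 := by rw [hab, one_mul]
          _ = ∑ t, a t * (e * z.1) * b t := by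
            rw [Finset.sum_mul]
            exact Finset.sum_congr rfl fun t _ => by
              rw [mul_assoc, hc z (b t), ← mul_assoc, mul_assoc (a t)]
          _ = 0 := by simp [h2]
      · intro c
        have hcc : ∀ w : Q, c.1.1 * w * e = e * w * c.1.1 := fun w => by
          have h3 : k w * c.1 = c.1 * k w := Subalgebra.mem_center_iff.1 c.2 _
          have h4 : e * w * e * c.1.1 = c.1.1 * (e * w * e) := congrArg Subtype.val h3
          rw [mul_assoc (e * w), hl, ← mul_assoc, ← mul_assoc, hr] at h4
          exact h4.symm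
        have hz1 : ∀ x : Q, x * (∑ t, a t * c.1.1 * b t) = (∑ t, a t * c.1.1 * b t) * x := by
          intro x
          calc x * (∑ t, a t * c.1.1 * b t)
              = (∑ s, a s * e * b s) * x * (∑ t, a t * c.1.1 * b t) := by rw [hab, one_mul]
            _ = ∑ s, ∑ t, a s * e * b s * x * (a t * c.1.1 * b t) := by
              simp only [Finset.sum_mul, Finset.mul_sum]
              rw [Finset.sum_comm]
            _ = ∑ s, ∑ t, a s * c.1.1 * b s * x * (a t * e * b t) := by
              refine Finset.sum_congr rfl fun s _ => Finset.sum_congr rfl fun t _ => ?_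
              have h5 := hcc (b s * x * a t)
              calc a s * e * b s * x * (a t * c.1.1 * b t)
                  = a s * (e * (b s * x * a t) * c.1.1) * b t := by simp only [mul_assoc]
                _ = a s * (c.1.1 * (b s * x * a t) * e) * b t := by rw [h5]
                _ = _ := by simp only [mul_assoc]
            _ = (∑ s, a s * c.1.1 * b s) * x * (∑ t, a t * e * b t) := by
              simp only [Finset.sum_mul, Finset.mul_sum]
              rw [Finset.sum_comm]
            _ = _ := by rw [hab, mul_one]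
        refine ⟨⟨∑ t, a t * c.1.1 * b t, Subalgebra.mem_center_iff.2 hz1⟩, ?_⟩
        apply Subtype.ext
        apply Subtype.ext
        change e * (∑ t, a t * c.1.1 * b t) = c.1.1
        calc e * (∑ t, a t * c.1.1 * b t)
            = ∑ t, e * a t * c.1.1 * b t := by
              rw [Finset.mul_sum]
              exact Finset.sum_congr rfl fun t _ => by simp only [mul_assoc]
          _ = ∑ t, c.1.1 * (a t * e * b t) := Finset.sum_congr rfl fun t _ => by
              rw [← hcc]
              simp only [mul_assoc]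
          _ = c.1.1 := by rw [← Finset.mul_sum, hab, mul_one]
    refine ⟨(RingEquiv.ofBijective φ hφ).symm, fun s => ?_⟩
    rw [RingEquiv.symm_apply_eq]
    apply Subtype.ext
    apply Subtype.ext
    change s • e = e * algebraMap F Q s
    rw [← Algebra.commutes, Algebra.smul_def]

end Pool.Agent.MP_6e5bed_ag_BI
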