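import Pool.Agent.Lib.MP_6e5bed_ag_GP.VDef

set_option autoImplicit false

/-!
# The graded algebra of endomorphisms of `Γ ⊕ Γ(1) ⊕ … ⊕ Γ(n)` and its simple quotients
(MP_6e5bed_ag)
-/

noncomputable section

namespace Pool.Agent.MP_6e5bed_ag_Pn

open MvPolynomial

universe u v

section

variable {n : ℕ} {k Γ : Type u} [Field k] [Ring Γ] [Algebra k Γ]
  [Algebra (MvPolynomial (Fin (n + 1)) k) Γ]

/-- The part of degree `d` of the graded algebra `Γ`, zero for negative `d`. -/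
def GrZ (𝒢 : ℕ → Submodule k Γ) (d : ℤ) : Submodule k Γ := if 0 ≤ d then 𝒢 d.toNat else ⊥

/-- The homogeneous matrices of degree `d`: the entry in the row `p` and the column `q` has the
degree `d + p - q`. -/
def EndDeg (n : ℕ) (𝒢 : ℕ → Submodule k Γ) (d : ℕ) :
    Submodule k (Matrix (Fin (n + 1)) (Fin (n + 1)) Γ) where
  carrier := {f | ∀ p q : Fin (n + 1), f p q ∈ GrZ 𝒢 ((d : ℤ) + ((p : ℕ) : ℤ) - ((q : ℕ) : ℤ))}
  add_mem' := fun hf hg p q => Submodule.add_mem _ (hf p q) (hg p q)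
  zero_mem' := fun _ _ => Submodule.zero_mem _
  smul_mem' := fun c _ hf p q => Submodule.smul_mem _ c (hf p q)

theorem GrZ_nat (𝒢 : ℕ → Submodule k Γ) (d : ℕ) : GrZ 𝒢 (d : ℤ) = 𝒢 d := by
  unfold GrZ
  rw [if_pos (Int.natCast_nonneg d), Int.toNat_natCast]

theorem GrZ_neg (𝒢 : ℕ → Submodule k Γ) {d : ℤ} (h : d < 0) : GrZ 𝒢 d = ⊥ := by
  unfold GrZ
  rw [if_neg (not_le.2 h)]

theorem GrZ_mul {𝒢 : ℕ → Submodule k Γ} (h : IsGr n 𝒢) {d e : ℤ} {x y : Γ} (hx : x ∈ GrZ 𝒢 d)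
    (hy : y ∈ GrZ 𝒢 e) : x * y ∈ GrZ 𝒢 (d + e) := by
  rcases lt_or_ge d 0 with hd | hd
  · rw [GrZ_neg 𝒢 hd, Submodule.mem_bot] at hx
    rw [hx, zero_mul]
    exact Submodule.zero_mem _
  rcases lt_or_ge e 0 with he | he
  · rw [GrZ_neg 𝒢 he, Submodule.mem_bot] at hy
    rw [hy, mul_zero]
    exact Submodule.zero_mem _
  obtain ⟨d, rfl⟩ := Int.eq_ofNat_of_zero_le hd
  obtain ⟨e, rfl⟩ := Int.eq_ofNat_of_zero_le he
  rw [GrZ_nat] at hx hy
  have h1 := h.mul d e x y hx hy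
  rw [← Nat.cast_add, GrZ_nat]
  exact h1

theorem EndDeg_one {𝒢 : ℕ → Submodule k Γ} (h : IsGr n 𝒢) :
    (1 : Matrix (Fin (n + 1)) (Fin (n + 1)) Γ) ∈ EndDeg n 𝒢 0 := by
  intro p q
  rw [Matrix.one_apply]
  split_ifs with hpq
  · subst hpq
    have h1 : ((0 : ℕ) : ℤ) + ((p : ℕ) : ℤ) - ((p : ℕ) : ℤ) = ((0 : ℕ) : ℤ) := by omega
    rw [h1, GrZ_nat]
    exact h.one
  · exact Submodule.zero_mem _

theorem EndDeg_mul {𝒢 : ℕ → Submodule k Γ} (h : IsGr n 𝒢) {d e : ℕ}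
    {f g : Matrix (Fin (n + 1)) (Fin (n + 1)) Γ} (hf : f ∈ EndDeg n 𝒢 d)
    (hg : g ∈ EndDeg n 𝒢 e) : f * g ∈ EndDeg n 𝒢 (d + e) := by
  intro p q
  rw [Matrix.mul_apply]
  refine Submodule.sum_mem _ fun s _ => ?_
  have h1 := GrZ_mul h (hf p s) (hg s q)
  have h2 : ((d : ℤ) + ((p : ℕ) : ℤ) - ((s : ℕ) : ℤ)) + ((e : ℤ) + ((s : ℕ) : ℤ) -
      ((q : ℕ) : ℤ)) = ((d + e : ℕ) : ℤ) + ((p : ℕ) : ℤ) - ((q : ℕ) : ℤ) := by
    push_cast
    ring
  rw [h2] at h1
  exact h1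

theorem EndDeg_sum_mul {𝒢 : ℕ → Submodule k Γ} (h : IsGr n 𝒢)
    (f g : Matrix (Fin (n + 1)) (Fin (n + 1)) Γ) (hf : f ∈ ⨆ d, EndDeg n 𝒢 d)
    (hg : g ∈ ⨆ d, EndDeg n 𝒢 d) : f * g ∈ ⨆ d, EndDeg n 𝒢 d := by
  induction hf using Submodule.iSup_induction' with
  | mem d x hx =>
    induction hg using Submodule.iSup_induction' with
    | mem e y hy => exact Submodule.mem_iSup_of_mem (d + e) (EndDeg_mul h hx hy)
    | zero => rw [mul_zero]; exact Submodule.zero_mem _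
    | add a b _ _ ha hb => rw [mul_add]; exact Submodule.add_mem _ ha hb
  | zero => rw [zero_mul]; exact Submodule.zero_mem _
  | add a b _ _ ha hb => rw [add_mul]; exact Submodule.add_mem _ ha hb

/-- The algebra of endomorphisms of `Γ ⊕ Γ(1) ⊕ … ⊕ Γ(n)`: the sums of homogeneous matrices. -/
def EndG {𝒢 : ℕ → Submodule k Γ} (h : IsGr n 𝒢) :
    Subalgebra k (Matrix (Fin (n + 1)) (Fin (n + 1)) Γ) :=
  (⨆ d, EndDeg n 𝒢 d).toSubalgebra (Submodule.mem_iSup_of_mem 0 (EndDeg_one h))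
    (fun f g hf hg => EndDeg_sum_mul h f g hf hg)

theorem mem_EndG {𝒢 : ℕ → Submodule k Γ} (h : IsGr n 𝒢)
    {f : Matrix (Fin (n + 1)) (Fin (n + 1)) Γ} : f ∈ EndG h ↔ f ∈ ⨆ d, EndDeg n 𝒢 d := Iff.rfl

/-- the homogeneous elements of degree `d` of the algebra of endomorphisms -/
def EndGr {𝒢 : ℕ → Submodule k Γ} (h : IsGr n 𝒢) (d : ℕ) : Submodule k (EndG h) :=
  (EndDeg n 𝒢 d).comap (EndG h).val.toLinearMap

theorem mem_EndGr {𝒢 : ℕ → Submodule k Γ} (h : IsGr n 𝒢) {d : ℕ} {f : EndG h} :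
    f ∈ EndGr h d ↔ f.1 ∈ EndDeg n 𝒢 d := Iff.rfl

end

section

variable {n : ℕ} {k Γ : Type u} [Field k] [Ring Γ] [Algebra k Γ]
  [Algebra (MvPolynomial (Fin (n + 1)) k) Γ] [IsScalarTower k (MvPolynomial (Fin (n + 1)) k) Γ]

/-- Ea1. The scalar matrices with entries in `k[x_0, …, x_n]` are in the algebra. (Induction on the
polynomial; `x_i` has the degree one.) -/
theorem EndG_poly {𝒢 : ℕ → Submodule k Γ} (h : IsGr n 𝒢) (p : MvPolynomial (Fin (n + 1)) k) :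
    algebraMap (MvPolynomial (Fin (n + 1)) k) (Matrix (Fin (n + 1)) (Fin (n + 1)) Γ) p ∈
      EndG h := by
  induction p using MvPolynomial.induction_on with
  | C c =>
    have h1 : algebraMap (MvPolynomial (Fin (n + 1)) k)
        (Matrix (Fin (n + 1)) (Fin (n + 1)) Γ) (C c) =
        algebraMap k (Matrix (Fin (n + 1)) (Fin (n + 1)) Γ) c := by
      rw [IsScalarTower.algebraMap_apply k (MvPolynomial (Fin (n + 1)) k)
        (Matrix (Fin (n + 1)) (Fin (n + 1)) Γ), MvPolynomial.algebraMap_eq]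
    rw [h1]
    exact (EndG h).algebraMap_mem c
  | add p q hp hq =>
    rw [map_add]
    exact (EndG h).add_mem hp hq
  | mul_X p i hp =>
    rw [map_mul]
    refine (EndG h).mul_mem hp ?_
    rw [mem_EndG]
    refine Submodule.mem_iSup_of_mem 1 ?_
    intro s t
    rw [Matrix.algebraMap_matrix_apply]
    split_ifs with hst
    · subst hst
      have h1 : ((1 : ℕ) : ℤ) + ((s : ℕ) : ℤ) - ((s : ℕ) : ℤ) = ((1 : ℕ) : ℤ) := by omega
      rw [h1, GrZ_nat]
      exact h.var i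
    · exact Submodule.zero_mem _

/-- The polynomials act on the matrices by multiplication of all entries. -/
instance EndG_alg {𝒢 : ℕ → Submodule k Γ} (h : IsGr n 𝒢) :
    Algebra (MvPolynomial (Fin (n + 1)) k) (EndG h) :=
  RingHom.toAlgebra'
    ((algebraMap (MvPolynomial (Fin (n + 1)) k)
      (Matrix (Fin (n + 1)) (Fin (n + 1)) Γ)).codRestrict (EndG h) (EndG_poly h))
    (fun p f => Subtype.ext (Algebra.commutes p f.1))

theorem EndG_algebraMap {𝒢 : ℕ → Submodule k Γ} (h : IsGr n 𝒢)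
    (p : MvPolynomial (Fin (n + 1)) k) :
    ((algebraMap (MvPolynomial (Fin (n + 1)) k) (EndG h) p : EndG h) :
      Matrix (Fin (n + 1)) (Fin (n + 1)) Γ) =
      algebraMap (MvPolynomial (Fin (n + 1)) k) (Matrix (Fin (n + 1)) (Fin (n + 1)) Γ) p := rfl

/-- Ea2. -/
instance EndG_tow {𝒢 : ℕ → Submodule k Γ} (h : IsGr n 𝒢) :
    IsScalarTower k (MvPolynomial (Fin (n + 1)) k) (EndG h) := by
  refine IsScalarTower.of_algebraMap_eq fun x => Subtype.ext ?_
  rw [EndG_algebraMap]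
  exact IsScalarTower.algebraMap_apply k (MvPolynomial (Fin (n + 1)) k)
    (Matrix (Fin (n + 1)) (Fin (n + 1)) Γ) x

end

/-! ### Simple quotients -/

/-- A simple quotient `Q` of the algebra `Γ ⊗ F`, where `a` is a point of the projective space of
dimension `n` over `k` with the residue field `F`. -/
structure SQ (n : ℕ) (k Γ : Type u) [Field k] [Ring Γ] [Algebra (MvPolynomial (Fin (n + 1)) k) Γ] :
    Type (u + 1) where
  F : Type u
  [fld : Field F]
  [algF : Algebra k F]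
  a : Fin (n + 1) → F
  Q : Type u
  [ring : Ring Q]
  [algQ : Algebra F Q]
  π : Γ →+* Q
  pt : IsPoint k a
  quo : IsQuo k a π

attribute [instance] SQ.fld SQ.algF SQ.ring SQ.algQ

section

variable {n : ℕ} {k Γ : Type u} [Field k] [Ring Γ] [Algebra (MvPolynomial (Fin (n + 1)) k) Γ]

/-- the map from `k` to the centre of the simple quotient -/
def SQ.cen (z : SQ n k Γ) : k →+* Subalgebra.center z.F z.Q :=
  (algebraMap z.F (Subalgebra.center z.F z.Q)).comp (algebraMap k z.F)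

variable [Algebra k Γ]

/-- The two simple quotients are the same: the same homogeneous elements of `Γ` are mapped to
zero. -/
def SQ.Same (𝒢 : ℕ → Submodule k Γ) (z z' : SQ n k Γ) : Prop :=
  ∀ d, ∀ x ∈ 𝒢 d, z.π x = 0 ↔ z'.π x = 0

/-- The simple quotient is isolated: there is a homogeneous element which annihilates the kernel
and is not in the kernel. -/
def SQ.Isol (𝒢 : ℕ → Submodule k Γ) (z : SQ n k Γ) : Prop :=
  ∃ d, ∃ c ∈ 𝒢 d, z.π c ≠ 0 ∧ ∀ e, ∀ x ∈ 𝒢 e, z.π x = 0 → c * x = 0 ∧ x * c = 0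

/-- The `P s` are different isolated simple quotients, and the centres of all the other simple
quotients embed over `k` into the fields `M α`, which are finite over them. -/
structure IsoFam (𝒢 : ℕ → Submodule k Γ) {J : Type v} (M : J → Type u) [∀ α, Field (M α)]
    [∀ α, Algebra k (M α)] {ι : Type} (P : ι → SQ n k Γ) : Prop where
  isol : ∀ s, (P s).Isol 𝒢
  ne : ∀ s t, s ≠ t → ¬ (P s).Same 𝒢 (P t)
  all : ∀ z : SQ n k Γ, (∃ s, z.Same 𝒢 (P s)) ∨ InFam M z.cen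

end

end Pool.Agent.MP_6e5bed_ag_Pn
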