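import Pool.Agent.Lib.MP_6e5bed_ag_VT.VSum

set_option autoImplicit false
set_option linter.unusedVariables false
set_option linter.unusedSectionVars false

/-!
# MP_6e5bed_ag, THEOREM T: from the classes to the morphisms of noncommutative motives
-/

noncomputable section

namespace Pool.Agent.MP_6e5bed_ag_Pn

open CategoryTheory MonoidalCategory

universe v w x

/-- The endomorphism `z` of the object `U` is a finite sum of compositions of morphisms through
the objects `V a` and through the unit object. -/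
def Thr {C : Type w} [Category.{v} C] [MonoidalCategory C] [Preadditive C] {J : Type x}
    (V : J → C) {U : C} (z : U ⟶ U) : Prop :=
  ∃ (N N' : ℕ) (a : Fin N → J) (f : ∀ i, U ⟶ V (a i)) (g : ∀ i, V (a i) ⟶ U)
    (f' : Fin N' → (U ⟶ 𝟙_ C)) (g' : Fin N' → (𝟙_ C ⟶ U)),
    z = ∑ i, f i ≫ g i + ∑ i, f' i ≫ g' i

end Pool.Agent.MP_6e5bed_ag_Pn

namespace Pool.Agent.MP_6e5bed_ag_BI

open CategoryTheory MonoidalCategory Pool.Agent.MP_6e5bed_ag Pool.Agent.MP_6e5bed_ag_NC
  Pool.Agent.MP_6e5bed_ag_WW Pool.Agent.MP_6e5bed_ag_VT Pool.Agent.MP_6e5bed_ag_Pn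
open Pool.Agent.MP_6e5bed_ag_SP (DG Rep RA repOf SmPr NCMot smPr_of)

universe u

variable {k : Type u} [Field k]

theorem js_mono {Good Good' : DGA k → Prop} (h : ∀ D, Good D → Good' D) (T : DGA k) :
    JS Good T ≤ JS Good' T := by
  unfold JS
  refine Submodule.span_mono ?_
  rintro z ⟨X, hX, f, g, hG, rfl⟩
  exact ⟨X, hX, f, g, h X hG, rfl⟩

variable {C : Type (u + 1)} [Category.{u + 1} C] [MonoidalCategory C]
  [SymmetricCategory C] [Preadditive C] [MonoidalPreadditive C] [Linear ℚ C] (H : NCMot k C)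
  {J : Type (u + 1)} {S : J → Type u} [∀ a, Ring (S a)] [∀ a, Algebra k (S a)]
  {Y : ∀ a, DG k (S a)} (sY : ∀ a, SmPr (Y a))

/-- The classes in the span give sums of compositions through the motives of the family. -/
theorem thr_ghom {T : Type u} [Ring T] [Algebra k T] {X : DG k T} (sX : SmPr X) {A : DGA k}
    (s : Rep X A) (z : K0Q A A) (hz : z ∈ JS (GoodV Y) A) :
    Thr (fun a => H.U (Y a) (sY a)) (ghom H sX sX s s z) := by
  obtain ⟨I, I', _, _, a, f, g, f', g', h1⟩ := exists_sum_ghom H sY sX s _ hz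
  let e := Fintype.equivFin I
  let e' := Fintype.equivFin I'
  refine ⟨_, _, fun i => a (e.symm i), fun i => f (e.symm i), fun i => g (e.symm i),
    fun i => f' (e'.symm i), fun i => g' (e'.symm i), ?_⟩
  rw [Equiv.sum_comp e.symm (fun i => f i ≫ g i), Equiv.sum_comp e'.symm (fun i => f' i ≫ g' i),
    h1]

variable {T T' : Type u} [Ring T] [Algebra k T] [Ring T'] [Algebra k T'] {X : DG k T}
  {X' : DG k T'} (sX : SmPr X) (sX' : SmPr X') {A A' : DGA k} (s : Rep X A) (s' : Rep X' A')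

/-- One half of the pair. -/
theorem thr_pair (hs : Smooth A) (hp' : Proper A') (f : K0Q A A') (g : K0Q A' A)
    (h : K0Q.one hs - K0Q.comp hp' f g ∈ JS (GoodV Y) A) :
    Thr (fun a => H.U (Y a) (sY a))
      (𝟙 (H.U X sX) - ghom H sX sX' s s' f ≫ ghom H sX' sX s' s g) := by
  have h1 := thr_ghom H sY sX s _ h
  rw [map_sub, ghom_one H sX s hs (sX.proper s), ghom_comp H sX sX' sX s s' s hp' f g] at h1
  exact h1

include s s' in
/-- Kimura-finiteness. -/
theorem kf_pair (hs : Smooth A) (hp' : Proper A') (f : K0Q A A') (g : K0Q A' A)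
    (h : K0Q.one hs - K0Q.comp hp' f g ∈ JS (GoodV Y) A)
    (hk : ∀ a, KimuraFinite (H.U (Y a) (sY a))) (hk' : KimuraFinite (H.U X' sX')) :
    KimuraFinite (H.U X sX) := by
  have hp : Proper A := sX.proper s
  have h1 : K0Q.one hs ∈ JS (fun D => GoodV Y D ∨ D = A') A := by
    have h2 := js_mono (Good' := fun D => GoodV Y D ∨ D = A') (fun D hD => Or.inl hD) A h
    have h3 : K0Q.comp hp' f g ∈ JS (fun D => GoodV Y D ∨ D = A') A :=
      JS.comp hp' (Or.inr rfl) f g
    have h4 := Submodule.add_mem _ h2 h3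
    rwa [sub_add_cancel] at h4
  obtain ⟨N, W, hW, f, g, hfg⟩ := JS.exists_sum (fun D hD => by
    rcases hD with hD | rfl
    · exact hD.smooth sY
    · exact sX'.smooth s') (⟨A, hs, hp⟩ : SP k) h1
  refine (H.kimuraFinite_iff sX ⟨A, hs, hp⟩ s).2 (kf_of_sum _ W f g hfg fun i => ?_)
  rcases hW i with (h1 | ⟨a, ⟨r⟩⟩) | h1
  · exact kf_base _ h1
  · exact (H.kimuraFinite_iff (sY a) (W i) r).1 (hk a)
  · obtain ⟨W0, hW0, hW1⟩ : ∃ W0 : SP k, W i = W0 ∧ W0.alg = A' := ⟨W i, rfl, h1⟩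
    subst hW1
    rw [hW0]
    exact (H.kimuraFinite_iff sX' W0 s').1 hk'

end Pool.Agent.MP_6e5bed_ag_BI
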