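import Pool.Agent.Lib.MP_6e5bed_ag_BI.Lf

set_option autoImplicit false
set_option linter.unusedVariables false
set_option linter.unusedSectionVars false

/-!
# MP_6e5bed_ag, THEOREM T, LOC (10): the algebras of endomorphisms of sums of twists, definitions
-/

noncomputable section

namespace Pool.Agent.MP_6e5bed_ag_BI

open Pool.Agent.MP_6e5bed_ag_NC Pool.Agent.MP_6e5bed_ag_GG
open Pool.Agent.MP_6e5bed_ag_PN hiding Ch
open Pool.Agent.MP_6e5bed_ag_NS (Cx CHom CPr co ringH)

universe u

variable {k : Type u} [Field k] {i : Type} [Fintype i]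

/-- The algebra is a sum of `n` twists of `e A`: `w b`, `v b` are the isomorphisms of `e A (b)` and
of the summand `b`. -/
structure PTw (A : CA k i) (n : ℕ) where
  e : Idm A
  w : ∀ (b : ℕ) (c : Ch i) (l : i), l ∈ c.1 → A.A c
  v : ∀ (b : ℕ) (c : Ch i) (l : i), l ∈ c.1 → A.A c
  wr : ∀ (b : ℕ) {c d : Ch i} (h : c ≤ d) {l : i} (hl : l ∈ c.1),
    A.res h (w b c l hl) = w b d l (h hl)
  vr : ∀ (b : ℕ) {c d : Ch i} (h : c ≤ d) {l : i} (hl : l ∈ c.1),
    A.res h (v b c l hl) = v b d l (h hl)
  vw : ∀ (b : ℕ), b < n → ∀ {c : Ch i} {l : i} (hl : l ∈ c.1),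
    v b c l hl * w b c l hl = e.e c
  we : ∀ (b : ℕ) {c : Ch i} {l : i} (hl : l ∈ c.1), w b c l hl * e.e c = w b c l hl
  ev : ∀ (b : ℕ) {c : Ch i} {l : i} (hl : l ∈ c.1), e.e c * v b c l hl = v b c l hl
  wl : ∀ (b : ℕ) {c : Ch i} {l l' : i} (hl : l ∈ c.1) (hl' : l' ∈ c.1),
    w b c l hl = tt k l hl' ^ b • w b c l' hl'
  vl : ∀ (b : ℕ) {c : Ch i} {l l' : i} (hl : l ∈ c.1) (hl' : l' ∈ c.1),
    v b c l hl = tt k l' hl ^ b • v b c l' hl'
  sum : ∀ {c : Ch i} {l : i} (hl : l ∈ c.1),
    ∑ b ∈ Finset.range n, w b c l hl * v b c l hl = 1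

variable {A : CA k i} {N : PB A.pa (PA.con i (base k))}

/-- the element `v_b` of `A_{m ∪ c}`, for the coordinate `j(c)` -/
def PTw.vm {n : ℕ} (P : PTw A n) (m : FS i) (b : ℕ) (c : Ch i) : A.A (mu m c) :=
  P.v b (mu m c) (jj c) (le_mu m c (jj_mem c))

def PTw.wm {n : ℕ} (P : PTw A n) (m : FS i) (b : ℕ) (c : Ch i) : A.A (mu m c) :=
  P.w b (mu m c) (jj c) (le_mu m c (jj_mem c))

/-- auxiliary: the identity in `A_{m ∪ d}` behind the naturality of the projection -/
theorem Li_nvA {n : ℕ} (P : PTw A n) (m : FS i) (b : ℕ) {c d : Ch i} (h : c ≤ d) :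
    P.vm m b d * ttA A m d (jj c) (jj_mem d) ^ 0 =
      ttA A m d (jj c) (jj_mem d) ^ b * A.res (mu_mono m h) (P.vm m b c) := by
  have h1 : A.res (mu_mono m h) (P.vm m b c) =
      P.v b (mu m d) (jj c) (mu_mono m h (le_mu m c (jj_mem c))) := P.vr b _ _
  have h2 : P.vm m b d = tt k (jj c) (le_mu m d (jj_mem d)) ^ b •
      P.v b (mu m d) (jj c) (mu_mono m h (le_mu m c (jj_mem c))) := P.vl b _ _
  rw [pow_zero, mul_one, h1, h2, Algebra.smul_def, map_pow]
  rfl

/-- auxiliary: the identity in `A_{m ∪ d}` behind the naturality of the inclusion -/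
theorem Li_nwA {n : ℕ} (P : PTw A n) (m : FS i) (b : ℕ) {c d : Ch i} (h : c ≤ d) :
    P.wm m b d * ttA A m d (jj c) (jj_mem d) ^ b =
      ttA A m d (jj c) (jj_mem d) ^ 0 * A.res (mu_mono m h) (P.wm m b c) := by
  have h1 : A.res (mu_mono m h) (P.wm m b c) =
      P.w b (mu m d) (jj c) (mu_mono m h (le_mu m c (jj_mem c))) := P.wr b _ _
  have h2 : P.w b (mu m d) (jj c) (mu_mono m h (le_mu m c (jj_mem c))) =
      tt k (jj c) (le_mu m d (jj_mem d)) ^ b • P.wm m b d := P.wl b _ _
  rw [pow_zero, one_mul, h1, h2, Algebra.smul_def, map_pow, ← ttp_comm A m d (jj c) (jj_mem d) b]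
  rfl

/-- auxiliary: naturality of the multiplication with `v_b` -/
theorem Li_nv {B : PA k i} {n : ℕ} (P : PTw A n) (m : FS i) (b : ℕ) (Q : PB A.pa B)
    {c d : Ch i} (h : c ≤ d) (x : (Q.M (mu m c)).M) :
    (Q.M (mu m d)).l (P.vm m b d) ((Q.M (mu m d)).l (ttA A m d (jj c) (jj_mem d) ^ 0)
      ((Q.ρ (mu_mono m h)).f x)) =
    (Q.M (mu m d)).l (ttA A m d (jj c) (jj_mem d) ^ b)
      ((Q.ρ (mu_mono m h)).f ((Q.M (mu m c)).l (P.vm m b c) x)) := by
  refine (Le_ll Q _ _ _ _).trans ?_
  refine (congrArg (fun z : A.A (mu m d) => (Q.M (mu m d)).l z ((Q.ρ (mu_mono m h)).f x))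
    (Li_nvA P m b h)).trans ?_
  refine (Le_ll Q _ _ _ _).symm.trans ?_
  exact congrArg ((Q.M (mu m d)).l (ttA A m d (jj c) (jj_mem d) ^ b))
    (Le_ρl Q (mu_mono m h) (P.vm m b c) x).symm

/-- auxiliary: naturality of the multiplication with `w_b` -/
theorem Li_nw {B : PA k i} {n : ℕ} (P : PTw A n) (m : FS i) (b : ℕ) (Q : PB A.pa B)
    {c d : Ch i} (h : c ≤ d) (x : (Q.M (mu m c)).M) :
    (Q.M (mu m d)).l (P.wm m b d) ((Q.M (mu m d)).l (ttA A m d (jj c) (jj_mem d) ^ b)
      ((Q.ρ (mu_mono m h)).f x)) =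
    (Q.M (mu m d)).l (ttA A m d (jj c) (jj_mem d) ^ 0)
      ((Q.ρ (mu_mono m h)).f ((Q.M (mu m c)).l (P.wm m b c) x)) := by
  refine (Le_ll Q _ _ _ _).trans ?_
  refine (congrArg (fun z : A.A (mu m d) => (Q.M (mu m d)).l z ((Q.ρ (mu_mono m h)).f x))
    (Li_nwA P m b h)).trans ?_
  refine (Le_ll Q _ _ _ _).symm.trans ?_
  exact congrArg ((Q.M (mu m d)).l (ttA A m d (jj c) (jj_mem d) ^ 0))
    (Le_ρl Q (mu_mono m h) (P.wm m b c) x).symm

/-- auxiliary: the multiplication with `v_b` has its values in `e M` -/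
theorem Li_mv {B : PA k i} {n : ℕ} (P : PTw A n) (m : FS i) (b : ℕ) (Q : PB A.pa B) (c : Ch i)
    (x : (Q.M (mu m c)).M) : (Q.M (mu m c)).l (P.e.e (mu m c))
      ((Q.M (mu m c)).l (P.vm m b c) x) = (Q.M (mu m c)).l (P.vm m b c) x :=
  (Le_ll Q _ _ _ _).trans (congrArg (fun z : A.A (mu m c) => (Q.M (mu m c)).l z x)
    (P.ev b (le_mu m c (jj_mem c))))

/-- Li1. The projection of the algebra to the twist: on the chart `c` it is the multiplication with
`v_b` for the coordinate `j(c)`. (`vl` for `j(d)`, `j(c)` gives the compatibility with the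
restrictions.) -/
def PTw.pr {n : ℕ} (P : PTw A n) (m : FS i) (b : ℕ) (N : PB A.pa (PA.con i (base k))) :
    ROH (tzO (Idm.one A) m 0 N) (tzO P.e m b N) where
  f :=
    { f := fun c =>
        { f := LinearMap.restrict (p := tzS (Idm.one A) (dA A.pa) (mu m c))
            (q := tzS P.e (dA A.pa) (mu m c))
            (show ((dA A.pa).M (mu m c)).M →ₗ[k] ((dA A.pa).M (mu m c)).M from
              ((dA A.pa).M (mu m c)).l (P.vm m b c)) (by
              intro x _
              exact Li_mv P m b (dA A.pa) c x)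
          deg := fun {n' x} hx => by
            rw [add_zero]
            exact Le_sub.2 (Le_deg (dA A.pa) _ _ (Le_sub.1 hx))
          map_l := fun a x => by
            rw [Dg.sp_zero]
            exact map_smul (LinearMap.restrict (p := tzS (Idm.one A) (dA A.pa) (mu m c))
              (q := tzS P.e (dA A.pa) (mu m c))
              (show ((dA A.pa).M (mu m c)).M →ₗ[k] ((dA A.pa).M (mu m c)).M from
                ((dA A.pa).M (mu m c)).l (P.vm m b c)) (by
                intro x _
                exact Li_mv P m b (dA A.pa) c x)) (show k from a) x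
          map_r := fun b' x => by
            refine Subtype.ext ?_
            exact ((dA A.pa).M (mu m c)).l_r _ _ _ }
      dd := fun c => by
        refine LinearMap.ext fun x => ?_
        rw [GMap.dd_apply, sg_zero, one_smul, LinearMap.zero_apply, sub_eq_zero]
        refine Subtype.ext ?_
        exact Le_dl (dA A.pa) _ _ _
      nat := fun {c d} h x => by
        refine Subtype.ext ?_
        exact (Li_nv P m b (dA A.pa) h x.1).symm }
  g :=
    { f := fun c =>
        { f := LinearMap.restrict (p := tzS (Idm.one A) N (mu m c))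
            (q := tzS P.e N (mu m c))
            (show (N.M (mu m c)).M →ₗ[k] (N.M (mu m c)).M from
              (N.M (mu m c)).l (P.vm m b c)) (by
              intro x _
              exact Li_mv P m b N c x)
          deg := fun {n' x} hx => by
            exact Le_sub.2 (Le_deg N _ _ (Le_sub.1 hx))
          d := fun x => by
            refine Subtype.ext ?_
            exact Le_dl N _ _ _ }
      nat := fun {c d} h x => by
        refine Subtype.ext ?_
        exact (Li_nv P m b N h x.1).symm }
  nat := fun c x y => by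
    refine Subtype.ext ?_
    exact ((N.M (mu m c)).l_mul _ _ _).symm

/-- Li2. The inclusion of the twist in the algebra: the multiplication with `w_b`. -/
def PTw.inc {n : ℕ} (P : PTw A n) (m : FS i) (b : ℕ) (N : PB A.pa (PA.con i (base k))) :
    ROH (tzO P.e m b N) (tzO (Idm.one A) m 0 N) where
  f :=
    { f := fun c =>
        { f := LinearMap.restrict (p := tzS P.e (dA A.pa) (mu m c))
            (q := tzS (Idm.one A) (dA A.pa) (mu m c))
            (show ((dA A.pa).M (mu m c)).M →ₗ[k] ((dA A.pa).M (mu m c)).M from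
              ((dA A.pa).M (mu m c)).l (P.wm m b c)) (by
              intro x _
              exact ((dA A.pa).M (mu m c)).l_one _)
          deg := fun {n' x} hx => by
            rw [add_zero]
            exact Le_sub.2 (Le_deg (dA A.pa) _ _ (Le_sub.1 hx))
          map_l := fun a x => by
            rw [Dg.sp_zero]
            exact map_smul (LinearMap.restrict (p := tzS P.e (dA A.pa) (mu m c))
              (q := tzS (Idm.one A) (dA A.pa) (mu m c))
              (show ((dA A.pa).M (mu m c)).M →ₗ[k] ((dA A.pa).M (mu m c)).M from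
                ((dA A.pa).M (mu m c)).l (P.wm m b c)) (by
                intro x _
                exact ((dA A.pa).M (mu m c)).l_one _)) (show k from a) x
          map_r := fun b' x => by
            refine Subtype.ext ?_
            exact ((dA A.pa).M (mu m c)).l_r _ _ _ }
      dd := fun c => by
        refine LinearMap.ext fun x => ?_
        rw [GMap.dd_apply, sg_zero, one_smul, LinearMap.zero_apply, sub_eq_zero]
        refine Subtype.ext ?_
        exact Le_dl (dA A.pa) _ _ _
      nat := fun {c d} h x => by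
        refine Subtype.ext ?_
        exact (Li_nw P m b (dA A.pa) h x.1).symm }
  g :=
    { f := fun c =>
        { f := LinearMap.restrict (p := tzS P.e N (mu m c))
            (q := tzS (Idm.one A) N (mu m c))
            (show (N.M (mu m c)).M →ₗ[k] (N.M (mu m c)).M from
              (N.M (mu m c)).l (P.wm m b c)) (by
              intro x _
              exact (N.M (mu m c)).l_one _)
          deg := fun {n' x} hx => by
            exact Le_sub.2 (Le_deg N _ _ (Le_sub.1 hx))
          d := fun x => by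
            refine Subtype.ext ?_
            exact Le_dl N _ _ _ }
      nat := fun {c d} h x => by
        refine Subtype.ext ?_
        exact (Li_nw P m b N h x.1).symm }
  nat := fun c x y => by
    refine Subtype.ext ?_
    exact ((N.M (mu m c)).l_mul _ _ _).symm

end Pool.Agent.MP_6e5bed_ag_BI
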