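import Pool.Agent.Lib.MP_6e5bed_ag_BI.EIs
import Pool.Agent.Lib.MP_6e5bed_ag_BI.Li
import Pool.Agent.Lib.MP_6e5bed_ag_GG.TCa

set_option autoImplicit false
set_option linter.unusedVariables false
set_option linter.unusedSectionVars false

/-!
# MP_6e5bed_ag, THEOREM T: the sheaf of endomorphisms of `Γ~ ⊕ … ⊕ Γ~(n)` is a sum of twists
-/

noncomputable section

namespace Pool.Agent.MP_6e5bed_ag_BI

open MvPolynomial Pool.Agent.MP_6e5bed_ag_NC Pool.Agent.MP_6e5bed_ag_GG Pool.Agent.MP_6e5bed_ag_Pn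
open Pool.Agent.MP_6e5bed_ag_PN hiding Ch

universe u

variable {ν : ℕ} {k Γ : Type u} [Field k] [Ring Γ] [Algebra k Γ]
  [Algebra (MvPolynomial (Fin (ν + 1)) k) Γ] [IsScalarTower k (MvPolynomial (Fin (ν + 1)) k) Γ]
  {𝒢 : ℕ → Submodule k Γ} {i : Type} [Fintype i] [DecidableEq i]

/-- the matrix with the entry `x` in the row `p` and the column `q` -/
def eM (n : ℕ) (p q : Fin (n + 1)) (x : Γ) : Matrix (Fin (n + 1)) (Fin (n + 1)) Γ :=
  Matrix.single p q x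

/-- EPt1. -/
theorem eM_mem (h : IsGr ν 𝒢) {d : ℕ} {e : ℤ} (p q : Fin (ν + 1)) {x : Γ} (hx : x ∈ GrZ 𝒢 e)
    (he : e = (d : ℤ) + ((p : ℕ) : ℤ) - ((q : ℕ) : ℤ)) : eM ν p q x ∈ EndDeg ν 𝒢 d := by
  intro a b
  unfold eM
  rw [Matrix.single_apply]
  split_ifs with hab
  · obtain ⟨rfl, rfl⟩ := hab
    rw [← he]
    exact hx
  · exact Submodule.zero_mem _

/-! ### Dehomogenisation, restriction and change of the coordinate -/

section gen

variable {B : Finset (Fin (ν + 1)) → Type u} [∀ I, Ring (B I)] [∀ I, Algebra k (B I)]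
  {r : ∀ I J : Finset (Fin (ν + 1)), I ⊆ J → B I →ₐ[k] B J}
  {q : ∀ I : Finset (Fin (ν + 1)), ℕ → Γ → B I}

/-- the dehomogenisation commutes with the restriction -/
private theorem EPt_deh_res (h : IsGr ν 𝒢) (hq : IsSec 𝒢 r q) (σ : i ≃ Fin (ν + 1))
    {c d : Set i} (hcd : c ⊆ d) {g : i} (hg : g ∈ c) (a : Γ) :
    r (tf σ c) (tf σ d) (tf_mono hcd) (deh h hq σ hg a) = deh h hq σ (hcd hg) a := by
  induction a using hom_ind h with
  | h1 m a ha =>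
    rw [deh_apply h hq σ hg ha, deh_apply h hq σ (hcd hg) ha,
      hq.res _ _ (tf_mono hcd) _ _ (eg_mem h σ hg ha)]
    have h3 : (∏ j ∈ tf σ d \ tf σ c, X j : MvPolynomial (Fin (ν + 1)) k) ^ m =
      mm k (fun x => if x ∈ tf σ d \ tf σ c then m else 0) := xp_mm _ _
    rw [h3, ← mul_smul, mm_mul]
    congr 2
    congr 1
    funext x
    have hs : x ∈ tf σ d \ tf σ c ↔ σ.symm x ∈ d ∧ σ.symm x ∉ c := by
      rw [Finset.mem_sdiff, mem_tf, mem_tf]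
    unfold eg
    by_cases hxc : σ.symm x ∈ c
    · rw [if_neg (fun hh => (hs.1 hh).2 hxc), zero_add]
      by_cases hxg : σ.symm x = g
      · rw [if_neg (fun hh => hh.2 hxg), if_neg (fun hh => hh.2 hxg)]
      · rw [if_pos ⟨hxc, hxg⟩, if_pos ⟨hcd hxc, hxg⟩]
    · have hxg : σ.symm x ≠ g := fun hh => hxc (by rw [hh]; exact hg)
      by_cases hxd : σ.symm x ∈ d
      · rw [if_pos (hs.2 ⟨hxd, hxc⟩), if_neg (fun hh => hxc hh.1), if_pos ⟨hxd, hxg⟩]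
        rfl
      · rw [if_neg (fun hh => hxd (hs.1 hh).1), if_neg (fun hh => hxc hh.1),
          if_neg (fun hh => hxd hh.1)]
  | h0 => rw [map_zero, map_zero, map_zero]
  | h2 a b ha hb => rw [map_add, map_add, map_add, ha, hb]

/-- change of the coordinate -/
private theorem EPt_deh_chg (h : IsGr ν 𝒢) (hq : IsSec 𝒢 r q) (σ : i ≃ Fin (ν + 1))
    {c : Set i} {l l' : i} (hl : l ∈ c) (hl' : l' ∈ c) {d : ℕ} {a : Γ} (ha : a ∈ 𝒢 d) :
    deh h hq σ hl a = rho h hq σ c (tt k l' hl ^ d) * deh h hq σ hl' a := by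
  rw [deh_apply h hq σ hl' ha, tt_pow_rho h hq σ l' hl d (eg_mem h σ hl' ha),
    deh_apply h hq σ hl ha, ← hq.step_pow h d (eg_mem h σ hl ha), ← mul_smul, ← mul_smul, xp_mm,
    mm_mul, mm_mul]
  congr 2
  congr 1
  funext x
  have hN := nn_nsmul (c := c) l' hl d
  have h1 : (d • ex l' l) (σ.symm x) = (if σ.symm x = l' then (d : ℤ) else 0) -
      if σ.symm x = l then (d : ℤ) else 0 := by
    rw [Pi.smul_apply, ex_apply, nsmul_eq_mul]
    split_ifs <;> ring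
  by_cases hx : σ.symm x ∈ c
  · have h4 := eo_pos hN hx
    rw [h1] at h4
    rw [if_pos (mem_tf.2 hx)]
    unfold eg
    by_cases hxl : σ.symm x = l
    · rw [if_neg (fun hh => hh.2 hxl)]
      rw [if_pos hxl] at h4
      by_cases hxl' : σ.symm x = l'
      · rw [if_neg (fun hh => hh.2 hxl')]
        rw [if_pos hxl'] at h4
        omega
      · rw [if_pos ⟨hx, hxl'⟩]
        rw [if_neg hxl'] at h4
        omega
    · rw [if_pos ⟨hx, hxl⟩]
      rw [if_neg hxl] at h4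
      by_cases hxl' : σ.symm x = l'
      · rw [if_neg (fun hh => hh.2 hxl')]
        rw [if_pos hxl'] at h4
        omega
      · rw [if_pos ⟨hx, hxl'⟩]
        rw [if_neg hxl'] at h4
        omega
  · have h4 := eo_neg hN hx
    have hxl : σ.symm x ≠ l := fun hh => hx (by rw [hh]; exact hl)
    have hxl' : σ.symm x ≠ l' := fun hh => hx (by rw [hh]; exact hl')
    rw [h1, if_neg hxl, if_neg hxl'] at h4
    rw [if_neg (fun hh => hx (mem_tf.1 hh))]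
    unfold eg
    rw [if_neg (fun hh => hx hh.1), if_neg (fun hh => hx hh.1)]
    omega

/-- the power of the coordinate `x_l` as the scalar `(x_l / x_g) ^ b` -/
private theorem EPt_deh_Xpow (h : IsGr ν 𝒢) (hq : IsSec 𝒢 r q) (σ : i ≃ Fin (ν + 1))
    {c : Set i} {g : i} (hg : g ∈ c) (l : i) (b : ℕ) (a : Γ) :
    deh h hq σ hg ((X (σ l) ^ b : MvPolynomial (Fin (ν + 1)) k) • a) =
      rho h hq σ c (tt k l hg ^ b) * deh h hq σ hg a := by
  rw [deh_smul, map_pow, aeval_X, Equiv.symm_apply_apply]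

end gen

/-! ### The matrix units -/

/-- the matrix with the entry `x` in the row `p` and the column `q`, in the algebra -/
private def EPt_E (h : IsGr ν 𝒢) (d : ℕ) (p q : Fin (ν + 1)) (x : Γ)
    (hx : eM ν p q x ∈ EndDeg ν 𝒢 d) : EndG h :=
  ⟨eM ν p q x, Submodule.mem_iSup_of_mem d hx⟩

private theorem EPt_E_mem (h : IsGr ν 𝒢) (d : ℕ) (p q : Fin (ν + 1)) (x : Γ)
    (hx : eM ν p q x ∈ EndDeg ν 𝒢 d) : EPt_E h d p q x hx ∈ EndGr h d := hx

private theorem EPt_smul (h : IsGr ν 𝒢) (p : MvPolynomial (Fin (ν + 1)) k) (f : EndG h) :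
    ((p • f : EndG h) : Matrix (Fin (ν + 1)) (Fin (ν + 1)) Γ) = p • f.1 := by
  rw [Algebra.smul_def, Algebra.smul_def]
  rfl

private theorem EPt_one (h : IsGr ν 𝒢) {p q : Fin (ν + 1)} {d : ℕ}
    (hd : (q : ℕ) = d + (p : ℕ)) : eM (Γ := Γ) ν p q 1 ∈ EndDeg ν 𝒢 d := by
  refine eM_mem h (e := ((0 : ℕ) : ℤ)) p q ?_ (by omega)
  rw [GrZ_nat]
  exact h.one

private theorem EPt_Xpow (h : IsGr ν 𝒢) (x : Fin (ν + 1)) (b : ℕ) :
    algebraMap (MvPolynomial (Fin (ν + 1)) k) Γ (X x ^ b) ∈ 𝒢 b := by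
  induction b with
  | zero => rw [pow_zero, map_one]; exact h.one
  | succ b hb =>
    rw [pow_succ, map_mul]
    exact h.mul _ _ _ _ hb (h.var x)

private theorem EPt_pow (h : IsGr ν 𝒢) (b : Fin (ν + 1)) (x : Fin (ν + 1)) :
    eM ν b 0 (algebraMap (MvPolynomial (Fin (ν + 1)) k) Γ (X x ^ (b : ℕ))) ∈ EndDeg ν 𝒢 0 := by
  refine eM_mem h (e := ((b : ℕ) : ℤ)) b 0 ?_ (by simp)
  rw [GrZ_nat]
  exact EPt_Xpow h x b

/-- `E_{00}` -/
private def EPt_0 (h : IsGr ν 𝒢) : EndG h := EPt_E h 0 0 0 1 (EPt_one h (by simp))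

/-- `E_{bb}` -/
private def EPt_b (h : IsGr ν 𝒢) (b : Fin (ν + 1)) : EndG h :=
  EPt_E h 0 b b 1 (EPt_one h (by simp))

/-- `E_{b0} x ^ b` -/
private def EPt_w (h : IsGr ν 𝒢) (b x : Fin (ν + 1)) : EndG h := EPt_E h 0 b 0 _ (EPt_pow h b x)

/-- `E_{0b}` -/
private def EPt_v (h : IsGr ν 𝒢) (b : Fin (ν + 1)) : EndG h :=
  EPt_E h b 0 b 1 (EPt_one h (by simp))

private theorem EPt_vw (h : IsGr ν 𝒢) (b x : Fin (ν + 1)) :
    EPt_v h b * EPt_w h b x =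
      (X x ^ (b : ℕ) : MvPolynomial (Fin (ν + 1)) k) • EPt_0 h := by
  refine Subtype.ext ?_
  rw [EPt_smul]
  change eM ν 0 b 1 * eM ν b 0 _ = _ • eM ν 0 0 1
  unfold eM
  rw [Matrix.single_mul_single_same, Matrix.smul_single, one_mul,
    ← Algebra.algebraMap_eq_smul_one]

private theorem EPt_we (h : IsGr ν 𝒢) (b x : Fin (ν + 1)) :
    EPt_w h b x * EPt_0 h = EPt_w h b x := by
  refine Subtype.ext ?_
  change eM ν b 0 _ * eM ν 0 0 1 = eM ν b 0 _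
  unfold eM
  rw [Matrix.single_mul_single_same, mul_one]

private theorem EPt_ev (h : IsGr ν 𝒢) (b : Fin (ν + 1)) : EPt_0 h * EPt_v h b = EPt_v h b := by
  refine Subtype.ext ?_
  change eM ν 0 0 1 * eM ν 0 b 1 = eM ν 0 b 1
  unfold eM
  rw [Matrix.single_mul_single_same, mul_one]

private theorem EPt_ee (h : IsGr ν 𝒢) : EPt_0 h * EPt_0 h = EPt_0 h := by
  refine Subtype.ext ?_
  change eM ν 0 0 1 * eM ν 0 0 1 = eM ν 0 0 1
  unfold eM
  rw [Matrix.single_mul_single_same, mul_one]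

private theorem EPt_wv (h : IsGr ν 𝒢) (b x : Fin (ν + 1)) :
    EPt_w h b x * EPt_v h b =
      (X x ^ (b : ℕ) : MvPolynomial (Fin (ν + 1)) k) • EPt_b h b := by
  refine Subtype.ext ?_
  rw [EPt_smul]
  change eM ν b 0 _ * eM ν 0 b 1 = _ • eM ν b b 1
  unfold eM
  rw [Matrix.single_mul_single_same, Matrix.smul_single, mul_one,
    ← Algebra.algebraMap_eq_smul_one]

private theorem EPt_sum (h : IsGr ν 𝒢) : ∑ b, EPt_b h b = 1 := by
  refine Subtype.ext ?_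
  rw [AddSubmonoidClass.coe_finsetSum]
  change ∑ b, eM ν b b 1 = 1
  unfold eM
  exact Matrix.sum_single_one

private theorem EPt_xw (h : IsGr ν 𝒢) (b x y : Fin (ν + 1)) :
    (X y ^ (b : ℕ) : MvPolynomial (Fin (ν + 1)) k) • EPt_w h b x =
      (X x ^ (b : ℕ) : MvPolynomial (Fin (ν + 1)) k) • EPt_w h b y := by
  refine Subtype.ext ?_
  rw [EPt_smul, EPt_smul]
  change _ • eM ν b 0 _ = _ • eM ν b 0 _
  unfold eM
  rw [Matrix.smul_single, Matrix.smul_single, Algebra.smul_def, Algebra.smul_def, ← map_mul,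
    ← map_mul, mul_comm]

variable {B : Finset (Fin (ν + 1)) → Type u} [∀ I, Ring (B I)] [∀ I, Algebra k (B I)]
  {r : ∀ I J : Finset (Fin (ν + 1)), I ⊆ J → B I →ₐ[k] B J}

section sec

variable {h : IsGr ν 𝒢} {q : ∀ I : Finset (Fin (ν + 1)), ℕ → EndG h → B I}

private theorem EPt_heq (hq : IsSec (EndGr h) r q) (σ : i ≃ Fin (ν + 1)) {c : Set i} {l l' : i}
    (hl : l ∈ c) (hl' : l' ∈ c) {a : EndG h} (ha : a ∈ EndGr h 0) :
    deh (isGr_EndG h) hq σ hl a = deh (isGr_EndG h) hq σ hl' a := by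
  rw [EPt_deh_chg (isGr_EndG h) hq σ hl hl' ha, pow_zero, map_one, one_mul]

private theorem EPt_hXs (hq : IsSec (EndGr h) r q) (σ : i ≃ Fin (ν + 1)) {c : Set i} {l : i}
    (hl : l ∈ c) (b : ℕ) (a : EndG h) :
    deh (isGr_EndG h) hq σ hl ((X (σ l) ^ b : MvPolynomial (Fin (ν + 1)) k) • a) =
      deh (isGr_EndG h) hq σ hl a := by
  rw [EPt_deh_Xpow (isGr_EndG h) hq σ hl l b a, tt_self, one_pow, map_one, one_mul]

/-- `w` -/
private def EPt_W (hq : IsSec (EndGr h) r q) (σ : i ≃ Fin (ν + 1)) (b : ℕ) {c : Set i} (l : i)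
    (hl : l ∈ c) : B (tf σ c) :=
  if hb : b < ν + 1 then deh (isGr_EndG h) hq σ hl (EPt_w h ⟨b, hb⟩ (σ l)) else 0

/-- `v` -/
private def EPt_V (hq : IsSec (EndGr h) r q) (σ : i ≃ Fin (ν + 1)) (b : ℕ) {c : Set i} (l : i)
    (hl : l ∈ c) : B (tf σ c) :=
  if hb : b < ν + 1 then deh (isGr_EndG h) hq σ hl (EPt_v h ⟨b, hb⟩) else 0

/-- `e` -/
private def EPt_e (hq : IsSec (EndGr h) r q) (σ : i ≃ Fin (ν + 1)) {c : Set i} (l : i)
    (hl : l ∈ c) : B (tf σ c) := deh (isGr_EndG h) hq σ hl (EPt_0 h)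

private theorem EPt_e_eq (hq : IsSec (EndGr h) r q) (σ : i ≃ Fin (ν + 1)) {c : Set i} {l l' : i}
    (hl : l ∈ c) (hl' : l' ∈ c) : EPt_e hq σ l hl = EPt_e hq σ l' hl' :=
  EPt_heq hq σ hl hl' (EPt_E_mem h 0 0 0 1 (EPt_one h (by simp)))

private theorem EPt_e_res (hq : IsSec (EndGr h) r q) (σ : i ≃ Fin (ν + 1)) {c d : Set i}
    (hcd : c ⊆ d) {l l' : i} (hl : l ∈ c) (hl' : l' ∈ d) :
    r (tf σ c) (tf σ d) (tf_mono hcd) (EPt_e hq σ l hl) = EPt_e hq σ l' hl' :=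
  (EPt_deh_res (isGr_EndG h) hq σ hcd hl (EPt_0 h)).trans (EPt_e_eq hq σ (hcd hl) hl')

private theorem EPt_e_idem (hq : IsSec (EndGr h) r q) (σ : i ≃ Fin (ν + 1)) {c : Set i} {l : i}
    (hl : l ∈ c) : EPt_e hq σ l hl * EPt_e hq σ l hl = EPt_e hq σ l hl := by
  unfold EPt_e
  rw [← map_mul, EPt_ee]

private theorem EPt_W_res (hq : IsSec (EndGr h) r q) (σ : i ≃ Fin (ν + 1)) (b : ℕ) {c d : Set i}
    (hcd : c ⊆ d) {l : i} (hl : l ∈ c) :
    r (tf σ c) (tf σ d) (tf_mono hcd) (EPt_W hq σ b l hl) = EPt_W hq σ b l (hcd hl) := by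
  unfold EPt_W
  by_cases hb : b < ν + 1
  · rw [dif_pos hb, dif_pos hb]
    exact EPt_deh_res (isGr_EndG h) hq σ hcd hl _
  · rw [dif_neg hb, dif_neg hb]
    exact map_zero _

private theorem EPt_V_res (hq : IsSec (EndGr h) r q) (σ : i ≃ Fin (ν + 1)) (b : ℕ) {c d : Set i}
    (hcd : c ⊆ d) {l : i} (hl : l ∈ c) :
    r (tf σ c) (tf σ d) (tf_mono hcd) (EPt_V hq σ b l hl) = EPt_V hq σ b l (hcd hl) := by
  unfold EPt_V
  by_cases hb : b < ν + 1
  · rw [dif_pos hb, dif_pos hb]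
    exact EPt_deh_res (isGr_EndG h) hq σ hcd hl _
  · rw [dif_neg hb, dif_neg hb]
    exact map_zero _

private theorem EPt_VW (hq : IsSec (EndGr h) r q) (σ : i ≃ Fin (ν + 1)) {b : ℕ} (hb : b < ν + 1)
    {c : Set i} {l l' : i} (hl : l ∈ c) (hl' : l' ∈ c) :
    EPt_V hq σ b l hl * EPt_W hq σ b l hl = EPt_e hq σ l' hl' := by
  rw [EPt_e_eq hq σ hl' hl]
  unfold EPt_V EPt_W EPt_e
  rw [dif_pos hb, dif_pos hb, ← map_mul, EPt_vw, EPt_hXs]

private theorem EPt_We (hq : IsSec (EndGr h) r q) (σ : i ≃ Fin (ν + 1)) (b : ℕ)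
    {c : Set i} {l l' : i} (hl : l ∈ c) (hl' : l' ∈ c) :
    EPt_W hq σ b l hl * EPt_e hq σ l' hl' = EPt_W hq σ b l hl := by
  rw [EPt_e_eq hq σ hl' hl]
  unfold EPt_W EPt_e
  by_cases hb : b < ν + 1
  · rw [dif_pos hb, ← map_mul, EPt_we]
  · rw [dif_neg hb, zero_mul]

private theorem EPt_eV (hq : IsSec (EndGr h) r q) (σ : i ≃ Fin (ν + 1)) (b : ℕ)
    {c : Set i} {l l' : i} (hl : l ∈ c) (hl' : l' ∈ c) :
    EPt_e hq σ l' hl' * EPt_V hq σ b l hl = EPt_V hq σ b l hl := by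
  rw [EPt_e_eq hq σ hl' hl]
  unfold EPt_V EPt_e
  by_cases hb : b < ν + 1
  · rw [dif_pos hb, ← map_mul, EPt_ev]
  · rw [dif_neg hb, mul_zero]

private theorem EPt_Wl (hq : IsSec (EndGr h) r q) (σ : i ≃ Fin (ν + 1)) (b : ℕ)
    {c : Set i} {l l' : i} (hl : l ∈ c) (hl' : l' ∈ c) :
    EPt_W hq σ b l hl =
      rho (isGr_EndG h) hq σ c (tt k l hl' ^ b) * EPt_W hq σ b l' hl' := by
  unfold EPt_W
  by_cases hb : b < ν + 1
  · rw [dif_pos hb, dif_pos hb,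
      EPt_heq hq σ hl hl' (a := EPt_w h ⟨b, hb⟩ (σ l)) (EPt_E_mem h 0 _ _ _ _),
      ← EPt_hXs hq σ hl' b (EPt_w h ⟨b, hb⟩ (σ l))]
    have h1 := EPt_xw h ⟨b, hb⟩ (σ l) (σ l')
    rw [h1, EPt_deh_Xpow]
  · rw [dif_neg hb, dif_neg hb, mul_zero]

private theorem EPt_Vl (hq : IsSec (EndGr h) r q) (σ : i ≃ Fin (ν + 1)) (b : ℕ)
    {c : Set i} {l l' : i} (hl : l ∈ c) (hl' : l' ∈ c) :
    EPt_V hq σ b l hl =
      rho (isGr_EndG h) hq σ c (tt k l' hl ^ b) * EPt_V hq σ b l' hl' := by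
  unfold EPt_V
  by_cases hb : b < ν + 1
  · rw [dif_pos hb, dif_pos hb]
    exact EPt_deh_chg (isGr_EndG h) hq σ hl hl' (EPt_E_mem h b _ _ _ _)
  · rw [dif_neg hb, dif_neg hb, mul_zero]

private theorem EPt_WVsum (hq : IsSec (EndGr h) r q) (σ : i ≃ Fin (ν + 1))
    {c : Set i} {l : i} (hl : l ∈ c) :
    ∑ b ∈ Finset.range (ν + 1), EPt_W hq σ b l hl * EPt_V hq σ b l hl = 1 := by
  rw [Finset.sum_range, ← map_one (deh (isGr_EndG h) hq σ hl), ← EPt_sum h, map_sum]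
  refine Finset.sum_congr rfl fun b _ => ?_
  unfold EPt_W EPt_V
  rw [dif_pos b.2, dif_pos b.2, ← map_mul, EPt_wv, EPt_hXs]

end sec

/-- EPt2. THE SHEAF OF ENDOMORPHISMS IS A SUM OF TWISTS.
PROOF. Let `A = caOf (isGr_EndG h) hq σ`, so `A.A c = B (tf σ c.1)`. For `l ∈ c` let
`D_l = deh _ hq σ hl : EndG h → A.A c` (GG/TDh; a ring homomorphism, `x_{σ l} ↦ 1`,
`x_{σ l'} ↦ x_{l'} / x_l`; for homogeneous `a` of degree `d` it is the fraction `a / x_l ^ d`,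
`q_mul_eu`, `q_eq_deh`). With the matrix units `E_{pq}` (`eM`) put
`e c = D_l (E_{00})`, which is `q _ 0 E_{00}`, independent of `l`;
`w b c l = D_l (E_{b0} x_{σ l} ^ b)` (degree zero; for `b > ν` put zero);
`v b c l = D_l (E_{0b})` (degree `b`; for `b > ν` put zero).
`vw`: `E_{0b} E_{b0} x_{σ l} ^ b = E_{00} x_{σ l} ^ b` and `D_l (x_{σ l}) = 1`. `we`, `ev`: matrix
units. `sum`: `∑ E_{bb} x_{σ l} ^ b`, `D_l`, `∑ E_{bb} = 1`; `hn`. `wl`, `vl`: for homogeneous `a` of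
degree `d` one has `D_l a = (x_{l'} / x_l) ^ d D_{l'} a` in the algebra of the chart `c`, and
`D_l (x_{σ l} ^ b) = 1`, `D_{l'} (x_{σ l} ^ b) = (x_l / x_{l'}) ^ b`. `wr`, `vr`: `hq.res`; compatibility of
`D_l` with the restrictions. -/
theorem exists_ptw (h : IsGr ν 𝒢) {q : ∀ I : Finset (Fin (ν + 1)), ℕ → EndG h → B I}
    (hq : IsSec (EndGr h) r q) (σ : i ≃ Fin (ν + 1)) {N : ℕ} (hN : N = ν + 1) :
    Nonempty (PTw (caOf (isGr_EndG h) hq σ) N) := by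
  subst hN
  exact ⟨{
    e := {
      e := fun c => EPt_e hq σ (jj c) (jj_mem c)
      res := fun {c d} hcd => EPt_e_res hq σ hcd (jj_mem c) (jj_mem d)
      idem := fun c => EPt_e_idem hq σ (jj_mem c) }
    w := fun b c l hl => EPt_W hq σ b l hl
    v := fun b c l hl => EPt_V hq σ b l hl
    wr := fun b {c d} hcd {l} hl => EPt_W_res hq σ b hcd hl
    vr := fun b {c d} hcd {l} hl => EPt_V_res hq σ b hcd hl
    vw := fun b hb {c l} hl => EPt_VW hq σ hb hl (jj_mem c)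
    we := fun b {c l} hl => EPt_We hq σ b hl (jj_mem c)
    ev := fun b {c l} hl => EPt_eV hq σ b hl (jj_mem c)
    wl := fun b {c l l'} hl hl' =>
      (EPt_Wl hq σ b hl hl').trans (Algebra.smul_def (A := (caOf (isGr_EndG h) hq σ).A c)
        (tt k l hl' ^ b) (EPt_W hq σ b l' hl')).symm
    vl := fun b {c l l'} hl hl' =>
      (EPt_Vl hq σ b hl hl').trans (Algebra.smul_def (A := (caOf (isGr_EndG h) hq σ).A c)
        (tt k l' hl ^ b) (EPt_V hq σ b l' hl')).symm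
    sum := fun {c l} hl => EPt_WVsum hq σ hl }⟩

end Pool.Agent.MP_6e5bed_ag_BI
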