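import Pool.Agent.Lib.MP_6e5bed_ag_BI.Lh0
import Pool.Agent.Lib.MP_6e5bed_ag_GG.Cmp

set_option autoImplicit false
set_option linter.unusedVariables false
set_option linter.unusedSectionVars false

/-!
# MP_6e5bed_ag, THEOREM T, LOC (9): localisation at a coordinate
-/

noncomputable section

namespace Pool.Agent.MP_6e5bed_ag_BI

open Pool.Agent.MP_6e5bed_ag_NC Pool.Agent.MP_6e5bed_ag_GG
open Pool.Agent.MP_6e5bed_ag_PN hiding Ch
open Pool.Agent.MP_6e5bed_ag_NS (Cx CHom CPr co ringH)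

universe u

variable {k : Type u} [Field k] {i : Type} [Fintype i] {A : CA k i}
  {N : PB A.pa (PA.con i (base k))}

variable {Zt : Bim (TT A) (base k)} {ζ : GMap 0 Zt (cBR N (LL i) (FS.e i))} {hζ : ζ.dd = 0}

/-! ### Auxiliary: one chart -/

private theorem Lh_mul {B : PA k i} (Q : PB A.pa B) (d : Ch i) (a b : A.A d) (x : (Q.M d).M) :
    (Q.M d).l (a * b) x = (Q.M d).l a ((Q.M d).l b x) := (Q.M d).l_mul a b x

private theorem Lh_one {B : PA k i} (Q : PB A.pa B) (d : Ch i) (x : (Q.M d).M) :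
    (Q.M d).l (1 : A.A d) x = x := (Q.M d).l_one x

private theorem Lh_pow {B : PA k i} (Q : PB A.pa B) (d : Ch i) (a : A.A d) (n : ℕ)
    (x : (Q.M d).M) : ((show (Q.M d).M →ₗ[k] (Q.M d).M from (Q.M d).l a) ^ n) x =
      (Q.M d).l (a ^ n) x := by
  induction n with
  | zero =>
    rw [pow_zero, pow_zero, Lh_one]
    rfl
  | succ n ih => rw [pow_succ', pow_succ', Module.End.mul_apply, ih, Lh_mul]

private theorem Lh_ρ {B : PA k i} (Q : PB A.pa B) {c d : Ch i} (h : c ≤ d) (a : A.A c)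
    (x : (Q.M c).M) : (Q.ρ h).f ((Q.M c).l a x) = (Q.M d).l (A.res h a) ((Q.ρ h).f x) :=
  gm_l (Q.ρ h) a x

/-- the localisation at one chart, for a general presheaf -/
private theorem Lh_col {B : PA k i} (E : Idm A) (m : FS i) (l : i) (b : ℕ) (Q : PB A.pa B)
    (c : Ch i) (hQ : LocP (V := (Q.M (mu m c)).M) (V' := (Q.M (mu (m.ins l).fs c)).M)
      (Q.ρ (mu_ins m l c)).f ((Q.M (mu m c)).l (ttA A m c l (jj_mem c)))
      ((Q.M (mu (m.ins l).fs c)).l (A.res (mu_ins m l c) (ttA A m c l (jj_mem c))))) :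
    Col (S := ℕ) (V := fun _ => tzS E Q (mu m c))
      (fun s t h => ((tzX E m Q l (Nat.add_le_add_left h b)).f c).f)
      (U := tzS E Q (mu (m.ins l).fs c)) (fun s => ((tzI E m l b s Q).f c).f) where
  id := fun {s} h x => by
    refine Subtype.ext ?_
    change (Q.M (mu m c)).l (ttA A m c l (jj_mem c) ^ (b + s - (b + s))) x.1 = x.1
    rw [Nat.sub_self, pow_zero, Lh_one]
  ee := fun {s t r} h h' x => by
    refine Subtype.ext ?_
    change (Q.M (mu m c)).l (ttA A m c l (jj_mem c) ^ (b + r - (b + t)))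
      ((Q.M (mu m c)).l (ttA A m c l (jj_mem c) ^ (b + t - (b + s))) x.1) =
      (Q.M (mu m c)).l (ttA A m c l (jj_mem c) ^ (b + r - (b + s))) x.1
    rw [← Lh_mul, ← pow_add]
    congr 3
    omega
  ie := fun {s t} h x => tzI_X E m l b h Q c x
  surj := fun y => by
    obtain ⟨n, x, hx⟩ := hQ.surj y.1
    have hy : (Q.M (mu (m.ins l).fs c)).l (E.e (mu (m.ins l).fs c)) y.1 = y.1 := y.2
    have hx' : (Q.ρ (mu_ins m l c)).f x = (Q.M (mu (m.ins l).fs c)).l
        (A.res (mu_ins m l c) (ttA A m c l (jj_mem c)) ^ n) y.1 :=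
      hx.trans (Lh_pow Q _ _ n y.1)
    refine ⟨n, ⟨(Q.M (mu m c)).l (E.e (mu m c)) x, ?_⟩, Subtype.ext ?_⟩
    · change (Q.M (mu m c)).l (E.e (mu m c)) ((Q.M (mu m c)).l (E.e (mu m c)) x) =
        (Q.M (mu m c)).l (E.e (mu m c)) x
      rw [← Lh_mul, E.idem]
    · change (Q.M (mu (m.ins l).fs c)).l (ttl A m l c ^ n)
        ((Q.ρ (mu_ins m l c)).f ((Q.M (mu m c)).l (E.e (mu m c)) x)) = y.1
      have h1 : Commute (A.res (mu_ins m l c) (ttA A m c l (jj_mem c))) (ttl A m l c) := by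
        have h2 := ttl_comm A m l c 1 (A.res (mu_ins m l c) (ttA A m c l (jj_mem c)))
        rw [pow_one] at h2
        exact h2.symm
      have h3 : ttl A m l c ^ n * E.e (mu (m.ins l).fs c) *
          A.res (mu_ins m l c) (ttA A m c l (jj_mem c)) ^ n = E.e (mu (m.ins l).fs c) := by
        rw [mul_assoc, ttl_comm, mul_assoc, ← h1.mul_pow, ttl_inv, one_pow, mul_one]
      rw [Lh_ρ, hx', E.res, ← Lh_mul, ← Lh_mul, h3, hy]
  inj := fun s x hx => by
    have h0 : (Q.M (mu (m.ins l).fs c)).l (ttl A m l c ^ s)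
        ((Q.ρ (mu_ins m l c)).f x.1) = 0 := congrArg Subtype.val hx
    have h3 : Commute (A.res (mu_ins m l c) (ttA A m c l (jj_mem c))) (ttl A m l c) := by
      have h2 := ttl_comm A m l c 1 (A.res (mu_ins m l c) (ttA A m c l (jj_mem c)))
      rw [pow_one] at h2
      exact h2.symm
    have h4 : A.res (mu_ins m l c) (ttA A m c l (jj_mem c)) ^ s * ttl A m l c ^ s = 1 := by
      rw [← h3.mul_pow, ttl_inv, one_pow]
    have h1 : (Q.ρ (mu_ins m l c)).f x.1 = 0 := by
      have h5 := Lh_mul Q (mu (m.ins l).fs c) (A.res (mu_ins m l c)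
        (ttA A m c l (jj_mem c)) ^ s) (ttl A m l c ^ s) ((Q.ρ (mu_ins m l c)).f x.1)
      rw [h4, h0] at h5
      exact ((Lh_one Q (mu (m.ins l).fs c) ((Q.ρ (mu_ins m l c)).f x.1)).symm.trans h5).trans
        (map_zero _)
    obtain ⟨n, hn⟩ := hQ.inj x.1 h1
    refine ⟨s + n, Nat.le_add_right s n, Subtype.ext ?_⟩
    change (Q.M (mu m c)).l (ttA A m c l (jj_mem c) ^ (b + (s + n) - (b + s))) x.1 = 0
    rw [show b + (s + n) - (b + s) = n by omega, ← Lh_pow]
    exact hn

/-- Lh1. If the `e A_{m ∪ c}` with all twists are good, then also the `e A_{m ∪ c ∪ l}`.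
PROOF. `RO.good_col` for the directed set `ℕ`, `R s = tzO E m (b + s) N`, `E s t = tzOX E m N l`,
`R0 = tzO E (m.ins l).fs b N`, `I s = tzOI E m l b s N`; `tzI_X`. `Col`: the
restriction from `m ∪ c` to `m ∪ {l} ∪ c` is a localisation at `x_l / x_{j(c)}`: `hN` (`QCl`) for
`N`, and `A.surj`, `A.inj` for the algebra; for `surj` of `e M`: if `res x = t ^ n y` and `e y = y`,
replace `x` by `e x`. (Write the proof once for a general presheaf `Q : PB A.pa B` and apply it to
`dA A.pa` and to `N`.) -/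
theorem tz_step (hN : QCl N) (E : Idm A) (m : FS i) (l : i)
    (h : ∀ b, (tzO E m b N).Good ζ hζ) (b : ℕ) : (tzO E (m.ins l).fs b N).Good ζ hζ := by
  have hd : ∀ c : Ch i, (mu (m.ins l).fs c).1 ⊆ insert l (mu m c).1 := by
    intro c a ha
    rcases ha with (h1 | h1) | h1
    · exact Or.inl h1
    · exact Or.inr (Or.inl h1)
    · exact Or.inr (Or.inr h1)
  have ht : ∀ c : Ch i, algebraMap (RR k (mu (m.ins l).fs c).1) (A.A (mu (m.ins l).fs c))
      (tt k l (mu_ins m l c (le_mu m c (jj_mem c)))) =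
        A.res (mu_ins m l c) (ttA A m c l (jj_mem c)) := by
    intro c
    exact (A.res_R (mu_ins m l c) (tt k l (le_mu m c (jj_mem c)))).symm
  refine RO.good_col (S := ℕ) (fun s => tzO E m (b + s) N) (tzO E (m.ins l).fs b N)
    (fun s t h => tzOX E m N l (Nat.add_le_add_left h b)) (fun s => tzOI E m l b s N)
    (fun c => ?_) (fun c => ?_) (fun s => h (b + s))
  · refine Lh_col E m l b (dA A.pa) c ⟨fun x => ?_, fun y => ?_, fun x hx => ?_⟩
    · exact map_mul (A.res (mu_ins m l c)) (ttA A m c l (jj_mem c)) x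
    · obtain ⟨n, x, hx⟩ := A.surj (mu_ins m l c) (le_mu m c (jj_mem c)) l (hd c) y
      refine ⟨n, x, hx.trans ?_⟩
      refine Eq.trans ?_ (Lh_pow (dA A.pa) _ _ n y).symm
      refine (Algebra.smul_def (R := RR k (mu (m.ins l).fs c).1)
        (A := A.A (mu (m.ins l).fs c)) _ _).trans ?_
      rw [map_pow, ht c]
      rfl
    · obtain ⟨n, hn⟩ := A.inj (mu_ins m l c) (le_mu m c (jj_mem c)) l (hd c) x hx
      refine ⟨n, (Lh_pow (dA A.pa) _ _ n x).trans ?_⟩
      refine Eq.trans ?_ hn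
      refine Eq.trans ?_ (Algebra.smul_def (R := RR k (mu m c).1)
        (A := A.A (mu m c)) _ _).symm
      rw [map_pow]
      rfl
  · refine Lh_col E m l b N c ?_
    have h1 := hN (mu_ins m l c) (le_mu m c (jj_mem c)) l (hd c)
    rw [ht c] at h1
    exact h1

/-- Lh2. PROOF. Induction on the finite set `m`, with `tz_step`. -/
theorem tz_any (hN : QCl N) (E : Idm A) (h : ∀ b, (tzO E (FS.e i) b N).Good ζ hζ) (m : FS i)
    (b : ℕ) : (tzO E m b N).Good ζ hζ := by
  obtain ⟨s, hs⟩ := m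
  revert b
  induction s, hs using Set.Finite.induction_on with
  | empty => exact h
  | @insert a s ha hs ih => exact fun b => tz_step hN E ⟨s, hs⟩ a ih b

end Pool.Agent.MP_6e5bed_ag_BI
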