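import Pool.Agent.Lib.MP_6e5bed_ag_BI.Li
import Pool.Agent.Lib.MP_6e5bed_ag_GG.LSf

set_option autoImplicit false
set_option linter.unusedVariables false
set_option linter.unusedSectionVars false

/-!
# MP_6e5bed_ag, THEOREM T, LOC (12): retracts and sums of the twists
-/

noncomputable section

namespace Pool.Agent.MP_6e5bed_ag_BI

open Pool.Agent.MP_6e5bed_ag_NC Pool.Agent.MP_6e5bed_ag_GG
open Pool.Agent.MP_6e5bed_ag_PN hiding Ch
open Pool.Agent.MP_6e5bed_ag_NS (Cx CHom CPr co ringH)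

universe u

variable {k : Type u} [Field k] {i : Type} [Fintype i]

variable {A : CA k i} {N : PB A.pa (PA.con i (base k))}
variable {Zt : Bim (TT A) (base k)} {ζ : GMap 0 Zt (cBR N (LL i) (FS.e i))} {hζ : ζ.dd = 0}

private theorem Lm_vw {n : ℕ} (P : PTw A n) (m : FS i) {b : ℕ} (hb : b < n) {B : PA k i}
    (Q : PB A.pa B) (c : Ch i) (x : (Q.M (mu m c)).M)
    (hx : (Q.M (mu m c)).l (P.e.e (mu m c)) x = x) :
    (Q.M (mu m c)).l (P.vm m b c) ((Q.M (mu m c)).l (P.wm m b c) x) = x := by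
  refine ((Q.M (mu m c)).l_mul (P.vm m b c) (P.wm m b c) x).symm.trans ?_
  refine Eq.trans ?_ hx
  exact congrArg (fun a => (Q.M (mu m c)).l a x) (P.vw b hb (le_mu m c (jj_mem c)))

private theorem Lm_wv {n : ℕ} (P : PTw A n) (m : FS i) {B : PA k i}
    (Q : PB A.pa B) (c : Ch i) (x : (Q.M (mu m c)).M) :
    ∑ j : Fin n, (Q.M (mu m c)).l (P.wm m j c) ((Q.M (mu m c)).l (P.vm m j c) x) = x := by
  have h1 : ∀ j ∈ (Finset.univ : Finset (Fin n)),
      (Q.M (mu m c)).l (P.wm m j c) ((Q.M (mu m c)).l (P.vm m j c) x) =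
        (show A.A (mu m c) →ₗ[k] (Q.M (mu m c)).M →ₗ[k] (Q.M (mu m c)).M from
          (Q.M (mu m c)).l) (P.wm m j c * P.vm m j c) x := fun j _ =>
    ((Q.M (mu m c)).l_mul (P.wm m j c) (P.vm m j c) x).symm
  rw [Finset.sum_congr rfl h1, ← LinearMap.sum_apply, ← map_sum]
  have h2 : ∑ j : Fin n, P.wm m j c * P.vm m j c = 1 :=
    (Fin.sum_univ_eq_sum_range (fun j => P.wm m j c * P.vm m j c) n).trans
      (P.sum (le_mu m c (jj_mem c)))
  rw [h2]
  exact (Q.M (mu m c)).l_one x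

/-- Li3. The twist is a retract. (`RO.good_retract`; `vw`: `v_b (w_b x) = e x = x`.) -/
theorem PTw.good_tw {n : ℕ} (P : PTw A n) (m : FS i) {b : ℕ} (hb : b < n)
    (h : (tzO (Idm.one A) m 0 N).Good ζ hζ) : (tzO P.e m b N).Good ζ hζ := by
  refine RO.good_retract (tzO P.e m b N) (tzO (Idm.one A) m 0 N) (P.pr m b N) (P.inc m b N)
    (fun c x => ?_) (fun c x => ?_) h
  · exact Subtype.ext (Lm_vw P m hb (dA A.pa) c x.1 x.2)
  · exact Subtype.ext (Lm_vw P m hb N c x.1 x.2)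

/-- Li4. The algebra is the sum of the twists. (`RO.good_sum` for `J = Fin n`; `sum`.) -/
theorem PTw.good_one {n : ℕ} (P : PTw A n) (m : FS i)
    (h : ∀ b, b < n → (tzO P.e m b N).Good ζ hζ) : (tzO (Idm.one A) m 0 N).Good ζ hζ := by
  refine RO.good_sum (J := Fin n) (tzO (Idm.one A) m 0 N) (fun j => tzO P.e m j N)
    (fun j => P.inc m j N) (fun j => P.pr m j N) (fun c x => ?_) (fun c x => ?_)
    (fun j => h j j.2)
  · refine Subtype.ext ?_
    refine Eq.trans (map_sum (tzS (Idm.one A) (dA A.pa) (mu m c)).subtype _ _) ?_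
    exact Lm_wv P m (dA A.pa) c x.1
  · refine Subtype.ext ?_
    refine Eq.trans (map_sum (tzS (Idm.one A) N (mu m c)).subtype _ _) ?_
    exact Lm_wv P m N c x.1

end Pool.Agent.MP_6e5bed_ag_BI
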