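import Pool.Agent.Lib.MP_6e5bed_ag_BI.Lb
import Pool.Agent.Lib.MP_6e5bed_ag_GG.LCol
import Pool.Agent.Lib.MP_6e5bed_ag_PN.AugE

set_option autoImplicit false
set_option linter.unusedVariables false

/-!
# MP_6e5bed_ag, THEOREM T, LOC (3): fibres and the cup product
-/

noncomputable section

namespace Pool.Agent.MP_6e5bed_ag_BI

open Pool.Agent.MP_6e5bed_ag_NC Pool.Agent.MP_6e5bed_ag_GG
open Pool.Agent.MP_6e5bed_ag_PN hiding Ch
open Pool.Agent.MP_6e5bed_ag_NS (Cx CHom CPr co co_d co_deg co_s)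

universe u

variable {k : Type u} [Field k] {ι : Type} {A : PA k ι} {N : PB A (PA.con ι (base k))}

/-- quasi-isomorphism at a chart -/
def QiAt {R S : RO N} (F : ROH R S) (c : Ch ι) : Prop := Qi (F.f.pch.f c) ∧ Qi (F.g.f c)

/-- acyclic at a chart -/
def AcAt (R : RO N) (c : Ch ι) : Prop := Acy (R.R.pc.X c) ∧ Acy (R.Z.X c)

/-- the identity is a quasi-isomorphism -/
private theorem Lc_id (X : Cx k) : Qi (CHom.id X) := Qi.of_bij Function.bijective_id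

/-- the cone of a quasi-isomorphism is acyclic -/
private theorem Lc_co {X0 X1 X01 : Cx k} (r0 : CHom X0 X01) (r1 : CHom X1 X01)
    (hz : ∀ x, r1.f x = 0) (hd : ∀ x : X1.V, X1.dg.d 0 = x) (h : Qi r0) : Acy (co r0 r1) := by
  rintro ⟨⟨x0, x1⟩, ξ⟩ hx
  have ex := (co_d (r0 := r0) (r1 := r1) x0 x1 ξ).symm.trans hx
  have ex0 : X0.dg.d x0 = 0 := congrArg (fun z => z.1.1) ex
  have exx : r1.f x1 - r0.f x0 - X01.dg.d ξ = 0 := congrArg (fun z => z.2) ex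
  rw [hz, zero_sub] at exx
  have exy : X01.dg.d (-ξ) = r0.f x0 := by
    rw [map_neg]
    have h1 := sub_eq_zero.1 exx
    rw [← h1, neg_neg]
  obtain ⟨z0, hz0⟩ := h.1 x0 ex0 ⟨-ξ, exy⟩
  obtain ⟨a, ha, b, hb⟩ := h.2 (-ξ - r0.f z0) (by rw [map_sub, exy, r0.d, hz0, sub_self])
  refine ⟨((z0 + a, 0), b), (co_d (r0 := r0) (r1 := r1) _ _ _).trans ?_⟩
  refine Prod.ext (Prod.ext ?_ (hd _)) ?_
  · change X0.dg.d (z0 + a) = x0
    rw [map_add, hz0, ha, add_zero]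
  · change r1.f 0 - r0.f (z0 + a) - X01.dg.d b = ξ
    rw [hz, hb, map_add]
    abel

/-- the complex of a cospan of acyclic complexes is acyclic -/
private theorem Lc_co' {X0 X1 X01 : Cx k} (r0 : CHom X0 X01) (r1 : CHom X1 X01)
    (hz : ∀ x, r1.f x = 0) (hd : ∀ x : X1.V, X1.dg.d 0 = x) (h : Acy X0) (h' : Acy X01) :
    Acy (co r0 r1) := by
  rintro ⟨⟨x0, x1⟩, ξ⟩ hx
  have ex := (co_d (r0 := r0) (r1 := r1) x0 x1 ξ).symm.trans hx
  have ex0 : X0.dg.d x0 = 0 := congrArg (fun z => z.1.1) ex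
  have exx : r1.f x1 - r0.f x0 - X01.dg.d ξ = 0 := congrArg (fun z => z.2) ex
  rw [hz, zero_sub] at exx
  obtain ⟨z0, hz0⟩ := h x0 ex0
  obtain ⟨b, hb⟩ := h' (-(r0.f z0) - ξ) (by rw [map_sub, map_neg, r0.d, hz0, exx])
  refine ⟨((z0, 0), b), (co_d (r0 := r0) (r1 := r1) _ _ _).trans ?_⟩
  refine Prod.ext (Prod.ext hz0 (hd _)) ?_
  change r1.f 0 - r0.f z0 - X01.dg.d b = ξ
  rw [hz, hb]
  abel

/-- maps of acyclic complexes are quasi-isomorphisms -/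
private theorem Lc_qi {X Y : Cx k} (f : CHom X Y) (hX : Acy X) (hY : Acy Y) : Qi f :=
  ⟨fun x hx _ => hX x hx, fun y hy => ⟨0, map_zero _, by
    rw [map_zero, sub_zero]
    exact hY y hy⟩⟩

/-- Lc1. The fibre of a quasi-isomorphism is acyclic. (Directly from `co_d`, or `co_map_qi` to the
zero object.) -/
theorem fib_acAt {R S : RO N} {F : ROH R S} {c : Ch ι} (h : QiAt F c) : AcAt (roFib F) c := by
  exact ⟨Lc_co (F.f.pch.f c) ((rohZ S).f.pch.f c) (fun _ => rfl) (fun _ => rfl) h.1,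
    Lc_co (F.g.f c) ((rohZ S).g.f c) (fun _ => rfl) (fun _ => rfl) h.2⟩

/-- Lc2. -/
theorem fib_acAt' {R S : RO N} {F : ROH R S} {c : Ch ι} (h : AcAt R c) (h' : AcAt S c) :
    AcAt (roFib F) c := by
  exact ⟨Lc_co' (F.f.pch.f c) ((rohZ S).f.pch.f c) (fun _ => rfl) (fun _ => rfl) h.1 h'.1,
    Lc_co' (F.g.f c) ((rohZ S).g.f c) (fun _ => rfl) (fun _ => rfl) h.2 h'.2⟩

/-- Lc3. (`co_map_qi`.) -/
theorem fibMap_qiAt {R S R' S' : RO N} {F : ROH R S} {F' : ROH R' S'} {G : ROH R R'}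
    {H : ROH S S'} (hf : ∀ c x, (F'.f.f c).f ((G.f.f c).f x) = (H.f.f c).f ((F.f.f c).f x))
    (hg : ∀ c z, (F'.g.f c).f ((G.g.f c).f z) = (H.g.f c).f ((F.g.f c).f z)) {c : Ch ι}
    (h1 : QiAt G c) (h2 : QiAt H c) : QiAt (fibMap (F := F) (F' := F') G H hf hg) c := by
  refine ⟨co_map_qi (r0 := F.f.pch.f c) (r1 := (rohZ S).f.pch.f c) (s0 := F'.f.pch.f c)
      (s1 := (rohZ S').f.pch.f c) (f0 := G.f.pch.f c) (f1 := CHom.id _) (f01 := H.f.pch.f c)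
      (fun x => hf c x) (fun x => (map_zero (H.f.f c).f).symm) h1.1 (Lc_id _) h2.1, ?_⟩
  exact co_map_qi (r0 := F.g.f c) (r1 := (rohZ S).g.f c) (s0 := F'.g.f c)
      (s1 := (rohZ S').g.f c) (f0 := G.g.f c) (f1 := CHom.id _) (f01 := H.g.f c)
      (fun x => hg c x) (fun x => (map_zero (H.g.f c).f).symm) h1.2 (Lc_id _) h2.2

/-- Lc4. (`co_pr0_qi`.) -/
theorem cylP0_qiAt {R S : RO N} (F : ROH R S) (c : Ch ι) : QiAt (cylP0 F) c := by
  refine ⟨co_pr0_qi (F.f.pch.f c) (r1 := (rohId S).f.pch.f c) ?_,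
    co_pr0_qi (F.g.f c) (r1 := (rohId S).g.f c) ?_⟩
  · exact Lc_id (S.R.pc.X c)
  · exact Lc_id (S.Z.X c)

/-- Lc5. The exact sequence `0 → Fib → Cyl → S → 0`. -/
theorem fib_pbex {R S : RO N} (F : ROH R S) : PBEx (fibCyl F).f (cylP1 F).f := by
  intro c
  refine ⟨?_, ?_, ?_⟩
  · rintro ⟨⟨x0, x1⟩, ξ⟩ ⟨⟨y0, y1⟩, υ⟩ h
    have e0 : x0 = y0 := congrArg (fun z => z.1.1) h
    have e2 : ξ = υ := congrArg (fun z => z.2) h
    exact Prod.ext (Prod.ext e0 rfl) e2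
  · intro y
    exact ⟨((0, y), 0), rfl⟩
  · rintro ⟨⟨x0, x1⟩, ξ⟩
    constructor
    · intro h
      have h1 : x1 = 0 := h
      exact ⟨((x0, PUnit.unit), ξ), Prod.ext (Prod.ext rfl h1.symm) rfl⟩
    · rintro ⟨y, hy⟩
      exact (congrArg (fun z => z.1.2) hy).symm

theorem fib_pcex {R S : RO N} (F : ROH R S) : PCEx (fibCyl F).g (cylP1 F).g := by
  intro c
  refine ⟨?_, ?_, ?_⟩
  · rintro ⟨⟨x0, x1⟩, ξ⟩ ⟨⟨y0, y1⟩, υ⟩ h
    have e0 : x0 = y0 := congrArg (fun z => z.1.1) h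
    have e2 : ξ = υ := congrArg (fun z => z.2) h
    exact Prod.ext (Prod.ext e0 rfl) e2
  · intro y
    exact ⟨((0, y), 0), rfl⟩
  · rintro ⟨⟨x0, x1⟩, ξ⟩
    constructor
    · intro h
      have h1 : x1 = 0 := h
      exact ⟨((x0, PUnit.unit), ξ), Prod.ext (Prod.ext rfl h1.symm) rfl⟩
    · rintro ⟨y, hy⟩
      exact (congrArg (fun z => z.1.2) hy).symm

variable {L : List ι} {c : FS ι} {Zt : Bim (cA A L c) (base k)} {ζ : GMap 0 Zt (cBR N L c)}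
  {hζ : ζ.dd = 0}

/-- Lc6. Chartwise quasi-isomorphisms.
PROOF. `phi_natF`: the square of `R.phi`, `S.phi`; the left vertical map `tF Zt F` is a
quasi-isomorphism by `LFlat.qiso` and `F.f.qisoL`, the right one `(cH F.g L).g c` by `cH_qi`;
`Qi.of_left`, `Qi.comp`, `Qi.of_right`. -/
theorem good_qi (hZt : LFlat Zt) {R S : RO N} (F : ROH R S) (h : ∀ c, QiAt F c) :
    R.Good ζ hζ ↔ S.Good ζ hζ := by
  have hL : Qi (RO.tF Zt F) :=
    (hZt.qiso (F.f.qisoL (fun c => ⟨F.f.dd c, (h c).1⟩) L c)).2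
  have hR : Qi ((cH F.g L).g c) := cH_qi F.g (fun c => (h c).2) L c
  constructor
  · intro hg
    exact Qi.of_left (f := RO.tF Zt F) (g := S.phi ζ hζ)
      (h := (R.phi ζ hζ).comp ((cH F.g L).g c)) (fun x => RO.phi_natF ζ hζ F x) hL
      (Qi.comp (f := R.phi ζ hζ) hg hR)
  · intro hg
    exact Qi.of_right (f := R.phi ζ hζ) (g := (cH F.g L).g c)
      (h := (RO.tF Zt F).comp (S.phi ζ hζ)) (fun x => (RO.phi_natF ζ hζ F x).symm) hR
      (Qi.comp (g := S.phi ζ hζ) hL hg)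

/-- Lc7. Acyclic objects.
PROOF. `good_qi` for the morphism to the zero object or directly: both complexes are acyclic
(`cC_acy` in PN; `LFlat` for the first one). -/
theorem good_acy (hZt : LFlat Zt) {R : RO N} (h : ∀ c, AcAt R c) : R.Good ζ hζ := by
  have hY : Acy ((cC R.Z L).X c) := cC_acy (fun c => (h c).2) L c
  have hX : Acy (bcx (tb (cBL R.R L c) Zt)) :=
    hZt (cBL R.R L c) (cC_acy (V := R.R.pc) (fun c => (h c).1) L c)
  exact Lc_qi (R.phi ζ hζ) hX hY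

/-- Lc8. PROOF. The cylinder is good by `good_qi` for `cylP0`; `RO.good_left` with `fib_pbex`,
`fib_pcex`. -/
theorem good_fib (hZt : LFlat Zt) {R S : RO N} (F : ROH R S) (hR : R.Good ζ hζ)
    (hS : S.Good ζ hζ) : (roFib F).Good ζ hζ := by
  exact RO.good_left (fibCyl F) (cylP1 F) (fib_pbex F) (fib_pcex F) hZt
    ((good_qi hZt (cylP0 F) (cylP0_qiAt F)).2 hR) hS

/-- Lc9. PROOF. As before, with `RO.good_right`. -/
theorem good_of_fib (hZt : LFlat Zt) {R S : RO N} (F : ROH R S) (hR : R.Good ζ hζ)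
    (hF : (roFib F).Good ζ hζ) : S.Good ζ hζ := by
  exact RO.good_right (fibCyl F) (cylP1 F) (fib_pbex F) (fib_pcex F) hZt hF
    ((good_qi hZt (cylP0 F) (cylP0_qiAt F)).2 hR)

end Pool.Agent.MP_6e5bed_ag_BI
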