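import Pool.Agent.Lib.MP_6e5bed_ag_BI.Lf
import Pool.Agent.Lib.MP_6e5bed_ag_BI.Lc
import Pool.Agent.Lib.MP_6e5bed_ag_GG.LSf

set_option autoImplicit false
set_option linter.unusedVariables false
set_option linter.unusedSectionVars false

/-!
# MP_6e5bed_ag, THEOREM T, LOC (13): the algebra itself is good
-/

noncomputable section

namespace Pool.Agent.MP_6e5bed_ag_BI

open Pool.Agent.MP_6e5bed_ag_NC Pool.Agent.MP_6e5bed_ag_GG
open Pool.Agent.MP_6e5bed_ag_PN hiding Ch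
open Pool.Agent.MP_6e5bed_ag_NS (Cx CHom CPr co ringH)

universe u

variable {k : Type u} [Field k] {i : Type} [Fintype i]

variable {A : CA k i} {N : PB A.pa (PA.con i (base k))}
variable {Zt : Bim (TT A) (base k)} {ζ : GMap 0 Zt (cBR N (LL i) (FS.e i))} {hζ : ζ.dd = 0}

private theorem Ln_le (c : Ch i) : mu (FS.e i) c ≤ c :=
  Set.union_subset (Set.empty_subset _) Set.Subset.rfl

section Q

variable {B : PA k i} (Q : PB A.pa B)

private theorem Ln_ρ (E : Idm A) (m : FS i) {c d : Ch i} (h : c ≤ d)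
    (x : tzS E Q (mu m c)) :
    (show tzS E Q (mu m d) from ((TZ E m 0 Q).ρ h).f x).1 = (Q.ρ (mu_mono m h)).f x.1 := by
  have h1 : ttA A m d (jj c) (jj_mem d) ^ 0 = 1 := pow_zero _
  exact (LinearMap.congr_fun (congrArg (fun a : A.A (mu m d) =>
    (show (Q.M (mu m d)).M →ₗ[k] (Q.M (mu m d)).M from (Q.M (mu m d)).l a)) h1)
    ((Q.ρ (mu_mono m h)).f x.1)).trans ((Q.M (mu m d)).l_one _)

/-- the restriction from `c` to `∅ ∪ c` -/
private def Ln_u (c : Ch i) : (Q.M c).M →ₗ[k] tzS (Idm.one A) Q (mu (FS.e i) c) :=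
  LinearMap.codRestrict (tzS (Idm.one A) Q (mu (FS.e i) c)) (Q.ρ (le_mu (FS.e i) c)).f
    (fun x => (Q.M (mu (FS.e i) c)).l_one _)

private theorem Ln_u_val (c : Ch i) (x : (Q.M c).M) :
    (Ln_u Q c x).1 = (Q.ρ (le_mu (FS.e i) c)).f x := rfl

/-- the restriction from `∅ ∪ c` to `c` -/
private def Ln_d (c : Ch i) : tzS (Idm.one A) Q (mu (FS.e i) c) →ₗ[k] (Q.M c).M :=
  (Q.ρ (Ln_le c)).f ∘ₗ (tzS (Idm.one A) Q (mu (FS.e i) c)).subtype

private theorem Ln_d_val (c : Ch i) (x : tzS (Idm.one A) Q (mu (FS.e i) c)) :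
    Ln_d Q c x = (Q.ρ (Ln_le c)).f x.1 := rfl

private theorem Ln_ud (c : Ch i) (x : tzS (Idm.one A) Q (mu (FS.e i) c)) :
    Ln_u Q c (Ln_d Q c x) = x :=
  Subtype.ext ((Q.ρ_ρ (Ln_le c) (le_mu (FS.e i) c) x.1).trans (Q.ρ_id _ x.1))

private theorem Ln_u_deg (c : Ch i) {n : ℤ} {x : (Q.M c).M} (hx : (Q.M c).dg.IsDeg n x) :
    (tzD (Idm.one A) Q (mu (FS.e i) c)).IsDeg n (Ln_u Q c x) :=
  (Dg.sub_isDeg _ _ _ _ _ _).2 ((Q.pc.ρ (le_mu (FS.e i) c)).deg hx)

private theorem Ln_d_deg (c : Ch i) {n : ℤ} {x : tzS (Idm.one A) Q (mu (FS.e i) c)}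
    (hx : (tzD (Idm.one A) Q (mu (FS.e i) c)).IsDeg n x) : (Q.M c).dg.IsDeg n (Ln_d Q c x) :=
  (Q.pc.ρ (Ln_le c)).deg ((Dg.sub_isDeg _ _ _ _ _ _).1 hx)

private theorem Ln_u_d (c : Ch i) (x : (Q.M c).M) :
    (tzD (Idm.one A) Q (mu (FS.e i) c)).d (Ln_u Q c x) = Ln_u Q c ((Q.M c).dg.d x) :=
  Subtype.ext ((Q.pc.ρ (le_mu (FS.e i) c)).d x)

private theorem Ln_d_d (c : Ch i) (x : tzS (Idm.one A) Q (mu (FS.e i) c)) :
    (Q.M c).dg.d (Ln_d Q c x) = Ln_d Q c ((tzD (Idm.one A) Q (mu (FS.e i) c)).d x) :=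
  (Q.pc.ρ (Ln_le c)).d x.1

private theorem Ln_u_nat {c d : Ch i} (h : c ≤ d) (x : (Q.M c).M) :
    ((TZ (Idm.one A) (FS.e i) 0 Q).ρ h).f (Ln_u Q c x) = Ln_u Q d ((Q.ρ h).f x) :=
  Subtype.ext ((Ln_ρ Q (Idm.one A) (FS.e i) h (Ln_u Q c x)).trans
    ((Q.ρ_ρ (le_mu (FS.e i) c) (mu_mono (FS.e i) h) x).trans
      (Q.ρ_ρ h (le_mu (FS.e i) d) x).symm))

private theorem Ln_d_nat {c d : Ch i} (h : c ≤ d) (x : tzS (Idm.one A) Q (mu (FS.e i) c)) :
    (Q.ρ h).f (Ln_d Q c x) = Ln_d Q d (((TZ (Idm.one A) (FS.e i) 0 Q).ρ h).f x) := by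
  refine (Q.ρ_ρ (Ln_le c) h x.1).trans ?_
  refine Eq.trans ?_ (congrArg (Q.ρ (Ln_le d)).f
    (Ln_ρ Q (Idm.one A) (FS.e i) h x)).symm
  exact (Q.ρ_ρ (mu_mono (FS.e i) h) (Ln_le d) x.1).symm

end Q

/-- the restrictions of the algebra, from `c` to `∅ ∪ c` -/
private def Ln_U : PBH (selfR A.pa) (TZ (Idm.one A) (FS.e i) 0 (dA A.pa)) where
  f := fun c =>
    { f := Ln_u (dA A.pa) c
      deg := fun {n x} hx => by
        rw [add_zero]
        exact Ln_u_deg (dA A.pa) c hx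
      map_l := fun a x => by
        rw [Dg.sp_zero]
        refine (congrArg (Ln_u (dA A.pa) c) (base_l ((selfR A.pa).M c) a x)).trans ?_
        exact map_smul (Ln_u (dA A.pa) c) (show k from a) x
      map_r := fun b x => Subtype.ext ((A.pa.r (le_mu (FS.e i) c)).mul x b) }
  dd := fun c => LinearMap.ext fun x => by
    rw [GMap.dd_apply, sg_zero, one_smul, LinearMap.zero_apply, sub_eq_zero]
    exact Ln_u_d (dA A.pa) c x
  nat := fun {c d} h x => Ln_u_nat (dA A.pa) h x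

/-- the restrictions of the algebra, from `∅ ∪ c` to `c` -/
private def Ln_D : PBH (TZ (Idm.one A) (FS.e i) 0 (dA A.pa)) (selfR A.pa) where
  f := fun c =>
    { f := Ln_d (dA A.pa) c
      deg := fun {n x} hx => by
        rw [add_zero]
        exact Ln_d_deg (dA A.pa) c hx
      map_l := fun a x => by
        rw [Dg.sp_zero]
        refine Eq.trans ?_ (base_l ((selfR A.pa).M c) a (Ln_d (dA A.pa) c x)).symm
        exact map_smul (Ln_d (dA A.pa) c) (show k from a) x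
      map_r := fun b x => by
        have h1 := (A.pa.r (Ln_le c)).mul x.1 ((A.pa.r (le_mu (FS.e i) c)).f b)
        refine h1.trans ?_
        exact congrArg ((A.pa.A c).mul ((A.pa.r (Ln_le c)).f x.1))
          ((A.pa.r_r (le_mu (FS.e i) c) (Ln_le c) b).trans (A.pa.r_id _ b)) }
  dd := fun c => LinearMap.ext fun x => by
    rw [GMap.dd_apply, sg_zero, one_smul, LinearMap.zero_apply, sub_eq_zero]
    exact Ln_d_d (dA A.pa) c x
  nat := fun {c d} h x => Ln_d_nat (dA A.pa) h x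

/-- the restrictions, from `c` to `∅ ∪ c` -/
private def Ln_gU (N : PB A.pa (PA.con i (base k))) :
    PCH N.pc (TZ (Idm.one A) (FS.e i) 0 N).pc where
  f := fun c => ⟨Ln_u N c, fun hx => Ln_u_deg N c hx, fun x => Ln_u_d N c x⟩
  nat := fun {c d} h x => Ln_u_nat N h x

/-- the restrictions, from `∅ ∪ c` to `c` -/
private def Ln_gD (N : PB A.pa (PA.con i (base k))) :
    PCH (TZ (Idm.one A) (FS.e i) 0 N).pc N.pc where
  f := fun c => ⟨Ln_d N c, fun hx => Ln_d_deg N c hx, fun x => Ln_d_d N c x⟩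
  nat := fun {c d} h x => Ln_d_nat N h x

/-- the restrictions, from `c` to `∅ ∪ c` -/
private def Ln_oU (N : PB A.pa (PA.con i (base k))) :
    ROH (selfO N) (tzO (Idm.one A) (FS.e i) 0 N) where
  f := Ln_U
  g := Ln_gU N
  nat := fun c x y => by
    exact Subtype.ext (gm_l (N.ρ (le_mu (FS.e i) c)) x y)

/-- the restrictions, from `∅ ∪ c` to `c` -/
private def Ln_oD (N : PB A.pa (PA.con i (base k))) :
    ROH (tzO (Idm.one A) (FS.e i) 0 N) (selfO N) where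
  f := Ln_D
  g := Ln_gD N
  nat := fun c x y => by
    refine (gm_l (N.ρ (Ln_le c)) x.1 ((N.ρ (le_mu (FS.e i) c)).f y)).trans ?_
    exact congrArg ((N.M c).l ((A.pa.r (Ln_le c)).f x.1))
      ((N.ρ_ρ (le_mu (FS.e i) c) (Ln_le c) y).trans (N.ρ_id _ y))

/-- Li5. The algebra itself: `selfO_good` (GG/LSf), and the isomorphism of `selfO N` and
`tzO (Idm.one A) (FS.e i) 0 N` given by the restrictions from `c` to `∅ ∪ c` (bijective, with
inverse the restriction from `∅ ∪ c` to `c`) and `good_qi` or `RO.good_retract`. -/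
theorem tz_self (hq : QIso ζ) : (tzO (Idm.one A) (FS.e i) 0 N).Good ζ hζ := by
  exact RO.good_retract (tzO (Idm.one A) (FS.e i) 0 N) (selfO N) (Ln_oU N) (Ln_oD N)
    (fun c x => Ln_ud (dA A.pa) c x) (fun c z => Ln_ud N c z) (selfO_good N ζ hζ hq)

end Pool.Agent.MP_6e5bed_ag_BI
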