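import Pool.Agent.Lib.MP_6e5bed_ag_BI.Lg
import Pool.Agent.Lib.MP_6e5bed_ag_BI.Lh
import Pool.Agent.Lib.MP_6e5bed_ag_BI.Lm
import Pool.Agent.Lib.MP_6e5bed_ag_BI.Ln

set_option autoImplicit false
set_option linter.unusedVariables false
set_option linter.unusedSectionVars false

/-!
# MP_6e5bed_ag, THEOREM T, LOC (14): all rows are good
-/

noncomputable section

namespace Pool.Agent.MP_6e5bed_ag_BI

open Pool.Agent.MP_6e5bed_ag_NC Pool.Agent.MP_6e5bed_ag_GG
open Pool.Agent.MP_6e5bed_ag_PN hiding Ch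
open Pool.Agent.MP_6e5bed_ag_NS (Cx CHom CPr co ringH)

universe u

variable {k : Type u} [Field k] {i : Type} [Fintype i]

variable {A : CA k i} {N : PB A.pa (PA.con i (base k))}
variable {Zt : Bim (TT A) (base k)} {ζ : GMap 0 Zt (cBR N (LL i) (FS.e i))} {hζ : ζ.dd = 0}
/-- Li6. THE ROWS `A_{m ∪ c}` ARE GOOD. -/
theorem good_row (P : PTw A (LL i).length) (hN : QCl N) (hZt : LFlat Zt) (hq : QIso ζ)
    (m : FS i) : (tzO (Idm.one A) m 0 N).Good ζ hζ := by
  refine P.good_one m fun b _ => tz_any hN P.e (fun b => ?_) m b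
  exact tz_all hZt P.e (FS.e i) (fun b hb => P.good_tw (FS.e i) hb (tz_self hq)) b

end Pool.Agent.MP_6e5bed_ag_BI
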