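import Pool.Agent.Lib.MP_6e5bed_ag_BI.XG

set_option autoImplicit false
set_option linter.unusedVariables false

/-!
# MP_6e5bed_ag, THEOREM T, section 4: the value of the class of a point on coherent bisheaves
-/

noncomputable section

namespace Pool.Agent.MP_6e5bed_ag_BI

open Pool.Agent.MP_6e5bed_ag_NC Pool.Agent.MP_6e5bed_ag_GG Pool.Agent.MP_6e5bed_ag_WW
open Pool.Agent.MP_6e5bed_ag_PN hiding Ch
open Pool.Agent.MP_6e5bed_ag_NS (Cx CHom ringH)

universe u

variable {k : Type u} [Field k] {i x : Type} [Fintype i] [Fintype x] {A : CA k i} {B : CA k x}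
  {m : Ch i} {W : DGA k}

/-- LOCALISATION: for quasi-coherent `X` with a perfect resolution `Z` of `RΓ X`, the tensor
product of the Čech complex of the `A_{m ∪ c}` with `Z` is quasi-isomorphic to the value of `X`
at `m`. -/
def LOC (A : CA k i) : Prop :=
  ∀ {W : DGA k} (X : PB A.pa (PA.con i W)), QCl X → ∀ (Z : Bim (TT A) W), Perf Z →
    ∀ ζ : GMap 0 Z (cBR X (LL i) (FS.e i)), QIso ζ → ∀ m : Ch i,
      ∃ (K : Bim (ring k (A.A m)) W) (f : GMap 0 (tb (DX A m) Z) K) (g : GMap 0 (X.M m) K),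
        QIso f ∧ QIso g

variable (hL : LOC A)

include hL in
/-- P2a. The composition of the class of the point with the class of `RΓ X` is the class of the
scalar extension of the value of `X` at `m`.
PROOF. Take `Z`, `ζ` from `r`; the composition is the class of `tb (sl g (DX A m)) Z`
(`rcls_tb_perf`), isomorphic to `sl g (tb (DX A m) Z)` (`sl_tb`), and `slm_qiso` for the two maps
of `hL`. -/
theorem p2 (hS : Smooth (TT A)) {g : GD A m} (hg : GI g) {X : PB A.pa (PA.con i W)}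
    (hX : QCl X) (r : HasRes (cBR X (LL i) (FS.e i))) :
    ∃ h : HasRes (sl g (X.M m)),
      K0Q.comp (pT A) (xg g hg hS) (rcls _ r) = rcls _ h := by
  obtain ⟨Z, ζ, hZ, hζ⟩ := id r
  obtain ⟨K, f, f', hf, hf'⟩ := hL X hX Z hZ ζ hζ m
  have h1 : HasRes (tb (sl g (DX A m)) Z) := hasRes_tb_perf (pT A) (hasRes_slDX hg hS) hZ
  have h2 : HasRes (sl g (tb (DX A m) Z)) := h1.iso (sl_tb g (DX A m) Z).symm
  have h3 : HasRes (sl g K) := h2.of_qiso (slm g f) (slm_qiso hg hf)
  have h4 : HasRes (sl g (X.M m)) := h3.of_qiso' (slm g f') (slm_qiso hg hf')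
  refine ⟨h4, ?_⟩
  have e1 := rcls_tb_perf (pT A) (hasRes_slDX hg hS) hZ h1
  have e2 := rcls_iso (sl_tb g (DX A m) Z) h2 h1
  have e3 := rcls_qiso h2 h3 (slm g f) (slm_qiso hg hf)
  have e4 := rcls_qiso h4 h3 (slm g f') (slm_qiso hg hf')
  have e5 : rcls _ r = cls Z hZ := rcls_eq r hZ ζ hζ
  exact ((congrArg (fun z => K0Q.comp (pT A) (xg g hg hS) z) e5).trans e1.symm).trans
    (e2.symm.trans (e3.trans e4.symm))

include hL in
/-- P2b. The same for a coherent bisheaf.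
PROOF. `p2` for `XF F.bp` (`qcl_push2 (Sh.bp_qc F) _ _`), with `HasRes.of_finCoh _ _ _ (finBB2 F hF)`
and `cB2_swap`; see the end of the proof of `CP.of_coh` (WW/K1). -/
theorem p2_coh (hS : Smooth (TT A)) (hB : Smooth (TT B)) {g : GD A m} (hg : GI g)
    {F : BS A B} (hF : F.Coh) (r : HasRes F.bp.BB) :
    ∃ h : HasRes (sl g ((XF F.bp).M m)),
      K0Q.comp (pT A) (xg g hg hS) (rcls _ r) = rcls _ h := by
  obtain ⟨h, e⟩ := p2 hL hS hg (qcl_push2 (Sh.bp_qc F) (LL x) (FS.e x))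
    (HasRes.of_finCoh hS hB _ (finBB2 F hF))
  refine ⟨h, Eq.trans ?_ e⟩
  exact congrArg (fun z => K0Q.comp (pT A) (xg g hg hS) z)
    (rcls_iso (cB2_swap F.bp.two (LL i) (FS.e i) (LL x) (FS.e x)) r _)

include hL in
/-- P2c. If the point is not in the support of the coherent bisheaf, the composition is zero.
PROOF. `p2_coh`, `kl_bp`, `Kl.XF` and `sl_zero`: `a` acts as zero on the value of `XF F.bp` at
`m`, and `ann F m` is a two-sided ideal. -/
theorem p2_tor (hS : Smooth (TT A)) (hB : Smooth (TT B)) {g : GD A m} (hg : GI g)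
    {F : BS A B} (hF : F.Coh) (r : HasRes F.bp.BB) (ht : ∃ a ∈ ann F m, g.psi a ≠ 0) :
    K0Q.comp (pT A) (xg g hg hS) (rcls _ r) = 0 := by
  obtain ⟨h, e⟩ := p2_coh hL hS hB hg hF r
  rw [e]
  obtain ⟨a, ha, ha'⟩ := ht
  have hk : KlX (ann F) (XF F.bp) := (kl_bp le_rfl).XF
  refine rcls_acyc (fun y _ => ⟨0, ?_⟩) h
  rw [map_zero]
  exact (sl_zero g ha' (fun a' x => hk m a ha _) y).symm

end Pool.Agent.MP_6e5bed_ag_BI
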