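import Pool.Agent.Lib.MP_6e5bed_ag_BI.Lr
import Pool.Agent.Lib.MP_6e5bed_ag_BI.Lo
import Pool.Agent.Lib.MP_6e5bed_ag_BI.P2

set_option autoImplicit false
set_option linter.unusedVariables false

/-!
# MP_6e5bed_ag, THEOREM T, LOC (19): the localisation theorem
-/

noncomputable section

namespace Pool.Agent.MP_6e5bed_ag_BI

open Pool.Agent.MP_6e5bed_ag_NC Pool.Agent.MP_6e5bed_ag_GG Pool.Agent.MP_6e5bed_ag_WW
open Pool.Agent.MP_6e5bed_ag_PN hiding Ch
open Pool.Agent.MP_6e5bed_ag_NS (Cx CHom CPr ringH)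

universe u

variable {k : Type u} [Field k] {i : Type} [Fintype i] {A : CA k i}

/-- THE LOCALISATION THEOREM. -/
theorem loc_of_ptw (P : PTw A (LL i).length) : LOC A := by
  intro W X hX Z hZ ζ hζ m
  refine ⟨cBB (VX m X) (LL i) (FS.e i), fX m X ζ, (aX m X).gm (LL i) (FS.e i), ?_, aX_qiso m X⟩
  refine good_cup m X hζ ?_
  have hF : LFlat (res (DHom.id (TT A)) (DHom.unit W) Z) := lflat_rst hZ
  have h1 : (tzO (Idm.one A) (MP_6e5bed_ag_PN.Ch.fs m) 0 (PBRm.rst X)).Good (zr ζ)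
      (zr_qiso hζ).1 := good_row P (qcl_rst hX) hF (zr_qiso hζ) _
  exact (good_qi hF (rXt m X) (rXt_qi m X)).2 h1

end Pool.Agent.MP_6e5bed_ag_BI
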