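import Pool.Agent.Lib.MP_6e5bed_ag_BI.Half

set_option autoImplicit false
set_option linter.unusedVariables false

/-!
# MP_6e5bed_ag, THEOREM T, section 14: the core theorem for two algebras
-/

noncomputable section

namespace Pool.Agent.MP_6e5bed_ag_BI

open Pool.Agent.MP_6e5bed_ag_NC Pool.Agent.MP_6e5bed_ag_GG Pool.Agent.MP_6e5bed_ag_WW
open Pool.Agent.MP_6e5bed_ag_PN hiding Ch

universe u

variable {k : Type u} [Field k] {i j : Type} [Fintype i] [Fintype j] {Good : DGA k → Prop}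
  {A : CA k i} {B : CA k j} {hA : Smooth (TT A)} {hB : Smooth (TT B)} {ι : Type} [Fintype ι]
  {Z : ι → Type u} [∀ s, CommRing (Z s)] [∀ s, Algebra k (Z s)]

/-- Pair1. The element `∑ z_s`, where `z_s` is the lift of the class of the point `s` of `B`. -/
theorem Hf.exists_f (H : Hf Good A hA ι Z) (H' : Hf Good B hB ι Z) :
    ∃ f : K0Q (TT A) (TT B), (∀ s, K0Q.comp (pT A) (H.x s) f = H'.x s) ∧
      ∀ w : K0Q (TT B) (TT A), (JS Good (TT A)).mkQ (K0Q.comp (pT B) f w) =
        ∑ s, H.Gm s (K0Q.comp (pT B) (H'.x s) w) := by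
  classical
  choose z h1 h2 h3 using fun s => H.lift s B hB (pT B) (H'.x s)
  refine ⟨∑ s, z s, fun s => ?_, fun w => ?_⟩
  · rw [map_sum, Finset.sum_eq_single s (fun t _ hts => h3 t s (Ne.symm hts))
      (fun h => absurd (Finset.mem_univ s) h), h2]
  · rw [map_sum, LinearMap.sum_apply, map_sum]
    exact Finset.sum_congr rfl fun s _ => (h1 s w).symm

/-- THE CORE THEOREM: the identities of `A` and `B` are, up to the classes which factor through
good dg algebras, the compositions of two classes. -/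
theorem Hf.pair (H : Hf Good A hA ι Z) (H' : Hf Good B hB ι Z) :
    ∃ (f : K0Q (TT A) (TT B)) (g : K0Q (TT B) (TT A)),
      K0Q.one hA - K0Q.comp (pT B) f g ∈ JS Good (TT A) ∧
      K0Q.one hB - K0Q.comp (pT A) g f ∈ JS Good (TT B) := by
  obtain ⟨f, h1, h2⟩ := H.exists_f H'
  obtain ⟨g, h1', h2'⟩ := H'.exists_f H
  refine ⟨f, g, ?_, ?_⟩
  · rw [← Submodule.Quotient.mk_eq_zero, ← Submodule.mkQ_apply, map_sub, h2 g, H.one, sub_eq_zero]
    exact Finset.sum_congr rfl fun s _ => by rw [h1' s]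
  · rw [← Submodule.Quotient.mk_eq_zero, ← Submodule.mkQ_apply, map_sub, h2' f, H'.one,
      sub_eq_zero]
    exact Finset.sum_congr rfl fun s _ => by rw [h1 s]

/-- THE CORE THEOREM of THEOREM T. -/
theorem core_pair (hLA : LOC A) (hLB : LOC B) (hA : Smooth (TT A)) (hB : Smooth (TT B))
    (P : Pts Good A ι) (P' : Pts Good B ι)
    (e : ∀ s, Nonempty (Subalgebra.center k (P.g s).S ≃ₐ[k] Subalgebra.center k (P'.g s).S)) :
    ∃ (f : K0Q (TT A) (TT B)) (g : K0Q (TT B) (TT A)),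
      K0Q.one hA - K0Q.comp (pT B) f g ∈ JS Good (TT A) ∧
      K0Q.one hB - K0Q.comp (pT A) g f ∈ JS Good (TT B) := by
  obtain ⟨H⟩ := half (hS := hA) (P := P) hLA (Z := fun s => Subalgebra.center k (P.g s).S)
    fun s => ⟨AlgEquiv.refl⟩
  obtain ⟨H'⟩ := half (hS := hB) (P := P') hLB (Z := fun s => Subalgebra.center k (P.g s).S) e
  exact H.pair H'

end Pool.Agent.MP_6e5bed_ag_BI
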