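import Pool.Agent.Lib.MP_6e5bed_ag_BI.EPs
import Pool.Agent.Lib.MP_6e5bed_ag_BI.EPt
import Pool.Agent.Lib.MP_6e5bed_ag_BI.EMot
import Pool.Agent.Lib.MP_6e5bed_ag_BI.Ls
import Pool.Agent.Lib.MP_6e5bed_ag_BI.Pair
import Pool.Agent.Lib.MP_6e5bed_ag_VT.VFin

set_option autoImplicit false
set_option linter.unusedVariables false
set_option linter.unusedSectionVars false

/-!
# MP_6e5bed_ag, THEOREM T: the final theorem
-/

noncomputable section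

namespace Pool.Agent.MP_6e5bed_ag_BI

open CategoryTheory MonoidalCategory MvPolynomial Pool.Agent.MP_6e5bed_ag
  Pool.Agent.MP_6e5bed_ag_Pn Pool.Agent.MP_6e5bed_ag_NC Pool.Agent.MP_6e5bed_ag_GG
  Pool.Agent.MP_6e5bed_ag_GP Pool.Agent.MP_6e5bed_ag_PS Pool.Agent.MP_6e5bed_ag_VT
  Pool.Agent.MP_6e5bed_ag_WW
open Pool.Agent.MP_6e5bed_ag_SP (DG Rep RA repOf SmPr NCMot)

universe u

variable {ν : ℕ} {k Γ : Type u} [Field k] [Ring Γ] [Algebra k Γ]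
  [Algebra (MvPolynomial (Fin (ν + 1)) k) Γ] [IsScalarTower k (MvPolynomial (Fin (ν + 1)) k) Γ]
  {𝒢 : ℕ → Submodule k Γ}

/-- The data of one of the two algebras. -/
theorem exists_side (h : IsGr ν 𝒢) {T : Type u} [Ring T] [Algebra k T] {X : DG k T}
    (hX : IsRGam ν (EndGr h) X) {J : Type (u + 1)} {M : J → Type u} [∀ a, Field (M a)]
    [∀ a, Algebra k (M a)] {S : J → Type u} [∀ a, Ring (S a)] [∀ a, Algebra k (S a)]
    {Y : ∀ a, DG k (S a)} (sY : ∀ a, SmPr (Y a))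
    (hY : ∀ a, ∃ Z : XT k, Z.Gen ∧ Nonempty (Rep (Y a) (TT Z.ca)) ∧ Nonempty (M a ≃ₐ[k] Z.M))
    {ι : Type} {P : ι → SQ ν k Γ} (hP : IsoFam 𝒢 M P) :
    ∃ (A : CA k (Fin (ν + 1))) (_ : Rep X (TT A)) (_ : LOC A) (Q : Pts (GoodV Y) A ι),
      ∀ s, CIso (algebraMap k (Subalgebra.center k (Q.g s).S)) (P s).cen := by
  obtain ⟨B, _, _, r, q, e, hq, he⟩ := hX
  obtain ⟨σ, hσ⟩ := exists_dec (ν := ν) (nodup_LL (Fin (ν + 1))) mem_LL
  obtain ⟨E, hE⟩ := exists_cechD (isGr_EndG h) hq σ hσ mem_LL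
  obtain ⟨s⟩ := cechD_rep he hE
  have hM : ∀ a : J, ∃ Z : XT k, Z.Gen ∧ SPJ (GoodV Y) (TT Z.ca) ∧ Nonempty (M a ≃ₐ[k] Z.M) := by
    intro a
    obtain ⟨Z, hG, ⟨r⟩, hM⟩ := hY a
    exact ⟨Z, hG, SPJ.of_good ((sY a).smooth r) ((sY a).proper r) (Or.inr ⟨a, ⟨r⟩⟩), hM⟩
  have hL : (LL (Fin (ν + 1))).length = ν + 1 := by
    unfold LL
    rw [Finset.length_toList, Finset.card_univ, Fintype.card_fin]
  obtain ⟨W⟩ := exists_ptw h hq σ hL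
  obtain ⟨Q, hQ⟩ := exists_pts hM h hq σ hP
  exact ⟨_, s, loc_of_ptw W, Q, hQ⟩

variable {ν' : ℕ} {Γ' : Type u} [Ring Γ'] [Algebra k Γ']
  [Algebra (MvPolynomial (Fin (ν' + 1)) k) Γ'] [IsScalarTower k (MvPolynomial (Fin (ν' + 1)) k) Γ']
  {𝒢' : ℕ → Submodule k Γ'} {C : Type (u + 1)} [Category.{u + 1} C] [MonoidalCategory C]
  [SymmetricCategory C] [Preadditive C] [MonoidalPreadditive C] [Linear ℚ C] (H : NCMot k C)

/-- THEOREM T, for a family of dg algebras which are represented by X-data. -/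
theorem main_t (h : IsGr ν 𝒢) (h' : IsGr ν' 𝒢') {T : Type u} [Ring T] [Algebra k T] {X : DG k T}
    (hX : IsRGam ν (EndGr h) X) (sX : SmPr X) {T' : Type u} [Ring T'] [Algebra k T']
    {X' : DG k T'} (hX' : IsRGam ν' (EndGr h') X') (sX' : SmPr X') {J : Type (u + 1)}
    {M : J → Type u} [∀ a, Field (M a)] [∀ a, Algebra k (M a)] {S : J → Type u}
    [∀ a, Ring (S a)] [∀ a, Algebra k (S a)] {Y : ∀ a, DG k (S a)} (sY : ∀ a, SmPr (Y a))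
    (hY : ∀ a, ∃ Z : XT k, Z.Gen ∧ Nonempty (Rep (Y a) (TT Z.ca)) ∧ Nonempty (M a ≃ₐ[k] Z.M))
    {ι : Type} [Fintype ι] {P : ι → SQ ν k Γ} {P' : ι → SQ ν' k Γ'} (hP : IsoFam 𝒢 M P)
    (hP' : IsoFam 𝒢' M P') (he : ∀ s, CIso (P s).cen (P' s).cen) :
    (∃ (f : H.U X sX ⟶ H.U X' sX') (g : H.U X' sX' ⟶ H.U X sX),
      Thr (fun a => H.U (Y a) (sY a)) (𝟙 (H.U X sX) - f ≫ g) ∧
      Thr (fun a => H.U (Y a) (sY a)) (𝟙 (H.U X' sX') - g ≫ f)) ∧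
    ((∀ a, KimuraFinite (H.U (Y a) (sY a))) →
      (KimuraFinite (H.U X sX) ↔ KimuraFinite (H.U X' sX'))) := by
  obtain ⟨A, s, hL, Q, hQ⟩ := exists_side h hX sY hY hP
  obtain ⟨A', s', hL', Q', hQ'⟩ := exists_side h' hX' sY hY hP'
  obtain ⟨f, g, h1, h2⟩ := core_pair hL hL' (sX.smooth s) (sX'.smooth s') Q Q'
    (fun t => ((hQ t).trans ((he t).trans (hQ' t).symm)).alg)
  refine ⟨⟨ghom H sX sX' s s' f, ghom H sX' sX s' s g,
    thr_pair H sY sX sX' s s' (sX.smooth s) (pT A') f g h1,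
    thr_pair H sY sX' sX s' s (sX'.smooth s') (pT A) g f h2⟩, fun hk => ⟨fun hX => ?_, fun hX => ?_⟩⟩
  · exact kf_pair H sY sX' sX s' s (sX'.smooth s') (pT A) g f h2 hk hX
  · exact kf_pair H sY sX sX' s s' (sX.smooth s) (pT A') f g h1 hk hX

end Pool.Agent.MP_6e5bed_ag_BI
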