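import Pool.Agent.Lib.MP_6e5bed_ag_BI.EDef

set_option autoImplicit false

/-!
# MP_6e5bed_ag, THEOREM T: the algebra of endomorphisms is graded
-/

noncomputable section

namespace Pool.Agent.MP_6e5bed_ag_Pn

open MvPolynomial

universe u v

variable {n : ℕ} {k Γ : Type u} [Field k] [Ring Γ] [Algebra k Γ]
  [Algebra (MvPolynomial (Fin (n + 1)) k) Γ] [IsScalarTower k (MvPolynomial (Fin (n + 1)) k) Γ]

private theorem EIs_indepZ {𝒢 : ℕ → Submodule k Γ} (h : iSupIndep 𝒢) (d : ℤ) :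
    Disjoint (GrZ 𝒢 d) (⨆ (e : ℤ) (_ : e ≠ d), GrZ 𝒢 e) := by
  rcases lt_or_ge d 0 with hd | hd
  · rw [GrZ_neg 𝒢 hd]
    exact disjoint_bot_left
  obtain ⟨m, rfl⟩ := Int.eq_ofNat_of_zero_le hd
  rw [GrZ_nat]
  refine (h m).mono_right ?_
  refine iSup₂_le fun e he => ?_
  rcases lt_or_ge e 0 with h0 | h0
  · rw [GrZ_neg 𝒢 h0]
    exact bot_le
  obtain ⟨j, rfl⟩ := Int.eq_ofNat_of_zero_le h0
  rw [GrZ_nat]
  exact le_iSup₂_of_le j (fun hj => he (by rw [hj])) le_rfl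

/-- the entry `(p, q)` of a matrix in the algebra of endomorphisms -/
private def EIs_entry {𝒢 : ℕ → Submodule k Γ} (h : IsGr n 𝒢) (p q : Fin (n + 1)) :
    EndG h →ₗ[k] Γ where
  toFun f := f.1 p q
  map_add' _ _ := rfl
  map_smul' _ _ := rfl

private theorem EIs_indep {𝒢 : ℕ → Submodule k Γ} (h : IsGr n 𝒢) : iSupIndep (EndGr h) := by
  have hi : iSupIndep 𝒢 := h.int.submodule_iSupIndep
  intro d
  rw [Submodule.disjoint_def]
  intro f hf hf'
  refine Subtype.ext ?_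
  refine Matrix.ext fun p q => ?_
  have h1 := EIs_indepZ hi ((d : ℤ) + ((p : ℕ) : ℤ) - ((q : ℕ) : ℤ))
  rw [Submodule.disjoint_def] at h1
  refine h1 _ (hf p q) ?_
  have h2 : EIs_entry h p q f ∈ (⨆ (j : ℕ) (_ : j ≠ d), EndGr h j).map (EIs_entry h p q) :=
    Submodule.mem_map_of_mem hf'
  rw [Submodule.map_iSup] at h2
  have h3 : (⨆ (j : ℕ), (⨆ (_ : j ≠ d), EndGr h j).map (EIs_entry h p q)) ≤
      ⨆ (e : ℤ) (_ : e ≠ (d : ℤ) + ((p : ℕ) : ℤ) - ((q : ℕ) : ℤ)), GrZ 𝒢 e := by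
    refine iSup_le fun j => ?_
    rw [Submodule.map_iSup]
    refine iSup_le fun hj => ?_
    refine le_iSup₂_of_le ((j : ℤ) + ((p : ℕ) : ℤ) - ((q : ℕ) : ℤ)) (by omega) ?_
    rintro _ ⟨g, hg, rfl⟩
    exact hg p q
  exact h3 h2

private theorem EIs_top {𝒢 : ℕ → Submodule k Γ} (h : IsGr n 𝒢) : ⨆ d, EndGr h d = ⊤ := by
  rw [eq_top_iff]
  rintro ⟨f, hf⟩ -
  have key : ∀ (x : Matrix (Fin (n + 1)) (Fin (n + 1)) Γ) (hx : x ∈ ⨆ d, EndDeg n 𝒢 d),
      (⟨x, hx⟩ : EndG h) ∈ ⨆ d, EndGr h d := by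
    intro x hx
    induction hx using Submodule.iSup_induction' with
    | mem d x hx => exact Submodule.mem_iSup_of_mem d (show _ ∈ EndGr h d from hx)
    | zero => exact Submodule.zero_mem _
    | add a b ha hb h1 h2 => exact Submodule.add_mem _ h1 h2
  exact key f hf

/-- the inclusion of the algebra of endomorphisms in the matrices, over the polynomials -/
private def EIs_val {𝒢 : ℕ → Submodule k Γ} (h : IsGr n 𝒢) :
    EndG h →ₗ[MvPolynomial (Fin (n + 1)) k] Matrix (Fin (n + 1)) (Fin (n + 1)) Γ where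
  toFun f := f.1
  map_add' _ _ := rfl
  map_smul' p f := by
    rw [Algebra.smul_def, RingHom.id_apply, Algebra.smul_def]
    rfl

private theorem EIs_fin {𝒢 : ℕ → Submodule k Γ} (h : IsGr n 𝒢) :
    Module.Finite (MvPolynomial (Fin (n + 1)) k) (EndG h) := by
  haveI := h.fin
  haveI : Module.Finite (MvPolynomial (Fin (n + 1)) k) (Matrix (Fin (n + 1)) (Fin (n + 1)) Γ) := by
    change Module.Finite (MvPolynomial (Fin (n + 1)) k) (Fin (n + 1) → Fin (n + 1) → Γ)
    infer_instance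
  haveI : IsNoetherian (MvPolynomial (Fin (n + 1)) k) (Matrix (Fin (n + 1)) (Fin (n + 1)) Γ) :=
    isNoetherian_of_isNoetherianRing_of_finite _ _
  exact Module.Finite.of_injective (EIs_val h) Subtype.val_injective

/-- Ea3. THE ALGEBRA OF ENDOMORPHISMS IS GRADED.
PROOF. `int`: the sum of the `EndDeg` is direct because the entry `(p, q)` of an element of
`EndDeg d` is in `GrZ (d + p - q)` and the `GrZ` are independent (`h.int`), and the sum is everything
by definition. `fin`: `EndG h` is a submodule over `k[x_0, …, x_n]` of the matrices with entries in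
`Γ`, a finite module over a noetherian ring. -/
theorem isGr_EndG {𝒢 : ℕ → Submodule k Γ} (h : IsGr n 𝒢) : IsGr n (EndGr h) := by
  refine ⟨?_, EndDeg_one h, fun p q a b ha hb => EndDeg_mul h ha hb, fun i => ?_, EIs_fin h⟩
  · rw [DirectSum.isInternal_submodule_iff_iSupIndep_and_iSup_eq_top]
    exact ⟨EIs_indep h, EIs_top h⟩
  · rw [mem_EndGr, EndG_algebraMap]
    intro p q
    rw [Matrix.algebraMap_matrix_apply]
    split_ifs with hpq
    · subst hpq
      have h1 : ((1 : ℕ) : ℤ) + ((p : ℕ) : ℤ) - ((p : ℕ) : ℤ) = ((1 : ℕ) : ℤ) := by omega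
      rw [h1, GrZ_nat]
      exact h.var i
    · exact Submodule.zero_mem _

end Pool.Agent.MP_6e5bed_ag_Pn
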