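import Pool.Agent.Lib.MP_6e5bed_ag_BI.EMo

set_option autoImplicit false
set_option linter.unusedVariables false
set_option linter.unusedSectionVars false

/-!
# MP_6e5bed_ag, THEOREM T: simple quotients of the algebra of endomorphisms, given by matrices
-/

noncomputable section

namespace Pool.Agent.MP_6e5bed_ag_BI

open MvPolynomial Pool.Agent.MP_6e5bed_ag_Pn

universe u v

variable {ν : ℕ} {k Γ : Type u} [Field k] [Ring Γ] [Algebra k Γ]
  [Algebra (MvPolynomial (Fin (ν + 1)) k) Γ] [IsScalarTower k (MvPolynomial (Fin (ν + 1)) k) Γ]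
  {𝒢 : ℕ → Submodule k Γ}

/-- EMa1. The centre of a matrix algebra. (Scalar matrices; Mathlib has `Matrix.center...` or
directly.) -/
theorem mat_cen {F Q : Type u} [Field F] [Ring Q] [Algebra F Q] (n : ℕ) :
    ∃ e : Subalgebra.center F Q ≃+*
      Subalgebra.center F (Matrix (Fin (n + 1)) (Fin (n + 1)) Q),
      ∀ c : F, e (algebraMap F _ c) = algebraMap F _ c := by
  have hinj : Function.Injective (Matrix.scalarAlgHom (α := Q) (Fin (n + 1)) F) := by
    intro a b hab
    have h1 := congrFun (congrFun hab 0) 0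
    simpa using h1
  let e₁ := (Subalgebra.center F Q).equivMapOfInjective (Matrix.scalarAlgHom (Fin (n + 1)) F) hinj
  let e₂ := Subalgebra.equivOfEq _ _
    (Matrix.subalgebraCenter_eq_scalarAlgHom_map (n := Fin (n + 1)) (R := F) (A := Q)).symm
  exact ⟨(e₁.trans e₂).toRingEquiv, fun c => (e₁.trans e₂).commutes c⟩

/-- EMa2. PROOF. `F`, `a` as for `z`, `Q' = Matrix (Fin (ν + 1)) (Fin (ν + 1)) z.Q`, and `π'` maps a matrix
to the matrix of the images of its entries (`RingHom.mapMatrix` restricted to `EndG h`). `simple`: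
matrix rings over simple rings are simple (in Mathlib). `map`: diagonal matrices. `span`: it is enough
to get the matrices with one entry `π x` at `(p, q)`, `x ∈ 𝒢 d`, `z.quo.span`: for a coordinate with
`a_j = 1` and `N` with `d + N + q ≥ p` the matrix with the entry `x_j ^ N x` is homogeneous of
degree `d + N + q - p`, and its image has the entry `π x`. -/
theorem exists_mo (h : IsGr ν 𝒢) (z : SQ ν k Γ) : ∃ w : SQ ν k (EndG h), Mo h z w := by
  have hsim := z.quo.simple
  obtain ⟨j, hj⟩ := z.pt.one
  obtain ⟨π', hπ'⟩ : ∃ π' : EndG h →+* Matrix (Fin (ν + 1)) (Fin (ν + 1)) z.Q,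
      ∀ (f : EndG h) (p q : Fin (ν + 1)), π' f p q = z.π (f.1 p q) :=
    ⟨(RingHom.mapMatrix z.π).comp (EndG h).val.toRingHom, fun f p q => rfl⟩
  -- the powers of the coordinate
  have hxj : ∀ N : ℕ, z.π (algebraMap (MvPolynomial (Fin (ν + 1)) k) Γ (X j) ^ N) = 1 := by
    intro N
    rw [map_pow, z.quo.map, aeval_X, hj, map_one, one_pow]
  have hpow : ∀ N : ℕ, algebraMap (MvPolynomial (Fin (ν + 1)) k) Γ (X j) ^ N ∈ 𝒢 N := by
    intro N
    induction N with
    | zero => rw [pow_zero]; exact h.one
    | succ N ih => rw [pow_succ]; exact h.mul _ _ _ _ ih (h.var j)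
  -- the matrices with one entry
  have hone : ∀ (p q : Fin (ν + 1)) (d : ℕ) (x : Γ), x ∈ 𝒢 d →
      ∃ f : EndG h, π' f = Matrix.single p q (z.π x) := by
    intro p q d x hx
    obtain ⟨y, hy⟩ : ∃ y, y = algebraMap (MvPolynomial (Fin (ν + 1)) k) Γ (X j) ^ (p : ℕ) * x :=
      ⟨_, rfl⟩
    have hyd : y ∈ 𝒢 ((p : ℕ) + d) := by
      rw [hy]
      exact h.mul _ _ _ _ (hpow _) hx
    have hyπ : z.π y = z.π x := by
      rw [hy, map_mul, hxj, one_mul]
    have hmem : Matrix.single p q y ∈ EndDeg ν 𝒢 (d + (q : ℕ)) := by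
      intro p' q'
      rw [Matrix.single_apply]
      split_ifs with hpq
      · obtain ⟨rfl, rfl⟩ := hpq
        have h1 : ((d + (q : ℕ) : ℕ) : ℤ) + ((p : ℕ) : ℤ) - ((q : ℕ) : ℤ) =
            (((p : ℕ) + d : ℕ) : ℤ) := by
          push_cast
          ring
        rw [h1, GrZ_nat]
        exact hyd
      · exact Submodule.zero_mem _
    refine ⟨⟨Matrix.single p q y, (mem_EndG h).2 (Submodule.mem_iSup_of_mem _ hmem)⟩, ?_⟩
    ext p' q'
    rw [hπ']
    change z.π (Matrix.single p q y p' q') = _
    rw [Matrix.single_apply, Matrix.single_apply]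
    split_ifs
    · exact hyπ
    · exact map_zero _
  have hspan : Submodule.span z.F (Set.range π') = ⊤ := by
    have h1 : ∀ (p q : Fin (ν + 1)) (s : z.Q),
        Matrix.single p q s ∈ Submodule.span z.F (Set.range π') := by
      intro p q s
      have h2 : s ∈ Submodule.span z.F (Set.range z.π) := by
        rw [z.quo.span]
        exact Submodule.mem_top
      induction h2 using Submodule.span_induction with
      | mem s hs =>
        obtain ⟨x, rfl⟩ := hs
        have h3 : x ∈ ⨆ d, 𝒢 d := by
          rw [h.int.submodule_iSup_eq_top]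
          exact Submodule.mem_top
        induction h3 using Submodule.iSup_induction' with
        | mem d x hx =>
          obtain ⟨f, hf⟩ := hone p q d x hx
          exact Submodule.subset_span ⟨f, hf⟩
        | zero =>
          rw [map_zero, Matrix.single_zero]
          exact Submodule.zero_mem _
        | add a b _ _ ha hb =>
          rw [map_add, Matrix.single_add]
          exact Submodule.add_mem _ ha hb
      | zero =>
        rw [Matrix.single_zero]
        exact Submodule.zero_mem _
      | add a b _ _ ha hb =>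
        rw [Matrix.single_add]
        exact Submodule.add_mem _ ha hb
      | smul c a _ ha =>
        rw [← Matrix.smul_single]
        exact Submodule.smul_mem _ c ha
    rw [eq_top_iff]
    rintro f -
    rw [Matrix.matrix_eq_sum_single f]
    exact Submodule.sum_mem _ fun p _ => Submodule.sum_mem _ fun q _ => h1 p q _
  have hmap : ∀ g : MvPolynomial (Fin (ν + 1)) k,
      π' (algebraMap (MvPolynomial (Fin (ν + 1)) k) (EndG h) g) =
        algebraMap z.F (Matrix (Fin (ν + 1)) (Fin (ν + 1)) z.Q) (aeval z.a g) := by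
    intro g
    ext p q
    rw [hπ', EndG_algebraMap, Matrix.algebraMap_matrix_apply, Matrix.algebraMap_matrix_apply]
    split_ifs
    · exact z.quo.map g
    · exact map_zero _
  refine ⟨{ F := z.F, a := z.a, Q := Matrix (Fin (ν + 1)) (Fin (ν + 1)) z.Q, π := π', pt := z.pt,
            quo := ⟨inferInstance, hmap, hspan⟩ }, ⟨fun f => ?_, ?_⟩⟩
  · change π' f = 0 ↔ _
    constructor
    · intro h1 p q
      rw [← hπ', h1]
      rfl
    · intro h1
      ext p q
      rw [hπ', h1]
      rfl
  · obtain ⟨e, he⟩ := mat_cen (F := z.F) (Q := z.Q) ν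
    exact ⟨e, fun c => he (algebraMap k z.F c)⟩

end Pool.Agent.MP_6e5bed_ag_BI
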