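import Pool.Agent.Lib.MP_6e5bed_ag_BI.EMo
import Pool.Agent.Lib.MP_6e5bed_ag_BI.ECo

set_option autoImplicit false
set_option linter.unusedVariables false
set_option linter.unusedSectionVars false

/-!
# MP_6e5bed_ag, THEOREM T: all simple quotients of the algebra of endomorphisms are given by
matrices
-/

noncomputable section

namespace Pool.Agent.MP_6e5bed_ag_BI

open MvPolynomial Pool.Agent.MP_6e5bed_ag_Pn

universe u v

variable {ν : ℕ} {k Γ : Type u} [Field k] [Ring Γ] [Algebra k Γ]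
  [Algebra (MvPolynomial (Fin (ν + 1)) k) Γ] [IsScalarTower k (MvPolynomial (Fin (ν + 1)) k) Γ]
  {𝒢 : ℕ → Submodule k Γ}

/-- the central element `x_j` of `Γ` -/
private def emX (ν : ℕ) (k Γ : Type u) [Field k] [Ring Γ]
    [Algebra (MvPolynomial (Fin (ν + 1)) k) Γ] (j : Fin (ν + 1)) : Γ :=
  algebraMap (MvPolynomial (Fin (ν + 1)) k) Γ (X j)

private theorem emX_comm (j : Fin (ν + 1)) (m : ℕ) (x : Γ) :
    emX ν k Γ j ^ m * x = x * emX ν k Γ j ^ m := by
  unfold emX
  rw [← map_pow]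
  exact Algebra.commutes _ _

private theorem emX_mem (h : IsGr ν 𝒢) (j : Fin (ν + 1)) (m : ℕ) : emX ν k Γ j ^ m ∈ 𝒢 m := by
  induction m with
  | zero => rw [pow_zero]; exact h.one
  | succ m ih =>
    rw [pow_succ]
    exact h.mul _ _ _ _ ih (h.var j)

private theorem em_single (h : IsGr ν 𝒢) {d D : ℕ} (p q : Fin (ν + 1))
    (hD : (D : ℤ) + ((p : ℕ) : ℤ) - ((q : ℕ) : ℤ) = (d : ℤ)) {x : Γ} (hx : x ∈ 𝒢 d) :
    Matrix.single p q x ∈ EndDeg ν 𝒢 D := by
  intro p' q'
  by_cases hpq : p = p' ∧ q = q'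
  · obtain ⟨rfl, rfl⟩ := hpq
    rw [Matrix.single_apply_same, hD, GrZ_nat]
    exact hx
  · rw [Matrix.single_apply_of_ne _ _ _ _ _ hpq]
    exact Submodule.zero_mem _

private theorem em_top (h : IsGr ν 𝒢) (x : Γ) : x ∈ ⨆ d, 𝒢 d := by
  rw [h.int.submodule_iSup_eq_top]
  exact Submodule.mem_top

private theorem em_mem (h : IsGr ν 𝒢) (j p q : Fin (ν + 1)) (x : Γ) :
    Matrix.single p q (x * emX ν k Γ j ^ ν) ∈ EndG h := by
  refine Submodule.iSup_induction 𝒢
    (motive := fun x => Matrix.single p q (x * emX ν k Γ j ^ ν) ∈ EndG h) (em_top h x) ?_ ?_ ?_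
  · intro d x hx
    rw [mem_EndG]
    have h1 := p.isLt
    have h2 := q.isLt
    refine Submodule.mem_iSup_of_mem (d + ν + (q : ℕ) - (p : ℕ))
      (em_single h p q ?_ (h.mul _ _ _ _ hx (emX_mem h j ν)))
    omega
  · rw [zero_mul, Matrix.single_zero]
    exact Subalgebra.zero_mem _
  · intro x y hx hy
    rw [add_mul, Matrix.single_add]
    exact Subalgebra.add_mem _ hx hy

private def emM (h : IsGr ν 𝒢) (j p q : Fin (ν + 1)) (x : Γ) : EndG h :=
  ⟨Matrix.single p q (x * emX ν k Γ j ^ ν), em_mem h j p q x⟩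

/-- the image of the matrix unit -/
private def emT (h : IsGr ν 𝒢) (w : SQ ν k (EndG h)) (j p q : Fin (ν + 1)) (x : Γ) : w.Q :=
  w.π (emM h j p q x)

private theorem emT_zero (h : IsGr ν 𝒢) (w : SQ ν k (EndG h)) (j p q : Fin (ν + 1)) :
    emT h w j p q 0 = 0 := by
  have h1 : emM h j p q 0 = 0 := Subtype.ext (by
    change Matrix.single p q ((0 : Γ) * emX ν k Γ j ^ ν) = 0
    rw [zero_mul, Matrix.single_zero])
  unfold emT
  rw [h1, map_zero]

private theorem emT_add (h : IsGr ν 𝒢) (w : SQ ν k (EndG h)) (j p q : Fin (ν + 1)) (x y : Γ) :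
    emT h w j p q (x + y) = emT h w j p q x + emT h w j p q y := by
  have h1 : emM h j p q (x + y) = emM h j p q x + emM h j p q y := Subtype.ext (by
    change Matrix.single p q ((x + y) * emX ν k Γ j ^ ν) =
      Matrix.single p q (x * emX ν k Γ j ^ ν) + Matrix.single p q (y * emX ν k Γ j ^ ν)
    rw [add_mul, Matrix.single_add])
  unfold emT
  rw [h1, map_add]

/-- the scalar matrix `x_j ^ m` -/
private def emS (h : IsGr ν 𝒢) (j : Fin (ν + 1)) (m : ℕ) : EndG h :=
  algebraMap (MvPolynomial (Fin (ν + 1)) k) (EndG h) (X j ^ m)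

private theorem emS_apply (h : IsGr ν 𝒢) (j : Fin (ν + 1)) (m : ℕ)
    (f : Matrix (Fin (ν + 1)) (Fin (ν + 1)) Γ) (p q : Fin (ν + 1)) :
    ((emS h j m).1 * f) p q = emX ν k Γ j ^ m * f p q := by
  have h1 : (emS h j m).1 = algebraMap (MvPolynomial (Fin (ν + 1)) k)
      (Matrix (Fin (ν + 1)) (Fin (ν + 1)) Γ) (X j ^ m) := rfl
  rw [h1, ← Algebra.smul_def, Matrix.smul_apply, Algebra.smul_def, map_pow]
  rfl

private theorem emS_pi (h : IsGr ν 𝒢) (w : SQ ν k (EndG h)) {j : Fin (ν + 1)} (hj : w.a j = 1)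
    (m : ℕ) : w.π (emS h j m) = 1 := by
  unfold emS
  rw [w.quo.map, map_pow, aeval_X, hj, one_pow, map_one]

/-- three factors -/
private theorem emT_mul3 (h : IsGr ν 𝒢) (w : SQ ν k (EndG h)) {j : Fin (ν + 1)} (hj : w.a j = 1)
    (p q r t : Fin (ν + 1)) (x y : Γ) (f : EndG h) :
    emT h w j p q x * w.π f * emT h w j r t y = emT h w j p t (x * f.1 q r * y) := by
  have h1 : emM h j p q x * f * emM h j r t y = emS h j ν * emM h j p t (x * f.1 q r * y) := by
    apply Subtype.ext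
    change Matrix.single p q (x * emX ν k Γ j ^ ν) * f.1 * Matrix.single r t (y * emX ν k Γ j ^ ν) =
      (emS h j ν).1 * Matrix.single p t (x * f.1 q r * y * emX ν k Γ j ^ ν)
    ext a b
    rw [emS_apply, Matrix.single_mul_mul_single]
    by_cases hpt : p = a ∧ t = b
    · obtain ⟨rfl, rfl⟩ := hpt
      rw [Matrix.single_apply_same, Matrix.single_apply_same, emX_comm]
      simp only [mul_assoc]
      rw [← mul_assoc (emX ν k Γ j ^ ν) (f.1 q r), emX_comm, mul_assoc (f.1 q r),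
        ← mul_assoc (emX ν k Γ j ^ ν) y, emX_comm, mul_assoc y]
    · rw [Matrix.single_apply_of_ne _ _ _ _ _ hpt, Matrix.single_apply_of_ne _ _ _ _ _ hpt,
        mul_zero]
  unfold emT
  rw [← map_mul, ← map_mul, h1, map_mul, emS_pi h w hj, one_mul]

private theorem emT_mul (h : IsGr ν 𝒢) (w : SQ ν k (EndG h)) {j : Fin (ν + 1)} (hj : w.a j = 1)
    (p q t : Fin (ν + 1)) (x y : Γ) :
    emT h w j p q x * emT h w j q t y = emT h w j p t (x * y) := by
  have h1 := emT_mul3 h w hj p q q t x y 1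
  rw [map_one, mul_one] at h1
  rw [h1]
  congr 2
  change x * (1 : Matrix (Fin (ν + 1)) (Fin (ν + 1)) Γ) q q = x
  rw [Matrix.one_apply_eq, mul_one]

private theorem emT_sum (h : IsGr ν 𝒢) (w : SQ ν k (EndG h)) {j : Fin (ν + 1)} (hj : w.a j = 1) :
    ∑ p, emT h w j p p 1 = 1 := by
  have h1 : ∑ p, emM h j p p 1 = emS h j ν := by
    apply Subtype.ext
    have h2 : (∑ p, emM h j p p 1).1 = ∑ p, (emM h j p p 1).1 := by
      exact map_sum (EndG h).val _ _
    rw [h2]
    have h3 : ∑ p, (emM h j p p 1).1 = (emS h j ν).1 * 1 := by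
      ext a b
      rw [emS_apply, Matrix.sum_apply, Matrix.one_apply]
      change ∑ p, Matrix.single p p ((1 : Γ) * emX ν k Γ j ^ ν) a b = _
      by_cases hab : a = b
      · subst hab
        rw [Finset.sum_eq_single a, Matrix.single_apply_same, one_mul, if_pos rfl, mul_one]
        · intro c _ hc
          exact Matrix.single_apply_of_ne _ _ _ _ _ fun hh => hc hh.1
        · intro hh
          exact absurd (Finset.mem_univ _) hh
      · rw [if_neg hab, mul_zero]
        refine Finset.sum_eq_zero fun c _ => ?_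
        exact Matrix.single_apply_of_ne _ _ _ _ _ fun hh => hab (hh.1.symm.trans hh.2)
    rw [h3, mul_one]
  unfold emT
  rw [← map_sum, h1, emS_pi h w hj]

private theorem emT_eq (h : IsGr ν 𝒢) (w : SQ ν k (EndG h)) {j : Fin (ν + 1)} (hj : w.a j = 1)
    (f : EndG h) : w.π f = ∑ p, ∑ q, emT h w j p q (f.1 p q) := by
  calc w.π f = (∑ p, emT h w j p p 1) * w.π f * (∑ q, emT h w j q q 1) := by
        rw [emT_sum h w hj, one_mul, mul_one]
    _ = ∑ p, ∑ q, emT h w j p p 1 * w.π f * emT h w j q q 1 := by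
        rw [Finset.sum_mul, Finset.sum_mul_sum]
    _ = _ := Finset.sum_congr rfl fun p _ => Finset.sum_congr rfl fun q _ => by
        rw [emT_mul3 h w hj, one_mul, mul_one]

/-- EMb2. PROOF. Let `w.a j = 1` and let `E_{pq}` be the matrix units; `E_{00} ∈ EndG h`, and
`E_{pq} x_j ^ ν ∈ EndG h`, `w.π (x_j) = 1` (`x_j` the scalar matrix). Put `e = w.π (E_{00})`; `e ≠ 0`,
since otherwise all `w.π (E_{pp}) = w.π (E_{p0} x_j ^ ν) w.π (E_{00}) w.π (E_{0p} x_j ^ ν) = 0` and
`1 = 0`. Let `Q0`, `j` be the corner (`exists_corner`) and `π x = j⁻¹ (w.π (x E_{00}))`; a ring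
homomorphism `Γ → Q0` (`x E_{00} ∈ EndG h` for all `x ∈ Γ`). `map`: `w.quo.map`. `span`:
`e Q e` is spanned by the `e w.π (f) e = w.π (f_{00} E_{00})`. `Mo.ker`: `w.π f = 0` iff all
`w.π (E_{0p} x_j ^ ν) w.π (f) w.π (E_{q0} x_j ^ ν) = w.π (f_{pq} x_j ^ (2 ν) E_{00})` are zero
(`f = ∑ E_{pp} f E_{qq}`, `E_{pp} x_j ^ (2 ν) = (E_{p0} x_j ^ ν) E_{00} (E_{0p} x_j ^ ν)`), and
`w.π (x_j) = 1`. -/
theorem exists_mo' (h : IsGr ν 𝒢) (w : SQ ν k (EndG h)) : ∃ z : SQ ν k Γ, Mo h z w := by
  obtain ⟨j, hj⟩ := w.pt.one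
  have hsim := w.quo.simple
  have hnt : Nontrivial w.Q := inferInstance
  have he : emT h w j 0 0 1 * emT h w j 0 0 1 = emT h w j 0 0 1 := by
    rw [emT_mul h w hj, one_mul]
  have h0 : emT h w j 0 0 1 ≠ 0 := by
    intro h1
    have h2 : ∑ p, emT h w j p p 1 = 0 := Finset.sum_eq_zero fun p _ => by
      have h3 : emT h w j p 0 1 * emT h w j 0 0 1 * emT h w j 0 p 1 = emT h w j p p 1 := by
        rw [emT_mul h w hj, emT_mul h w hj, one_mul, one_mul]
      rw [← h3, h1, mul_zero, zero_mul]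
    rw [emT_sum h w hj] at h2
    exact one_ne_zero h2
  obtain ⟨Q0, hQ1, hQ2, j0, hs, hinj, himg, hmul, hone, c, hc⟩ :=
    exists_corner (F := w.F) hsim he h0
  have hex : ∀ x : Γ, ∃ y : Q0, j0 y = emT h w j 0 0 x := fun x => by
    rw [himg, emT_mul h w hj, emT_mul h w hj, one_mul, mul_one]
  choose π0 hπ0 using hex
  let π : Γ →+* Q0 :=
    { toFun := π0
      map_one' := hinj (by rw [hπ0, hone])
      map_mul' := fun x y => hinj (by rw [hmul, hπ0, hπ0, hπ0, emT_mul h w hj])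
      map_zero' := hinj (by rw [hπ0, map_zero, emT_zero])
      map_add' := fun x y => hinj (by rw [map_add, hπ0, hπ0, hπ0, emT_add]) }
  have hπ : ∀ x, j0 (π x) = emT h w j 0 0 x := hπ0
  have hz : ∀ x, π x = 0 ↔ emT h w j 0 0 x = 0 := fun x => by
    rw [← hπ]
    exact (map_eq_zero_iff j0 hinj).symm
  have hquo : IsQuo k w.a π := by
    refine ⟨hs, fun p => hinj ?_, ?_⟩
    · rw [hπ, Algebra.algebraMap_eq_smul_one (R := w.F) (A := Q0), map_smul, hone]
      have h1 : emM h j 0 0 (algebraMap (MvPolynomial (Fin (ν + 1)) k) Γ p) =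
          algebraMap (MvPolynomial (Fin (ν + 1)) k) (EndG h) p * emM h j 0 0 1 := by
        apply Subtype.ext
        change Matrix.single 0 0 (algebraMap (MvPolynomial (Fin (ν + 1)) k) Γ p *
          emX ν k Γ j ^ ν) = algebraMap (MvPolynomial (Fin (ν + 1)) k)
          (Matrix (Fin (ν + 1)) (Fin (ν + 1)) Γ) p * Matrix.single 0 0 ((1 : Γ) * emX ν k Γ j ^ ν)
        rw [one_mul, ← Algebra.smul_def p (Matrix.single 0 0 (emX ν k Γ j ^ ν)),
          Matrix.smul_single, Algebra.smul_def p (emX ν k Γ j ^ ν)]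
      unfold emT
      rw [h1, map_mul, w.quo.map]
      exact (Algebra.smul_def (aeval w.a p : w.F) (w.π (emM h j 0 0 1) : w.Q)).symm
    · rw [eq_top_iff]
      intro y _
      have key : ∀ u : w.Q, emT h w j 0 0 1 * u * emT h w j 0 0 1 ∈
          (Submodule.span w.F (Set.range π)).map j0 := by
        intro u
        have hu : u ∈ Submodule.span w.F (Set.range w.π) := by
          rw [w.quo.span]
          exact Submodule.mem_top
        induction hu using Submodule.span_induction with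
        | mem u hu =>
          obtain ⟨f, rfl⟩ := hu
          rw [emT_mul3 h w hj, one_mul, mul_one, ← hπ]
          exact Submodule.mem_map_of_mem (Submodule.subset_span ⟨_, rfl⟩)
        | zero =>
          rw [mul_zero, zero_mul]
          exact Submodule.zero_mem _
        | add u v _ _ hu hv =>
          rw [mul_add, add_mul]
          exact Submodule.add_mem _ hu hv
        | smul s u _ hu =>
          rw [mul_smul_comm, smul_mul_assoc]
          exact Submodule.smul_mem _ _ hu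
      have h1 := key (j0 y)
      rw [(himg (j0 y)).1 ⟨y, rfl⟩] at h1
      obtain ⟨y', hy', hyy⟩ := h1
      rw [← hinj hyy]
      exact hy'
  let z : SQ ν k Γ := { F := w.F, a := w.a, Q := Q0, π := π, pt := w.pt, quo := hquo }
  refine ⟨z, ⟨fun f => ?_, ⟨c, fun s => hc _⟩⟩⟩
  constructor
  · intro hf p q
    refine (hz _).2 ?_
    have h1 := emT_mul3 h w hj 0 p q 0 1 1 f
    rw [hf, mul_zero, zero_mul, one_mul, mul_one] at h1
    exact h1.symm
  · intro hf
    rw [emT_eq h w hj]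
    refine Finset.sum_eq_zero fun p _ => Finset.sum_eq_zero fun q _ => ?_
    have h1 : emT h w j p 0 1 * emT h w j 0 0 (f.1 p q) * emT h w j 0 q 1 =
        emT h w j p q (f.1 p q) := by
      rw [emT_mul h w hj, emT_mul h w hj, one_mul, mul_one]
    rw [← h1, (hz _).1 (hf p q), mul_zero, zero_mul]

end Pool.Agent.MP_6e5bed_ag_BI
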