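import Pool.Agent.Lib.MP_6e5bed_ag_BI.ERl

set_option autoImplicit false
set_option linter.unusedVariables false
set_option linter.unusedSectionVars false

/-!
# MP_6e5bed_ag, THEOREM T: simple quotients of `Γ` and of the algebra of endomorphisms, definitions
-/

noncomputable section

namespace Pool.Agent.MP_6e5bed_ag_BI

open MvPolynomial Pool.Agent.MP_6e5bed_ag_Pn

universe u v

variable {ν : ℕ} {k Γ : Type u} [Field k] [Ring Γ] [Algebra k Γ]
  [Algebra (MvPolynomial (Fin (ν + 1)) k) Γ] [IsScalarTower k (MvPolynomial (Fin (ν + 1)) k) Γ]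
  {𝒢 : ℕ → Submodule k Γ}

/-- The simple quotients `z` of `Γ` and `w` of the algebra of endomorphisms correspond to each
other. -/
structure Mo (h : IsGr ν 𝒢) (z : SQ ν k Γ) (w : SQ ν k (EndG h)) : Prop where
  ker : ∀ f : EndG h, w.π f = 0 ↔ ∀ p q, z.π (f.1 p q) = 0
  cen : CIso z.cen w.cen

/-- EMo1. The scalar matrices `x 1`, for `x ∈ 𝒢 d`, are homogeneous of degree `d`. -/
theorem scal_mem (h : IsGr ν 𝒢) {d : ℕ} {x : Γ} (hx : x ∈ 𝒢 d) :
    Matrix.scalar (Fin (ν + 1)) x ∈ EndDeg ν 𝒢 d := by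
  intro p q
  rw [Matrix.scalar_apply, Matrix.diagonal_apply]
  split_ifs with hpq
  · subst hpq
    have h1 : (d : ℤ) + ((p : ℕ) : ℤ) - ((p : ℕ) : ℤ) = (d : ℤ) := by omega
    rw [h1, GrZ_nat]
    exact hx
  · exact Submodule.zero_mem _

/-- the scalar matrix as an element of the algebra of endomorphisms -/
private def EMo_sc (h : IsGr ν 𝒢) {d : ℕ} {x : Γ} (hx : x ∈ 𝒢 d) : EndG h :=
  ⟨Matrix.scalar (Fin (ν + 1)) x, (mem_EndG h).2 (Submodule.mem_iSup_of_mem d (scal_mem h hx))⟩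

private theorem EMo_sc_mem (h : IsGr ν 𝒢) {d : ℕ} {x : Γ} (hx : x ∈ 𝒢 d) :
    EMo_sc h hx ∈ EndGr h d := (mem_EndGr h).2 (scal_mem h hx)

private theorem EMo_sc_π (h : IsGr ν 𝒢) {z : SQ ν k Γ} {w : SQ ν k (EndG h)} (hz : Mo h z w)
    {d : ℕ} {x : Γ} (hx : x ∈ 𝒢 d) : w.π (EMo_sc h hx) = 0 ↔ z.π x = 0 := by
  rw [hz.ker]
  have e : ∀ p q, (EMo_sc h hx).1 p q = if p = q then x else 0 := fun p q => by
    change Matrix.scalar (Fin (ν + 1)) x p q = _
    rw [Matrix.scalar_apply, Matrix.diagonal_apply]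
  constructor
  · intro h1
    have h2 := h1 0 0
    rwa [e, if_pos rfl] at h2
  · intro h1 p q
    rw [e]
    split_ifs
    · exact h1
    · exact map_zero z.π

private theorem EMo_ent (h : IsGr ν 𝒢) {z z' : SQ ν k Γ} (hs : z.Same 𝒢 z') {e : ℤ} {x : Γ}
    (hx : x ∈ GrZ 𝒢 e) : z.π x = 0 ↔ z'.π x = 0 := by
  rcases lt_or_ge e 0 with he | he
  · rw [GrZ_neg 𝒢 he, Submodule.mem_bot] at hx
    rw [hx, map_zero, map_zero]
    exact ⟨fun _ => rfl, fun _ => rfl⟩
  · obtain ⟨e, rfl⟩ := Int.eq_ofNat_of_zero_le he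
    rw [GrZ_nat] at hx
    exact hs e x hx

/-- EMo2. PROOF. From left to right: the entries of a homogeneous matrix are homogeneous or zero.
From right to left: the matrices `x 1`. -/
theorem mo_same (h : IsGr ν 𝒢) {z z' : SQ ν k Γ} {w w' : SQ ν k (EndG h)} (hz : Mo h z w)
    (hz' : Mo h z' w') : z.Same 𝒢 z' ↔ w.Same (EndGr h) w' := by
  constructor
  · intro hs d f hf
    rw [hz.ker, hz'.ker]
    constructor
    · intro h1 p q
      exact (EMo_ent h hs (hf p q)).1 (h1 p q)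
    · intro h1 p q
      exact (EMo_ent h hs (hf p q)).2 (h1 p q)
  · intro hs d x hx
    rw [← EMo_sc_π h hz hx, ← EMo_sc_π h hz' hx]
    exact hs d _ (EMo_sc_mem h hx)

/-- EMo3. PROOF. Take the matrix `c 1`. -/
theorem mo_isol (h : IsGr ν 𝒢) {z : SQ ν k Γ} {w : SQ ν k (EndG h)} (hz : Mo h z w)
    (hi : z.Isol 𝒢) : w.Isol (EndGr h) := by
  obtain ⟨d, c, hc, hc0, hk⟩ := hi
  refine ⟨d, EMo_sc h hc, EMo_sc_mem h hc, ?_, ?_⟩
  · intro h1
    exact hc0 ((EMo_sc_π h hz hc).1 h1)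
  · intro e f hf hf0
    have h1 : ∀ p q, c * f.1 p q = 0 ∧ f.1 p q * c = 0 := by
      intro p q
      have h2 := (hz.ker f).1 hf0 p q
      have h3 : f.1 p q ∈ GrZ 𝒢 ((e : ℤ) + ((p : ℕ) : ℤ) - ((q : ℕ) : ℤ)) := hf p q
      rcases lt_or_ge ((e : ℤ) + ((p : ℕ) : ℤ) - ((q : ℕ) : ℤ)) 0 with he | he
      · rw [GrZ_neg 𝒢 he, Submodule.mem_bot] at h3
        rw [h3, mul_zero, zero_mul]
        exact ⟨rfl, rfl⟩
      · obtain ⟨e', he'⟩ := Int.eq_ofNat_of_zero_le he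
        rw [he', GrZ_nat] at h3
        exact hk e' _ h3 h2
    constructor
    · refine Subtype.ext (Matrix.ext fun p q => ?_)
      change (Matrix.scalar (Fin (ν + 1)) c * f.1) p q = 0
      rw [Matrix.scalar_apply, Matrix.diagonal_mul]
      exact (h1 p q).1
    · refine Subtype.ext (Matrix.ext fun p q => ?_)
      change (f.1 * Matrix.scalar (Fin (ν + 1)) c) p q = 0
      rw [Matrix.scalar_apply, Matrix.mul_diagonal]
      exact (h1 p q).2

end Pool.Agent.MP_6e5bed_ag_BI
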