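import Pool.Agent.Lib.MP_6e5bed_ag_BI.ERl

set_option autoImplicit false
set_option linter.unusedVariables false
set_option linter.unusedSectionVars false

/-!
# MP_6e5bed_ag, THEOREM T: from simple quotients to generic data
-/

noncomputable section

namespace Pool.Agent.MP_6e5bed_ag_BI

open MvPolynomial Pool.Agent.MP_6e5bed_ag_NC Pool.Agent.MP_6e5bed_ag_GG Pool.Agent.MP_6e5bed_ag_WW
open Pool.Agent.MP_6e5bed_ag_Pn Pool.Agent.MP_6e5bed_ag_GP
open Pool.Agent.MP_6e5bed_ag_PN hiding Ch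

universe u v

variable {ν : ℕ} {k Γ : Type u} [Field k] [Ring Γ] [Algebra k Γ]
  [Algebra (MvPolynomial (Fin (ν + 1)) k) Γ] [IsScalarTower k (MvPolynomial (Fin (ν + 1)) k) Γ]
  {𝒢 : ℕ → Submodule k Γ} {i : Type} [Fintype i] [DecidableEq i]
  {B : Finset (Fin (ν + 1)) → Type u} [∀ I, Ring (B I)] [∀ I, Algebra k (B I)]
  {r : ∀ I J : Finset (Fin (ν + 1)), I ⊆ J → B I →ₐ[k] B J}
  {q : ∀ I : Finset (Fin (ν + 1)), ℕ → Γ → B I}

section quo

variable {F Q : Type u} [Field F] [Algebra k F] [Ring Q] [Algebra F Q] {a : Fin (ν + 1) → F}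
  {π : Γ →+* Q}

omit [Algebra k Γ] [IsScalarTower k (MvPolynomial (Fin (ν + 1)) k) Γ] in
theorem ERa_smul (hπ : IsQuo k a π) (p : MvPolynomial (Fin (ν + 1)) k) (x : Γ) :
    π (p • x) = aeval a p • π x := by
  rw [Algebra.smul_def, map_mul, hπ.map, ← Algebra.smul_def]

theorem ERa_xp (a : Fin (ν + 1) → F) (I : Finset (Fin (ν + 1))) :
    aeval a (xp k I) = ∏ x ∈ I, a x := by
  unfold xp
  rw [map_prod]
  exact Finset.prod_congr rfl fun x _ => aeval_X a x

theorem ERa_mm (a : Fin (ν + 1) → F) (f : Fin (ν + 1) → ℕ) :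
    aeval a (mm k f) = ∏ x, a x ^ f x := by
  unfold mm
  rw [map_prod]
  exact Finset.prod_congr rfl fun x _ => by rw [map_pow, aeval_X]

/-- The values of the fractions are well-defined. -/
theorem ERa_well (h : IsGr ν 𝒢) (hq : IsSec 𝒢 r q) (hπ : IsQuo k a π)
    {I : Finset (Fin (ν + 1))} (hA : ∏ x ∈ I, a x ≠ 0) {l m : ℕ} {x y : Γ}
    (hx : x ∈ 𝒢 (l * I.card)) (hy : y ∈ 𝒢 (m * I.card)) (he : q I l x = q I m y) :
    (∏ x ∈ I, a x)⁻¹ ^ l • π x = (∏ x ∈ I, a x)⁻¹ ^ m • π y := by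
  obtain ⟨N, hN⟩ := (hq.eq_iff h hx hy).1 he
  have h1 := congrArg π hN
  rw [ERa_smul hπ, map_sub, ERa_smul hπ, ERa_smul hπ, map_zero, map_pow, map_pow, map_pow,
    ERa_xp] at h1
  have h2 : (∏ x ∈ I, a x) ^ m • π x = (∏ x ∈ I, a x) ^ l • π y :=
    sub_eq_zero.1 ((IsUnit.mk0 _ (pow_ne_zero N hA)).smul_eq_zero.1 h1)
  rw [inv_pow, inv_pow, inv_smul_eq_iff₀ (pow_ne_zero l hA), smul_comm, ← h2,
    inv_smul_smul₀ (pow_ne_zero m hA)]

/-- The values of the fractions. -/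
theorem ERa_psi (h : IsGr ν 𝒢) (hq : IsSec 𝒢 r q) (hπ : IsQuo k a π) [Algebra k Q]
    [IsScalarTower k F Q] {I : Finset (Fin (ν + 1))} (hA : ∏ x ∈ I, a x ≠ 0) :
    ∃ ψ : B I →ₐ[k] Q, ∀ (l : ℕ) (x : Γ), x ∈ 𝒢 (l * I.card) →
      ψ (q I l x) = (∏ x ∈ I, a x)⁻¹ ^ l • π x := by
  choose L X' hX hL using hq.surj I
  obtain ⟨V, hV⟩ : ∃ V : B I → Q, ∀ (l : ℕ) (x : Γ), x ∈ 𝒢 (l * I.card) →
      V (q I l x) = (∏ x ∈ I, a x)⁻¹ ^ l • π x :=
    ⟨fun b => (∏ x ∈ I, a x)⁻¹ ^ L b • π (X' b),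
      fun l x hx => ERa_well h hq hπ hA (hX _) hx (hL _)⟩
  have hc : ∀ c : k, algebraMap k Γ c ∈ 𝒢 (0 * I.card) := fun c => by
    rw [Nat.zero_mul, Algebra.algebraMap_eq_smul_one]
    exact (𝒢 0).smul_mem c h.one
  have hπc : ∀ c : k, π (algebraMap k Γ c) = algebraMap k Q c := fun c => by
    have h1 := hπ.map (C c)
    rw [aeval_C, ← IsScalarTower.algebraMap_apply k F Q] at h1
    rw [← h1, IsScalarTower.algebraMap_apply k (MvPolynomial (Fin (ν + 1)) k) Γ]
    rfl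
  have h1 : ∀ c : k, V (algebraMap k (B I) c) = algebraMap k Q c := fun c => by
    rw [← hq.const, hV 0 _ (hc c), pow_zero, one_smul, hπc]
  have hmul : ∀ b b', V (b * b') = V b * V b' := fun b b' => by
    obtain ⟨l, x, hx, rfl⟩ := hq.surj I b
    obtain ⟨m, y, hy, rfl⟩ := hq.surj I b'
    have h2 : x * y ∈ 𝒢 ((l + m) * I.card) := by
      rw [Nat.add_mul]
      exact h.mul _ _ _ _ hx hy
    rw [← hq.mul I l m x y hx hy, hV _ _ h2, hV _ _ hx, hV _ _ hy, map_mul, pow_add,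
      smul_mul_smul_comm]
  have hadd : ∀ b b', V (b + b') = V b + V b' := fun b b' => by
    obtain ⟨l, x, hx, rfl⟩ := hq.surj I b
    obtain ⟨m, y, hy, rfl⟩ := hq.surj I b'
    have h2 := xp_mem h (m := m) hx
    have h3 := xp_mem h (m := l) hy
    have e2 := hq.step_pow h m hx
    have e3 := hq.step_pow h l hy
    rw [Nat.add_comm m l] at h3 e3
    rw [← e2, ← e3, ← hq.add I _ _ _ h2 h3, hV _ _ (Submodule.add_mem _ h2 h3), hV _ _ h2,
      hV _ _ h3, map_add, smul_add]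
  exact ⟨{ toFun := V
           map_one' := by
             have h2 := h1 1
             rwa [map_one, map_one] at h2
           map_mul' := hmul
           map_zero' := by
             have h2 := h1 0
             rwa [map_zero, map_zero] at h2
           map_add' := hadd
           commutes' := h1 }, hV⟩

variable {c : Set i} [Algebra k Q] [IsScalarTower k F Q]

/-- The dehomogenisations are mapped to the values of `π`. -/
theorem ERa_deh (h : IsGr ν 𝒢) (hq : IsSec 𝒢 r q) (hπ : IsQuo k a π) (σ : i ≃ Fin (ν + 1))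
    {g : i} (hg : g ∈ c) (hg1 : a (σ g) = 1) (hA : ∏ x ∈ tf σ c, a x ≠ 0)
    {ψ : B (tf σ c) →ₐ[k] Q} (hψ : ∀ (l : ℕ) (x : Γ), x ∈ 𝒢 (l * (tf σ c).card) →
      ψ (q (tf σ c) l x) = (∏ x ∈ tf σ c, a x)⁻¹ ^ l • π x) (x : Γ) :
    ψ (deh h hq σ hg x) = π x := by
  classical
  induction x using hom_ind h with
  | h1 m x hx =>
    have h1 : aeval a (mm k (eg σ c g m)) = (∏ x ∈ tf σ c, a x) ^ m := by
      rw [ERa_mm, ← Finset.prod_pow, ← Finset.prod_subset (Finset.subset_univ (tf σ c))]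
      · refine Finset.prod_congr rfl fun x hx => ?_
        unfold eg
        by_cases hxg : σ.symm x = g
        · have h2 : a x = 1 := by rw [← hg1, ← hxg, Equiv.apply_symm_apply]
          rw [h2, one_pow, one_pow]
        · rw [if_pos ⟨mem_tf.1 hx, hxg⟩]
      · intro x _ hx
        unfold eg
        rw [if_neg (fun hh => hx (mem_tf.2 hh.1)), pow_zero]
    rw [deh_apply h hq σ hg hx, hψ _ _ (eg_mem h σ hg hx), ERa_smul hπ, h1, inv_pow,
      inv_smul_smul₀ (pow_ne_zero m hA)]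
  | h0 => rw [map_zero, map_zero, map_zero]
  | h2 x y hx hy => rw [map_add, map_add, map_add, hx, hy]

/-- The values of the functions are in `F`. -/
theorem ERa_val (h : IsGr ν 𝒢) (hq : IsSec 𝒢 r q) (hπ : IsQuo k a π) (σ : i ≃ Fin (ν + 1))
    {ψ : B (tf σ c) →ₐ[k] Q} (hψ : ∀ (l : ℕ) (x : Γ), x ∈ 𝒢 (l * (tf σ c).card) →
      ψ (q (tf σ c) l x) = (∏ x ∈ tf σ c, a x)⁻¹ ^ l • π x) (f : RR k c) :
    ∃ y : F, ψ (rho h hq σ c f) = algebraMap F Q y := by
  induction f using RR_ind with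
  | hm e he =>
    refine ⟨(∏ x ∈ tf σ c, a x)⁻¹ ^ Nb e * aeval a (mm k (eo σ c e (Nb e))), ?_⟩
    rw [rho_mon h hq σ he (nn_Nb he)]
    unfold Mq
    rw [hψ _ _ (Mq_mem h σ (nn_Nb he) he.1), ERa_smul hπ, map_one, smul_smul,
      ← Algebra.algebraMap_eq_smul_one]
  | h0 => exact ⟨0, by rw [map_zero, map_zero, map_zero]⟩
  | ha f g hf hg =>
    obtain ⟨y, hy⟩ := hf
    obtain ⟨z, hz⟩ := hg
    exact ⟨y + z, by rw [map_add, map_add, map_add, hy, hz]⟩
  | hs s f hf =>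
    obtain ⟨y, hy⟩ := hf
    exact ⟨algebraMap k F s * y, by
      rw [map_smul, map_smul, hy, map_mul, ← IsScalarTower.algebraMap_apply, Algebra.smul_def]⟩

/-- The functions which vanish at the point. -/
theorem ERa_zero (h : IsGr ν 𝒢) (hq : IsSec 𝒢 r q) (hπ : IsQuo k a π) (σ : i ≃ Fin (ν + 1))
    {ψ : B (tf σ c) →ₐ[k] Q} (hψ : ∀ (l : ℕ) (x : Γ), x ∈ 𝒢 (l * (tf σ c).card) →
      ψ (q (tf σ c) l x) = (∏ x ∈ tf σ c, a x)⁻¹ ^ l • π x) {g : i} (hg : g ∈ c) {l : i}
    (hl : l ∉ c) (h0 : a (σ l) = 0) : ψ (rho h hq σ c (tt k l hg)) = 0 := by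
  have h1 : NN c (ex l g) 1 := by
    have h2 := nn_nsmul (c := c) l hg 1
    rwa [one_smul] at h2
  have h2 : rho h hq σ c (tt k l hg) = Mq k q σ c (ex l g) 1 :=
    rho_mon h hq σ (isEx_ex _ hg) h1
  rw [h2]
  unfold Mq
  rw [hψ _ _ (Mq_mem h σ h1 (isEx_ex (c := c) l hg).1), ERa_smul hπ, ERa_mm]
  have h3 : ∏ x, a x ^ eo σ c (ex l g) 1 x = 0 := by
    refine Finset.prod_eq_zero (Finset.mem_univ (σ l)) ?_
    have h4 := eo_neg h1 (x := σ l) (σ := σ) (by rwa [Equiv.symm_apply_apply])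
    have hlg : l ≠ g := fun hh => hl (by rw [hh]; exact hg)
    rw [Equiv.symm_apply_apply, ex_apply, if_pos rfl, if_neg hlg, sub_zero] at h4
    have h5 : eo σ c (ex l g) 1 (σ l) = 1 := by exact_mod_cast h4
    rw [h5, h0, pow_one]
  rw [h3, zero_smul, smul_zero]

end quo

/-- A simple ring is prime. -/
theorem ERa_pr {Q : Type u} [Ring Q] (hQ : IsSimpleRing Q) (x y : Q)
    (hxy : ∀ z, x * z * y = 0) : x = 0 ∨ y = 0 := by
  by_contra hcon
  rw [not_or] at hcon
  let J : TwoSidedIdeal Q := TwoSidedIdeal.mk' {w | ∀ z, x * z * w = 0}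
    (fun z => mul_zero _)
    (fun {v w} hv hw z => by
      change x * z * (v + w) = 0
      rw [mul_add, hv, hw, add_zero])
    (fun {v} hv z => by
      change x * z * (-v) = 0
      rw [mul_neg, hv, neg_zero])
    (fun {v w} hw z => by
      change x * z * (v * w) = 0
      rw [← mul_assoc, mul_assoc x z v]
      exact hw _)
    (fun {v w} hv z => by
      change x * z * (v * w) = 0
      rw [← mul_assoc, hv, zero_mul])
  have hJ : ∀ w, w ∈ J ↔ ∀ z, x * z * w = 0 := fun w => TwoSidedIdeal.mem_mk' _ _ _ _ _ _ _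
  rcases hQ.simple.eq_bot_or_eq_top J with h1 | h1
  · have h2 : y ∈ J := (hJ y).2 hxy
    rw [h1, TwoSidedIdeal.mem_bot] at h2
    exact hcon.2 h2
  · have h2 : (1 : Q) ∈ J := by
      rw [h1]
      trivial
    have h3 := (hJ 1).1 h2 1
    rw [mul_one, mul_one] at h3
    exact hcon.1 h3

/-- ERa1. From a simple quotient `z` to generic data.
PROOF. `m = {x | z.a (σ x) ≠ 0}` (not empty by `z.pt.one`). `g.S = z.Q` (with the `k`-algebra
structure
from `F`), and `g.psi : B (tf σ m) → z.Q` is the map `q _ l x ↦ (∏ a_j)^(-l) π x`, the product over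
`j ∈ tf σ m`, for `x ∈ 𝒢 (l * |m|)`. It is well-defined: if `q _ l x = q _ l' x'` then (`hq.step`)
we
may assume `l = l'`, and `hq.zero` gives `(∏ x_j)^N • (x - x') = 0`, and `π` of `∏ x_j` is `∏ a_j ≠
0`
(`z.quo.map`). Additive, multiplicative (`hq.add`, `hq.mul`; the `a_j` are central in `Q`), linear
(`hq.const`). On the functions `psi (tt k l hg) = a_{σ l} / a_{σ g}` (write `tt k l hg` as a
fraction with
the denominator `∏ x_j`; `rho_mon` in GG). `zero`: `a_{σ l} = 0` for `l ∉ m`. `unit`: the functions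
are
mapped to `F`, and nonzero elements of `F` are units. `surj`: by `z.quo.span` an element `s` of `Q`
is
`∑ c_t π(x_t)`, with homogeneous `x_t` and `c_t ∈ F`; by `z.pt.gen` and `a_j = 1` every element of
`F`
is a quotient `psi f / psi f'` of functions (compare `toF_gen`, `toF_div` in GP/PRes). `pr`, `ne`:
`Q`
is simple (a two-sided ideal `{y | x Q y = 0}`). `ker`: by construction. `cen`: the centres of `Q`
over
`k` and over `F` have the same elements (compare `inFam_center` in GP/VHp). -/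
theorem exists_gd (h : IsGr ν 𝒢) (hq : IsSec 𝒢 r q) (σ : i ≃ Fin (ν + 1)) (z : SQ ν k Γ) :
    ∃ (m : Ch i) (g : GD (caOf h hq σ) m), Rl h hq σ z g := by
  obtain ⟨j, hj⟩ := z.pt.one
  have hsim := z.quo.simple
  have hj1 : z.a (σ (σ.symm j)) = 1 := by rw [Equiv.apply_symm_apply, hj]
  obtain ⟨m, hm⟩ : ∃ m : Ch i, ∀ x : i, x ∈ m.1 ↔ z.a (σ x) ≠ 0 :=
    ⟨⟨{x | z.a (σ x) ≠ 0}, ⟨σ.symm j, show z.a (σ (σ.symm j)) ≠ 0 by
      rw [hj1]
      exact one_ne_zero⟩, Set.toFinite _⟩, fun x => Iff.rfl⟩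
  let _ : Algebra k z.Q := Algebra.compHom z.Q (algebraMap k z.F)
  have htow : IsScalarTower k z.F z.Q := IsScalarTower.of_algebraMap_eq fun _ => rfl
  have hne : ∀ x ∈ tf σ m.1, z.a x ≠ 0 := fun x hx => by
    have h1 := (hm _).1 (mem_tf.1 hx)
    rwa [Equiv.apply_symm_apply] at h1
  have hA : ∏ x ∈ tf σ m.1, z.a x ≠ 0 := Finset.prod_ne_zero_iff.2 hne
  obtain ⟨ψ, hψ⟩ := ERa_psi h hq z.quo hA
  have hg : σ.symm j ∈ m.1 := (hm _).2 (by rw [hj1]; exact one_ne_zero)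
  choose ev hev using ERa_val h hq z.quo σ hψ
  have inj : Function.Injective (algebraMap z.F z.Q) := (algebraMap z.F z.Q).injective
  have hdeh := ERa_deh h hq z.quo σ hg hj1 hA hψ
  have ev_mul : ∀ f f', ev (f * f') = ev f * ev f' := fun f f' => inj (by
    rw [map_mul, ← hev, ← hev, ← hev, map_mul, map_mul])
  have ev_add : ∀ f f', ev (f + f') = ev f + ev f' := fun f f' => inj (by
    rw [map_add, ← hev, ← hev, ← hev, map_add, map_add])
  have ev_one : ev 1 = 1 := inj (by rw [← hev, map_one, map_one, map_one])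
  have ev_zero : ev 0 = 0 := inj (by rw [← hev, map_zero, map_zero, map_zero])
  have ev_C : ∀ s : k, ev (algebraMap k _ s) = algebraMap k z.F s := fun s => inj (by
    rw [← hev, AlgHom.commutes, AlgHom.commutes, IsScalarTower.algebraMap_apply k z.F z.Q])
  have ev_X : ∀ x, ev (tt k (σ.symm x) hg) = z.a x := fun x => inj (by
    rw [← hev, ← deh_X h hq σ hg x, hdeh, z.quo.map, aeval_X])
  -- the elements of `F` are quotients of values of functions
  have hF : ∀ s : z.F, ∃ f f', ev f ≠ 0 ∧ ev f' = ev f * s := by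
    intro s
    have hs : s ∈ IntermediateField.adjoin k (Set.range z.a) := by
      rw [z.pt.gen]
      trivial
    induction hs using IntermediateField.adjoin_induction with
    | mem x hx =>
      obtain ⟨y, rfl⟩ := hx
      exact ⟨1, tt k (σ.symm y) hg, by rw [ev_one]; exact one_ne_zero, by
        rw [ev_one, one_mul, ev_X]⟩
    | algebraMap x =>
      exact ⟨1, algebraMap k _ x, by rw [ev_one]; exact one_ne_zero, by
        rw [ev_one, one_mul, ev_C]⟩
    | add x y _ _ hx hy =>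
      obtain ⟨f, f', h1, h2⟩ := hx
      obtain ⟨g, g', h3, h4⟩ := hy
      refine ⟨f * g, f' * g + f * g', by rw [ev_mul]; exact mul_ne_zero h1 h3, ?_⟩
      rw [ev_add, ev_mul, ev_mul, ev_mul, h2, h4]
      ring
    | inv x _ hx =>
      obtain ⟨f, f', h1, h2⟩ := hx
      by_cases hx0 : x = 0
      · exact ⟨1, 0, by rw [ev_one]; exact one_ne_zero, by
          rw [ev_zero, hx0, inv_zero, mul_zero]⟩
      · exact ⟨f', f, by rw [h2]; exact mul_ne_zero h1 hx0, by
          rw [h2, mul_assoc, mul_inv_cancel₀ hx0, mul_one]⟩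
    | mul x y _ _ hx hy =>
      obtain ⟨f, f', h1, h2⟩ := hx
      obtain ⟨g, g', h3, h4⟩ := hy
      refine ⟨f * g, f' * g', by rw [ev_mul]; exact mul_ne_zero h1 h3, ?_⟩
      rw [ev_mul, ev_mul, h2, h4]
      ring
  have hQ : ∀ s : z.Q, ∃ f, ev f ≠ 0 ∧ ∃ b, ψ b = ev f • s := by
    intro s
    have hs : s ∈ Submodule.span z.F (Set.range z.π) := by
      rw [z.quo.span]
      trivial
    induction hs using Submodule.span_induction with
    | mem x hx =>
      obtain ⟨y, rfl⟩ := hx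
      exact ⟨1, by rw [ev_one]; exact one_ne_zero, deh h hq σ hg y, by
        rw [ev_one, one_smul, hdeh]⟩
    | zero =>
      exact ⟨1, by rw [ev_one]; exact one_ne_zero, 0, by rw [map_zero, smul_zero]⟩
    | add x y _ _ hx hy =>
      obtain ⟨f, h1, b, h2⟩ := hx
      obtain ⟨g, h3, b', h4⟩ := hy
      refine ⟨f * g, by rw [ev_mul]; exact mul_ne_zero h1 h3,
        rho h hq σ m.1 g * b + rho h hq σ m.1 f * b', ?_⟩
      rw [map_add, map_mul, map_mul, hev, hev, h2, h4, ← Algebra.smul_def, ← Algebra.smul_def,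
        smul_smul, smul_smul, ev_mul, smul_add, mul_comm (ev g)]
    | smul t x _ hx =>
      obtain ⟨f, h1, b, h2⟩ := hx
      obtain ⟨g, g', h3, h4⟩ := hF t
      refine ⟨g * f, by rw [ev_mul]; exact mul_ne_zero h3 h1, rho h hq σ m.1 g' * b, ?_⟩
      rw [map_mul, hev, h2, h4, ← Algebra.smul_def, smul_smul, smul_smul, ev_mul]
      congr 1
      ring
  have hev0 : ∀ f, ψ (rho h hq σ m.1 f) ≠ 0 ↔ ev f ≠ 0 := fun f => by
    rw [hev, Ne, Ne, map_eq_zero_iff _ inj]
  let g : GD (caOf h hq σ) m :=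
    { S := z.Q
      psi := ψ
      zero := fun {g} hg l hl => ERa_zero h hq z.quo σ hψ hg hl (by
        by_contra h0
        exact hl ((hm l).2 h0))
      unit := fun f hf => by
        have h1 : ev f ≠ 0 := (hev0 f).1 hf
        have h2 : IsUnit (algebraMap z.F z.Q (ev f)) := (IsUnit.mk0 _ h1).map _
        rw [← hev] at h2
        exact h2
      surj := fun s => by
        obtain ⟨f, h1, b, h2⟩ := hQ s
        refine ⟨f, (hev0 f).2 h1, b, ?_⟩
        rw [Algebra.smul_def, ← hev] at h2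
        exact h2
      pr := fun x y hxy => ERa_pr hsim x y hxy
      ne := one_ne_zero }
  refine ⟨m, g, hm, fun c hc l x hx => ?_, ?_⟩
  · change ψ (r (tf σ c.1) (tf σ m.1) (tf_mono hc) (q (tf σ c.1) l x)) = 0 ↔ _
    have h1 : (∏ x ∈ tf σ m.1 \ tf σ c.1, z.a x) ^ l ≠ 0 :=
      pow_ne_zero l (Finset.prod_ne_zero_iff.2 fun x hx => hne x (Finset.mem_sdiff.1 hx).1)
    have h2 : z.π (xp k (tf σ m.1 \ tf σ c.1) ^ l • x) =
        (∏ x ∈ tf σ m.1 \ tf σ c.1, z.a x) ^ l • z.π x := by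
      rw [ERa_smul z.quo, map_pow, ERa_xp]
    have h3 : ψ (r (tf σ c.1) (tf σ m.1) (tf_mono hc) (q (tf σ c.1) l x)) =
        (∏ x ∈ tf σ m.1, z.a x)⁻¹ ^ l • z.π (xp k (tf σ m.1 \ tf σ c.1) ^ l • x) := by
      rw [hq.res _ _ (tf_mono hc) _ _ hx]
      exact hψ _ _ (sdiff_mem h (tf_mono hc) hx)
    rw [h3, h2, (IsUnit.mk0 _ (pow_ne_zero l (inv_ne_zero hA))).smul_eq_zero,
      (IsUnit.mk0 _ h1).smul_eq_zero]
  · let e : Subalgebra.center k z.Q ≃+* Subalgebra.center z.F z.Q :=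
      { toFun := fun w => ⟨w.1, Subalgebra.mem_center_iff.2 (Subalgebra.mem_center_iff.1 w.2)⟩
        invFun := fun w => ⟨w.1, Subalgebra.mem_center_iff.2 (Subalgebra.mem_center_iff.1 w.2)⟩
        left_inv := fun w => rfl
        right_inv := fun w => rfl
        map_mul' := fun _ _ => rfl
        map_add' := fun _ _ => rfl }
    exact ⟨e, fun c => Subtype.ext rfl⟩

end Pool.Agent.MP_6e5bed_ag_BI
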