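import Pool.Agent.Lib.MP_6e5bed_ag_BI.ERl

set_option autoImplicit false
set_option linter.unusedVariables false
set_option linter.unusedSectionVars false

/-!
# MP_6e5bed_ag, THEOREM T: from generic data to simple quotients
-/

noncomputable section

namespace Pool.Agent.MP_6e5bed_ag_BI

open MvPolynomial Pool.Agent.MP_6e5bed_ag_NC Pool.Agent.MP_6e5bed_ag_GG Pool.Agent.MP_6e5bed_ag_WW
open Pool.Agent.MP_6e5bed_ag_Pn Pool.Agent.MP_6e5bed_ag_GP
open Pool.Agent.MP_6e5bed_ag_PN hiding Ch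

universe u v

variable {ν : ℕ} {k Γ : Type u} [Field k] [Ring Γ] [Algebra k Γ]
  [Algebra (MvPolynomial (Fin (ν + 1)) k) Γ] [IsScalarTower k (MvPolynomial (Fin (ν + 1)) k) Γ]
  {𝒢 : ℕ → Submodule k Γ} {i : Type} [Fintype i] [DecidableEq i]
  {B : Finset (Fin (ν + 1)) → Type u} [∀ I, Ring (B I)] [∀ I, Algebra k (B I)]
  {r : ∀ I J : Finset (Fin (ν + 1)), I ⊆ J → B I →ₐ[k] B J}
  {q : ∀ I : Finset (Fin (ν + 1)), ℕ → Γ → B I}

theorem ERb_unit {c : Set i} {j x : i} (hj : j ∈ c) (hx : x ∈ c) :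
    IsUnit (tt k x hj : RR k c) := by
  refine IsUnit.of_mul_eq_one (tt k j hx) ?_
  rw [mul_comm]
  exact tt_mul _ _

theorem ERb_psi (h : IsGr ν 𝒢) (hq : IsSec 𝒢 r q) (σ : i ≃ Fin (ν + 1)) {m : Ch i}
    (g : GD (caOf h hq σ) m) (u v : RR k m.1) (b : B (tf σ m.1)) :
    g.psi (show (caOf h hq σ).A m from rho h hq σ m.1 u * (rho h hq σ m.1 v * b)) =
      g.fn u * (g.fn v * g.psi (show (caOf h hq σ).A m from b)) := by
  refine (map_mul g.psi (algebraMap (RR k m.1) ((caOf h hq σ).A m) u)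
    (show (caOf h hq σ).A m from rho h hq σ m.1 v * b)).trans ?_
  refine congrArg (fun z => g.fn u * z) ?_
  exact map_mul g.psi (algebraMap (RR k m.1) ((caOf h hq σ).A m) v)
    (show (caOf h hq σ).A m from b)

/-- ERb1. From generic data to a simple quotient.
PROOF. `F = RF (PI g)`, `a = ptF (PI g) σ hj` for an element `j ∈ m`, `Q = g.S`, with the `F`-algebra
structure of `exists_psiF`, `π = g.psi ∘ deh h hq σ hj` (`isQuo_gd` in GP/PRes; see the proofs of
`inFam_gd` and `hpv_caOf` in GP/VHp). `IsPoint`: `ptF_one`, `toF_gen`. `ch`: for `x ∈ m` the function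
`tt k x hj` is a unit, and for `x ∉ m` its value is zero by `g.zero`. `ker`: for `x ∈ 𝒢 (l * |c|)` the
restriction of `q (tf σ c) l x` to `m` is `D x` times a unit, where `D = deh h hq σ hj` (`q_mul_eu`,
`q_eq_deh` in GG/TDh for `q (tf σ m)`, and `hq.res`: the restriction is `q (tf σ m) l (X ^ l • x)`,
`X = ∏ x_j` over `m \ c`, and `D (X) = ∏ tt` is a unit). `cen`: the centres over `k` and over `F` have
the same elements. -/
theorem exists_sq (h : IsGr ν 𝒢) (hq : IsSec 𝒢 r q) (σ : i ≃ Fin (ν + 1)) {m : Ch i}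
    (g : GD (caOf h hq σ) m) : ∃ z : SQ ν k Γ, Rl h hq σ z g := by
  obtain ⟨j, hj⟩ := m.2.1
  have hδ1 : ∀ y : (caOf h hq σ).A m, ∃ (u : RR k m.1) (γ : Γ), IsUnit u ∧
      (deh h hq σ hj).toRingHom γ = u • y := by
    intro y
    obtain ⟨l, a, ha, rfl⟩ := hq.surj _ y
    refine ⟨⟨mon k (eu σ m.1 j l), mon_mem (isEx_eu σ hj l)⟩, a, ?_, ?_⟩
    · exact IsUnit.of_mul_eq_one _ ((mul_comm _ _).trans (mon_eu σ hj l))
    · exact (q_mul_eu h hq σ hj ha).symm
  obtain ⟨ψ, hψ1, hψ2⟩ := exists_psiF g (PI g) (mem_PI g)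
  let _ : Algebra (RF (PI g)) g.S := ψ.toRingHom.toAlgebra' hψ2
  have htow : IsScalarTower k (RF (PI g)) g.S :=
    IsScalarTower.of_algebraMap_eq fun c => (ψ.commutes c).symm
  have hquo := isQuo_gd g σ hj (deh h hq σ hj).toRingHom hδ1
    (fun p => deh_algebraMap h hq σ hj p) (PI g) hψ1
  have hfn : ∀ u : RR k m.1, IsUnit u → ∀ s : g.S, g.fn u * s = 0 ↔ s = 0 := by
    intro u hu s
    have h1 : IsUnit (g.fn u) := by
      obtain ⟨v, hv⟩ := hu.exists_left_inv
      have h2 : g.fn v * g.fn u = 1 := by rw [← g.fn_mul, hv, g.fn_one]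
      have h3 : g.fn u * g.fn v = 1 := by rw [g.fn_comm, h2]
      exact ⟨⟨g.fn u, g.fn v, h3, h2⟩, rfl⟩
    exact h1.mul_right_eq_zero
  refine ⟨{ F := RF (PI g), a := ptF (PI g) σ hj, Q := g.S,
            π := g.psi.toRingHom.comp (deh h hq σ hj).toRingHom,
            pt := ⟨⟨σ j, ptF_one _ σ hj⟩, toF_gen _ σ hj⟩, quo := hquo }, ?_, ?_, ?_⟩
  · intro x
    have h1 : ptF (PI g) σ hj (σ x) = toF (PI g) (tt k x hj) := by
      unfold ptF
      rw [Equiv.symm_apply_apply]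
    change x ∈ m.1 ↔ ptF (PI g) σ hj (σ x) ≠ 0
    rw [h1, Ne, toF_eq_zero, mem_PI]
    constructor
    · intro hx h0
      have h2 := (hfn _ (ERb_unit hj hx) 1).1 (by rw [h0, zero_mul])
      exact g.ne h2
    · intro h2
      by_contra hx
      exact h2 (g.zero hj x hx)
  · intro c hc l x hx
    have hx' : (∏ y ∈ tf σ m.1 \ tf σ c.1, X y : MvPolynomial (Fin (ν + 1)) k) ^ l • x ∈
        𝒢 (l * (tf σ m.1).card) := sdiff_mem h (tf_mono hc) hx
    have h1 : (caOf h hq σ).res hc (show (caOf h hq σ).A c from q (tf σ c.1) l x) =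
        rho h hq σ m.1 (⟨mon k (eu σ m.1 j (-l)), mon_mem (isEx_eu σ hj (-l))⟩) *
          (rho h hq σ m.1 (aeval (fun y => tt k (σ.symm y) hj)
            ((∏ y ∈ tf σ m.1 \ tf σ c.1, X y : MvPolynomial (Fin (ν + 1)) k) ^ l)) *
            deh h hq σ hj x) := by
      refine (hq.res _ _ (tf_mono hc) _ _ hx).trans ?_
      rw [q_eq_deh h hq σ hj hx', deh_smul]
    have hu1 : IsUnit (⟨mon k (eu σ m.1 j (-l)), mon_mem (isEx_eu σ hj (-l))⟩ : RR k m.1) :=
      IsUnit.of_mul_eq_one _ (mon_eu σ hj l)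
    have hu2 : IsUnit (aeval (fun y => tt k (σ.symm y) hj)
        ((∏ y ∈ tf σ m.1 \ tf σ c.1, X y : MvPolynomial (Fin (ν + 1)) k) ^ l) : RR k m.1) := by
      rw [map_pow, map_prod]
      refine IsUnit.pow _ ?_
      refine Finset.prod_induction _ IsUnit (fun _ _ => IsUnit.mul) isUnit_one fun y hy => ?_
      rw [aeval_X]
      exact ERb_unit hj (mem_tf.1 (Finset.mem_sdiff.1 hy).1)
    rw [h1]
    change g.psi _ = 0 ↔ g.psi (deh h hq σ hj x) = 0
    have h2 := (hfn _ hu1 (g.fn (aeval (fun y => tt k (σ.symm y) hj)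
        ((∏ y ∈ tf σ m.1 \ tf σ c.1, X y : MvPolynomial (Fin (ν + 1)) k) ^ l)) *
          g.psi (deh h hq σ hj x))).trans (hfn _ hu2 (g.psi (deh h hq σ hj x)))
    refine Iff.trans ?_ h2
    exact Eq.congr_left (ERb_psi h hq σ g _ _ _)
  · refine ⟨{ toFun := fun z => ⟨z.1, Subalgebra.mem_center_iff.2
                (Subalgebra.mem_center_iff.1 z.2)⟩,
              invFun := fun z => ⟨z.1, Subalgebra.mem_center_iff.2
                (Subalgebra.mem_center_iff.1 z.2)⟩,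
              left_inv := fun z => rfl, right_inv := fun z => rfl,
              map_mul' := fun _ _ => rfl, map_add' := fun _ _ => rfl }, fun c => ?_⟩
    refine Subtype.ext ?_
    exact IsScalarTower.algebraMap_apply k (RF (PI g)) g.S c

end Pool.Agent.MP_6e5bed_ag_BI
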