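import Pool.Agent.Lib.MP_6e5bed_ag_BI.ERl

set_option autoImplicit false
set_option linter.unusedVariables false
set_option linter.unusedSectionVars false

/-!
# MP_6e5bed_ag, THEOREM T: the relation of simple quotients and generic data
-/

noncomputable section

namespace Pool.Agent.MP_6e5bed_ag_BI

open MvPolynomial Pool.Agent.MP_6e5bed_ag_NC Pool.Agent.MP_6e5bed_ag_GG Pool.Agent.MP_6e5bed_ag_WW
open Pool.Agent.MP_6e5bed_ag_Pn Pool.Agent.MP_6e5bed_ag_GP
open Pool.Agent.MP_6e5bed_ag_PN hiding Ch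

universe u v

variable {ν : ℕ} {k Γ : Type u} [Field k] [Ring Γ] [Algebra k Γ]
  [Algebra (MvPolynomial (Fin (ν + 1)) k) Γ] [IsScalarTower k (MvPolynomial (Fin (ν + 1)) k) Γ]
  {𝒢 : ℕ → Submodule k Γ} {i : Type} [Fintype i] [DecidableEq i]
  {B : Finset (Fin (ν + 1)) → Type u} [∀ I, Ring (B I)] [∀ I, Algebra k (B I)]
  {r : ∀ I J : Finset (Fin (ν + 1)), I ⊆ J → B I →ₐ[k] B J}
  {q : ∀ I : Finset (Fin (ν + 1)), ℕ → Γ → B I}

private theorem erc_var (z : SQ ν k Γ) (j : Fin (ν + 1)) :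
    z.π (algebraMap (MvPolynomial (Fin (ν + 1)) k) Γ (X j)) = algebraMap z.F z.Q (z.a j) := by
  rw [z.quo.map, aeval_X]

private theorem erc_inj (z : SQ ν k Γ) {c : z.F} : algebraMap z.F z.Q c = 0 ↔ c = 0 := by
  haveI := z.quo.simple
  haveI : Nontrivial z.Q := inferInstance
  exact map_eq_zero_iff _ (algebraMap z.F z.Q).injective

/-- ERc1. The coordinates of the point are determined by the kernel.
PROOF. `z.π (x_j) = a_j`, and `x_j` is homogeneous (`h.var`). -/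
theorem same_coord (h : IsGr ν 𝒢) {z z' : SQ ν k Γ} (hs : z.Same 𝒢 z') (j : Fin (ν + 1)) :
    z.a j ≠ 0 ↔ z'.a j ≠ 0 := by
  have h1 := hs 1 _ (h.var j)
  rw [erc_var, erc_var, erc_inj, erc_inj] at h1
  exact not_congr h1

private theorem erc_card (σ : i ≃ Fin (ν + 1)) (j : i) : (tf σ (Ch.sgl j).1).card = 1 := by
  rw [Finset.card_eq_one]
  refine ⟨σ j, ?_⟩
  ext x
  rw [mem_tf, Finset.mem_singleton]
  change σ.symm x ∈ ({j} : Set i) ↔ _
  rw [Set.mem_singleton_iff, Equiv.symm_apply_eq]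

/-- ERc2. PROOF. From left to right: `same_coord` gives the same chart; the elements of the algebra of
the chart `c` are the `q _ l x` (`hq.surj`), and `Rl.ker`. From right to left: for `x ∈ 𝒢 d` take
`j ∈ m`, the chart `c = {j}` and `q _ d x` (`(tf σ {j}).card = 1`), and `Rl.ker`. -/
theorem same_iff (h : IsGr ν 𝒢) (hq : IsSec 𝒢 r q) (σ : i ≃ Fin (ν + 1)) {z z' : SQ ν k Γ}
    {m m' : Ch i} {g : GD (caOf h hq σ) m} {g' : GD (caOf h hq σ) m'} (hg : Rl h hq σ z g)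
    (hg' : Rl h hq σ z' g') : z.Same 𝒢 z' ↔ SameK g g' := by
  constructor
  · intro hs
    refine ⟨Subtype.ext (Set.ext fun x => ?_), fun c hc hc' a => ?_⟩
    · rw [hg.ch, hg'.ch]
      exact same_coord h hs _
    · obtain ⟨l, x, hx, rfl⟩ := hq.surj (tf σ c.1) a
      exact (hg.ker c hc l x hx).trans ((hs _ x hx).trans (hg'.ker c hc' l x hx).symm)
  · rintro ⟨hm, hk⟩ d x hx
    obtain ⟨j, hj⟩ := m.2.1
    have hc : Ch.sgl j ≤ m := by
      intro y hy
      have hy' : y = j := hy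
      rw [hy']
      exact hj
    have hc' : Ch.sgl j ≤ m' := hm ▸ hc
    have hx' : x ∈ 𝒢 (d * (tf σ (Ch.sgl j).1).card) := by
      rw [erc_card, Nat.mul_one]
      exact hx
    exact (hg.ker _ hc d x hx').symm.trans ((hk _ hc hc' _).trans (hg'.ker _ hc' d x hx'))

/-- ERc3. PROOF. Let `c ∈ 𝒢 d` be the element of `SQ.Isol`. Multiply it with a power of a coordinate
`x_j`, `j ∈ σ m`, to get an element of degree `d' = l * |m|` (`a_j ≠ 0`; `x_j` is central), and take the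
element `q _ l c` of the algebra of `m`. An element `a` of the kernel is `q _ l' x` with `π x = 0`
(`Rl.ker`), so `c x = 0 = x c`, and `hq.mul`. -/
theorem gi_of_isol (h : IsGr ν 𝒢) (hq : IsSec 𝒢 r q) (σ : i ≃ Fin (ν + 1)) {z : SQ ν k Γ}
    {m : Ch i} {g : GD (caOf h hq σ) m} (hg : Rl h hq σ z g) (hz : z.Isol 𝒢) : GI g := by
  obtain ⟨d, c, hc, hc0, hcx⟩ := hz
  obtain ⟨j, hj⟩ := m.2.1
  have hcard : 1 ≤ (tf σ m.1).card := by
    refine Finset.card_pos.2 ⟨σ j, ?_⟩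
    rw [mem_tf, Equiv.symm_apply_apply]
    exact hj
  have haj : z.a (σ j) ≠ 0 := (hg.ch j).1 hj
  obtain ⟨N, hN⟩ : ∃ N, N + d = d * (tf σ m.1).card := by
    refine ⟨d * (tf σ m.1).card - d, Nat.sub_add_cancel ?_⟩
    exact Nat.le_mul_of_pos_right d hcard
  have hc' : ((X (σ j) : MvPolynomial (Fin (ν + 1)) k) ^ N) • c ∈ 𝒢 (d * (tf σ m.1).card) := by
    rw [← hN]
    have h2 : ((X (σ j) : MvPolynomial (Fin (ν + 1)) k) ^ N).IsHomogeneous N := by
      have h3 := (isHomogeneous_X k (σ j)).pow N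
      rwa [one_mul] at h3
    exact h.smul h2 hc
  have hpi : z.π (((X (σ j) : MvPolynomial (Fin (ν + 1)) k) ^ N) • c) ≠ 0 := by
    rw [Algebra.smul_def, map_mul, z.quo.map, map_pow, aeval_X, ← Algebra.smul_def]
    intro h0
    have h1 : (z.a (σ j) ^ N)⁻¹ • (z.a (σ j) ^ N) • z.π c = 0 := by
      rw [h0, smul_zero]
    rw [smul_smul, inv_mul_cancel₀ (pow_ne_zero N haj), one_smul] at h1
    exact hc0 h1
  have hq0 : ∀ l, q (tf σ m.1) l 0 = 0 := by
    intro l
    have h1 := hq.add (tf σ m.1) l 0 0 (Submodule.zero_mem _) (Submodule.zero_mem _)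
    rw [add_zero] at h1
    exact left_eq_add.1 h1
  have hker : ∀ (l : ℕ) (x : Γ), x ∈ 𝒢 (l * (tf σ m.1).card) →
      (g.psi (show (caOf h hq σ).A m from q (tf σ m.1) l x) = 0 ↔ z.π x = 0) := by
    intro l x hx
    have h1 := hg.ker m le_rfl l x hx
    rw [(caOf h hq σ).res_id] at h1
    exact h1
  refine ⟨(show (caOf h hq σ).A m from q (tf σ m.1) d
    (((X (σ j) : MvPolynomial (Fin (ν + 1)) k) ^ N) • c)), ?_, ?_⟩
  · exact fun h0 => hpi ((hker d _ hc').1 h0)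
  · intro a ha
    obtain ⟨l, x, hx, rfl⟩ := hq.surj (tf σ m.1) a
    have hx0 : z.π x = 0 := (hker l x hx).1 ha
    obtain ⟨h1, h2⟩ := hcx _ x hx hx0
    constructor
    · change q (tf σ m.1) d _ * q (tf σ m.1) l x = 0
      rw [← hq.mul _ _ _ _ _ hc' hx, smul_mul_assoc, h1, smul_zero, hq0]
    · change q (tf σ m.1) l x * q (tf σ m.1) d _ = 0
      rw [← hq.mul _ _ _ _ _ hx hc', mul_smul_comm, h2, smul_zero, hq0]

end Pool.Agent.MP_6e5bed_ag_BI
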