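import Pool.Agent.Lib.MP_6e5bed_ag_BI.EIs
import Pool.Agent.Lib.MP_6e5bed_ag_BI.ERa
import Pool.Agent.Lib.MP_6e5bed_ag_BI.ERb
import Pool.Agent.Lib.MP_6e5bed_ag_BI.ERc
import Pool.Agent.Lib.MP_6e5bed_ag_BI.EMa
import Pool.Agent.Lib.MP_6e5bed_ag_BI.EMb

set_option autoImplicit false
set_option linter.unusedVariables false
set_option linter.unusedSectionVars false

/-!
# MP_6e5bed_ag, THEOREM T: the points of the sheaf of endomorphisms
-/

noncomputable section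

namespace Pool.Agent.MP_6e5bed_ag_BI

open MvPolynomial Pool.Agent.MP_6e5bed_ag_NC Pool.Agent.MP_6e5bed_ag_GG Pool.Agent.MP_6e5bed_ag_WW
open Pool.Agent.MP_6e5bed_ag_Pn Pool.Agent.MP_6e5bed_ag_GP Pool.Agent.MP_6e5bed_ag_PS
open Pool.Agent.MP_6e5bed_ag_PN hiding Ch

universe u v

theorem xfin_of_inFam {k : Type u} [Field k] {J : Type v} {M : J → Type u} [∀ α, Field (M α)]
    [∀ α, Algebra k (M α)] {Good : DGA k → Prop}
    (hM : ∀ α : J, ∃ X : XT k, X.Gen ∧ SPJ Good (TT X.ca) ∧ Nonempty (M α ≃ₐ[k] X.M))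
    {Z : Type u} [CommRing Z] [Algebra k Z] (hZ : InFam M (algebraMap k Z)) : XFin Good Z := by
  obtain ⟨α, φ, hφ, hk⟩ := hZ
  obtain ⟨X, h1, h2, ⟨e⟩⟩ := hM α
  let φ' : Z →ₐ[k] M α := { φ with commutes' := hk }
  refine ⟨X, h1, h2, (e : M α →ₐ[k] X.M).comp φ', ?_⟩
  exact RingHom.Finite.comp (RingHom.Finite.of_surjective e.toRingEquiv.toRingHom e.surjective)
    (show (φ' : Z →+* M α).Finite from hφ)

theorem CIso.alg {k Z Z' : Type u} [Field k] [CommRing Z] [CommRing Z'] [Algebra k Z]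
    [Algebra k Z'] (h : CIso (algebraMap k Z) (algebraMap k Z')) : Nonempty (Z ≃ₐ[k] Z') := by
  obtain ⟨e, he⟩ := h
  exact ⟨AlgEquiv.ofRingEquiv (f := e) he⟩

variable {ν : ℕ} {k Γ : Type u} [Field k] [Ring Γ] [Algebra k Γ]
  [Algebra (MvPolynomial (Fin (ν + 1)) k) Γ] [IsScalarTower k (MvPolynomial (Fin (ν + 1)) k) Γ]
  {𝒢 : ℕ → Submodule k Γ} {i : Type} [Fintype i] [DecidableEq i]
  {B : Finset (Fin (ν + 1)) → Type u} [∀ I, Ring (B I)] [∀ I, Algebra k (B I)]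
  {r : ∀ I J : Finset (Fin (ν + 1)), I ⊆ J → B I →ₐ[k] B J}

/-- The points. -/
theorem exists_pts {J : Type v} {M : J → Type u} [∀ α, Field (M α)] [∀ α, Algebra k (M α)]
    {Good : DGA k → Prop}
    (hM : ∀ α : J, ∃ X : XT k, X.Gen ∧ SPJ Good (TT X.ca) ∧ Nonempty (M α ≃ₐ[k] X.M))
    (h : IsGr ν 𝒢) {q : ∀ I : Finset (Fin (ν + 1)), ℕ → EndG h → B I}
    (hq : IsSec (EndGr h) r q) (σ : i ≃ Fin (ν + 1)) {ι : Type} {P : ι → SQ ν k Γ}
    (hP : IsoFam 𝒢 M P) : ∃ Q : Pts Good (caOf (isGr_EndG h) hq σ) ι,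
      ∀ s, CIso (algebraMap k (Subalgebra.center k (Q.g s).S)) (P s).cen := by
  choose w hw using fun s => exists_mo h (P s)
  choose m g hg using fun s => exists_gd (isGr_EndG h) hq σ (w s)
  refine ⟨⟨m, g, fun s => gi_of_isol _ hq σ (hg s) (mo_isol h (hw s) (hP.isol s)),
    fun s t hst hk => hP.ne s t hst
      ((mo_same h (hw s) (hw t)).2 ((same_iff _ hq σ (hg s) (hg t)).2 hk)),
    fun m' g' => ?_⟩, fun s => (hg s).cen.trans (hw s).cen.symm⟩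
  obtain ⟨w', hw'⟩ := exists_sq (isGr_EndG h) hq σ g'
  obtain ⟨z', hz'⟩ := exists_mo' h w'
  rcases hP.all z' with ⟨s, hs⟩ | hc
  · exact Or.inl ⟨s, (same_iff _ hq σ hw' (hg s)).1 ((mo_same h hz' (hw s)).1 hs)⟩
  · exact Or.inr (xfin_of_inFam hM ((hz'.cen.trans hw'.cen.symm).inFam hc))

end Pool.Agent.MP_6e5bed_ag_BI
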