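import Pool.Agent.Lib.MP_6e5bed_ag_BI.SLa
import Pool.Agent.Lib.MP_6e5bed_ag_GP.CorV

set_option autoImplicit false
set_option linter.unusedVariables false

/-!
# MP_6e5bed_ag, THEOREM T, section 10: the points
-/

noncomputable section

namespace Pool.Agent.MP_6e5bed_ag_BI

open Pool.Agent.MP_6e5bed_ag_NC Pool.Agent.MP_6e5bed_ag_GG Pool.Agent.MP_6e5bed_ag_WW
open Pool.Agent.MP_6e5bed_ag_PN hiding Ch
open Pool.Agent.MP_6e5bed_ag_PS (SPJ)
open Pool.Agent.MP_6e5bed_ag_GP (LV)

universe u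

variable {k : Type u} [Field k] {i : Type} [Fintype i] {A : CA k i}

/-- Two generic data which are at the same chart and have the same kernel. -/
def SameK {m m' : Ch i} (g : GD A m) (g' : GD A m') : Prop :=
  m = m' ∧ ∀ (c : Ch i) (hc : c ≤ m) (hc' : c ≤ m') (a : A.A c),
    g.psi (A.res hc a) = 0 ↔ g'.psi (A.res hc' a) = 0

/-- THE POINTS: finitely many isolated points such that the centres at all other points are in the
function fields of X-data. -/
structure Pts (Good : DGA k → Prop) (A : CA k i) (ι : Type) where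
  m : ι → Ch i
  g : ∀ s, GD A (m s)
  gi : ∀ s, GI (g s)
  ne : ∀ s t, s ≠ t → ¬ SameK (g s) (g t)
  all : ∀ (m' : Ch i) (g' : GD A m'),
    (∃ s, SameK g' (g s)) ∨ XFin Good (Subalgebra.center k g'.S)

/-- Pts1. -/
theorem SameK.symm {m m' : Ch i} {g : GD A m} {g' : GD A m'} (h : SameK g g') : SameK g' g :=
  ⟨h.1.symm, fun c hc hc' a => (h.2 c hc' hc a).symm⟩

theorem SameK.trans {m m' m'' : Ch i} {g : GD A m} {g' : GD A m'} {g'' : GD A m''}
    (h : SameK g g') (h' : SameK g' g'') : SameK g g'' := by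
  obtain ⟨h1, h2⟩ := h
  subst h1
  exact ⟨h'.1, fun c hc hc' a => (h2 c hc hc a).trans (h'.2 c hc hc' a)⟩

/-- Pts2. `SameK` for data at the same chart. -/
theorem sameK_iff {m : Ch i} {g g' : GD A m} :
    SameK g g' ↔ ∀ a : A.A m, g.psi a = 0 ↔ g'.psi a = 0 := by
  constructor
  · intro h a
    have h1 := h.2 m le_rfl le_rfl a
    rwa [A.res_id] at h1
  · intro h
    exact ⟨rfl, fun c hc _ a => h (A.res hc a)⟩

/-- Pts3. The isolation depends only on the kernel. -/
theorem GI.of_sameK {m m' : Ch i} {g : GD A m} {g' : GD A m'} (h : SameK g g') (hg : GI g) :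
    GI g' := by
  have h1 := h.1
  subst h1
  have h2 := sameK_iff.1 h
  obtain ⟨c, hc, hc'⟩ := hg
  exact ⟨c, fun h0 => hc ((h2 c).2 h0), fun a ha => hc' a ((h2 a).2 ha)⟩

end Pool.Agent.MP_6e5bed_ag_BI
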