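import Pool.Agent.Lib.MP_6e5bed_ag_BI.EDef
import Pool.Agent.Lib.MP_6e5bed_ag_BI.Pts
import Pool.Agent.Lib.MP_6e5bed_ag_GP.VHp

set_option autoImplicit false
set_option linter.unusedVariables false
set_option linter.unusedSectionVars false

/-!
# MP_6e5bed_ag, THEOREM T: simple quotients of the graded algebra and generic data of the sheaf,
definitions
-/

noncomputable section

namespace Pool.Agent.MP_6e5bed_ag_BI

open MvPolynomial Pool.Agent.MP_6e5bed_ag_NC Pool.Agent.MP_6e5bed_ag_GG Pool.Agent.MP_6e5bed_ag_WW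
open Pool.Agent.MP_6e5bed_ag_Pn Pool.Agent.MP_6e5bed_ag_GP
open Pool.Agent.MP_6e5bed_ag_PN hiding Ch

universe u v

/-- The `k`-algebras are isomorphic. -/
def CIso {k Z Z' : Type u} [Field k] [CommRing Z] [CommRing Z'] (f : k →+* Z) (f' : k →+* Z') :
    Prop := ∃ e : Z ≃+* Z', ∀ c, e (f c) = f' c

theorem CIso.symm {k Z Z' : Type u} [Field k] [CommRing Z] [CommRing Z'] {f : k →+* Z}
    {f' : k →+* Z'} (h : CIso f f') : CIso f' f := by
  obtain ⟨e, he⟩ := h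
  exact ⟨e.symm, fun c => by rw [← he, RingEquiv.symm_apply_apply]⟩

theorem CIso.trans {k Z Z' Z'' : Type u} [Field k] [CommRing Z] [CommRing Z'] [CommRing Z'']
    {f : k →+* Z} {f' : k →+* Z'} {f'' : k →+* Z''} (h : CIso f f') (h' : CIso f' f'') :
    CIso f f'' := by
  obtain ⟨e, he⟩ := h
  obtain ⟨e', he'⟩ := h'
  exact ⟨e.trans e', fun c => by
    change e' (e (f c)) = _
    rw [he, he']⟩

theorem CIso.inFam {k Z Z' : Type u} [Field k] [CommRing Z] [CommRing Z'] {f : k →+* Z}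
    {f' : k →+* Z'} (h : CIso f f') {J : Type v} {M : J → Type u} [∀ α, Field (M α)]
    [∀ α, Algebra k (M α)] (hf : InFam M f) : InFam M f' := by
  obtain ⟨e, he⟩ := h.symm
  obtain ⟨α, φ, h1, h2⟩ := hf
  refine ⟨α, φ.comp (e : Z' →+* Z), ?_, fun x => ?_⟩
  · exact h1.comp (RingHom.Finite.of_surjective _ e.surjective)
  · rw [← h2 x, ← he]
    rfl

variable {ν : ℕ} {k Γ : Type u} [Field k] [Ring Γ] [Algebra k Γ]
  [Algebra (MvPolynomial (Fin (ν + 1)) k) Γ] [IsScalarTower k (MvPolynomial (Fin (ν + 1)) k) Γ]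
  {𝒢 : ℕ → Submodule k Γ} {i : Type} [Fintype i] [DecidableEq i]
  {B : Finset (Fin (ν + 1)) → Type u} [∀ I, Ring (B I)] [∀ I, Algebra k (B I)]
  {r : ∀ I J : Finset (Fin (ν + 1)), I ⊆ J → B I →ₐ[k] B J}
  {q : ∀ I : Finset (Fin (ν + 1)), ℕ → Γ → B I}

/-- The generic data `g` of the sheaf belong to the simple quotient `z`. -/
structure Rl (h : IsGr ν 𝒢) (hq : IsSec 𝒢 r q) (σ : i ≃ Fin (ν + 1)) (z : SQ ν k Γ)
    {m : Ch i} (g : GD (caOf h hq σ) m) : Prop where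
  ch : ∀ x : i, x ∈ m.1 ↔ z.a (σ x) ≠ 0
  ker : ∀ (c : Ch i) (hc : c ≤ m) (l : ℕ) (x : Γ), x ∈ 𝒢 (l * (tf σ c.1).card) →
    (g.psi ((caOf h hq σ).res hc (show (caOf h hq σ).A c from q (tf σ c.1) l x)) = 0 ↔ z.π x = 0)
  cen : CIso (algebraMap k (Subalgebra.center k g.S)) z.cen

end Pool.Agent.MP_6e5bed_ag_BI
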