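import Pool.Agent.Lib.MP_6e5bed_ag_BI.SLa

set_option autoImplicit false
set_option linter.unusedVariables false

/-!
# MP_6e5bed_ag, THEOREM T, section 11: the reduced bisheaf of a point
-/

noncomputable section

namespace Pool.Agent.MP_6e5bed_ag_BI

open Pool.Agent.MP_6e5bed_ag_NC Pool.Agent.MP_6e5bed_ag_GG Pool.Agent.MP_6e5bed_ag_WW
open Pool.Agent.MP_6e5bed_ag_PN hiding Ch

universe u

variable {k : Type u} [Field k] {i : Type} [Fintype i] {A : CA k i} {m : Ch i}

/-- the sections of the diagonal bisheaf which are zero in the generic algebra -/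
private def ExM (g : GD A m) (p : Ch i × Ch i) (x : DgE A p) : Prop :=
  ∀ h : un p ≤ m, g.psi (A.res h (DgE.of A x)) = 0

private theorem Ex_zero (g : GD A m) (p : Ch i × Ch i) : ExM g p (0 : DgE A p) := by
  intro h
  change g.psi (A.res h 0) = 0
  rw [map_zero, map_zero]

private theorem Ex_add (g : GD A m) {p : Ch i × Ch i} {x y : DgE A p} (hx : ExM g p x)
    (hy : ExM g p y) : ExM g p (x + y) := by
  intro h
  change g.psi (A.res h (DgE.of A x + DgE.of A y)) = 0
  rw [map_add, map_add, hx h, hy h, add_zero]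

private theorem Ex_smul (g : GD A m) {p : Ch i × Ch i} (b : bsB A A p) {x : DgE A p}
    (hx : ExM g p x) : ExM g p (b • x) := by
  induction b using TensorProduct.induction_on with
  | zero =>
    have h0 : (0 : bsB A A p) = (0 : A.A p.1) ⊗ₜ[k] (1 : (A.A p.2)ᵐᵒᵖ) :=
      (TensorProduct.zero_tmul _ _).symm
    intro h
    rw [h0, DgE_tmul, map_zero, zero_mul, zero_mul, map_zero, map_zero]
  | tmul a b =>
    intro h
    rw [DgE_tmul, map_mul, map_mul, map_mul, map_mul, hx h, mul_zero, zero_mul]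
  | add a b ha hb =>
    rw [add_smul]
    exact Ex_add g ha hb

private theorem Ex_res (g : GD A m) {p q : Ch i × Ch i} (h : p ≤ q) {x : DgE A p}
    (h' : un q ≤ m) : g.psi (A.res h' (DgE.of A (dgr A h x))) =
      g.psi (A.res ((un_mono h).trans h') (DgE.of A x)) := by
  rw [dgr_of, A.res_res]

private theorem Ex_tt (g : GD A m) {p : Ch i × Ch i} {l : i} (hl : l ∉ m.1) {z : i}
    (hz : z ∈ (un p).1) {x y : DgE A p} (hy : DgE.of A y = tt k l hz ^ 1 • DgE.of A x) :
    ExM g p y := by
  intro h'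
  rw [hy, pow_one, Algebra.smul_def, map_mul, map_mul, A.res_R]
  have h1 := g.zero (h' hz) l hl
  have h2 : rinc h' (tt k l hz) = tt k l (h' hz) := rfl
  rw [h2, h1, zero_mul]

omit [Fintype i] in
private theorem Ex_out {p q : Ch i × Ch i} (h : un p ≤ m) (h' : ¬ un q ≤ m) {l : i}
    (hl : (un q).1 ⊆ insert l (un p).1) : l ∉ m.1 := by
  intro hm
  refine h' (fun z hz => ?_)
  rcases hl hz with rfl | h1
  · exact hm
  · exact h h1

/-- the kernel of the map to the generic algebra -/
private def ExN (g : GD A m) : Sub (dgS A) where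
  N := fun p =>
    { carrier := {x | ExM g p x}
      add_mem' := fun hx hy => Ex_add g hx hy
      zero_mem' := Ex_zero g p
      smul_mem' := fun b x hx => Ex_smul g b hx }
  mono := fun {p q} h {x} hx h' => (Ex_res g h h').trans (hx _)
  sat := fun {p q t} h {x} hx => by
    by_cases hp : un p ≤ m
    · by_cases hq : un q ≤ m
      · refine ⟨0, ?_⟩
        rw [pow_zero, one_smul]
        intro h'
        exact (Ex_res g ((bs A A).le h) hq).symm.trans (hx hq)
      · refine ⟨1, ?_⟩
        obtain ⟨h0, h1⟩ := h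
        rcases h1 with ⟨l, z, hz, h2, h3, rfl⟩ | ⟨l, z, hz, h2, h3, rfl⟩
        · have hl : l ∉ m.1 := Ex_out hp hq (fun w hw => by
            rcases hw with hw | hw
            · rcases h2 hw with h4 | h4
              · exact Or.inl h4
              · exact Or.inr (Or.inl h4)
            · exact Or.inr (Or.inr (h3 hw)))
          exact Ex_tt g hl _ (DgE_loc1 A p hz 1 x)
        · have hl : l ∉ m.1 := Ex_out hp hq (fun w hw => by
            rcases hw with hw | hw
            · exact Or.inr (Or.inl (h3 hw))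
            · rcases h2 hw with h4 | h4
              · exact Or.inl h4
              · exact Or.inr (Or.inr h4))
          exact Ex_tt g hl _ (DgE_loc2 A p hz 1 x)
    · exact ⟨0, fun h' => absurd h' hp⟩

private theorem Ex_mem {g : GD A m} {p : (bs A A).P} {x : (dgS A).E p} :
    (ExN g).proj.f p x = 0 ↔ ExM g p x := (ExN g).proj_eq_zero

private theorem Ex_psi (g : GD A m) (p : Ch i × Ch i) (h : un p ≤ m) (a : A.A p.1)
    (x : DgE A p) : g.psi (A.res h (DgE.of A ((a ⊗ₜ[k] (1 : (A.A p.2)ᵐᵒᵖ)) • x))) =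
      g.psi (A.res ((le_un1 p).trans h) a) * g.psi (A.res h (DgE.of A x)) := by
  rw [DgE_tmul, MulOpposite.unop_one, map_one, mul_one, map_mul, map_mul, A.res_res]

private theorem Ex_lo (g : GD A m) (c' : Ch i) (h : un (m, c') ≤ m) (a : A.A m)
    (x : (dgS A).E (m, c')) : g.psi (A.res h (DgE.of A (p := (m, c'))
      (lo A A (m, c') a • x))) = g.psi a * g.psi (A.res h (DgE.of A (p := (m, c')) x)) := by
  refine (Ex_psi g (m, c') h a x).trans ?_
  rw [A.res_id]

private theorem Ex_ann (g : GD A m) (a : A.A m) : a ∈ ann (ExN g).quot m ↔ g.psi a = 0 := by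
  constructor
  · intro h
    have h1 := h m ((ExN g).proj.f (m, m) (1 : DgE A (m, m)))
    have h2 := ((ExN g).proj.f (m, m)).map_smul (lo A A (m, m) a) (1 : DgE A (m, m))
    have hm : un (m, m) ≤ m := Set.union_subset le_rfl le_rfl
    have h3 := Ex_mem.1 (h2.trans h1) hm
    have h4 := (Ex_lo g m hm a (1 : DgE A (m, m))).symm.trans h3
    have h5 : g.psi (A.res hm (DgE.of A (1 : DgE A (m, m)))) = 1 := by
      change g.psi (A.res hm 1) = 1
      rw [map_one, map_one]
    rw [h5, mul_one] at h4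
    exact h4
  · intro h c' e
    obtain ⟨x, rfl⟩ := (ExN g).proj_surj (m, c') e
    refine (((ExN g).proj.f (m, c')).map_smul (lo A A (m, c') a) x).symm.trans ?_
    refine Ex_mem.2 fun h' => ?_
    refine (Ex_lo g c' h' a x).trans ?_
    rw [h, zero_mul]

/-- Ex1. The reduced bisheaf of a point.
PROOF. `E` is the quotient of the diagonal bisheaf `dgS A` (value `A_{c ∪ c'}` at `(c, c')`) by the
subsheaf of the `a` with `g.psi (A.res h a) = 0` for all `h : c ∪ c' ≤ m` (everything, if `c ∪ c'`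
is not `≤ m`). `Sub.sat`: by `g.unit`, `g.zero` (if `q` is `≤ m` then `t` is a unit in `S`, or
`p` is not `≤ m`; if `p ≤ m` and `q` is not, `t` is zero in `S`). Coherent by `dgS_coh` and
`Coh.quot`. Its sections at `(m, c')`, `c' ≤ m`, are `A_m / ker psi`. `Red`: `z`, `inj`, `one`,
`tf` are clear, `pr` follows from `g.pr` and `g.surj`. -/
theorem exists_red0 (g : GD A m) : ∃ (E : BS A A) (_ : Red E m), E.Coh ∧
    ∀ a : A.A m, a ∈ ann E m ↔ g.psi a = 0 := by
  refine ⟨(ExN g).quot, ⟨?_, ?_, ?_, ?_, ?_⟩, (dgS_coh A).quot (ExN g), Ex_ann g⟩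
  · intro c c' hc x
    obtain ⟨x, rfl⟩ := (ExN g).proj_surj (c, c') x
    refine Ex_mem.2 fun h' => absurd ?_ hc
    exact (le_un1 (c, c')).trans h'
  · intro c c' h x hx
    obtain ⟨x, rfl⟩ := (ExN g).proj_surj (c, c') x
    refine Ex_mem.2 fun h' => ?_
    have h1 : un (m, c') ≤ m := Set.union_subset le_rfl ((le_un2 (c, c')).trans h')
    have h0 := Ex_res g (p := (c, c')) (q := (m, c')) ⟨h, le_rfl⟩ (x := x) h1
    refine h0.symm.trans ?_
    exact Ex_mem.1 (((ExN g).proj.nat (p := (c, c')) (q := (m, c')) ⟨h, le_rfl⟩ x).symm.trans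
      hx) h1
  · intro h
    have h1 := (Ex_ann g 1).1 h
    rw [map_one] at h1
    exact g.ne h1
  · intro a b h
    have h1 : ∀ z, g.psi a * z * g.psi b = 0 := by
      intro z
      obtain ⟨f, hf, a', ha'⟩ := g.surj z
      have h2 := (Ex_ann g _).1 (h a')
      rw [map_mul, map_mul, ha'] at h2
      have h3 : g.fn f * (g.psi a * z * g.psi b) = 0 := by
        rw [← mul_assoc, ← mul_assoc, g.fn_comm f (g.psi a), mul_assoc (g.psi a)]
        exact h2
      exact (g.unit f hf).mul_right_eq_zero.1 h3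
    rcases g.pr _ _ h1 with h2 | h2
    · exact Or.inl ((Ex_ann g a).2 h2)
    · exact Or.inr ((Ex_ann g b).2 h2)
  · intro f hf c' x hx
    obtain ⟨x, rfl⟩ := (ExN g).proj_surj (m, c') x
    have hf' : g.psi (algebraMap (RR k m.1) (A.A m) f) ≠ 0 := fun h => hf ((Ex_ann g _).2 h)
    refine Ex_mem.2 fun h' => ?_
    have h1 := Ex_mem.1 ((((ExN g).proj.f (m, c')).map_smul (cl1 A A (m, c') f) x).trans hx) h'
    have h2 := Ex_lo g c' h' (algebraMap (RR k m.1) (A.A m) f) x
    exact (g.unit f hf').mul_right_eq_zero.1 (h2.symm.trans h1)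

end Pool.Agent.MP_6e5bed_ag_BI
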