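import Pool.Agent.Lib.MP_6e5bed_ag_BI.Ex

set_option autoImplicit false
set_option linter.unusedVariables false

/-!
# MP_6e5bed_ag, THEOREM T, section 11: the reduced bisheaf of a point
-/

noncomputable section

namespace Pool.Agent.MP_6e5bed_ag_BI

open Pool.Agent.MP_6e5bed_ag_NC Pool.Agent.MP_6e5bed_ag_GG Pool.Agent.MP_6e5bed_ag_WW
open Pool.Agent.MP_6e5bed_ag_PN hiding Ch

universe u

variable {k : Type u} [Field k] {i : Type} [Fintype i] {A : CA k i} {m : Ch i}

/-- The functions which do not vanish in `g` are the ones which do not vanish in `g'`. -/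
private theorem ExB_fn_ne {g g' : GD A m} (h : ∀ a : A.A m, g.psi a = 0 ↔ g'.psi a = 0)
    {f : RR k m.1} (hf : g.fn f ≠ 0) : g'.fn f ≠ 0 := fun h0 => hf ((h _).2 h0)

private theorem ExB_mul_ne (g : GD A m) {f f' : RR k m.1} (hf : g.fn f ≠ 0) (hf' : g.fn f' ≠ 0) :
    g.fn (f * f') ≠ 0 := by
  intro h0
  have h1 : IsUnit (g.fn (f * f')) := by
    rw [g.fn_mul]
    exact (g.unit f hf).mul (g.unit f' hf')
  rw [h0] at h1
  have : (0 : g.S) = 1 := isUnit_zero_iff.1 h1
  exact g.ne this.symm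

/-- The subalgebra of `S × S'` of the pairs which are the same fraction. -/
private def ExB_sub (g g' : GD A m) (h : ∀ a : A.A m, g.psi a = 0 ↔ g'.psi a = 0) :
    Subalgebra k (g.S × g'.S) where
  carrier := {p | ∃ f : RR k m.1, g.fn f ≠ 0 ∧ ∃ a : A.A m, g.psi a = g.fn f * p.1 ∧
    g'.psi a = g'.fn f * p.2}
  mul_mem' := by
    rintro p q ⟨f, hf, a, h1, h2⟩ ⟨f', hf', a', h1', h2'⟩
    refine ⟨f * f', ExB_mul_ne g hf hf', a * a', ?_, ?_⟩
    · rw [map_mul, h1, h1', g.fn_mul, Prod.fst_mul, mul_assoc, mul_assoc, ← mul_assoc p.1,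
        ← g.fn_comm f' p.1, mul_assoc]
    · rw [map_mul, h2, h2', g'.fn_mul, Prod.snd_mul, mul_assoc, mul_assoc, ← mul_assoc p.2,
        ← g'.fn_comm f' p.2, mul_assoc]
  add_mem' := by
    rintro p q ⟨f, hf, a, h1, h2⟩ ⟨f', hf', a', h1', h2'⟩
    refine ⟨f * f', ExB_mul_ne g hf hf', algebraMap (RR k m.1) (A.A m) f' * a +
      algebraMap (RR k m.1) (A.A m) f * a', ?_, ?_⟩
    · rw [map_add, map_mul, map_mul, h1, h1', Prod.fst_add, mul_add]
      change g.fn f' * (g.fn f * p.1) + g.fn f * (g.fn f' * q.1) = _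
      rw [← mul_assoc, ← mul_assoc, ← g.fn_mul, ← g.fn_mul, mul_comm f' f]
    · rw [map_add, map_mul, map_mul, h2, h2', Prod.snd_add, mul_add]
      change g'.fn f' * (g'.fn f * p.2) + g'.fn f * (g'.fn f' * q.2) = _
      rw [← mul_assoc, ← mul_assoc, ← g'.fn_mul, ← g'.fn_mul, mul_comm f' f]
  algebraMap_mem' := fun c => by
    refine ⟨1, ?_, algebraMap k (A.A m) c, ?_, ?_⟩
    · rw [g.fn_one]
      exact g.ne
    · rw [g.fn_one, one_mul, AlgHom.commutes, Prod.algebraMap_apply]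
    · rw [g'.fn_one, one_mul, AlgHom.commutes, Prod.algebraMap_apply]

/-- Ex2. Generic data with the same kernel are isomorphic.
PROOF. The pairs `(s, s')` with `psi a = fn f * s`, `psi' a = fn' f * s'` for some `a` and some `f`
with `fn f ≠ 0` are a subalgebra of `S × S'` whose projections are bijective. -/
theorem exists_equiv (g g' : GD A m) (h : ∀ a : A.A m, g.psi a = 0 ↔ g'.psi a = 0) :
    ∃ e : g.S ≃ₐ[k] g'.S, ∀ a, e (g.psi a) = g'.psi a := by
  have hs : ∀ (f : RR k m.1), g.fn f ≠ 0 → IsUnit (g.fn f) := fun f hf => g.unit f hf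
  have hs' : ∀ (f : RR k m.1), g.fn f ≠ 0 → IsUnit (g'.fn f) :=
    fun f hf => g'.unit f (ExB_fn_ne h hf)
  let p1 : ExB_sub g g' h →ₐ[k] g.S := (AlgHom.fst k g.S g'.S).comp (ExB_sub g g' h).val
  let p2 : ExB_sub g g' h →ₐ[k] g'.S := (AlgHom.snd k g.S g'.S).comp (ExB_sub g g' h).val
  have hp1 : Function.Bijective p1 := by
    constructor
    · rw [injective_iff_map_eq_zero]
      rintro ⟨⟨s, s'⟩, f, hf, a, h1, h2⟩ h0
      have h0' : s = 0 := h0
      subst h0'
      have h3 : g.psi a = 0 := by rw [h1, mul_zero]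
      have h4 : g'.fn f * s' = 0 := by rw [← h2]; exact (h a).1 h3
      have h5 : s' = 0 := (hs' f hf).mul_right_eq_zero.1 h4
      subst h5
      rfl
    · intro s
      obtain ⟨f, hf, a, ha⟩ := g.surj s
      obtain ⟨v, hv⟩ := (hs' f hf).exists_right_inv
      refine ⟨⟨(s, v * g'.psi a), f, hf, a, ha, ?_⟩, rfl⟩
      change g'.psi a = g'.fn f * (v * g'.psi a)
      rw [← mul_assoc, hv, one_mul]
  have hp2 : Function.Bijective p2 := by
    constructor
    · rw [injective_iff_map_eq_zero]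
      rintro ⟨⟨s, s'⟩, f, hf, a, h1, h2⟩ h0
      have h0' : s' = 0 := h0
      subst h0'
      have h3 : g'.psi a = 0 := by rw [h2, mul_zero]
      have h4 : g.fn f * s = 0 := by rw [← h1]; exact (h a).2 h3
      have h5 : s = 0 := (hs f hf).mul_right_eq_zero.1 h4
      subst h5
      rfl
    · intro s
      obtain ⟨f, hf, a, ha⟩ := g'.surj s
      have hf' : g.fn f ≠ 0 := fun h0 => hf ((h _).1 h0)
      obtain ⟨v, hv⟩ := (hs f hf').exists_right_inv
      refine ⟨⟨(v * g.psi a, s), f, hf', a, ?_, ha⟩, rfl⟩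
      change g.psi a = g.fn f * (v * g.psi a)
      rw [← mul_assoc, hv, one_mul]
  refine ⟨(AlgEquiv.ofBijective p1 hp1).symm.trans (AlgEquiv.ofBijective p2 hp2), fun a => ?_⟩
  have hmem : (g.psi a, g'.psi a) ∈ ExB_sub g g' h := by
    refine ⟨1, ?_, a, ?_, ?_⟩
    · rw [g.fn_one]
      exact g.ne
    · rw [g.fn_one, one_mul]
    · rw [g'.fn_one, one_mul]
  have h6 : (AlgEquiv.ofBijective p1 hp1) ⟨(g.psi a, g'.psi a), hmem⟩ = g.psi a := rfl
  rw [AlgEquiv.trans_apply, ← h6, AlgEquiv.symm_apply_apply]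
  rfl

/-- Ex3. -/
theorem exists_red (g : GD A m) : ∃ (E : BS A A) (hR : Red E m), E.Coh ∧
    (∀ a : A.A m, hR.gd.psi a = 0 ↔ g.psi a = 0) ∧ Nonempty (hR.gd.S ≃ₐ[k] g.S) := by
  obtain ⟨E, hR, hE, h⟩ := exists_red0 g
  have h1 : ∀ a : A.A m, hR.gd.psi a = 0 ↔ g.psi a = 0 := fun a => (hR.gd_psi a).trans (h a)
  obtain ⟨e, -⟩ := exists_equiv hR.gd g h1
  exact ⟨E, hR, hE, h1, ⟨e⟩⟩

/-- Ex4. Isomorphic algebras have isomorphic centres. -/
theorem center_congr {S S' : Type u} [Ring S] [Algebra k S] [Ring S'] [Algebra k S']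
    (e : S ≃ₐ[k] S') : Nonempty (Subalgebra.center k S ≃ₐ[k] Subalgebra.center k S') := by
  have hmap : (Subalgebra.center k S).map (e : S →ₐ[k] S') = Subalgebra.center k S' := by
    ext x
    rw [Subalgebra.mem_map, Subalgebra.mem_center_iff]
    constructor
    · rintro ⟨y, hy, rfl⟩ b
      rw [Subalgebra.mem_center_iff] at hy
      have h1 := congrArg e (hy (e.symm b))
      rw [map_mul, map_mul, e.apply_symm_apply] at h1
      exact h1
    · intro hx
      refine ⟨e.symm x, ?_, e.apply_symm_apply x⟩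
      rw [Subalgebra.mem_center_iff]
      intro b
      have h1 := congrArg e.symm (hx (e b))
      rw [map_mul, map_mul, e.symm_apply_apply] at h1
      exact h1
  exact ⟨(e.subalgebraMap _).trans (Subalgebra.equivOfEq _ _ hmap)⟩

end Pool.Agent.MP_6e5bed_ag_BI
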