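import Pool.Agent.Lib.MP_6e5bed_ag_BI.HfJ

set_option autoImplicit false
set_option linter.unusedVariables false

/-!
# MP_6e5bed_ag, THEOREM T, section 13: the identity in terms of the points
-/

noncomputable section

namespace Pool.Agent.MP_6e5bed_ag_BI

open Pool.Agent.MP_6e5bed_ag_NC Pool.Agent.MP_6e5bed_ag_GG Pool.Agent.MP_6e5bed_ag_WW
open Pool.Agent.MP_6e5bed_ag_PN hiding Ch
open Pool.Agent.MP_6e5bed_ag_PS (SPJ)
open Pool.Agent.MP_6e5bed_ag_GP (LV)

universe u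

variable {k : Type u} [Field k] {i : Type} [Fintype i]

variable {Good : DGA k → Prop} {A : CA k i} (hL : LOC A) {hS : Smooth (TT A)} {ι : Type}
  [Fintype ι] {P : Pts Good A ι}

include hL in
/-- Half4. THE HALF.
PROOF. Transport the data `Hf0` by `exists_trf`: `x s = β (xg ..)`, `Gm s = Gm0 s ∘ α`,
`comp (β x) z = β (comp x z)`. -/
theorem half {Z : ι → Type u} [∀ s, CommRing (Z s)] [∀ s, Algebra k (Z s)]
    (e : ∀ s, Nonempty (Z s ≃ₐ[k] Subalgebra.center k (P.g s).S)) :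
    Nonempty (Hf Good A hS ι Z) := by
  obtain ⟨H⟩ := exists_hf0 hL hS P
  have hone := H.one hL
  have e' : ∀ s, Nonempty (Trf k (Z s) (H.hR s).gd.S) := by
    intro s
    obtain ⟨e1⟩ := e s
    obtain ⟨e2⟩ := H.cen s
    exact exists_trf (H.hR s).gd (Z s) (e1.trans e2.symm)
  have t : ∀ s, Trf k (Z s) (H.hR s).gd.S := fun s => (e' s).some
  refine ⟨{
    x := fun s => (t s).β (TT A) (xg (H.hR s).gd (H.gi s) hS)
    Gm := fun s => H.Gm s ∘ₗ (t s).α (TT A)
    lift := ?_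
    one := ?_ }⟩
  · intro s x' _ B hB' hB y
    obtain ⟨z, hz1, hz2, hz3⟩ := H.lift s B hB' hB ((t s).α (TT B) y)
    refine ⟨z, ?_, ?_, ?_⟩
    · intro w
      rw [LinearMap.comp_apply, (t s).αc hB w y]
      exact hz1 w
    · rw [← (t s).βc (pT A) z (xg (H.hR s).gd (H.gi s) hS), hz2, (t s).βα]
    · intro r hr
      rw [← (t r).βc (pT A) z (xg (H.hR r).gd (H.gi r) hS), hz3 r hr, map_zero]
  · have h1 : (JS Good (TT A)).mkQ (K0Q.one hS) =
        ∑ s, H.Gm s (K0Q.comp (pT A) (xg (H.hR s).gd (H.gi s) hS) (K0Q.one hS)) := by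
      have h2 : H.D (K0Q.one hS) = (JS Good (TT A)).mkQ (K0Q.one hS) -
          ∑ s, H.Gm s (K0Q.comp (pT A) (xg (H.hR s).gd (H.gi s) hS) (K0Q.one hS)) := by
        simp only [Hf0.D, LinearMap.sub_apply, LinearMap.sum_apply, LinearMap.comp_apply]
      rw [h2, sub_eq_zero] at hone
      exact hone
    rw [h1]
    refine Finset.sum_congr rfl fun s _ => ?_
    rw [LinearMap.comp_apply, (t s).αβ, K0Q.comp_one hS (pT A)]

end Pool.Agent.MP_6e5bed_ag_BI
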