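import Pool.Agent.Lib.MP_6e5bed_ag_WW.LSg

set_option autoImplicit false
set_option linter.unusedVariables false
set_option linter.unusedSectionVars false

/-!
# MP_6e5bed_ag, THEOREM T, section 12: the classes over an algebra and over its centre
-/

noncomputable section

namespace Pool.Agent.MP_6e5bed_ag_BI

open Pool.Agent.MP_6e5bed_ag_NC Pool.Agent.MP_6e5bed_ag_GG Pool.Agent.MP_6e5bed_ag_WW
open scoped TensorProduct

universe u

variable {k : Type u} [Field k]

section aux

variable {L S : Type u} [Field L] [Algebra k L] [Ring S] [Algebra k S]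
  [Algebra L S] [IsScalarTower k L S] [FiniteDimensional L S] {T : DGA k} (M : Bim (ring k L) T)

/-- the left action of `L` -/
private def thA : L →ₗ[k] M.M →ₗ[k] M.M := M.l

private theorem thA_mul (s s' : L) (m : M.M) : thA M (s * s') m = thA M s (thA M s' m) :=
  M.l_mul s s' m

private theorem thA_one (m : M.M) : thA M 1 m = m := M.l_one m

private theorem thA_deg {j : ℤ} {m : M.M} (hm : M.dg.IsDeg j m) (b : L) :
    M.dg.IsDeg j (thA M b m) := by
  have h : M.dg.IsDeg (0 + j) (thA M b m) := M.l_deg (Dg.conc_deg b) hm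
  rwa [zero_add] at h

private theorem th_repr (c : L) (s : S) (j : Fin (Module.finrank L S)) :
    (Module.finBasis L S).repr (algebraMap L S c * s) j = c * (Module.finBasis L S).repr s j := by
  rw [← Algebra.smul_def, map_smul, Finsupp.smul_apply, smul_eq_mul]

private theorem th_repr_smul (c : k) (s : S) (j : Fin (Module.finrank L S)) :
    (Module.finBasis L S).repr (c • s) j = c • (Module.finBasis L S).repr s j := by
  have h : c • s = algebraMap L S (algebraMap k L c) * s := by
    rw [← IsScalarTower.algebraMap_apply, ← Algebra.smul_def]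
  rw [h, th_repr, ← Algebra.smul_def]

private theorem th_deg {i j : ℤ} {s : S} {m : M.M} (hs : (Dg.conc k S).IsDeg i s)
    (hm : M.dg.IsDeg j m) (l : Fin (Module.finrank L S)) :
    M.dg.IsDeg (i + j) (thA M ((Module.finBasis L S).repr s l) m) := by
  rcases Dg.conc_cases hs with h0 | h0
  · subst h0
    rw [zero_add]
    exact thA_deg M hm _
  · rw [h0, map_zero, Finsupp.zero_apply, map_zero, LinearMap.zero_apply]
    exact Dg.IsDeg.zero _

/-- `s ⊗ m ↦ (s_j m)_j` -/
private def thTb : S →ₗ[k] M.M →ₗ[k] (M.qt (Fin (Module.finrank L S) → k)).M :=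
  LinearMap.mk₂ k (fun (s : S) (m : M.M) => ∑ j, M.tq (Pi.single j (1 : k))
      (thA M ((Module.finBasis L S).repr s j) m))
    (fun s s' m => by
      rw [← Finset.sum_add_distrib]
      refine Finset.sum_congr rfl fun j _ => ?_
      rw [map_add, Finsupp.add_apply, map_add, LinearMap.add_apply, map_add])
    (fun c s m => by
      rw [Finset.smul_sum]
      refine Finset.sum_congr rfl fun j _ => ?_
      rw [th_repr_smul, map_smul, LinearMap.smul_apply, Bim.tq_smul])
    (fun s m m' => by
      rw [← Finset.sum_add_distrib]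
      refine Finset.sum_congr rfl fun j _ => ?_
      rw [map_add, map_add])
    (fun c s m => by
      rw [Finset.smul_sum]
      refine Finset.sum_congr rfl fun j _ => ?_
      rw [map_smul, Bim.tq_smul])

private theorem thTb_apply (s : S) (m : M.M) : thTb (S := S) M s m =
    ∑ j, M.tq (Pi.single j (1 : k)) (thA M ((Module.finBasis L S).repr s j) m) := rfl

private theorem thTb_bal (s : S) (c : L) (m : M.M) :
    thTb (S := S) M (s * algebraMap L S c) m = thTb M s (thA M c m) := by
  rw [thTb_apply, thTb_apply]
  refine Finset.sum_congr rfl fun j _ => ?_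
  rw [← Algebra.commutes, th_repr, ← thA_mul, mul_comm]

/-- `s ⊗ m ↦ (s_j m)_j` -/
private def thTf : (tb (lsD L S) M).M →ₗ[k] (M.qt (Fin (Module.finrank L S) → k)).M :=
  tlift (M := lsD L S) (N := M) (thTb (S := S) M) (fun s c m => thTb_bal (S := S) M s c m)

/-- the pure tensors -/
private def thT (s : S) (m : M.M) : (tb (lsD L S) M).M := tm (M := lsD L S) (N := M) s m

private theorem thT_l (a s : S) (m : M.M) :
    (tb (lsD L S) M).l a (thT M s m) = thT M (a * s) m :=
  tb_l (M := lsD L S) (N := M) a s m

private theorem thTf_t (s : S) (m : M.M) : thTf (S := S) M (thT M s m) = thTb (S := S) M s m :=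
  tlift_tm (M := lsD L S) (N := M) (thTb (S := S) M)
    (fun s c m => thTb_bal (S := S) M s c m) s m

private theorem thT_ind {P : (tb (lsD L S) M).M → Prop} (h0 : P 0)
    (hadd : ∀ x y, P x → P y → P (x + y)) (h : ∀ (s : S) (m : M.M), P (thT M s m)) (x) : P x :=
  tb_ind (M := lsD L S) (N := M) h0 hadd h x

private theorem thT_add (s s' : S) (m : M.M) :
    thT (S := S) M (s + s') m = thT M s m + thT M s' m :=
  tm_add_left (M := lsD L S) (N := M) s s' m

private theorem thT_add' (s : S) (m m' : M.M) :
    thT (S := S) M s (m + m') = thT M s m + thT M s m' :=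
  tm_add_right (M := lsD L S) (N := M) s m m'

private theorem thT_smul' (c : k) (s : S) (m : M.M) :
    thT (S := S) M s (c • m) = c • thT M s m :=
  tm_smul_right (M := lsD L S) (N := M) c s m

private theorem thT_bal (s : S) (c : L) (m : M.M) :
    thT (S := S) M (c • s) m = thT M s (thA M c m) := by
  have h := tm_r_l (M := lsD L S) (N := M) s c m
  have h1 : c • s = s * algebraMap L S c := by rw [Algebra.smul_def, Algebra.commutes]
  rw [h1]
  exact h

/-- the pure tensors with a fixed right factor -/
private def thTl (m : M.M) : S →+ (tb (lsD L S) M).M :=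
  AddMonoidHom.mk' (fun s => thT M s m) (fun s s' => thT_add M s s' m)

private theorem thT_sum {n : ℕ} (f : Fin n → S) (m : M.M) :
    thT (S := S) M (∑ j, f j) m = ∑ j, thT M (f j) m :=
  map_sum (thTl M m) f Finset.univ

/-- `(m_j) ↦ ∑ b_j ⊗ m_j` -/
private def thTg : (M.qt (Fin (Module.finrank L S) → k)).M →ₗ[k] (tb (lsD L S) M).M :=
  M.tqLift (LinearMap.mk₂ k (fun (v : Fin (Module.finrank L S) → k) (m : M.M) =>
      ∑ j, v j • thT (S := S) M (Module.finBasis L S j) m)
    (fun v v' m => by
      rw [← Finset.sum_add_distrib]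
      exact Finset.sum_congr rfl fun j _ => add_smul _ _ _)
    (fun c v m => by
      rw [Finset.smul_sum]
      exact Finset.sum_congr rfl fun j _ => mul_smul _ _ _)
    (fun v m m' => by
      rw [← Finset.sum_add_distrib]
      refine Finset.sum_congr rfl fun j _ => ?_
      rw [thT_add', smul_add])
    (fun c v m => by
      rw [Finset.smul_sum]
      refine Finset.sum_congr rfl fun j _ => ?_
      rw [thT_smul', smul_comm]))

private theorem thTg_tq (v : Fin (Module.finrank L S) → k) (m : M.M) :
    thTg M (M.tq v m) = ∑ j, v j • thT (S := S) M (Module.finBasis L S j) m :=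
  Bim.tqLift_tq _ v m

private theorem thTg_single (j : Fin (Module.finrank L S)) (m : M.M) :
    thTg M (M.tq (Pi.single j (1 : k)) m) = thT (S := S) M (Module.finBasis L S j) m := by
  rw [thTg_tq, Finset.sum_eq_single j]
  · rw [Pi.single_eq_same, one_smul]
  · intro l _ hl
    rw [Pi.single_eq_of_ne hl, zero_smul]
  · intro h
    exact absurd (Finset.mem_univ _) h

private theorem thTf_bij : Function.Bijective (thTf (L := L) (S := S) M) := by
  classical
  refine Function.bijective_iff_has_inverse.2 ⟨thTg M, fun x => ?_, fun v => ?_⟩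
  · refine thT_ind M (P := fun x => thTg M (thTf M x) = x) ?_ ?_ ?_ x
    · rw [map_zero, map_zero]
    · intro x y hx hy
      rw [map_add, map_add, hx, hy]
    · intro s m
      rw [thTf_t, thTb_apply, map_sum, Finset.sum_congr rfl fun j _ => thTg_single M j _,
        Finset.sum_congr rfl fun j _ => (thT_bal M _ _ _).symm, ← thT_sum]
      congr 1
      exact (Module.finBasis L S).sum_repr s
  · have h0 : ∀ (l : Fin (Module.finrank L S)) (m : M.M),
        thTf (L := L) M (thT (S := S) M (Module.finBasis L S l) m) =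
          M.tq (Pi.single l (1 : k)) m := by
      intro l m
      rw [thTf_t, thTb_apply, Finset.sum_eq_single l]
      · rw [Module.Basis.repr_self, Finsupp.single_eq_same, thA_one]
      · intro j _ hj
        rw [Module.Basis.repr_self, Finsupp.single_eq_of_ne hj, map_zero, LinearMap.zero_apply,
          map_zero]
      · intro h
        exact absurd (Finset.mem_univ _) h
    refine Bim.tq_ind (P := fun v => thTf (L := L) M (thTg (S := S) M v) = v) ?_ ?_ ?_ v
    · rw [map_zero, map_zero]
    · intro x y hx hy
      rw [map_add, map_add, hx, hy]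
    · intro v m
      have h1 : M.tq v m = ∑ j, v j • M.tq (Pi.single j (1 : k)) m := by
        have h2 : ∀ j, v j • M.tq (Pi.single j (1 : k) : Fin (Module.finrank L S) → k) m =
            M.tq (Pi.single j (v j) : Fin (Module.finrank L S) → k) m :=
          fun j => by rw [← Bim.smul_tq, ← Pi.single_smul, smul_eq_mul, mul_one]
        rw [Finset.sum_congr rfl fun j _ => h2 j]
        change v ⊗ₜ[k] m = ∑ j, (Pi.single j (v j) : Fin (Module.finrank L S) → k) ⊗ₜ[k] m
        rw [← TensorProduct.sum_tmul, Finset.univ_sum_single]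
      rw [thTg_tq, map_sum, h1]
      refine Finset.sum_congr rfl fun j _ => ?_
      rw [map_smul, h0]

/-- `S ⊗_L M = M ^ d` over `L` -/
private theorem thT_biso : BIso (res (lsH L S) (DHom.id T) (tb (lsD L S) M))
    (M.qt (Fin (Module.finrank L S) → k)) := by
  refine BIso.of_bij (M := res (lsH L S) (DHom.id T) (tb (lsD L S) M))
    { f := thTf (L := L) (S := S) M, deg := ?_, map_l := ?_, map_r := ?_ } ?_
    (thTf_bij M)
  · intro i x hx
    refine tb_degMap (M := lsD L S) (N := M)
      (Z := (M.qt (Fin (Module.finrank L S) → k)).dg) (thTf (S := S) M)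
      (fun {i j} {s : S} {m : M.M} hs hm => ?_) hx
    have h1 : thTf (S := S) M (tm (M := lsD L S) (N := M) s m) = thTb (S := S) M s m :=
      thTf_t M s m
    rw [h1, thTb_apply, add_zero]
    exact ls_sum fun l => Bim.tq_deg _ (th_deg (S := S) M hs hm l)
  · intro a x
    rw [Dg.sp_zero]
    refine thT_ind M (P := fun x => thTf (L := L) M ((tb (lsD L S) M).l (algebraMap L S a) x) =
        (M.qt (Fin (Module.finrank L S) → k)).l a (thTf (L := L) M x)) ?_ ?_ ?_ x
    · rw [map_zero, map_zero, map_zero]
    · intro x y hx hy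
      rw [map_add, map_add, map_add, map_add, hx, hy]
    · intro s m
      rw [thT_l, thTf_t, thTf_t, thTb_apply, thTb_apply, map_sum]
      refine Finset.sum_congr rfl fun j _ => ?_
      rw [Bim.tq_l, th_repr, thA_mul]
      rfl
  · intro a x
    refine thT_ind M (P := fun x => thTf (L := L) M ((tb (lsD L S) M).r a x) =
        (M.qt (Fin (Module.finrank L S) → k)).r a (thTf (L := L) M x)) ?_ ?_ ?_ x
    · rw [map_zero, map_zero, map_zero]
    · intro x y hx hy
      rw [map_add, map_add, map_add, map_add, hx, hy]
    · intro s m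
      have h1 : (tb (lsD L S) M).r a (thT M s m) = thT M s (M.r a m) := tb_r _ _ _
      rw [h1, thTf_t, thTf_t, thTb_apply, thTb_apply, map_sum]
      refine Finset.sum_congr rfl fun j _ => ?_
      rw [Bim.tq_r]
      exact congrArg _ (M.l_r _ _ _)
  · refine LinearMap.ext fun x => ?_
    rw [GMap.dd_apply, sg_zero, one_smul, LinearMap.zero_apply, sub_eq_zero]
    refine thT_ind M (P := fun x => (M.qt (Fin (Module.finrank L S) → k)).dg.d
      (thTf (L := L) M x) = thTf (L := L) M ((tb (lsD L S) M).dg.d x)) ?_ ?_ ?_ x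
    · rw [map_zero, map_zero, map_zero, map_zero]
    · intro x y hx hy
      rw [map_add, map_add, map_add, map_add, hx, hy]
    · intro s m
      have h1 : (tb (lsD L S) M).dg.d (thT M s m) = thT M s (M.dg.d m) := by
        refine (tb_d (M := lsD L S) (N := M) s m).trans ?_
        have h2 : (lsD (k := k) L S).dg.d s = 0 := rfl
        have h3 : (lsD (k := k) L S).dg.s s = s := Dg.conc_s (k := k) (V := S) s
        rw [h2, h3, tm_zero_left, zero_add]
        rfl
      rw [h1, thTf_t, thTf_t, thTb_apply, thTb_apply, map_sum]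
      refine Finset.sum_congr rfl fun j _ => ?_
      rw [Bim.tq_d]
      refine congrArg _ ((M.d_l _ _).trans ?_)
      have h4 : ∀ x : L, (ring k L).dg.d x = 0 := fun _ => rfl
      have h5 : ∀ x : L, (ring k L).dg.s x = x := fun x => Dg.conc_s (k := k) (V := L) x
      rw [h4, h5, map_zero, LinearMap.zero_apply, zero_add]
      rfl

end aux

section ls

variable (L S : Type u) [Field L] [Algebra k L] [Ring S] [Algebra k S]
  [Algebra L S] [IsScalarTower k L S] [FiniteDimensional L S]

/-- Th1. Restriction after extension is multiplication with the dimension.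
PROOF. For a bimodule `M` over `L` and `T`, `S ⊗_L M` restricted to `L` is `M ^ d`
(`M.qt (Fin d → k)`), by a basis of `S` over `L`; compare `lsT_biso` and the end of the proof of
`lsExt_lsRes` (WW/LS). -/
theorem lsRes_lsExt {T : DGA k} (x : K0Q (ring k L) T) :
    lsRes L S T (lsExt L S T x) = (Module.finrank L S : ℚ) • x := by
  refine K0Q.ind (P := fun x => lsRes L S T (lsExt L S T x) = (Module.finrank L S : ℚ) • x)
    ?_ ?_ ?_ ?_ x
  · intro x y hx hy
    simp only [map_add, hx, hy, smul_add]
  · intro c x hx
    simp only [map_smul, hx]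
    rw [smul_comm]
  · simp
  intro M hM
  rw [lsExt_cls, lsRes_cls, K0Q.cls_iso (thT_biso M) _ (Perf.qt _ hM), K0Q.cls_qt _ hM]
  congr 2
  exact Module.finrank_fin_fun k

/-- Th2. Restriction commutes with composition. (Compare `lsExt_comp`; `res (tb M U) = tb (res M)
U`.) -/
theorem lsRes_comp {T T' : DGA k} (hT' : Proper T') (u : K0Q T' T)
    (y : K0Q (ring k S) T') :
    lsRes L S T (K0Q.comp hT' y u) = K0Q.comp hT' (lsRes L S T' y) u := by
  refine K0Q.ind (P := fun y => lsRes L S T (K0Q.comp hT' y u) =
    K0Q.comp hT' (lsRes L S T' y) u) ?_ ?_ ?_ ?_ y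
  · intro x y hx hy
    simp only [map_add, LinearMap.add_apply, hx, hy]
  · intro c x hx
    simp only [map_smul, LinearMap.smul_apply, hx]
  · simp
  intro M hM
  refine K0Q.ind (P := fun u => lsRes L S T (K0Q.comp hT' (cls M hM) u) =
    K0Q.comp hT' (lsRes L S T' (cls M hM)) u) ?_ ?_ ?_ ?_ u
  · intro x y hx hy
    simp only [map_add, hx, hy]
  · intro c x hx
    simp only [map_smul, hx]
  · simp
  intro N hN
  rw [K0Q.comp_cls hT' hM hN, lsRes_cls, lsRes_cls, K0Q.comp_cls hT' _ hN]
  exact K0Q.cls_iso (res_tb (lsH L S) (DHom.id T) M N) _ _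

end ls

/-- The transfer between the classes over two algebras. -/
structure Trf (k : Type u) [Field k] (Z S : Type u) [Ring Z] [Algebra k Z] [Ring S]
    [Algebra k S] where
  α : ∀ T : DGA k, K0Q (ring k Z) T →ₗ[ℚ] K0Q (ring k S) T
  β : ∀ T : DGA k, K0Q (ring k S) T →ₗ[ℚ] K0Q (ring k Z) T
  βα : ∀ T x, β T (α T x) = x
  αβ : ∀ T x, α T (β T x) = x
  αc : ∀ {T T' : DGA k} (hT' : Proper T') (u : K0Q T' T) (y : K0Q (ring k Z) T'),
    α T (K0Q.comp hT' y u) = K0Q.comp hT' (α T' y) u
  βc : ∀ {T T' : DGA k} (hT' : Proper T') (u : K0Q T' T) (y : K0Q (ring k S) T'),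
    β T (K0Q.comp hT' y u) = K0Q.comp hT' (β T' y) u

section central

variable (L S : Type u) [Field L] [Algebra k L] [Ring S] [Algebra k S]
  [Algebra L S] [IsScalarTower k L S] [FiniteDimensional L S] [Algebra.IsCentral L S]
  [IsSimpleRing S]

/-- the transfer between the classes over a central simple algebra and over its centre -/
private def thTrf : Trf k L S where
  α T := lsExt L S T
  β T := (Module.finrank L S : ℚ)⁻¹ • lsRes L S T
  βα T x := by
    have hd : (Module.finrank L S : ℚ) ≠ 0 := by
      have h1 : 0 < Module.finrank L S := Module.finrank_pos_iff.2 inferInstance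
      exact_mod_cast h1.ne'
    rw [LinearMap.smul_apply, lsRes_lsExt, smul_smul, inv_mul_cancel₀ hd, one_smul]
  αβ T x := by
    have hd : (Module.finrank L S : ℚ) ≠ 0 := by
      have h1 : 0 < Module.finrank L S := Module.finrank_pos_iff.2 inferInstance
      exact_mod_cast h1.ne'
    rw [LinearMap.smul_apply, map_smul, lsExt_lsRes, smul_smul, inv_mul_cancel₀ hd, one_smul]
  αc hT' u y := lsExt_comp L S hT' u y
  βc hT' u y := by
    rw [LinearMap.smul_apply, LinearMap.smul_apply, lsRes_comp, map_smul, LinearMap.smul_apply]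

end central

private theorem th_exists {i : Type} [Fintype i] {A : CA k i} {m : Ch i} (g : GD A m) (Z : Type u)
    [Field Z] [Algebra k Z] (e : Z ≃ₐ[k] Subalgebra.center k g.S) :
    Nonempty (Trf k Z g.S) := by
  have h4 : IsSimpleRing g.S := g.main.1
  let φ : Z →+* g.S := (Subalgebra.val (Subalgebra.center k g.S)).toRingHom.comp e.toRingHom
  have hφ : ∀ c x, φ c * x = x * φ c := fun c x => (Subalgebra.mem_center_iff.1 (e c).2 x).symm
  let _ : Algebra Z g.S := φ.toAlgebra' hφ
  have h1 : IsScalarTower k Z g.S := IsScalarTower.of_algebraMap_eq fun c => by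
    change _ = ((e (algebraMap k Z c) : Subalgebra.center k g.S) : g.S)
    rw [AlgEquiv.commutes]
    rfl
  have h2 : Algebra.IsCentral Z g.S := by
    refine ⟨fun x hx => ?_⟩
    have hx' : x ∈ Subalgebra.center k g.S :=
      Subalgebra.mem_center_iff.2 (Subalgebra.mem_center_iff.1 hx)
    refine Algebra.mem_bot.2 ⟨e.symm ⟨x, hx'⟩, ?_⟩
    change ((e (e.symm ⟨x, hx'⟩) : Subalgebra.center k g.S) : g.S) = x
    rw [AlgEquiv.apply_symm_apply]
  have h3 : Module.Finite Z g.S := by
    have h := g.finite
    obtain ⟨s, hs⟩ := h.fg_top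
    refine ⟨s, ?_⟩
    rw [eq_top_iff]
    intro x _
    have hx : x ∈ Submodule.span (Subalgebra.center k g.S) (s : Set g.S) := by
      rw [hs]
      exact Submodule.mem_top
    refine Submodule.span_induction (p := fun x _ => x ∈ Submodule.span Z (s : Set g.S))
      (fun y hy => Submodule.subset_span hy) (Submodule.zero_mem _)
      (fun y z _ _ hy hz => Submodule.add_mem _ hy hz) (fun c y _ hy => ?_) hx
    have h5 : c • y = (e.symm c) • y := by
      rw [Algebra.smul_def (e.symm c) y]
      change c • y = ((e (e.symm c) : Subalgebra.center k g.S) : g.S) * y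
      rw [AlgEquiv.apply_symm_apply]
      rfl
    rw [h5]
    exact Submodule.smul_mem _ _ hy
  have h5 : FiniteDimensional Z g.S := h3
  exact ⟨thTrf Z g.S⟩

/-- Th3. The classes over the algebra of generic data and over a commutative ring isomorphic to its
centre.
PROOF. `Z` is a field (`g.isField`), `S` is a central simple algebra over it (`e`);
`α = lsExt`, `β = d⁻¹ • lsRes`; `lsExt_lsRes`, `lsExt_comp`, Th1, Th2. -/
theorem exists_trf {i : Type} [Fintype i] {A : CA k i} {m : Ch i} (g : GD A m) (Z : Type u)
    [CommRing Z] [Algebra k Z] (e : Z ≃ₐ[k] Subalgebra.center k g.S) :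
    Nonempty (Trf k Z g.S) := by
  have hZ : IsField Z := MulEquiv.isField g.isField e.toMulEquiv
  let _ : Field Z := hZ.toField
  exact th_exists g Z e

end Pool.Agent.MP_6e5bed_ag_BI
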