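import Pool.Agent.Lib.MP_6e5bed_ag_BI.StT
import Pool.Agent.Lib.MP_6e5bed_ag_BI.Dis
import Pool.Agent.Lib.MP_6e5bed_ag_BI.ExB
import Pool.Agent.Lib.MP_6e5bed_ag_BI.Th

set_option autoImplicit false
set_option linter.unusedVariables false

/-!
# MP_6e5bed_ag, THEOREM T, section 13: the identity in terms of the points
-/

noncomputable section

namespace Pool.Agent.MP_6e5bed_ag_BI

open Pool.Agent.MP_6e5bed_ag_NC Pool.Agent.MP_6e5bed_ag_GG Pool.Agent.MP_6e5bed_ag_WW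
open Pool.Agent.MP_6e5bed_ag_PN hiding Ch
open Pool.Agent.MP_6e5bed_ag_PS (SPJ)
open Pool.Agent.MP_6e5bed_ag_GP (LV)

universe u

variable {k : Type u} [Field k] {i : Type} [Fintype i]

/-- THE HALF: the classes `x s` of the points and the functions `Gm s`, over commutative rings `Z s`
isomorphic to the centres at the points. -/
structure Hf (Good : DGA k → Prop) (A : CA k i) (hS : Smooth (TT A)) (ι : Type) [Fintype ι]
    (Z : ι → Type u) [∀ s, CommRing (Z s)] [∀ s, Algebra k (Z s)] where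
  x : ∀ s, K0Q (ring k (Z s)) (TT A)
  Gm : ∀ s, K0Q (ring k (Z s)) (TT A) →ₗ[ℚ] (K0Q (TT A) (TT A) ⧸ JS Good (TT A))
  lift : ∀ (s : ι) {x' : Type} [Fintype x'] (B : CA k x') (_ : Smooth (TT B))
    (hB : Proper (TT B)) (y : K0Q (ring k (Z s)) (TT B)), ∃ z : K0Q (TT A) (TT B),
      (∀ w : K0Q (TT B) (TT A), Gm s (K0Q.comp hB y w) =
        (JS Good (TT A)).mkQ (K0Q.comp hB z w)) ∧
      K0Q.comp (pT A) (x s) z = y ∧ ∀ t, t ≠ s → K0Q.comp (pT A) (x t) z = 0
  one : (JS Good (TT A)).mkQ (K0Q.one hS) = ∑ s, Gm s (x s)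

/-- The data over the algebras of the points themselves. -/
structure Hf0 {Good : DGA k → Prop} {A : CA k i} (hS : Smooth (TT A)) {ι : Type} [Fintype ι]
    (P : Pts Good A ι) where
  E : ι → BS A A
  hE : ∀ s, (E s).Coh
  hR : ∀ s, Red (E s) (P.m s)
  same : ∀ s, SameK (hR s).gd (P.g s)
  cen : ∀ s, Nonempty (Subalgebra.center k (hR s).gd.S ≃ₐ[k] Subalgebra.center k (P.g s).S)
  gi : ∀ s, GI (hR s).gd
  Gm : ∀ s, K0Q (ring k (hR s).gd.S) (TT A) →ₗ[ℚ] (K0Q (TT A) (TT A) ⧸ JS Good (TT A))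
  lift : ∀ (s : ι) {x' : Type} [Fintype x'] (B : CA k x') (_ : Smooth (TT B))
    (hB : Proper (TT B)) (y : K0Q (ring k (hR s).gd.S) (TT B)), ∃ z : K0Q (TT A) (TT B),
      (∀ w : K0Q (TT B) (TT A), Gm s (K0Q.comp hB y w) =
        (JS Good (TT A)).mkQ (K0Q.comp hB z w)) ∧
      K0Q.comp (pT A) (xg (hR s).gd (gi s) hS) z = y ∧
      ∀ t, t ≠ s → K0Q.comp (pT A) (xg (hR t).gd (gi t) hS) z = 0
  coh : ∀ (s : ι) (F : BS A A) (_ : F.Coh) (_ : ann (E s) ≤ ann F) (r : HasRes F.bp.BB),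
    Gm s (K0Q.comp (pT A) (xg (hR s).gd (gi s) hS) (rcls F.bp.BB r)) =
      (JS Good (TT A)).mkQ (rcls F.bp.BB r)

variable {Good : DGA k → Prop} {A : CA k i} (hL : LOC A) (hS : Smooth (TT A)) {ι : Type}
  [Fintype ι] (P : Pts Good A ι)

include hL in
/-- Half1. The data exist.
PROOF. `exists_red (P.g s)` gives `E s`, `hR s`; `GI.of_sameK`, `center_congr`; `stT` with
`J = JS Good (TT A)`: the hypothesis `ih` by `lv_of_lt` and `cl_lv` (GP/CorV). In `lift` the last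
statement by `dis`: `SameK (hR s).gd (hR t).gd` would give `SameK (P.g s) (P.g t)`. -/
theorem exists_hf0 : Nonempty (Hf0 hS P) := by
  choose E hR hE hK hI using fun s => exists_red (P.g s)
  have same : ∀ s, SameK (hR s).gd (P.g s) := fun s => sameK_iff.2 (hK s)
  have gi : ∀ s, GI (hR s).gd := fun s => GI.of_sameK (same s).symm (P.gi s)
  choose Gm lift coh using fun s => stT A hL hS (JS Good (TT A)) (E s) (P.m s) (hE s) (hR s)
    (gi s) (fun F hF hlt => MP_6e5bed_ag_GP.cl_lv hF (lv_of_lt P (hR s) hlt))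
  refine ⟨{ E := E, hE := hE, hR := hR, same := same, cen := fun s => ?_, gi := gi, Gm := Gm,
            lift := ?_, coh := coh }⟩
  · obtain ⟨e⟩ := hI s
    exact center_congr e
  · intro s x' _ B hBs hB y
    obtain ⟨z, h1, h2, h3⟩ := lift s B hBs hB y
    refine ⟨z, h1, h2, fun t hts => h3 (P.m t) (hR t).gd (gi t) ?_⟩
    refine dis (hR s) (hR t).gd (gi t) fun hst => ?_
    exact P.ne s t (Ne.symm hts) (((same s).symm.trans hst).trans (same t))

end Pool.Agent.MP_6e5bed_ag_BI
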