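import Pool.Agent.Lib.MP_6e5bed_ag_BI.HfD

set_option autoImplicit false
set_option linter.unusedVariables false

/-!
# MP_6e5bed_ag, THEOREM T, section 13: the identity in terms of the points
-/

noncomputable section

namespace Pool.Agent.MP_6e5bed_ag_BI

open Pool.Agent.MP_6e5bed_ag_NC Pool.Agent.MP_6e5bed_ag_GG Pool.Agent.MP_6e5bed_ag_WW
open Pool.Agent.MP_6e5bed_ag_PN hiding Ch
open Pool.Agent.MP_6e5bed_ag_PS (SPJ)
open Pool.Agent.MP_6e5bed_ag_GP (LV)

universe u

variable {k : Type u} [Field k] {i : Type} [Fintype i]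

variable {Good : DGA k → Prop} {A : CA k i} (hL : LOC A) {hS : Smooth (TT A)} {ι : Type}
  [Fintype ι] {P : Pts Good A ι}

/-- the difference of the identity and the sum of the compositions with the points -/
def Hf0.D (H : Hf0 hS P) :
    K0Q (TT A) (TT A) →ₗ[ℚ] (K0Q (TT A) (TT A) ⧸ JS Good (TT A)) :=
  (JS Good (TT A)).mkQ -
    ∑ s, H.Gm s ∘ₗ K0Q.comp (pT A) (xg (H.hR s).gd (H.gi s) hS)

/-- Half2. `D` is zero on everything which factors through the dg algebra of an X-datum `X` with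
`SPJ Good (TT X.ca)`.
PROOF. `D (comp u v) = mkQ (comp u v) - ∑ Gm_s (comp (comp x_s u) v)`; for `y = comp x_s u` there is
`z` with `Gm_s (comp y v) = mkQ (comp z v)` (`lift`), and `comp u v`, `comp z v` are in `JS Good`:
insert the identity of `TT X.ca`, which is in `JS Good` (see `JS.trans`, or `cmp_mem` in
GG/Comp). -/
theorem Hf0.D_comp (H : Hf0 hS P) {x : Type} [Fintype x] (B : CA k x)
    (hB : SPJ Good (TT B)) (hp : Proper (TT B)) (u : K0Q (TT A) (TT B))
    (v : K0Q (TT B) (TT A)) : H.D (K0Q.comp hp u v) = 0 := by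
  obtain ⟨hS', hp', hm⟩ := hB
  have h1 : ∀ w : K0Q (TT A) (TT B), (JS Good (TT A)).mkQ (K0Q.comp hp w v) = 0 := by
    intro w
    rw [Submodule.mkQ_apply, Submodule.Quotient.mk_eq_zero]
    refine JS.trans (Good := fun X => X = TT B) (Good' := Good) (TT A) ?_
      (JS.comp (Good := fun X => X = TT B) hp rfl w v)
    rintro X rfl
    exact ⟨hS', hp', hm⟩
  have h2 : ∀ s, H.Gm s (K0Q.comp (pT A) (xg (H.hR s).gd (H.gi s) hS)
      (K0Q.comp hp u v)) = 0 := by
    intro s
    obtain ⟨z, hz, -, -⟩ := H.lift s B hS' hp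
      (K0Q.comp (pT A) (xg (H.hR s).gd (H.gi s) hS) u)
    rw [← K0Q.comp_assoc, hz v]
    exact h1 z
  unfold Hf0.D
  rw [LinearMap.sub_apply, h1 u, LinearMap.sum_apply, zero_sub, neg_eq_zero]
  exact Finset.sum_eq_zero fun s _ => h2 s

/-- the X-data whose dg algebras are in the span of the good ones -/
def GX (Good : DGA k → Prop) (D : DGA k) : Prop :=
  ∃ X : XT k, X.Gen ∧ SPJ Good (TT X.ca) ∧ D = TT X.ca

theorem XFin.gx {Z : Type u} [CommRing Z] [Algebra k Z] (h : XFin Good Z) :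
    XFin (GX Good) Z := by
  obtain ⟨X, hG, hX, hφ⟩ := h
  exact ⟨X, hG, SPJ.of_good hX.choose hX.choose_spec.1 ⟨X, hG, hX, rfl⟩, hφ⟩

include hL in
/-- Half3. THE IDENTITY: `D 1 = 0`.
PROOF. `one_mem` (GG/DgL) with `hF = finBB`, `J = LinearMap.ker H.D`, and the main step: let `E'` be
reduced at `m` with generic data `g = hR.gd`, and `ih`. `P.all m g`: (a) `SameK g (P.g s)`: then
`m = P.m s` (`subst`/`obtain rfl`, use `generalize` if necessary), `ann (E s) = ann E'`
(`ann_le_of_red`), so by `H.coh` `Gm s (comp (x s) (cl E')) = mkQ (cl E')`; for `t ≠ s` the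
composition `comp (x t) (cl E')` is zero by `p2_tor` and `dis`; so `D (cl E') = 0` (`clf_eq_zero`).
(b) `XFin Good (center g.S)`: as `mainS_xt` (GV/CoreV), with `main_xt` for `Good := GX Good`,
`J := ker D`; `JS (GX Good) (TT A) ≤ ker D` by `D_comp`. -/
theorem Hf0.one (H : Hf0 hS P) : H.D (K0Q.one hS) = 0 := by
  classical
  rw [← LinearMap.mem_ker]
  refine one_mem (hF := finBB) ?_
  intro E m hE hR ih
  rcases P.all m hR.gd with ⟨s, hs⟩ | hx
  · rw [clf_eq_zero finBB hS hS (bs_noe A A) _ hE, LinearMap.mem_ker]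
    have hsame : SameK (H.hR s).gd hR.gd := (H.same s).trans hs.symm
    have hm : m = P.m s := hs.1
    subst hm
    have hann : ann (H.E s) ≤ ann E := by
      refine ann_le_of_red hR fun a ha => ?_
      rw [← hR.gd_psi]
      exact (sameK_iff.1 hsame a).1 (((H.hR s).gd_psi a).2 ha)
    have h1 := H.coh s E hE hann (hasRes_BB finBB hS hS hE)
    have h2 : ∀ t, t ≠ s → K0Q.comp (pT A) (xg (H.hR t).gd (H.gi t) hS)
        (rcls E.bp.BB (hasRes_BB finBB hS hS hE)) = 0 := by
      intro t ht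
      refine p2_tor hL hS hS (H.gi t) hE _ (dis hR (H.hR t).gd (H.gi t) ?_)
      intro hst
      exact P.ne s t (Ne.symm ht) ((hs.symm.trans hst).trans (H.same t))
    unfold Hf0.D
    rw [LinearMap.sub_apply, LinearMap.sum_apply, Finset.sum_eq_single s]
    · rw [LinearMap.comp_apply, h1, sub_self]
    · intro t _ ht
      rw [LinearMap.comp_apply, h2 t ht, map_zero]
    · exact fun h => absurd (Finset.mem_univ s) h
  · obtain ⟨L, _, _, _, _, hcen, hfin, hess, hP⟩ := hR.gd.exists_L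
    obtain ⟨X, hG, hX, φ, hφ⟩ := hP (fun Z _ _ => XFin (GX Good) Z) (XFin.gx hx)
    let aL : Algebra L X.M := φ.toRingHom.toAlgebra
    have htow : IsScalarTower k L X.M :=
      IsScalarTower.of_algebraMap_eq fun x => (φ.commutes x).symm
    have hfL : Module.Finite L X.M := hφ
    refine main_xt (Good := GX Good) ?_ hE hR ih X hG hX L
    refine Submodule.span_le.2 ?_
    rintro z ⟨Y, hY, f, g, ⟨X', hG', hX', rfl⟩, rfl⟩
    rw [SetLike.mem_coe, LinearMap.mem_ker]
    exact H.D_comp X'.ca hX' hY f g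

end Pool.Agent.MP_6e5bed_ag_BI
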