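import Pool.Agent.Lib.MP_6e5bed_ag_BI.WY
import Pool.Agent.Lib.MP_6e5bed_ag_WW.K4

set_option autoImplicit false
set_option linter.unusedVariables false

/-!
# MP_6e5bed_ag, THEOREM T, section 7: the classes of compositions, with the classes of the points
-/

noncomputable section

namespace Pool.Agent.MP_6e5bed_ag_BI

open Pool.Agent.MP_6e5bed_ag_NC Pool.Agent.MP_6e5bed_ag_GG Pool.Agent.MP_6e5bed_ag_WW
open Pool.Agent.MP_6e5bed_ag_PN hiding Ch
open Pool.Agent.MP_6e5bed_ag_NS (Cx CHom ringH)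

universe u

variable {k : Type u} [Field k] {i j x : Type} [Fintype i] [Fintype j] [Fintype x]
  {A : CA k i} {A' : CA k j} {B : CA k x} {V : Type*} [AddCommGroup V] [Module ℚ V]
  {E : BS A A'} {m : Ch i}

/-- K4p1. The scalar extension of `ss ⊗ M` at `m` is `M`.
PROOF. `(ss hR.gd.cone).M m` is isomorphic to `S` as a bimodule over `A_m` and `S` (`ssI`, WW/Ss),
so `(PB.tbR (ss ..) M).M m = tb ((ss ..).M m) M` is isomorphic to the restriction of scalars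
`res (ringH psi) (DHom.id _) M`; then `sl_res`. -/
theorem sl_ss_tbR (hR : Red E m) {W : DGA k} (M : Bim (ring k hR.gd.S) W) :
    BIso (sl hR.gd ((PB.tbR (ss hR.gd.cone) M).M m)) M := by
  have h0 : hR.gd.cone.psi m (le_refl m) = hR.gd.psi := AlgHom.ext fun a => by
    change hR.gd.psi (A.res _ a) = hR.gd.psi a
    rw [A.res_id]
  have h1 : BIso (res (ringH (hR.gd.cone.psi m (le_refl m))) (DHom.id (ring k hR.gd.S))
      (diag (ring k hR.gd.S))) ((ss hR.gd.cone).M m) :=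
    BIso.of_bij (ssI hR.gd.cone m (le_refl m)) (ssI_dd hR.gd.cone m (le_refl m))
      (ssI_bij hR.gd.cone m (le_refl m))
  rw [h0] at h1
  have h2 : BIso (tb (res (ringH hR.gd.psi) (DHom.id (ring k hR.gd.S))
      (diag (ring k hR.gd.S))) M) ((PB.tbR (ss hR.gd.cone) M).M m) :=
    (MP_6e5bed_ag_NC.tbR (ring k (A.A m)) M).biso h1
  have h3 : BIso (res (ringH hR.gd.psi) (DHom.id W) (tb (diag (ring k hR.gd.S)) M))
      (tb (res (ringH hR.gd.psi) (DHom.id (ring k hR.gd.S)) (diag (ring k hR.gd.S))) M) :=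
    res_tb (ringH hR.gd.psi) (DHom.id W) (diag (ring k hR.gd.S)) M
  have h4 : BIso (res (ringH hR.gd.psi) (DHom.id W) (tb (diag (ring k hR.gd.S)) M))
      (res (ringH hR.gd.psi) (DHom.id W) M) :=
    Pool.Agent.MP_6e5bed_ag_NS.biso_res (ringH hR.gd.psi) (DHom.id W) (tb_diag_left M)
  have h5 : BIso ((PB.tbR (ss hR.gd.cone) M).M m) (res (ringH hR.gd.psi) (DHom.id W) M) :=
    h2.symm.trans (h3.symm.trans h4)
  exact ((MP_6e5bed_ag_NC.tbL (Sb hR.gd) W).biso h5).trans (sl_res hR.gd M)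

variable {hR : Red E m} {cl : AddFn (S := bs A A') Sh.Coh V}
  {ql : K0Q (TT A) (TT A') →ₗ[ℚ] V}
  (hL : LOC A) (hN : (bs A A').Noe) (ih : ∀ F : BS A A', F.Coh → ann E < ann F → cl.cl F = 0)
  (hRes : ∀ Z : BS A A', Z.Coh → HasRes Z.bp.BB)
  (hq : ∀ (Z : BS A A') (h : Z.Coh), cl.cl Z = ql (rcls Z.bp.BB (hRes Z h)))
  (hA : Smooth (TT A)) (hB : Smooth (TT B)) (hP : Proper (TT B)) (hg : GI hR.gd)

include hL hN ih hq hB in
/-- K4p2. (6.4) with the classes of the points.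
PROOF. `K0Q.ind` on `y` as in `k4_of` (WW/K3). For `y = cls M hM`: `WP.of_sb` for
`F = BPB.cmp (ss ..) M (YY B)` gives `z`. The first statement as in `k4_of`. For the second:
`RP .. (XF F) z` with `XF F = (PB.ext X (PB.tbL M (YY B))).push2 (LL x) (FS.e x)`; `alp`, `alp_bij`
and `RP.iff_bij` give `RP` for `PB.tbR X (cBL (PB.tbL M (YY B)) (LL x) (FS.e x))`; the
quasi-isomorphism `g` of `exists_tbL_qiso hM` and `RP.iff_qiso` (with `f := PB.tbRm X g hg.1` and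
`RFlat_qiso (ss_flat_gd hR) hg`) give `RP` for `PB.tbR X M`, and `sl_ss_tbR` gives
`comp (xg ..) z = cls M hM`. The third statement is `zr`. -/
theorem k4p {Gm : K0Q (ring k hR.gd.S) (TT A') →ₗ[ℚ] V}
    (hGm : ∀ (M : Bim (ring k hR.gd.S) (TT A')) (hM : Perf M),
      Gm (cls M hM) = chi hR cl (BPB.cmp (ss hR.gd.cone) M (YY A')))
    (h53 : ∀ M : Bim (ring k hR.gd.S) (TT B), Perf M →
      SB (ann E) m (sgR hR) (BPB.cmp (ss hR.gd.cone) M (YY B)) ∧
      BdM m (BPB.cmp (ss hR.gd.cone) M (YY B))) (y : K0Q (ring k hR.gd.S) (TT B)) :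
    ∃ z : K0Q (TT A) (TT B),
      (∀ w : K0Q (TT B) (TT A'), Gm (K0Q.comp hP y w) = ql (K0Q.comp hP z w)) ∧
      K0Q.comp (pT A) (xg hR.gd hg hA) z = y ∧
      ∀ (m' : Ch i) (g' : GD A m') (hg' : GI g'), (∃ a ∈ ann E m', g'.psi a ≠ 0) →
        K0Q.comp (pT A) (xg g' hg' hA) z = 0 := by
  refine K0Q.ind (P := fun y => ∃ z : K0Q (TT A) (TT B),
    (∀ w : K0Q (TT B) (TT A'), Gm (K0Q.comp hP y w) = ql (K0Q.comp hP z w)) ∧
      K0Q.comp (pT A) (xg hR.gd hg hA) z = y ∧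
      ∀ (m' : Ch i) (g' : GD A m') (hg' : GI g'), (∃ a ∈ ann E m', g'.psi a ≠ 0) →
        K0Q.comp (pT A) (xg g' hg' hA) z = 0) ?_ ?_ ?_ ?_ y
  · rintro y y' ⟨z, hz, hz1, hz2⟩ ⟨z', hz', hz1', hz2'⟩
    refine ⟨z + z', fun w => ?_, ?_, fun m' g' hg' ha => ?_⟩
    · rw [map_add, map_add, LinearMap.add_apply, LinearMap.add_apply, map_add, map_add, hz, hz']
    · rw [map_add, hz1, hz1']
    · rw [map_add, hz2 m' g' hg' ha, hz2' m' g' hg' ha, add_zero]
  · rintro c y ⟨z, hz, hz1, hz2⟩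
    refine ⟨c • z, fun w => ?_, ?_, fun m' g' hg' ha => ?_⟩
    · rw [map_smul, map_smul, LinearMap.smul_apply, LinearMap.smul_apply, map_smul, map_smul, hz]
    · rw [map_smul, hz1]
    · rw [map_smul, hz2 m' g' hg' ha, smul_zero]
  · refine ⟨0, fun w => ?_, ?_, fun m' g' hg' ha => ?_⟩
    · rw [map_zero, map_zero, LinearMap.zero_apply, LinearMap.zero_apply, map_zero, map_zero]
    · rw [map_zero]
    · rw [map_zero]
  · intro M hM
    have hX : QCl (ss hR.gd.cone) := ss_qcl hR.gd.cone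
    have kX : KlX (ann E) (ss hR.gd.cone) := ss_klx hR
    have hf : RFlat ((ss hR.gd.cone).M m) := ss_flat_gd hR
    obtain ⟨z, hz⟩ := WP.of_sb (q := ql.toAddMonoidHom) hL hN ih hRes hq hA hB hP hg
      (h53 M hM).1 (h53 M hM).2
    obtain ⟨g, hgq⟩ := exists_tbL_qiso hM
    refine ⟨z, fun w => ?_, ?_, hz.zr⟩
    · have h1 : CP hR cl ql.toAddMonoidHom hP
          ((PB.ext (ss hR.gd.cone) (PB.tbL M (YY B))).push2 (LL x) (FS.e x)) z := hz.cp
      exact CP.eval hN ih hX kX hGm hM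
        ((CP.iff_tbR hN ih hX kX hf hgq).1 ((CP.iff_alp hN ih hX kX).2 h1)) w
    · have h1 : RP hR.gd hg hA
          ((PB.ext (ss hR.gd.cone) (PB.tbL M (YY B))).push2 (LL x) (FS.e x)) z := hz.rp
      have h2 : RP hR.gd hg hA
          (PB.tbR (ss hR.gd.cone) (cBL (PB.tbL M (YY B)) (LL x) (FS.e x))) z :=
        (RP.iff_bij (alp (ss hR.gd.cone) (PB.tbL M (YY B)) (LL x) (FS.e x))
          (alp_bij (ss hR.gd.cone) (PB.tbL M (YY B)) (LL x) (FS.e x) m)).2 h1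
      have h3 : RP hR.gd hg hA (PB.tbR (ss hR.gd.cone) M) z :=
        (RP.iff_qiso (f := PB.tbRm (ss hR.gd.cone) g hgq.1) (RFlat_qiso hf hgq)).1 h2
      obtain ⟨h4, h5⟩ := h3
      exact h5.trans ((rcls_iso (sl_ss_tbR hR M) h4 hM.hasRes).trans (rcls_perf hM hM.hasRes))

end Pool.Agent.MP_6e5bed_ag_BI
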