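import Pool.Agent.Lib.MP_6e5bed_ag_GG.LRo

set_option autoImplicit false
set_option linter.unusedVariables false

/-!
# MP_6e5bed_ag, THEOREM T, LOC (1): complexes of cospans of rows
-/

noncomputable section

namespace Pool.Agent.MP_6e5bed_ag_BI

open Pool.Agent.MP_6e5bed_ag_NC Pool.Agent.MP_6e5bed_ag_GG
open Pool.Agent.MP_6e5bed_ag_PN hiding Ch
open Pool.Agent.MP_6e5bed_ag_NS (Cx CHom CPr co co_d co_deg co_s)

universe u

variable {k : Type u} [Field k]

/-! ### Pairings of the complex of a cospan with a fixed complex -/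

/-- `(x0, x1, ξ) y = (x0 y, x1 y, ξ y)` -/
def coPm {X0 X1 X01 Y Z0 Z1 Z01 : Cx k} (p0 : CPr X0 Y Z0) (p1 : CPr X1 Y Z1)
    (p01 : CPr X01 Y Z01) :
    ((X0.V × X1.V) × X01.V) →ₗ[k] Y.V →ₗ[k] ((Z0.V × Z1.V) × Z01.V) :=
  LinearMap.mk₂ k (fun x y => ((p0.m x.1.1 y, p1.m x.1.2 y), p01.m x.2 y))
    (fun x x' y => by ext <;> simp)
    (fun c x y => by ext <;> simp)
    (fun x y y' => by ext <;> simp)
    (fun c x y => by ext <;> simp)

/-- La1. The pairing of the complex of a cospan with a fixed complex. (Copy `co.pairR` in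
`Lib/MP_6e5bed_ag_PN/Cx.lean`; here there is no sign except in `co_s`.) -/
def coPair {X0 X1 X01 Y Z0 Z1 Z01 : Cx k} (r0 : CHom X0 X01) (r1 : CHom X1 X01)
    (t0 : CHom Z0 Z01) (t1 : CHom Z1 Z01) (p0 : CPr X0 Y Z0) (p1 : CPr X1 Y Z1)
    (p01 : CPr X01 Y Z01) (h0 : ∀ x y, t0.f (p0.m x y) = p01.m (r0.f x) y)
    (h1 : ∀ x y, t1.f (p1.m x y) = p01.m (r1.f x) y) : CPr (co r0 r1) Y (co t0 t1) where
  m := coPm p0 p1 p01
  deg := fun {i j x y} hx hy => by
    obtain ⟨⟨x0, x1⟩, ξ⟩ := x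
    have hx' := co_deg.1 hx
    refine co_deg.2 ⟨p0.deg hx'.1 hy, p1.deg hx'.2.1 hy, ?_⟩
    rw [add_right_comm]
    exact p01.deg hx'.2.2 hy
  d := fun x y => by
    obtain ⟨⟨x0, x1⟩, ξ⟩ := x
    have e1 := co_d (r0 := r0) (r1 := r1) x0 x1 ξ
    have e3 := co_s (r0 := r0) (r1 := r1) x0 x1 ξ
    have e4 := co_d (r0 := t0) (r1 := t1) (p0.m x0 y) (p1.m x1 y) (p01.m ξ y)
    refine Eq.trans e4 ?_
    refine Eq.trans ?_ (congrArg₂ (· + ·)
      (congrArg (fun z => coPm p0 p1 p01 z y) e1.symm)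
      (congrArg (fun z => coPm p0 p1 p01 z (Y.dg.d y)) e3.symm))
    change ((Z0.dg.d (p0.m x0 y), Z1.dg.d (p1.m x1 y)),
      t1.f (p1.m x1 y) - t0.f (p0.m x0 y) - Z01.dg.d (p01.m ξ y)) =
      ((p0.m (X0.dg.d x0) y, p1.m (X1.dg.d x1) y), p01.m (r1.f x1 - r0.f x0 - X01.dg.d ξ) y) +
      ((p0.m (X0.dg.s x0) (Y.dg.d y), p1.m (X1.dg.s x1) (Y.dg.d y)),
        p01.m (- X01.dg.s ξ) (Y.dg.d y))
    rw [p0.d, p1.d, p01.d, h0, h1]
    simp only [Prod.mk_add_mk, map_sub, map_neg, LinearMap.sub_apply, LinearMap.neg_apply]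
    congr 1
    abel

/-! ### The row bimodule of a cospan -/

section bim

variable {W : DGA k} {M0 M1 M01 : Bim (base k) W}

/-- the right action on the complex of a cospan -/
def coR (M0 M1 M01 : Bim (base k) W) :
    W.A →ₗ[k] ((M0.M × M1.M) × M01.M) →ₗ[k] ((M0.M × M1.M) × M01.M) :=
  LinearMap.mk₂ k (fun b x => ((M0.r b x.1.1, M1.r b x.1.2), M01.r b x.2))
    (fun b b' x => by
      refine Prod.ext (Prod.ext ?_ ?_) ?_
      · exact LinearMap.congr_fun (map_add M0.r b b') x.1.1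
      · exact LinearMap.congr_fun (map_add M1.r b b') x.1.2
      · exact LinearMap.congr_fun (map_add M01.r b b') x.2)
    (fun c b x => by
      refine Prod.ext (Prod.ext ?_ ?_) ?_
      · exact LinearMap.congr_fun (map_smul M0.r c b) x.1.1
      · exact LinearMap.congr_fun (map_smul M1.r c b) x.1.2
      · exact LinearMap.congr_fun (map_smul M01.r c b) x.2)
    (fun b x x' => Prod.ext (Prod.ext (map_add (M0.r b) _ _) (map_add (M1.r b) _ _))
      (map_add (M01.r b) _ _))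
    (fun c b x => Prod.ext (Prod.ext (map_smul (M0.r b) _ _) (map_smul (M1.r b) _ _))
      (map_smul (M01.r b) _ _))

theorem coR_apply (b : W.A) (x : (M0.M × M1.M) × M01.M) :
    coR M0 M1 M01 b x = ((M0.r b x.1.1, M1.r b x.1.2), M01.r b x.2) := rfl

/-- the complex of a cospan of right modules -/
abbrev coX (r0 : GMap 0 M0 M01) (h0 : r0.dd = 0) (r1 : GMap 0 M1 M01) (h1 : r1.dd = 0) : Cx k :=
  co (X0 := bcx M0) (X1 := bcx M1) (X01 := bcx M01)
    (gch (α := DHom.id (base k)) (β := DHom.id W) r0 h0)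
    (gch (α := DHom.id (base k)) (β := DHom.id W) r1 h1)

private theorem La_d_r (r0 : GMap 0 M0 M01) (h0 : r0.dd = 0) (r1 : GMap 0 M1 M01)
    (h1 : r1.dd = 0) (b : W.A) (m : (M0.M × M1.M) × M01.M) :
    (coX r0 h0 r1 h1).dg.d (coR M0 M1 M01 b m) =
      coR M0 M1 M01 b ((coX r0 h0 r1 h1).dg.d m) +
        coR M0 M1 M01 (W.dg.d b) ((coX r0 h0 r1 h1).dg.s m) := by
  obtain ⟨⟨x0, x1⟩, ξ⟩ := m
  have e1 := co_d (X0 := bcx M0) (X1 := bcx M1) (X01 := bcx M01)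
    (r0 := gch (α := DHom.id (base k)) (β := DHom.id W) r0 h0)
    (r1 := gch (α := DHom.id (base k)) (β := DHom.id W) r1 h1) x0 x1 ξ
  have e3 := co_s (X0 := bcx M0) (X1 := bcx M1) (X01 := bcx M01)
    (r0 := gch (α := DHom.id (base k)) (β := DHom.id W) r0 h0)
    (r1 := gch (α := DHom.id (base k)) (β := DHom.id W) r1 h1) x0 x1 ξ
  have e4 := co_d (X0 := bcx M0) (X1 := bcx M1) (X01 := bcx M01)
    (r0 := gch (α := DHom.id (base k)) (β := DHom.id W) r0 h0)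
    (r1 := gch (α := DHom.id (base k)) (β := DHom.id W) r1 h1) (M0.r b x0) (M1.r b x1)
    (M01.r b ξ)
  refine Eq.trans e4 ?_
  refine Eq.trans ?_ (congrArg₂ (· + ·)
    (congrArg (fun z => coR M0 M1 M01 b z) e1.symm)
    (congrArg (fun z => coR M0 M1 M01 (W.dg.d b) z) e3.symm))
  change ((M0.dg.d (M0.r b x0), M1.dg.d (M1.r b x1)),
    r1.f (M1.r b x1) - r0.f (M0.r b x0) - M01.dg.d (M01.r b ξ)) =
    ((M0.r b (M0.dg.d x0), M1.r b (M1.dg.d x1)), M01.r b (r1.f x1 - r0.f x0 - M01.dg.d ξ)) +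
    ((M0.r (W.dg.d b) (M0.dg.s x0), M1.r (W.dg.d b) (M1.dg.s x1)),
      M01.r (W.dg.d b) (- M01.dg.s ξ))
  rw [M0.d_r, M1.d_r, M01.d_r, r0.map_r, r1.map_r]
  simp only [Prod.mk_add_mk, map_sub, map_neg]
  congr 1
  abel

/-- La2. The complex of a cospan of right modules, as a right module:
`(x0, x1, ξ) b = (x0 b, x1 b, ξ b)`. (The left action of the base is the scalar multiplication;
`co_d`, `co_s`, `co_deg`, `base_l`.) -/
def coB (r0 : GMap 0 M0 M01) (h0 : r0.dd = 0) (r1 : GMap 0 M1 M01) (h1 : r1.dd = 0) :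
    Bim (base k) W where
  M := (coX r0 h0 r1 h1).V
  dg := (coX r0 h0 r1 h1).dg
  l := LinearMap.lsmul k (coX r0 h0 r1 h1).V
  r := coR M0 M1 M01
  l_one := fun m => one_smul k m
  r_one := fun m => Prod.ext (Prod.ext (M0.r_one _) (M1.r_one _)) (M01.r_one _)
  l_mul := fun a a' m => mul_smul (α := k) a a' m
  r_mul := fun b b' m => Prod.ext (Prod.ext (M0.r_mul _ _ _) (M1.r_mul _ _ _))
    (M01.r_mul _ _ _)
  l_r := fun a b m => by
    exact ((coR M0 M1 M01 b).map_smul a m).symm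
  l_deg := fun {i j a m} ha hm => by
    rcases base_deg_cases ha with h | h
    · rw [h, zero_add]
      exact Dg.IsDeg.smul (k := k) a hm
    · rw [h]
      change (coX r0 h0 r1 h1).dg.IsDeg (i + j) ((0 : k) • m)
      rw [zero_smul]
      exact Dg.IsDeg.zero _
  r_deg := fun {i j b m} hm hb => by
    obtain ⟨⟨x0, x1⟩, ξ⟩ := m
    have hm' := co_deg.1 hm
    refine co_deg.2 ⟨M0.r_deg hm'.1 hb, M1.r_deg hm'.2.1 hb, ?_⟩
    rw [add_right_comm]
    exact M01.r_deg hm'.2.2 hb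
  d_l := fun a m => by
    rw [base_d, base_s]
    change (coX r0 h0 r1 h1).dg.d (a • m) = (0 : k) • m + a • (coX r0 h0 r1 h1).dg.d m
    rw [zero_smul, zero_add, map_smul]
  d_r := fun b m => by
    exact La_d_r r0 h0 r1 h1 b m

end bim

end Pool.Agent.MP_6e5bed_ag_BI
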