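import Pool.Agent.Lib.MP_6e5bed_ag_BI.La
import Pool.Agent.Lib.MP_6e5bed_ag_GG.Ev

set_option autoImplicit false
set_option linter.unusedVariables false

/-!
# MP_6e5bed_ag, THEOREM T, LOC (2): the complex of a cospan of presheaves of rows, definitions
-/

noncomputable section

namespace Pool.Agent.MP_6e5bed_ag_BI

open Pool.Agent.MP_6e5bed_ag_NC Pool.Agent.MP_6e5bed_ag_GG
open Pool.Agent.MP_6e5bed_ag_PN hiding Ch
open Pool.Agent.MP_6e5bed_ag_NS (Cx CHom CPr co co_d co_deg co_s)

universe u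

variable {k : Type u} [Field k] {ι : Type} {A : PA k ι} {N : PB A (PA.con ι (base k))}

/-! ### Presheaves of complexes -/

/-- the complexes of a cospan of presheaves of complexes -/
def coPC {V0 V1 V01 : PC k ι} (r0 : PCH V0 V01) (r1 : PCH V1 V01) : PC k ι where
  X := fun c => co (r0.f c) (r1.f c)
  ρ := fun {c d} h => co.map _ _ _ _ (V0.ρ h) (V1.ρ h) (V01.ρ h)
    (fun x => (r0.nat h x).symm) (fun x => (r1.nat h x).symm)
  ρ_id := fun {c} h x => by
    obtain ⟨⟨x0, x1⟩, ξ⟩ := x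
    exact Prod.ext (Prod.ext (V0.ρ_id h x0) (V1.ρ_id h x1)) (V01.ρ_id h ξ)
  ρ_ρ := fun {c d e} h h' x => by
    obtain ⟨⟨x0, x1⟩, ξ⟩ := x
    exact Prod.ext (Prod.ext (V0.ρ_ρ h h' x0) (V1.ρ_ρ h h' x1)) (V01.ρ_ρ h h' ξ)

variable (k ι) in
/-- the zero presheaf -/
def zPC : PC k ι where
  X := fun _ => Cx.zero k
  ρ := fun _ => CHom.id _
  ρ_id := fun _ _ => rfl
  ρ_ρ := fun _ _ _ => rfl

/-- the zero morphism -/
def zPCH (V : PC k ι) : PCH (zPC k ι) V where
  f := fun c => ⟨0, fun _ => Dg.IsDeg.zero _, fun x => map_zero (V.X c).dg.d⟩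
  nat := fun {c d} h x => map_zero (V.ρ h).f

/-! ### Presheaves of rows -/

/-- auxiliary: the restriction maps of `coPB` as morphisms of complexes -/
def Lb_rho {M0 M1 M01 : PB (PA.con ι (base k)) A} (r0 : PBH M0 M01) (r1 : PBH M1 M01)
    {c d : Ch ι} (h : c ≤ d) : CHom (coX (r0.f c) (r0.dd c) (r1.f c) (r1.dd c))
      (coX (r0.f d) (r0.dd d) (r1.f d) (r1.dd d)) :=
  co.map _ _ _ _ (gch (M0.ρ h) (M0.dd h)) (gch (M1.ρ h) (M1.dd h)) (gch (M01.ρ h) (M01.dd h))
    (fun x => (r0.nat h x).symm) (fun x => (r1.nat h x).symm)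

/-- the complexes of a cospan of presheaves of right modules -/
def coPB {M0 M1 M01 : PB (PA.con ι (base k)) A} (r0 : PBH M0 M01) (r1 : PBH M1 M01) :
    PB (PA.con ι (base k)) A where
  M := fun c => coB (r0.f c) (r0.dd c) (r1.f c) (r1.dd c)
  ρ := fun {c d} h => gmk ((PA.con ι (base k)).r h) (A.r h)
    (X := coB (r0.f c) (r0.dd c) (r1.f c) (r1.dd c))
    (Y := coB (r0.f d) (r0.dd d) (r1.f d) (r1.dd d))
    (LinearMap.prodMap (LinearMap.prodMap (M0.ρ h).f (M1.ρ h).f) (M01.ρ h).f)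
    (fun {i x} hx => by
      rw [add_zero]
      exact (Lb_rho r0 r1 h).deg hx)
    (fun a x => by
      exact map_smul (LinearMap.prodMap (LinearMap.prodMap (M0.ρ h).f (M1.ρ h).f) (M01.ρ h).f) a x)
    (fun b x => by
      obtain ⟨⟨x0, x1⟩, ξ⟩ := x
      exact Prod.ext (Prod.ext (gm_r (M0.ρ h) b x0) (gm_r (M1.ρ h) b x1)) (gm_r (M01.ρ h) b ξ))
  dd := fun {c d} h => gmk_dd _ _ _ _ _ _ (fun x => by
    exact (Lb_rho r0 r1 h).d x)
  ρ_id := fun {c} h x => by
    obtain ⟨⟨x0, x1⟩, ξ⟩ := x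
    exact Prod.ext (Prod.ext (M0.ρ_id h x0) (M1.ρ_id h x1)) (M01.ρ_id h ξ)
  ρ_ρ := fun {c d e} h h' x => by
    obtain ⟨⟨x0, x1⟩, ξ⟩ := x
    exact Prod.ext (Prod.ext (M0.ρ_ρ h h' x0) (M1.ρ_ρ h h' x1)) (M01.ρ_ρ h h' ξ)

/-- the zero right module -/
def zB (W : DGA k) : Bim (base k) W where
  M := (Cx.zero k).V
  dg := (Cx.zero k).dg
  l := 0
  r := 0
  l_one := fun m => rfl
  r_one := fun m => rfl
  l_mul := fun _ _ _ => rfl
  r_mul := fun _ _ _ => rfl
  l_r := fun _ _ _ => rfl
  l_deg := fun _ _ => by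
    exact Dg.IsDeg.zero _
  r_deg := fun _ _ => by
    exact Dg.IsDeg.zero _
  d_l := fun _ _ => rfl
  d_r := fun _ _ => rfl

variable (A) in
/-- the zero presheaf of right modules -/
def zPB : PB (PA.con ι (base k)) A where
  M := fun c => zB (A.A c)
  ρ := fun {c d} h => gmk ((PA.con ι (base k)).r h) (A.r h) (X := zB (A.A c)) (Y := zB (A.A d))
    LinearMap.id
    (fun {i x} hx => by
      exact Dg.IsDeg.zero _)
    (fun a x => rfl)
    (fun b x => rfl)
  dd := fun {c d} h => gmk_dd _ _ _ _ _ _ (fun x => rfl)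
  ρ_id := fun h x => rfl
  ρ_ρ := fun h h' x => rfl

/-- the zero morphism -/
def zPBH (M : PB (PA.con ι (base k)) A) : PBH (zPB A) M where
  f := fun c =>
    { f := 0
      deg := fun _ => Dg.IsDeg.zero _
      map_l := fun a x => (map_zero ((M.M c).l _)).symm
      map_r := fun b x => (map_zero ((M.M c).r b)).symm }
  dd := fun c => by
    refine LinearMap.ext fun x => ?_
    rw [GMap.dd_apply, LinearMap.zero_apply, LinearMap.zero_apply, map_zero, smul_zero, sub_zero]
  nat := fun {c d} h x => map_zero (M.ρ h).f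

/-! ### The objects of `RO N` -/

/-- THE COMPLEX OF A COSPAN. -/
def roCo {R0 R1 R01 : RO N} (F0 : ROH R0 R01) (F1 : ROH R1 R01) : RO N where
  R := coPB F0.f F1.f
  Z := coPC F0.g F1.g
  p :=
    { p := fun c => coPair (X0 := R0.R.pc.X c) (X1 := R1.R.pc.X c) (X01 := R01.R.pc.X c)
        (F0.f.pch.f c) (F1.f.pch.f c) (F0.g.f c) (F1.g.f c) (R0.p.p c) (R1.p.p c) (R01.p.p c)
        (fun x y => F0.nat c x y) (fun x y => F1.nat c x y)
      nat := fun {c d} h x y => by
        obtain ⟨⟨x0, x1⟩, ξ⟩ := x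
        exact Prod.ext (Prod.ext (R0.p.nat h x0 y) (R1.p.nat h x1 y)) (R01.p.nat h ξ y) }
  bal := fun c x a y => by
    obtain ⟨⟨x0, x1⟩, ξ⟩ := x
    exact Prod.ext (Prod.ext (R0.bal c x0 a y) (R1.bal c x1 a y)) (R01.bal c ξ a y)

/-- the zero object -/
def roZ (N : PB A (PA.con ι (base k))) : RO N where
  R := zPB A
  Z := zPC k ι
  p :=
    { p := fun c => ⟨0, fun _ _ => Dg.IsDeg.zero _, fun _ _ => rfl⟩
      nat := fun {c d} h x y => rfl }
  bal := fun c x a y => rfl

/-- the zero morphism -/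
def rohZ (S : RO N) : ROH (roZ N) S where
  f := zPBH S.R
  g := zPCH S.Z
  nat := fun c x y => by
    exact (LinearMap.congr_fun (map_zero (S.p.p c).m) y).symm

/-- the identity -/
def rohId (S : RO N) : ROH S S where
  f :=
    { f := fun c => GMap.id _
      dd := fun c => LinearMap.ext (GMap.dd_id)
      nat := fun h x => rfl }
  g := PCH.id _
  nat := fun c x y => rfl

/-- Compatible morphisms of cospans. -/
structure CoH {R0 R1 R01 S0 S1 S01 : RO N} (F0 : ROH R0 R01) (F1 : ROH R1 R01)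
    (F0' : ROH S0 S01) (F1' : ROH S1 S01) where
  G0 : ROH R0 S0
  G1 : ROH R1 S1
  G01 : ROH R01 S01
  f0 : ∀ c x, (F0'.f.f c).f ((G0.f.f c).f x) = (G01.f.f c).f ((F0.f.f c).f x)
  g0 : ∀ c z, (F0'.g.f c).f ((G0.g.f c).f z) = (G01.g.f c).f ((F0.g.f c).f z)
  f1 : ∀ c x, (F1'.f.f c).f ((G1.f.f c).f x) = (G01.f.f c).f ((F1.f.f c).f x)
  g1 : ∀ c z, (F1'.g.f c).f ((G1.g.f c).f z) = (G01.g.f c).f ((F1.g.f c).f z)

/-- auxiliary: the maps of `CoH.map` as morphisms of complexes -/
def Lb_map {R0 R1 R01 S0 S1 S01 : RO N} {F0 : ROH R0 R01} {F1 : ROH R1 R01}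
    {F0' : ROH S0 S01} {F1' : ROH S1 S01} (G : CoH F0 F1 F0' F1') (c : Ch ι) :
    CHom (coX (F0.f.f c) (F0.f.dd c) (F1.f.f c) (F1.f.dd c))
      (coX (F0'.f.f c) (F0'.f.dd c) (F1'.f.f c) (F1'.f.dd c)) :=
  co.map _ _ _ _ (G.G0.f.pch.f c) (G.G1.f.pch.f c) (G.G01.f.pch.f c)
    (fun x => G.f0 c x) (fun x => G.f1 c x)

/-- the morphism of the complexes of cospans -/
def CoH.map {R0 R1 R01 S0 S1 S01 : RO N} {F0 : ROH R0 R01} {F1 : ROH R1 R01}
    {F0' : ROH S0 S01} {F1' : ROH S1 S01} (G : CoH F0 F1 F0' F1') :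
    ROH (roCo F0 F1) (roCo F0' F1') where
  f :=
    { f := fun c =>
        { f := LinearMap.prodMap (LinearMap.prodMap (G.G0.f.f c).f (G.G1.f.f c).f)
            (G.G01.f.f c).f
          deg := fun {i x} hx => by
            rw [add_zero]
            exact (Lb_map G c).deg hx
          map_l := fun a x => by
            rw [Dg.sp_zero]
            exact map_smul (LinearMap.prodMap (LinearMap.prodMap (G.G0.f.f c).f (G.G1.f.f c).f)
              (G.G01.f.f c).f) a x
          map_r := fun b x => by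
            obtain ⟨⟨x0, x1⟩, ξ⟩ := x
            exact Prod.ext (Prod.ext ((G.G0.f.f c).map_r b x0) ((G.G1.f.f c).map_r b x1))
              ((G.G01.f.f c).map_r b ξ) }
      dd := fun c => by
        refine LinearMap.ext fun x => ?_
        rw [GMap.dd_apply, sg_zero, one_smul, LinearMap.zero_apply, sub_eq_zero]
        exact (Lb_map G c).d x
      nat := fun {c d} h x => by
        obtain ⟨⟨x0, x1⟩, ξ⟩ := x
        exact Prod.ext (Prod.ext (G.G0.f.nat h x0) (G.G1.f.nat h x1)) (G.G01.f.nat h ξ) }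
  g :=
    { f := fun c => co.map _ _ _ _ (G.G0.g.f c) (G.G1.g.f c) (G.G01.g.f c)
        (fun z => G.g0 c z) (fun z => G.g1 c z)
      nat := fun {c d} h x => by
        obtain ⟨⟨x0, x1⟩, ξ⟩ := x
        exact Prod.ext (Prod.ext (G.G0.g.nat h x0) (G.G1.g.nat h x1)) (G.G01.g.nat h ξ) }
  nat := fun c x y => by
    obtain ⟨⟨x0, x1⟩, ξ⟩ := x
    exact Prod.ext (Prod.ext (G.G0.nat c x0 y) (G.G1.nat c x1 y)) (G.G01.nat c ξ y)

/-- THE FIBRE of a morphism. -/
def roFib {R S : RO N} (F : ROH R S) : RO N := roCo F (rohZ S)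

/-- THE CYLINDER of a morphism. -/
def roCyl {R S : RO N} (F : ROH R S) : RO N := roCo F (rohId S)

/-- the morphism of the fibres -/
def fibMap {R S R' S' : RO N} {F : ROH R S} {F' : ROH R' S'} (G : ROH R R') (H : ROH S S')
    (hf : ∀ c x, (F'.f.f c).f ((G.f.f c).f x) = (H.f.f c).f ((F.f.f c).f x))
    (hg : ∀ c z, (F'.g.f c).f ((G.g.f c).f z) = (H.g.f c).f ((F.g.f c).f z)) :
    ROH (roFib F) (roFib F') :=
  CoH.map (F0 := F) (F1 := rohZ S) (F0' := F') (F1' := rohZ S')
    { G0 := G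
      G1 := rohId _
      G01 := H
      f0 := hf
      g0 := hg
      f1 := fun c x => (map_zero (H.f.f c).f).symm
      g1 := fun c z => (map_zero (H.g.f c).f).symm }

/-- the inclusion of the fibre in the cylinder -/
def fibCyl {R S : RO N} (F : ROH R S) : ROH (roFib F) (roCyl F) :=
  CoH.map (F0 := F) (F1 := rohZ S) (F0' := F) (F1' := rohId S)
    { G0 := rohId R
      G1 := rohZ S
      G01 := rohId S
      f0 := fun c x => rfl
      g0 := fun c z => rfl
      f1 := fun c x => rfl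
      g1 := fun c z => rfl }

/-- the projection of the cylinder to the source -/
def cylP0 {R S : RO N} (F : ROH R S) : ROH (roCyl F) R where
  f :=
    { f := fun c =>
        { f := LinearMap.fst k (R.R.M c).M (S.R.M c).M ∘ₗ
            LinearMap.fst k ((R.R.M c).M × (S.R.M c).M) (S.R.M c).M
          deg := fun {i x} hx => by
            rw [add_zero]
            exact (co.pr0 (X0 := bcx (R.R.M c)) (X1 := bcx (S.R.M c)) (X01 := bcx (S.R.M c))
              (F.f.pch.f c) (CHom.id _)).deg hx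
          map_l := fun a x => by
            rw [Dg.sp_zero]
            exact (base_l (R.R.M c) a _).symm
          map_r := fun b x => by
            rfl }
      dd := fun c => by
        refine LinearMap.ext fun x => ?_
        rw [GMap.dd_apply, sg_zero, one_smul, LinearMap.zero_apply, sub_eq_zero]
        exact (co.pr0 (X0 := bcx (R.R.M c)) (X1 := bcx (S.R.M c)) (X01 := bcx (S.R.M c))
          (F.f.pch.f c) (CHom.id _)).d x
      nat := fun {c d} h x => by
        rfl }
  g :=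
    { f := fun c => co.pr0 _ _
      nat := fun {c d} h x => by
        rfl }
  nat := fun c x y => by
    rfl

/-- the projection of the cylinder to the target -/
def cylP1 {R S : RO N} (F : ROH R S) : ROH (roCyl F) S where
  f :=
    { f := fun c =>
        { f := LinearMap.snd k (R.R.M c).M (S.R.M c).M ∘ₗ
            LinearMap.fst k ((R.R.M c).M × (S.R.M c).M) (S.R.M c).M
          deg := fun {i x} hx => by
            rw [add_zero]
            exact (co.pr1 (X0 := bcx (R.R.M c)) (X1 := bcx (S.R.M c)) (X01 := bcx (S.R.M c))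
              (F.f.pch.f c) (CHom.id _)).deg hx
          map_l := fun a x => by
            rw [Dg.sp_zero]
            exact (base_l (S.R.M c) a _).symm
          map_r := fun b x => by
            rfl }
      dd := fun c => by
        refine LinearMap.ext fun x => ?_
        rw [GMap.dd_apply, sg_zero, one_smul, LinearMap.zero_apply, sub_eq_zero]
        exact (co.pr1 (X0 := bcx (R.R.M c)) (X1 := bcx (S.R.M c)) (X01 := bcx (S.R.M c))
          (F.f.pch.f c) (CHom.id _)).d x
      nat := fun {c d} h x => by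
        rfl }
  g :=
    { f := fun c => co.pr1 _ _
      nat := fun {c d} h x => by
        rfl }
  nat := fun c x y => by
    rfl

end Pool.Agent.MP_6e5bed_ag_BI
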