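import Pool.Agent.Lib.MP_6e5bed_ag_BI.Lc

set_option autoImplicit false
set_option linter.unusedVariables false

/-!
# MP_6e5bed_ag, THEOREM T, LOC (4): the Koszul argument for sequences of twists
-/

noncomputable section

namespace Pool.Agent.MP_6e5bed_ag_BI

open Pool.Agent.MP_6e5bed_ag_NC Pool.Agent.MP_6e5bed_ag_GG
open Pool.Agent.MP_6e5bed_ag_PN hiding Ch

universe u

variable {k : Type u} [Field k] {ι : Type} {A : PA k ι} {N : PB A (PA.con ι (base k))}

/-- A sequence of presheaves of rows with commuting operators `M b → M (b + 1)`. -/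
structure TwR (N : PB A (PA.con ι (base k))) (κ : Type) where
  M : ℕ → RO N
  x : κ → ∀ b, ROH (M b) (M (b + 1))
  cf : ∀ (l l' : κ) (b : ℕ) (c : Ch ι) (z : ((M b).R.M c).M),
    ((x l (b + 1)).f.f c).f (((x l' b).f.f c).f z) =
      ((x l' (b + 1)).f.f c).f (((x l b).f.f c).f z)
  cg : ∀ (l l' : κ) (b : ℕ) (c : Ch ι) (z : ((M b).Z.X c).V),
    ((x l (b + 1)).g.f c).f (((x l' b).g.f c).f z) =
      ((x l' (b + 1)).g.f c).f (((x l b).g.f c).f z)

variable {κ : Type}

/-- the sequence of the fibres of the operator `l` -/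
def TwR.fib (T : TwR N κ) (l : κ) : TwR N κ where
  M := fun b => roFib (T.x l b)
  x := fun l' b => fibMap (F := T.x l b) (F' := T.x l (b + 1)) (T.x l' b) (T.x l' (b + 1))
    (fun c z => T.cf l l' b c z) (fun c z => T.cg l l' b c z)
  cf := fun l1 l2 b c z => by
    obtain ⟨⟨z0, z1⟩, z2⟩ := z
    exact Prod.ext (Prod.ext (T.cf l1 l2 b c z0) rfl) (T.cf l1 l2 (b + 1) c z2)
  cg := fun l1 l2 b c z => by
    obtain ⟨⟨z0, z1⟩, z2⟩ := z
    exact Prod.ext (Prod.ext (T.cg l1 l2 b c z0) rfl) (T.cg l1 l2 (b + 1) c z2)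

/-- At every chart the sequence is acyclic, or one of the operators in the list is a
quasi-isomorphism for all `b`. -/
def TwR.Cov (T : TwR N κ) (Λ : List κ) : Prop :=
  ∀ c : Ch ι, (∀ b, AcAt (T.M b) c) ∨ ∃ l ∈ Λ, ∀ b, QiAt (T.x l b) c

/-- Ld1. (`fib_acAt`, `fib_acAt'`, `fibMap_qiAt`.) -/
theorem TwR.Cov.fib {T : TwR N κ} {l : κ} {Λ : List κ} (h : T.Cov (l :: Λ)) :
    (T.fib l).Cov Λ := by
  intro c
  rcases h c with h1 | ⟨l', hl', h1⟩
  · exact Or.inl fun b => fib_acAt' (h1 b) (h1 (b + 1))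
  · rcases List.mem_cons.1 hl' with rfl | h2
    · exact Or.inl fun b => fib_acAt (h1 b)
    · exact Or.inr ⟨l', h2, fun b => fibMap_qiAt _ _ (h1 b) (h1 (b + 1))⟩

variable {L : List ι} {c : FS ι} {Zt : Bim (cA A L c) (base k)} {ζ : GMap 0 Zt (cBR N L c)}
  {hζ : ζ.dd = 0}

/-- Ld2. THE KOSZUL ARGUMENT. If the first `|Λ|` members of the sequence are good, all are.
PROOF. Induction on `Λ`, for all `T`. `Λ = []`: all charts are acyclic, `good_acy`. `l :: Λ`: the
sequence `T.fib l` satisfies the hypothesis for `Λ` (`Ld1`), its first `|Λ|` members are good by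
`good_fib`; so all are good by the induction hypothesis, and `T.M b` is good by induction on `b`
(`good_of_fib`; `T.M 0` is good since `0 < |l :: Λ|`). -/
theorem TwR.good {hZt : LFlat Zt} : ∀ (Λ : List κ) (T : TwR N κ), T.Cov Λ →
    (∀ b, b < Λ.length → (T.M b).Good ζ hζ) → ∀ b, (T.M b).Good ζ hζ := by
  intro Λ
  induction Λ with
  | nil =>
    intro T hT _ b
    refine good_acy hZt fun c => ?_
    rcases hT c with h1 | ⟨l, hl, _⟩
    · exact h1 b
    · exact absurd hl List.not_mem_nil
  | cons l Λ ih =>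
    intro T hT hb
    have h1 : ∀ b, ((T.fib l).M b).Good ζ hζ := by
      refine ih (T.fib l) hT.fib fun b hbl => ?_
      have h2 : b < (l :: Λ).length := by
        rw [List.length_cons]
        omega
      have h3 : b + 1 < (l :: Λ).length := by
        rw [List.length_cons]
        omega
      exact good_fib hZt (T.x l b) (hb b h2) (hb (b + 1) h3)
    intro b
    induction b with
    | zero => exact hb 0 (by
        rw [List.length_cons]
        omega)
    | succ b ihb => exact good_of_fib hZt (T.x l b) ihb (h1 b)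

end Pool.Agent.MP_6e5bed_ag_BI
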