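import Pool.Agent.Lib.MP_6e5bed_ag_BI.Le0
import Pool.Agent.Lib.MP_6e5bed_ag_CV.Corner

set_option autoImplicit false
set_option linter.unusedVariables false
set_option linter.unusedSectionVars false

/-!
# MP_6e5bed_ag, THEOREM T, LOC (6): the twists of a presheaf of modules and of its localisations,
definitions
-/

noncomputable section

namespace Pool.Agent.MP_6e5bed_ag_BI

open Pool.Agent.MP_6e5bed_ag_NC Pool.Agent.MP_6e5bed_ag_GG
open Pool.Agent.MP_6e5bed_ag_PN hiding Ch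
open Pool.Agent.MP_6e5bed_ag_NS (Cx CHom CPr co ringH)

universe u

variable {k : Type u} [Field k] {i : Type} [Fintype i] {A : CA k i} {B : PA k i}

/-- auxiliary: the product in the algebra acts as the composition -/
theorem Le_ll (Q : PB A.pa B) (d : Ch i) (a a' : A.A d) (x : (Q.M d).M) :
    (Q.M d).l a ((Q.M d).l a' x) = (Q.M d).l (a * a' : A.A d) x := ((Q.M d).l_mul a a' x).symm

/-- auxiliary -/
theorem Le_ρl (Q : PB A.pa B) {c d : Ch i} (h : c ≤ d) (a : A.A c) (x : (Q.M c).M) :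
    (Q.ρ h).f ((Q.M c).l a x) = (Q.M d).l (A.res h a) ((Q.ρ h).f x) := gm_l (Q.ρ h) a x

/-- auxiliary -/
theorem Le_deg (Q : PB A.pa B) (d : Ch i) (a : A.A d) {n : ℤ} {x : (Q.M d).M}
    (hx : (Q.M d).dg.IsDeg n x) : (Q.M d).dg.IsDeg n ((Q.M d).l a x) := by
  have h := (Q.M d).l_deg (Dg.conc_deg (k := k) a) hx
  rw [zero_add] at h
  exact h

/-- auxiliary -/
theorem Le_dl (Q : PB A.pa B) (d : Ch i) (a : A.A d) (x : (Q.M d).M) :
    (Q.M d).dg.d ((Q.M d).l a x) = (Q.M d).l a ((Q.M d).dg.d x) := by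
  refine ((Q.M d).d_l a x).trans ?_
  have h1 : (A.pa.A d).dg.d a = 0 := rfl
  have h2 : (A.pa.A d).dg.s a = a := Dg.conc_s (k := k) a
  rw [h1, h2, map_zero, LinearMap.zero_apply, zero_add]

/-! ### The presheaf -/

/-- the subspace `e M_d` -/
def tzS (E : Idm A) (Q : PB A.pa B) (d : Ch i) : Submodule k (Q.M d).M where
  carrier := {x | (Q.M d).l (E.e d) x = x}
  add_mem' := fun {x y} hx hy => by
    change (Q.M d).l (E.e d) (x + y) = x + y
    rw [map_add]
    exact congrArg₂ (· + ·) hx hy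
  zero_mem' := map_zero _
  smul_mem' := fun c x hx => by
    change (Q.M d).l (E.e d) (c • x) = c • x
    rw [map_smul]
    exact congrArg (c • ·) hx

theorem mem_tzS {E : Idm A} {Q : PB A.pa B} {d : Ch i} {x : (Q.M d).M} :
    x ∈ tzS E Q d ↔ (Q.M d).l (E.e d) x = x := Iff.rfl

/-- Le5. -/
theorem tzS_ρ (E : Idm A) (Q : PB A.pa B) (d : Ch i) :
    ∀ v ∈ tzS E Q d, ∀ n, (Q.M d).dg.ρ v n ∈ tzS E Q d := by
  intro v hv n
  have hv' : (Q.M d).l (E.e d) v = v := hv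
  have h0 : ∀ (j : ℤ) (v : (Q.M d).M), (Q.M d).dg.IsDeg j v →
      (Q.M d).dg.IsDeg (j + 0) ((Q.M d).l (E.e d) v) := by
    intro j v hv
    rw [add_zero]
    exact Le_deg Q d (E.e d) hv
  have h := (Dg.degMap_iff (X := (Q.M d).dg) (Y := (Q.M d).dg) (n := 0)
    ((Q.M d).l (E.e d))).1 h0 v n
  rw [add_zero] at h
  exact h.symm.trans (congrArg (fun z => (Q.M d).dg.ρ z n) hv')

theorem tzS_d (E : Idm A) (Q : PB A.pa B) (d : Ch i) :
    ∀ v ∈ tzS E Q d, (Q.M d).dg.d v ∈ tzS E Q d := by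
  intro v hv
  have hv' : (Q.M d).l (E.e d) v = v := hv
  exact (Le_dl Q d (E.e d) v).symm.trans (congrArg (Q.M d).dg.d hv')

/-- the complex `e M_d` -/
def tzD (E : Idm A) (Q : PB A.pa B) (d : Ch i) : Dg k (tzS E Q d) :=
  (Q.M d).dg.sub (tzS E Q d) (tzS_ρ E Q d) (tzS_d E Q d)

/-- auxiliary -/
theorem Le_sub {E : Idm A} {Q : PB A.pa B} {d : Ch i} {n : ℤ} {x : tzS E Q d} :
    (tzD E Q d).IsDeg n x ↔ (Q.M d).dg.IsDeg n x.1 :=
  Dg.sub_isDeg (Q.M d).dg (tzS E Q d) (tzS_ρ E Q d) (tzS_d E Q d) x n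

/-- auxiliary -/
theorem Le_s (E : Idm A) (Q : PB A.pa B) (d : Ch i) (x : tzS E Q d) :
    ((tzD E Q d).s x).1 = (Q.M d).dg.s x.1 := by
  have h1 := Dg.s_degMap_even (X := tzD E Q d) (Y := (Q.M d).dg) (n := 0) Even.zero
    (tzS E Q d).subtype (fun {j v} h => by
      rw [add_zero]
      exact Le_sub.1 h) x
  exact h1.symm

/-- the right action of `B_c` on `e M_{m ∪ c}` -/
def tzr (E : Idm A) (Q : PB A.pa B) (m : FS i) (c : Ch i) :
    (B.A c).A →ₗ[k] tzS E Q (mu m c) →ₗ[k] tzS E Q (mu m c) :=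
  LinearMap.mk₂ k (fun b x => (⟨(Q.M (mu m c)).r ((B.r (le_mu m c)).f b) x.1, by
      have hx : (Q.M (mu m c)).l (E.e (mu m c)) x.1 = x.1 := x.2
      change (Q.M (mu m c)).l (E.e (mu m c)) ((Q.M (mu m c)).r ((B.r (le_mu m c)).f b) x.1) = _
      rw [(Q.M (mu m c)).l_r, hx]⟩ : tzS E Q (mu m c)))
    (fun b b' x => Subtype.ext (by
      change (Q.M (mu m c)).r ((B.r (le_mu m c)).f (b + b')) x.1 = _
      rw [map_add, map_add]
      rfl))
    (fun t b x => Subtype.ext (by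
      change (Q.M (mu m c)).r ((B.r (le_mu m c)).f (t • b)) x.1 = _
      rw [map_smul, map_smul]
      rfl))
    (fun b x x' => Subtype.ext (map_add ((Q.M (mu m c)).r ((B.r (le_mu m c)).f b)) x.1 x'.1))
    (fun t b x => Subtype.ext (map_smul ((Q.M (mu m c)).r ((B.r (le_mu m c)).f b)) t x.1))

/-- Le6. The right module `e M_{m ∪ c}`. -/
def tzB (E : Idm A) (Q : PB A.pa B) (m : FS i) (c : Ch i) : Bim (base k) (B.A c) where
  M := tzS E Q (mu m c)
  dg := tzD E Q (mu m c)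
  l := LinearMap.lsmul k (tzS E Q (mu m c))
  r := tzr E Q m c
  l_one := fun x => one_smul k x
  r_one := fun x => by
    refine Subtype.ext ?_
    change (Q.M (mu m c)).r ((B.r (le_mu m c)).f (B.A c).one) x.1 = x.1
    rw [(B.r (le_mu m c)).one, (Q.M (mu m c)).r_one]
  l_mul := fun a a' x => mul_smul (α := k) a a' x
  r_mul := fun b b' x => by
    refine Subtype.ext ?_
    change (Q.M (mu m c)).r ((B.r (le_mu m c)).f ((B.A c).mul b b')) x.1 =
      (Q.M (mu m c)).r ((B.r (le_mu m c)).f b') ((Q.M (mu m c)).r ((B.r (le_mu m c)).f b) x.1)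
    rw [(B.r (le_mu m c)).mul, (Q.M (mu m c)).r_mul]
  l_r := fun a b x => by
    exact (map_smul (tzr E Q m c b) (show k from a) x).symm
  l_deg := fun {n n' a x} ha hx => by
    exact base_smul_deg (tzD E Q (mu m c)) ha hx
  r_deg := fun {n n' b x} hx hb => by
    exact Le_sub.2 ((Q.M (mu m c)).r_deg (Le_sub.1 hx) ((B.r (le_mu m c)).deg hb))
  d_l := fun a x => by
    have h : (tzD E Q (mu m c)).d ((show k from a) • x) =
        (0 : k) • x + (show k from a) • (tzD E Q (mu m c)).d x := by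
      rw [map_smul, zero_smul, zero_add]
    have h1 : (base k).dg.s a = a := base_s (k := k) a
    rw [h1]
    exact h
  d_r := fun b x => by
    refine Subtype.ext ?_
    change (Q.M (mu m c)).dg.d ((Q.M (mu m c)).r ((B.r (le_mu m c)).f b) x.1) =
      (Q.M (mu m c)).r ((B.r (le_mu m c)).f b) ((Q.M (mu m c)).dg.d x.1) +
        (Q.M (mu m c)).r ((B.r (le_mu m c)).f ((B.A c).dg.d b)) ((tzD E Q (mu m c)).s x).1
    rw [(Q.M (mu m c)).d_r, (B.r (le_mu m c)).d, Le_s]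

/-- Le7. Multiplication with a central element of `A_d`, on `e M_d`. -/
def tzl (E : Idm A) (Q : PB A.pa B) (d : Ch i) (a : A.A d) (ha : ∀ b, a * b = b * a) :
    tzS E Q d →ₗ[k] tzS E Q d :=
  (show (Q.M d).M →ₗ[k] (Q.M d).M from (Q.M d).l a).restrict (by
    intro x hx
    have hx' : (Q.M d).l (E.e d) x = x := hx
    change (Q.M d).l (E.e d) ((Q.M d).l a x) = (Q.M d).l a x
    exact ((Le_ll Q d _ _ x).trans (congrArg (fun z : A.A d => (Q.M d).l z x)
      (ha (E.e d)).symm)).trans ((Le_ll Q d _ _ x).symm.trans (congrArg ((Q.M d).l a) hx')))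

theorem tzl_apply (E : Idm A) (Q : PB A.pa B) (d : Ch i) (a : A.A d) (ha : ∀ b, a * b = b * a)
    (x : tzS E Q d) : (tzl E Q d a ha x).1 = (Q.M d).l a x.1 := rfl

/-- Le8. The restriction `e M_c → e M_d`. -/
def tzρ (E : Idm A) (Q : PB A.pa B) {c d : Ch i} (h : c ≤ d) : tzS E Q c →ₗ[k] tzS E Q d :=
  (Q.ρ h).f.restrict (by
    intro x hx
    have hx' : (Q.M c).l (E.e c) x = x := hx
    change (Q.M d).l (E.e d) ((Q.ρ h).f x) = (Q.ρ h).f x
    exact ((congrArg (fun z : A.A d => (Q.M d).l z ((Q.ρ h).f x)) (E.res h).symm).trans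
      (Le_ρl Q h (E.e c) x).symm).trans (congrArg (Q.ρ h).f hx'))

theorem tzρ_apply (E : Idm A) (Q : PB A.pa B) {c d : Ch i} (h : c ≤ d) (x : tzS E Q c) :
    (tzρ E Q h x).1 = (Q.ρ h).f x.1 := rfl

theorem ttp_comm (A : CA k i) (m : FS i) (c : Ch i) (l : i) {g : i} (hg : g ∈ c.1) (b : ℕ)
    (a : A.A (mu m c)) : ttA A m c l hg ^ b * a = a * ttA A m c l hg ^ b :=
  (show Commute (ttA A m c l hg) a from ttA_comm A m c l hg a).pow_left b

/-- Le9. THE TWISTED PRESHEAF: `c ↦ e M_{m ∪ c}`, with the restriction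
`x ↦ (x_{j(c)} / x_{j(d)}) ^ b res x`. -/
def TZ (E : Idm A) (m : FS i) (b : ℕ) (Q : PB A.pa B) : PB (PA.con i (base k)) B where
  M := fun c => tzB E Q m c
  ρ := fun {c d} h => gmk ((PA.con i (base k)).r h) (B.r h) (X := tzB E Q m c)
    (Y := tzB E Q m d)
    (tzl E Q (mu m d) (ttA A m d (jj c) (jj_mem d) ^ b) (ttp_comm A m d _ _ b) ∘ₗ
      tzρ E Q (mu_mono m h))
    (fun {n x} hx => by
      have h1 := (Q.ρ (mu_mono m h)).deg (Le_sub.1 hx)
      exact Le_sub.2 (Le_deg Q _ _ h1))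
    (fun a x => by
      exact map_smul (tzl E Q (mu m d) (ttA A m d (jj c) (jj_mem d) ^ b)
        (ttp_comm A m d _ _ b) ∘ₗ tzρ E Q (mu_mono m h)) (show k from a) x)
    (fun b' x => by
      refine Subtype.ext ?_
      change (Q.M (mu m d)).l (ttA A m d (jj c) (jj_mem d) ^ b) ((Q.ρ (mu_mono m h)).f
        ((Q.M (mu m c)).r ((B.r (le_mu m c)).f b') x.1)) = (Q.M (mu m d)).r ((B.r (le_mu m d)).f
          ((B.r h).f b')) ((Q.M (mu m d)).l (ttA A m d (jj c) (jj_mem d) ^ b)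
            ((Q.ρ (mu_mono m h)).f x.1))
      have h1 := gm_r (Q.ρ (mu_mono m h)) ((B.r (le_mu m c)).f b') x.1
      have h2 : (B.r (mu_mono m h)).f ((B.r (le_mu m c)).f b') =
          (B.r (le_mu m d)).f ((B.r h).f b') := (B.r_r _ _ b').trans (B.r_r _ _ b').symm
      rw [h2] at h1
      exact (congrArg ((Q.M (mu m d)).l (ttA A m d (jj c) (jj_mem d) ^ b)) h1).trans
        ((Q.M (mu m d)).l_r _ _ _))
  dd := fun {c d} h => gmk_dd _ _ _ _ _ _ (fun x => by
    refine Subtype.ext ?_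
    change (Q.M (mu m d)).dg.d ((Q.M (mu m d)).l (ttA A m d (jj c) (jj_mem d) ^ b)
      ((Q.ρ (mu_mono m h)).f x.1)) = (Q.M (mu m d)).l (ttA A m d (jj c) (jj_mem d) ^ b)
      ((Q.ρ (mu_mono m h)).f ((Q.M (mu m c)).dg.d x.1))
    exact (Le_dl Q _ _ _).trans (congrArg ((Q.M (mu m d)).l (ttA A m d (jj c) (jj_mem d) ^ b))
      (gm_d (Q.dd (mu_mono m h)) x.1)))
  ρ_id := fun {c} h x => by
    refine Subtype.ext ?_
    change (Q.M (mu m c)).l (ttA A m c (jj c) (jj_mem c) ^ b) ((Q.ρ (mu_mono m h)).f x.1) = x.1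
    have h1 : ttA A m c (jj c) (jj_mem c) ^ b = 1 := by rw [ttA_self, one_pow]
    exact ((congrArg (fun z : A.A (mu m c) => (Q.M (mu m c)).l z ((Q.ρ (mu_mono m h)).f x.1))
      h1).trans ((Q.M (mu m c)).l_one _)).trans (Q.ρ_id _ x.1)
  ρ_ρ := fun {c d e} h h' x => by
    refine Subtype.ext ?_
    change (Q.M (mu m e)).l (ttA A m e (jj d) (jj_mem e) ^ b) ((Q.ρ (mu_mono m h')).f
      ((Q.M (mu m d)).l (ttA A m d (jj c) (jj_mem d) ^ b) ((Q.ρ (mu_mono m h)).f x.1))) =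
      (Q.M (mu m e)).l (ttA A m e (jj c) (jj_mem e) ^ b) ((Q.ρ (mu_mono m (h.trans h'))).f x.1)
    have h1 := Le_ρl Q (mu_mono m h') (ttA A m d (jj c) (jj_mem d) ^ b)
      ((Q.ρ (mu_mono m h)).f x.1)
    have h2 : A.res (mu_mono m h') (ttA A m d (jj c) (jj_mem d) ^ b) =
        ttA A m e (jj c) (h' (jj_mem d)) ^ b := by rw [map_pow, ttA_res]
    have h3 : ttA A m e (jj d) (jj_mem e) ^ b * ttA A m e (jj c) (h' (jj_mem d)) ^ b =
        ttA A m e (jj c) (jj_mem e) ^ b := by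
      rw [ttp_comm A m e (jj d) (jj_mem e) b,
        ← (show Commute (ttA A m e (jj c) (h' (jj_mem d))) (ttA A m e (jj d) (jj_mem e)) from
          ttA_comm A m e _ _ _).mul_pow, ttA_mul]
    have h4 := Q.ρ_ρ (mu_mono m h) (mu_mono m h') x.1
    refine (congrArg ((Q.M (mu m e)).l (ttA A m e (jj d) (jj_mem e) ^ b)) h1).trans ?_
    refine (Le_ll Q _ _ _ _).trans ?_
    refine (congrArg (fun z : A.A (mu m e) => (Q.M (mu m e)).l z ((Q.ρ (mu_mono m h')).f
      ((Q.ρ (mu_mono m h)).f x.1))) ((congrArg (ttA A m e (jj d) (jj_mem e) ^ b * ·)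
        h2).trans h3)).trans ?_
    exact congrArg ((Q.M (mu m e)).l (ttA A m e (jj c) (jj_mem e) ^ b)) h4

/-- Le10. The multiplication with `x_l ^ (b' - b)`: on the chart `c` it is `(x_l / x_{j(c)}) ^ (b' - b)`. -/
def tzX (E : Idm A) (m : FS i) (Q : PB A.pa B) (l : i) {b b' : ℕ} (hb : b ≤ b') :
    PBH (TZ E m b Q) (TZ E m b' Q) where
  f := fun c =>
    { f := tzl E Q (mu m c) (ttA A m c l (jj_mem c) ^ (b' - b)) (ttp_comm A m c _ _ _)
      deg := fun {n x} hx => by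
        rw [add_zero]
        exact Le_sub.2 (Le_deg Q _ _ (Le_sub.1 hx))
      map_l := fun a x => by
        rw [Dg.sp_zero]
        exact map_smul (tzl E Q (mu m c) (ttA A m c l (jj_mem c) ^ (b' - b)) (ttp_comm A m c _ _ _))
          (show k from a) x
      map_r := fun b x => by
        refine Subtype.ext ?_
        exact (Q.M (mu m c)).l_r _ _ _ }
  dd := fun c => by
    refine LinearMap.ext fun x => ?_
    rw [GMap.dd_apply, sg_zero, one_smul, LinearMap.zero_apply, sub_eq_zero]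
    refine Subtype.ext ?_
    exact Le_dl Q _ _ _
  nat := fun {c d} h x => by
    refine Subtype.ext ?_
    change (Q.M (mu m d)).l (ttA A m d (jj c) (jj_mem d) ^ b') ((Q.ρ (mu_mono m h)).f
      ((Q.M (mu m c)).l (ttA A m c l (jj_mem c) ^ (b' - b)) x.1)) =
      (Q.M (mu m d)).l (ttA A m d l (jj_mem d) ^ (b' - b))
        ((Q.M (mu m d)).l (ttA A m d (jj c) (jj_mem d) ^ b) ((Q.ρ (mu_mono m h)).f x.1))
    have h1 := Le_ρl Q (mu_mono m h) (ttA A m c l (jj_mem c) ^ (b' - b)) x.1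
    have h2 : A.res (mu_mono m h) (ttA A m c l (jj_mem c) ^ (b' - b)) =
        ttA A m d l (h (jj_mem c)) ^ (b' - b) := by rw [map_pow, ttA_res]
    have h3 : ttA A m d (jj c) (jj_mem d) ^ b' * ttA A m d l (h (jj_mem c)) ^ (b' - b) =
        ttA A m d l (jj_mem d) ^ (b' - b) * ttA A m d (jj c) (jj_mem d) ^ b := by
      obtain ⟨r, rfl⟩ := Nat.exists_eq_add_of_le hb
      rw [Nat.add_sub_cancel_left, ttp_comm A m d (jj c) (jj_mem d) (b + r),
        ← ttA_mul A m d l (h (jj_mem c)) (jj_mem d),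
        (show Commute (ttA A m d l (h (jj_mem c))) (ttA A m d (jj c) (jj_mem d)) from
          ttA_comm A m d _ _ _).mul_pow, add_comm b r, pow_add, mul_assoc]
    refine (congrArg ((Q.M (mu m d)).l (ttA A m d (jj c) (jj_mem d) ^ b')) h1).trans ?_
    refine (Le_ll Q _ _ _ _).trans ?_
    refine (congrArg (fun z : A.A (mu m d) => (Q.M (mu m d)).l z ((Q.ρ (mu_mono m h)).f x.1))
      ((congrArg (ttA A m d (jj c) (jj_mem d) ^ b' * ·) h2).trans h3)).trans ?_
    exact (Le_ll Q _ _ _ _).symm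

end Pool.Agent.MP_6e5bed_ag_BI
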