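import Pool.Agent.Lib.MP_6e5bed_ag_BI.Ld
import Pool.Agent.Lib.MP_6e5bed_ag_GG.IB
import Pool.Agent.Lib.MP_6e5bed_ag_GG.SD

set_option autoImplicit false
set_option linter.unusedVariables false
set_option linter.unusedSectionVars false

/-!
# MP_6e5bed_ag, THEOREM T, LOC (5): charts and functions
-/

noncomputable section

namespace Pool.Agent.MP_6e5bed_ag_BI

open Pool.Agent.MP_6e5bed_ag_NC Pool.Agent.MP_6e5bed_ag_GG
open Pool.Agent.MP_6e5bed_ag_PN hiding Ch
open Pool.Agent.MP_6e5bed_ag_NS (Cx CHom CPr co ringH)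

universe u

variable {k : Type u} [Field k] {i : Type} [Fintype i]

/-! ### Charts -/

/-- the chart `m ∪ c` -/
def mu (m : FS i) (c : Ch i) : Ch i :=
  ⟨m.1 ∪ c.1, c.2.1.mono Set.subset_union_right, m.2.union c.2.2⟩

theorem le_mu (m : FS i) (c : Ch i) : c ≤ mu m c := Set.subset_union_right

theorem mu_mono (m : FS i) {c d : Ch i} (h : c ≤ d) : mu m c ≤ mu m d :=
  Set.union_subset_union_right m.1 h

/-- an element of `c` -/
def jj (c : Ch i) : i := c.2.1.some

theorem jj_mem (c : Ch i) : jj c ∈ c.1 := c.2.1.some_mem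

/-- Compatible idempotents. -/
structure Idm (A : CA k i) where
  e : ∀ c : Ch i, A.A c
  res : ∀ {c d : Ch i} (h : c ≤ d), A.res h (e c) = e d
  idem : ∀ c, e c * e c = e c

/-- the idempotent one -/
def Idm.one (A : CA k i) : Idm A where
  e := fun _ => 1
  res := fun h => map_one _
  idem := fun _ => one_mul 1

/-- the function `x_l / x_g` in `A_{m ∪ c}`, `g ∈ c` -/
def ttA (A : CA k i) (m : FS i) (c : Ch i) (l : i) {g : i} (hg : g ∈ c.1) : A.A (mu m c) :=
  algebraMap (RR k (mu m c).1) (A.A (mu m c)) (tt k l (le_mu m c hg))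

/-- Le1. The functions are central. (`Algebra.commutes`.) -/
theorem ttA_comm (A : CA k i) (m : FS i) (c : Ch i) (l : i) {g : i} (hg : g ∈ c.1)
    (a : A.A (mu m c)) : ttA A m c l hg * a = a * ttA A m c l hg := by
  exact Algebra.commutes _ _

/-- Le2. `(x_l / x_g)(x_g / x_h) = x_l / x_h`. -/
theorem ttA_mul (A : CA k i) (m : FS i) (c : Ch i) (l : i) {g h : i} (hg : g ∈ c.1)
    (hh : h ∈ c.1) : ttA A m c l hg * ttA A m c g hh = ttA A m c l hh := by
  rw [ttA, ttA, ttA, ← map_mul, tt_comp]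

/-- Le3. (`tt_self` in GG/SD.) -/
theorem ttA_self (A : CA k i) (m : FS i) (c : Ch i) {g : i} (hg : g ∈ c.1) :
    ttA A m c g hg = 1 := by
  rw [ttA, tt_self, map_one]

/-- Le4. (`A.res_R`, `rinc_tt`.) -/
theorem ttA_res (A : CA k i) (m : FS i) {c d : Ch i} (h : c ≤ d) (l : i) {g : i}
    (hg : g ∈ c.1) : A.res (mu_mono m h) (ttA A m c l hg) = ttA A m d l (h hg) := by
  rw [ttA, ttA, A.res_R, rinc_tt]

end Pool.Agent.MP_6e5bed_ag_BI
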