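import Pool.Agent.Lib.MP_6e5bed_ag_BI.Le

set_option autoImplicit false
set_option linter.unusedVariables false
set_option linter.unusedSectionVars false

/-!
# MP_6e5bed_ag, THEOREM T, LOC (7): the objects of `RO N` given by the twists, definitions
-/

noncomputable section

namespace Pool.Agent.MP_6e5bed_ag_BI

open Pool.Agent.MP_6e5bed_ag_NC Pool.Agent.MP_6e5bed_ag_GG
open Pool.Agent.MP_6e5bed_ag_PN hiding Ch
open Pool.Agent.MP_6e5bed_ag_NS (Cx CHom CPr co ringH)

universe u

variable {k : Type u} [Field k] {i : Type} [Fintype i] {A : CA k i} {B : PA k i}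

/-! ### The object of `RO N` -/

/-- the algebra as a presheaf of bimodules -/
def dA (A : PA k i) : PB A A where
  M := fun c => diag (A.A c)
  ρ := fun {c d} h => gmk (A.r h) (A.r h) (X := diag (A.A c)) (Y := diag (A.A d)) (A.r h).f
    (fun {n x} hx => by
      rw [add_zero]
      exact (A.r h).deg hx)
    (fun a x => (A.r h).mul a x)
    (fun b x => (A.r h).mul x b)
  dd := fun {c d} h => gmk_dd _ _ _ _ _ _ (fun x => (A.r h).d x)
  ρ_id := fun h x => A.r_id h x
  ρ_ρ := fun h h' x => A.r_r h h' x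

variable {N : PB A.pa (PA.con i (base k))}

private theorem Lf_mem (E : Idm A) (N : PB A.pa (PA.con i (base k))) (d : Ch i) (a : A.A d)
    (ha : a ∈ tzS E (dA A.pa) d) (y : (N.M d).M) :
    (N.M d).l a y ∈ tzS E N d := by
  have ha' : E.e d * a = a := ha
  change (N.M d).l (E.e d) ((N.M d).l a y) = (N.M d).l a y
  refine ((N.M d).l_mul (E.e d) a y).symm.trans ?_
  exact congrArg (fun z => (N.M d).l z y) ha'

private theorem Lf_deg (E : Idm A) (Q : PB A.pa B) (d : Ch i) (n : ℤ) (x : tzS E Q d) :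
    (tzD E Q d).IsDeg n x ↔ (Q.M d).dg.IsDeg n x.1 :=
  Dg.sub_isDeg (Q.M d).dg (tzS E Q d) (tzS_ρ E Q d) (tzS_d E Q d) x n

private theorem Lf_s (E : Idm A) (Q : PB A.pa B) (d : Ch i) (x : tzS E Q d) :
    ((tzD E Q d).s x).1 = (Q.M d).dg.s x.1 := by
  have h1 := Dg.s_degMap_even (X := tzD E Q d) (Y := (Q.M d).dg) (n := 0) Even.zero
    (tzS E Q d).subtype (fun {j v} h => by
      rw [add_zero]
      exact (Lf_deg E Q d j v).1 h) x
  exact h1.symm

/-- Le11. the pairing `e A_{m ∪ c} × N_c → e N_{m ∪ c}`, `(a, n) ↦ a res n` -/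
def tzm (E : Idm A) (m : FS i) (N : PB A.pa (PA.con i (base k))) (c : Ch i) :
    tzS E (dA A.pa) (mu m c) →ₗ[k] (N.M c).M →ₗ[k] tzS E N (mu m c) :=
  LinearMap.mk₂ k (fun a n => (⟨(N.M (mu m c)).l a.1 ((N.ρ (le_mu m c)).f n), by
      exact Lf_mem E N (mu m c) a.1 a.2 _⟩ : tzS E N (mu m c)))
    (fun a a' n => Subtype.ext (LinearMap.congr_fun (map_add
      (show A.A (mu m c) →ₗ[k] (N.M (mu m c)).M →ₗ[k] (N.M (mu m c)).M from
        (N.M (mu m c)).l) a.1 a'.1) ((N.ρ (le_mu m c)).f n)))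
    (fun t a n => Subtype.ext (LinearMap.congr_fun (map_smul
      (show A.A (mu m c) →ₗ[k] (N.M (mu m c)).M →ₗ[k] (N.M (mu m c)).M from
        (N.M (mu m c)).l) t a.1) ((N.ρ (le_mu m c)).f n)))
    (fun a n n' => Subtype.ext ((congrArg ((N.M (mu m c)).l a.1)
      (map_add (N.ρ (le_mu m c)).f n n')).trans (map_add ((N.M (mu m c)).l a.1) _ _)))
    (fun t a n => Subtype.ext ((congrArg ((N.M (mu m c)).l a.1)
      (map_smul (N.ρ (le_mu m c)).f t n)).trans (map_smul ((N.M (mu m c)).l a.1) _ _)))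

/-- THE OBJECT: the rows `e A_{m ∪ c}`, twisted by `b`. -/
def tzO (E : Idm A) (m : FS i) (b : ℕ) (N : PB A.pa (PA.con i (base k))) : RO N where
  R := TZ E m b (dA A.pa)
  Z := (TZ E m b N).pc
  p :=
    { p := fun c =>
        { m := tzm E m N c
          deg := fun {n n' x y} hx hy => by
            refine (Lf_deg E N (mu m c) (n + n') _).2 ?_
            have hy' := (N.ρ (le_mu m c)).deg hy
            rw [add_zero] at hy'
            exact (N.M (mu m c)).l_deg ((Lf_deg E (dA A.pa) (mu m c) n x).1 hx) hy'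
          d := fun x y => by
            refine Subtype.ext ?_
            change (N.M (mu m c)).dg.d ((N.M (mu m c)).l x.1 ((N.ρ (le_mu m c)).f y)) =
              (N.M (mu m c)).l ((A.pa.A (mu m c)).dg.d x.1) ((N.ρ (le_mu m c)).f y) +
              (N.M (mu m c)).l ((tzD E (dA A.pa) (mu m c)).s x).1
                ((N.ρ (le_mu m c)).f ((N.M c).dg.d y))
            rw [Lf_s, (N.M (mu m c)).d_l]
            refine congrArg _ (congrArg _ ?_)
            exact gm_d (N.dd (le_mu m c)) y }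
      nat := fun {c d} h x y => by
        refine Subtype.ext ?_
        change (N.M (mu m d)).l (ttA A m d (jj c) (jj_mem d) ^ b)
            ((N.ρ (mu_mono m h)).f ((N.M (mu m c)).l x.1 ((N.ρ (le_mu m c)).f y))) =
          (N.M (mu m d)).l (ttA A m d (jj c) (jj_mem d) ^ b * A.res (mu_mono m h) x.1)
            ((N.ρ (le_mu m d)).f ((N.ρ h).f y))
        rw [gm_l, N.ρ_ρ, N.ρ_ρ]
        exact ((N.M (mu m d)).l_mul _ _ _).symm }
  bal := fun c x a y => by
    refine Subtype.ext ?_
    change (N.M (mu m c)).l ((show A.A (mu m c) from x.1) * A.res (le_mu m c) a)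
        ((N.ρ (le_mu m c)).f y) =
      (N.M (mu m c)).l x.1 ((N.ρ (le_mu m c)).f ((N.M c).l a y))
    rw [gm_l]
    exact (N.M (mu m c)).l_mul _ _ _

/-- Le12. the multiplication with `x_l ^ (b' - b)` -/
def tzOX (E : Idm A) (m : FS i) (N : PB A.pa (PA.con i (base k))) (l : i) {b b' : ℕ}
    (hb : b ≤ b') : ROH (tzO E m b N) (tzO E m b' N) where
  f := tzX E m (dA A.pa) l hb
  g := (tzX E m N l hb).pch
  nat := fun c x y => by
    refine Subtype.ext ?_
    exact ((N.M (mu m c)).l_mul _ _ _).symm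

end Pool.Agent.MP_6e5bed_ag_BI
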