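import Pool.Agent.Lib.MP_6e5bed_ag_BI.Lf

set_option autoImplicit false
set_option linter.unusedVariables false
set_option linter.unusedSectionVars false

/-!
# MP_6e5bed_ag, THEOREM T, LOC (8): all twists
-/

noncomputable section

namespace Pool.Agent.MP_6e5bed_ag_BI

open Pool.Agent.MP_6e5bed_ag_NC Pool.Agent.MP_6e5bed_ag_GG
open Pool.Agent.MP_6e5bed_ag_PN hiding Ch
open Pool.Agent.MP_6e5bed_ag_NS (Cx CHom CPr co ringH)

universe u

variable {k : Type u} [Field k] {i : Type} [Fintype i] {A : CA k i}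
  {N : PB A.pa (PA.con i (base k))}

private theorem Lg_comm {B : PA k i} (E : Idm A) (Q : PB A.pa B) (m : FS i) (c : Ch i)
    (l l' : i) {n n' : ℕ} (hn : n = n') (z : tzS E Q (mu m c)) :
    tzl E Q (mu m c) (ttA A m c l (jj_mem c) ^ n) (ttp_comm A m c _ _ _)
      (tzl E Q (mu m c) (ttA A m c l' (jj_mem c) ^ n') (ttp_comm A m c _ _ _) z) =
    tzl E Q (mu m c) (ttA A m c l' (jj_mem c) ^ n) (ttp_comm A m c _ _ _)
      (tzl E Q (mu m c) (ttA A m c l (jj_mem c) ^ n') (ttp_comm A m c _ _ _) z) := by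
  subst hn
  refine Subtype.ext ?_
  rw [tzl_apply, tzl_apply, tzl_apply, tzl_apply]
  refine ((Q.M (mu m c)).l_mul (ttA A m c l (jj_mem c) ^ n) (ttA A m c l' (jj_mem c) ^ n)
    z.1).symm.trans (Eq.trans ?_ ((Q.M (mu m c)).l_mul (ttA A m c l' (jj_mem c) ^ n)
    (ttA A m c l (jj_mem c) ^ n) z.1))
  exact congrArg (fun a => (Q.M (mu m c)).l a z.1)
    (ttp_comm A m c l (jj_mem c) n (ttA A m c l' (jj_mem c) ^ n))

private theorem Lg_id {B : PA k i} (E : Idm A) (Q : PB A.pa B) (m : FS i) (c : Ch i) (n : ℕ)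
    (z : tzS E Q (mu m c)) :
    tzl E Q (mu m c) (ttA A m c (jj c) (jj_mem c) ^ n) (ttp_comm A m c _ _ _) z = z := by
  refine Subtype.ext ?_
  rw [tzl_apply]
  have h1 : ttA A m c (jj c) (jj_mem c) ^ n = 1 := by
    rw [ttA_self, one_pow]
  refine (congrArg (fun a => (Q.M (mu m c)).l a z.1) h1).trans ?_
  exact (Q.M (mu m c)).l_one z.1

private theorem Lg_bij {B : PA k i} (E : Idm A) (Q : PB A.pa B) (m : FS i) (c : Ch i) (n : ℕ) :
    Function.Bijective (tzl E Q (mu m c) (ttA A m c (jj c) (jj_mem c) ^ n)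
      (ttp_comm A m c _ _ _)) :=
  ⟨fun x y h => (Lg_id E Q m c n x).symm.trans (h.trans (Lg_id E Q m c n y)),
    fun y => ⟨y, Lg_id E Q m c n y⟩⟩

/-- the sequence of the twists, with the multiplications by the coordinates -/
def tzT (E : Idm A) (m : FS i) (N : PB A.pa (PA.con i (base k))) : TwR N i where
  M := fun b => tzO E m b N
  x := fun l b => tzOX E m N l (Nat.le_succ b)
  cf := fun l l' b c z => by
    exact Lg_comm E (dA A.pa) m c l l' (by omega) z
  cg := fun l l' b c z => by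
    exact Lg_comm E N m c l l' (by omega) z

/-- Lg1. At the chart `c` the multiplication with `x_{j(c)} / x_{j(c)} = 1` is the identity
(`ttA_self`). -/
theorem tzT_cov (E : Idm A) (m : FS i) : (tzT E m N).Cov (LL i) := by
  intro c
  refine Or.inr ⟨jj c, mem_LL _, fun b => ⟨Qi.of_bij ?_, Qi.of_bij ?_⟩⟩
  · exact Lg_bij E (dA A.pa) m c _
  · exact Lg_bij E N m c _

variable {Zt : Bim (TT A) (base k)} {ζ : GMap 0 Zt (cBR N (LL i) (FS.e i))} {hζ : ζ.dd = 0}

/-- Lg2. (`TwR.good`.) -/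
theorem tz_all (hZt : LFlat Zt) (E : Idm A) (m : FS i)
    (h : ∀ b, b < (LL i).length → (tzO E m b N).Good ζ hζ) (b : ℕ) :
    (tzO E m b N).Good ζ hζ :=
  TwR.good (hZt := hZt) (LL i) (tzT E m N) (tzT_cov E m) h b

end Pool.Agent.MP_6e5bed_ag_BI
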