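import Pool.Agent.Lib.MP_6e5bed_ag_BI.Lf

set_option autoImplicit false
set_option linter.unusedVariables false
set_option linter.unusedSectionVars false

/-!
# MP_6e5bed_ag, THEOREM T, LOC (9a): localisation at a coordinate, definitions
-/

noncomputable section

namespace Pool.Agent.MP_6e5bed_ag_BI

open Pool.Agent.MP_6e5bed_ag_NC Pool.Agent.MP_6e5bed_ag_GG
open Pool.Agent.MP_6e5bed_ag_PN hiding Ch
open Pool.Agent.MP_6e5bed_ag_NS (Cx CHom CPr co ringH)

universe u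

variable {k : Type u} [Field k] {i : Type} [Fintype i] {A : CA k i} {B : PA k i}

theorem mu_ins (m : FS i) (l : i) (c : Ch i) : mu m c ≤ mu (m.ins l).fs c := by
  intro a ha
  rcases ha with h | h
  · exact Or.inl (Or.inr h)
  · exact Or.inr h

theorem mem_mu_ins (m : FS i) (l : i) (c : Ch i) : l ∈ (mu (m.ins l).fs c).1 :=
  Or.inl (Or.inl rfl)

/-- the function `x_{j(c)} / x_l` in `A_{m ∪ l ∪ c}` -/
def ttl (A : CA k i) (m : FS i) (l : i) (c : Ch i) : A.A (mu (m.ins l).fs c) :=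
  algebraMap (RR k (mu (m.ins l).fs c).1) (A.A (mu (m.ins l).fs c))
    (tt k (jj c) (mem_mu_ins m l c))

/-- Lh3. (`Algebra.commutes`.) -/
theorem ttl_comm (A : CA k i) (m : FS i) (l : i) (c : Ch i) (s : ℕ)
    (a : A.A (mu (m.ins l).fs c)) : ttl A m l c ^ s * a = a * ttl A m l c ^ s := by
  exact (show Commute (ttl A m l c) a from Algebra.commutes _ _).pow_left s

/-- Lh4. `(x_{j(c)} / x_{j(d)}) (x_{j(d)} / x_l) = x_{j(c)} / x_l`. -/
theorem ttl_res (A : CA k i) (m : FS i) (l : i) {c d : Ch i} (h : c ≤ d) :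
    A.res (mu_mono (m.ins l).fs h) (ttl A m l c) =
      ttA A (m.ins l).fs d (jj c) (jj_mem d) * ttl A m l d := by
  rw [ttl, ttl, ttA, A.res_R, rinc_tt, ← map_mul, tt_comp]

/-- Lh5. `(x_g / x_{j(c)}) (x_{j(c)} / x_l) = x_g / x_l`, for `g = l`. -/
theorem ttl_inv (A : CA k i) (m : FS i) (l : i) (c : Ch i) :
    A.res (mu_ins m l c) (ttA A m c l (jj_mem c)) * ttl A m l c = 1 := by
  rw [ttl, ttA, A.res_R, rinc_tt, ← map_mul, tt_comp, tt_self, map_one]

/-- auxiliary -/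
theorem Lh0_res (A : CA k i) (m : FS i) (l : i) (c : Ch i) (a : i) {g : i} (hg : g ∈ c.1) :
    A.res (mu_ins m l c) (ttA A m c a hg) = ttA A (m.ins l).fs c a hg := by
  rw [ttA, ttA, A.res_R, rinc_tt]

private theorem Lh0_alg (A : CA k i) (m : FS i) (l : i) {c d : Ch i} (h : c ≤ d) (b s : ℕ) :
    ttA A (m.ins l).fs d (jj c) (jj_mem d) ^ b *
        A.res (mu_mono (m.ins l).fs h) (ttl A m l c ^ s) =
      ttl A m l d ^ s * A.res (mu_ins m l d) (ttA A m d (jj c) (jj_mem d) ^ (b + s)) := by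
  rw [map_pow, map_pow, ttl_res A m l h, Lh0_res,
    (show Commute (ttA A (m.ins l).fs d (jj c) (jj_mem d)) (ttl A m l d) from
      ttA_comm A (m.ins l).fs d _ _ _).mul_pow, ← mul_assoc, ← pow_add, ttl_comm]

private theorem Lh0_X (A : CA k i) (m : FS i) (l : i) (c : Ch i) {b s t : ℕ} (h : s ≤ t) :
    ttl A m l c ^ t * A.res (mu_ins m l c) (ttA A m c l (jj_mem c) ^ (b + t - (b + s))) =
      ttl A m l c ^ s := by
  obtain ⟨r, rfl⟩ := Nat.exists_eq_add_of_le h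
  have h1 : b + (s + r) - (b + s) = r := by omega
  have h2 : Commute (A.res (mu_ins m l c) (ttA A m c l (jj_mem c))) (ttl A m l c) := by
    rw [Lh0_res]
    exact ttA_comm A (m.ins l).fs c _ _ _
  rw [h1, map_pow, pow_add, mul_assoc, ← (h2.symm).mul_pow, h2.symm.eq, ttl_inv, one_pow,
    mul_one]

/-- Lh6. THE MAPS `e M_{m ∪ c} (b + s) → e M_{m ∪ l ∪ c} (b)`, `x ↦ (x_{j(c)} / x_l) ^ s res x`. -/
def tzI (E : Idm A) (m : FS i) (l : i) (b s : ℕ) (Q : PB A.pa B) :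
    PBH (TZ E m (b + s) Q) (TZ E (m.ins l).fs b Q) where
  f := fun c =>
    { f := tzl E Q (mu (m.ins l).fs c) (ttl A m l c ^ s) (ttl_comm A m l c s) ∘ₗ
        tzρ E Q (mu_ins m l c)
      deg := fun {n x} hx => by
        have h1 := (Q.ρ (mu_ins m l c)).deg (Le_sub.1 hx)
        exact Le_sub.2 (Le_deg Q _ _ h1)
      map_l := fun a x => by
        rw [Dg.sp_zero]
        exact map_smul (tzl E Q (mu (m.ins l).fs c) (ttl A m l c ^ s) (ttl_comm A m l c s) ∘ₗ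
          tzρ E Q (mu_ins m l c)) (show k from a) x
      map_r := fun b' x => by
        refine Subtype.ext ?_
        change (Q.M (mu (m.ins l).fs c)).l (ttl A m l c ^ s) ((Q.ρ (mu_ins m l c)).f
          ((Q.M (mu m c)).r ((B.r (le_mu m c)).f b') x.1)) =
          (Q.M (mu (m.ins l).fs c)).r ((B.r (le_mu (m.ins l).fs c)).f b')
            ((Q.M (mu (m.ins l).fs c)).l (ttl A m l c ^ s) ((Q.ρ (mu_ins m l c)).f x.1))
        have h1 := gm_r (Q.ρ (mu_ins m l c)) ((B.r (le_mu m c)).f b') x.1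
        have h2 : (B.r (mu_ins m l c)).f ((B.r (le_mu m c)).f b') =
            (B.r (le_mu (m.ins l).fs c)).f b' := B.r_r _ _ b'
        rw [h2] at h1
        exact (congrArg ((Q.M (mu (m.ins l).fs c)).l (ttl A m l c ^ s)) h1).trans
          ((Q.M (mu (m.ins l).fs c)).l_r _ _ _) }
  dd := fun c => by
    refine LinearMap.ext fun x => ?_
    rw [GMap.dd_apply, sg_zero, one_smul, LinearMap.zero_apply, sub_eq_zero]
    refine Subtype.ext ?_
    change (Q.M (mu (m.ins l).fs c)).dg.d ((Q.M (mu (m.ins l).fs c)).l (ttl A m l c ^ s)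
      ((Q.ρ (mu_ins m l c)).f x.1)) = (Q.M (mu (m.ins l).fs c)).l (ttl A m l c ^ s)
      ((Q.ρ (mu_ins m l c)).f ((Q.M (mu m c)).dg.d x.1))
    exact (Le_dl Q _ _ _).trans (congrArg ((Q.M (mu (m.ins l).fs c)).l (ttl A m l c ^ s))
      (gm_d (Q.dd (mu_ins m l c)) x.1))
  nat := fun {c d} h x => by
    refine Subtype.ext ?_
    change (Q.M (mu (m.ins l).fs d)).l (ttA A (m.ins l).fs d (jj c) (jj_mem d) ^ b)
      ((Q.ρ (mu_mono (m.ins l).fs h)).f ((Q.M (mu (m.ins l).fs c)).l (ttl A m l c ^ s)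
        ((Q.ρ (mu_ins m l c)).f x.1))) =
      (Q.M (mu (m.ins l).fs d)).l (ttl A m l d ^ s) ((Q.ρ (mu_ins m l d)).f
        ((Q.M (mu m d)).l (ttA A m d (jj c) (jj_mem d) ^ (b + s)) ((Q.ρ (mu_mono m h)).f x.1)))
    have h1 := Le_ρl Q (mu_mono (m.ins l).fs h) (ttl A m l c ^ s) ((Q.ρ (mu_ins m l c)).f x.1)
    have h2 := Le_ρl Q (mu_ins m l d) (ttA A m d (jj c) (jj_mem d) ^ (b + s))
      ((Q.ρ (mu_mono m h)).f x.1)
    have h3 : (Q.ρ (mu_mono (m.ins l).fs h)).f ((Q.ρ (mu_ins m l c)).f x.1) =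
        (Q.ρ (mu_ins m l d)).f ((Q.ρ (mu_mono m h)).f x.1) :=
      (Q.ρ_ρ _ _ x.1).trans (Q.ρ_ρ _ _ x.1).symm
    refine (congrArg ((Q.M (mu (m.ins l).fs d)).l
      (ttA A (m.ins l).fs d (jj c) (jj_mem d) ^ b)) h1).trans ?_
    refine Eq.trans ?_ (congrArg ((Q.M (mu (m.ins l).fs d)).l (ttl A m l d ^ s)) h2).symm
    refine (Le_ll Q _ _ _ _).trans ?_
    refine Eq.trans ?_ (Le_ll Q _ _ _ _).symm
    refine (congrArg (fun z : A.A (mu (m.ins l).fs d) => (Q.M (mu (m.ins l).fs d)).l z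
      ((Q.ρ (mu_mono (m.ins l).fs h)).f ((Q.ρ (mu_ins m l c)).f x.1)))
      (Lh0_alg A m l h b s)).trans ?_
    exact congrArg ((Q.M (mu (m.ins l).fs d)).l (ttl A m l d ^ s * A.res (mu_ins m l d)
      (ttA A m d (jj c) (jj_mem d) ^ (b + s)) : A.A (mu (m.ins l).fs d))) h3

variable {N : PB A.pa (PA.con i (base k))}

/-- Lh7. The maps of the objects of `RO N`. -/
def tzOI (E : Idm A) (m : FS i) (l : i) (b s : ℕ) (N : PB A.pa (PA.con i (base k))) :
    ROH (tzO E m (b + s) N) (tzO E (m.ins l).fs b N) where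
  f := tzI E m l b s (dA A.pa)
  g := (tzI E m l b s N).pch
  nat := fun c x y => by
    refine Subtype.ext ?_
    change (N.M (mu (m.ins l).fs c)).l (ttl A m l c ^ s) ((N.ρ (mu_ins m l c)).f
      ((N.M (mu m c)).l x.1 ((N.ρ (le_mu m c)).f y))) =
      (N.M (mu (m.ins l).fs c)).l (ttl A m l c ^ s * A.res (mu_ins m l c) x.1)
        ((N.ρ (le_mu (m.ins l).fs c)).f y)
    rw [gm_l, N.ρ_ρ]
    exact ((N.M (mu (m.ins l).fs c)).l_mul _ _ _).symm

/-- Lh8. Compatibility with the multiplications by `x_l ^ (t - s)`. -/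
theorem tzI_X (E : Idm A) (m : FS i) (l : i) (b : ℕ) {s t : ℕ} (h : s ≤ t) (Q : PB A.pa B)
    (c : Ch i) (x : tzS E Q (mu m c)) :
    ((tzI E m l b t Q).f c).f (((tzX E m Q l (Nat.add_le_add_left h b)).f c).f x) =
      ((tzI E m l b s Q).f c).f x := by
  refine Subtype.ext ?_
  change (Q.M (mu (m.ins l).fs c)).l (ttl A m l c ^ t) ((Q.ρ (mu_ins m l c)).f
    ((Q.M (mu m c)).l (ttA A m c l (jj_mem c) ^ (b + t - (b + s))) x.1)) =
    (Q.M (mu (m.ins l).fs c)).l (ttl A m l c ^ s) ((Q.ρ (mu_ins m l c)).f x.1)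
  have h1 := Le_ρl Q (mu_ins m l c) (ttA A m c l (jj_mem c) ^ (b + t - (b + s))) x.1
  refine (congrArg ((Q.M (mu (m.ins l).fs c)).l (ttl A m l c ^ t)) h1).trans ?_
  refine (Le_ll Q _ _ _ _).trans ?_
  exact congrArg (fun z : A.A (mu (m.ins l).fs c) => (Q.M (mu (m.ins l).fs c)).l z
    ((Q.ρ (mu_ins m l c)).f x.1)) (Lh0_X A m l c h)

end Pool.Agent.MP_6e5bed_ag_BI
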