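import Pool.Agent.Lib.MP_6e5bed_ag_GG.LQe
import Pool.Agent.Lib.MP_6e5bed_ag_PN.Pc

set_option autoImplicit false
set_option linter.unusedVariables false

/-!
# MP_6e5bed_ag, THEOREM T, LOC (11): the evaluation and the augmentation of the Čech complex of the
restriction of a presheaf to a chart
-/

noncomputable section

namespace Pool.Agent.MP_6e5bed_ag_BI

open Pool.Agent.MP_6e5bed_ag_NC Pool.Agent.MP_6e5bed_ag_GG
open Pool.Agent.MP_6e5bed_ag_PN
open Pool.Agent.MP_6e5bed_ag_NS (Cx CHom CPr co)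

universe u

variable {k : Type u} [CommRing k] {ι : Type}

private theorem Lj_V {V : PC k ι} {l : ι}
    (hρ : ∀ c : Ch ι, Function.Bijective (V.ρ (le_ins' c l)).f) {c d : Ch ι} (h : c ≤ d)
    (hd : d = c.fs.ins l) : Function.Bijective (V.ρ h).f := by
  subst hd
  exact hρ c

private theorem Lj_a {V : PC k ι} {l : ι}
    (hρ : ∀ c : Ch ι, Function.Bijective (V.ρ (le_ins' c l)).f) : ∀ (L : List ι)
    (c d : FS ι) (h : c ≤ d), d = (c.ins l).fs → Function.Bijective ((cC V L).ρ h).f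
  | [], c, d, h, hd => Function.bijective_id
  | l' :: L, c, d, h, hd => by
    have e1 : d.ins l' = (c.ins l').fs.ins l := by
      subst hd
      exact Subtype.ext (Set.insert_comm l' l c.1)
    have h0 := Lj_a hρ L c d h hd
    have h1 := Lj_V hρ (ins_mono h l') e1
    have h2 := Lj_a hρ L (c.ins l').fs (d.ins l').fs (fs_mono (ins_mono h l'))
      (congrArg Ch.fs e1)
    exact (h0.prodMap h1).prodMap h2

private theorem Lj_pr1_qi {X0 X1 X01 : Cx k} {r0 : CHom X0 X01} (r1 : CHom X1 X01)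
    (h : Function.Bijective r0.f) : Qi (co.pr1 r0 r1) := by
  refine Qi.of_surj ?_ ?_
  · intro x1
    exact ⟨co.mk r0 r1 0 x1 0, rfl⟩
  · rintro ⟨⟨x0, x1⟩, ξ⟩ hx hd
    have hx1 : x1 = 0 := hx
    subst hx1
    have e := (Pool.Agent.MP_6e5bed_ag_NS.co_d (r0 := r0) (r1 := r1) x0 0 ξ).symm.trans hd
    have e1 : X0.dg.d x0 = 0 := congrArg (fun z => z.1.1) e
    have e2 : r1.f 0 - r0.f x0 - X01.dg.d ξ = 0 := congrArg (fun z => z.2) e
    obtain ⟨w, rfl⟩ := h.2 ξ
    refine ⟨co.mk r0 r1 (-w) 0 0, rfl, ?_⟩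
    refine (Pool.Agent.MP_6e5bed_ag_NS.co_d (r0 := r0) (r1 := r1) (-w) 0 0).trans ?_
    have e3 : X0.dg.d (-w) = x0 := by
      apply h.1
      rw [map_neg, map_neg, ← r0.d]
      rw [map_zero, zero_sub] at e2
      rw [sub_eq_zero] at e2
      rw [← e2, neg_neg]
    refine Prod.ext (Prod.ext e3 (map_zero X1.dg.d)) ?_
    change r1.f 0 - r0.f (-w) - X01.dg.d 0 = r0.f w
    rw [map_zero, map_zero, map_neg, zero_sub, neg_neg, sub_zero]

private theorem Lj_ev_aug {X : Cx k} {V : PC k ι} (a : PCC X V) {L : List ι} {l : ι}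
    (q : Ptr L l) (c : FS ι) (x : X.V) :
    (ev V q c).f (((a.aug L).g c).f x) = (a.f (c.ins l)).f x := by
  induction q with
  | head l L => rfl
  | tail l' q ih => exact ih

/-- Lj1. If all restriction maps `V c → V (c ∪ l)` are bijective, then those of the Čech complex
too. (Copy `cC_ρ_bij` in GG/LQe.) -/
theorem cC_ρ_bij' (V : PC k ι) (l : ι)
    (h : ∀ (c : Ch ι), Function.Bijective (V.ρ (le_ins' c l)).f) (L : List ι) (c : FS ι) :
    Function.Bijective (((cC V L).ρ (le_ins c l)).f) :=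
  Lj_a h L c (c.ins l).fs (le_ins c l) rfl

/-- Lj2. Then the evaluation at `l` is a quasi-isomorphism. (Copy `ev_qi` in GG/LQe.) -/
theorem ev_qi' (V : PC k ι) (l : ι)
    (h : ∀ (c : Ch ι), Function.Bijective (V.ρ (le_ins' c l)).f) {L : List ι} (q : Ptr L l)
    (c : FS ι) : Qi (ev V q c) := by
  induction q generalizing c with
  | head l L => exact Lj_pr1_qi _ (cC_ρ_bij' V l h L c)
  | @tail L l l' q ih =>
    refine Qi.comp (co_pr0_qi _ ?_) (ih h c)
    exact Qi.of_right (g := ev V q (c.ins l').fs) (h := V.ρ (le_ins' (c.ins l') l))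
      (fun x => ev_a V q (c.ins l') x) (ih h _) (Qi.of_bij (h _))

/-- Lj3. A map `X → V` to the presheaf which is bijective at the chart `{l}`: the map to the Čech
complex is a quasi-isomorphism. (`Qi.of_right` with `ev`; the composition of the augmentation
`(a.aug L).g c` with `ev V q c` is `a.f (c.ins l)`: induction on `q`.) -/
theorem aug_qi' {X : Cx k} {V : PC k ι} (a : PCC X V) (l : ι)
    (h : ∀ (c : Ch ι), Function.Bijective (V.ρ (le_ins' c l)).f) {L : List ι} (q : Ptr L l)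
    (c : FS ι) (ha : Function.Bijective (a.f (c.ins l)).f) : Qi ((a.aug L).g c) :=
  Qi.of_right (g := ev V q c) (h := a.f (c.ins l)) (fun x => Lj_ev_aug a q c x)
    (ev_qi' V l h q c) (Qi.of_bij ha)

end Pool.Agent.MP_6e5bed_ag_BI
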