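import Pool.Agent.Lib.MP_6e5bed_ag_GG.LgN

set_option autoImplicit false
set_option linter.unusedVariables false

/-!
# MP_6e5bed_ag, THEOREM T, LOC (15): augmentations and cup products, with constant algebras on both
sides
-/

noncomputable section

namespace Pool.Agent.MP_6e5bed_ag_BI

open Pool.Agent.MP_6e5bed_ag_NC Pool.Agent.MP_6e5bed_ag_GG
open Pool.Agent.MP_6e5bed_ag_PN
open Pool.Agent.MP_6e5bed_ag_NS (Cx CHom CPr co)

universe u

variable {k : Type u} [Field k] {ι : Type} {C D : DGA k} {A : PA k ι}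

/-- the Čech complex of a presheaf with constant algebras on both sides -/
def cBB (V : PB (PA.con ι C) (PA.con ι D)) (L : List ι) (c : FS ι) : Bim C D :=
  res (kD C L c) (kD D L c) (cB V L c)

/-! ### Augmentations -/

/-- compatible morphisms from a bimodule -/
structure PCB (M : Bim C D) (V : PB (PA.con ι C) (PA.con ι D)) where
  f : ∀ c, GMap 0 M (V.M c)
  dd : ∀ c, (f c).dd = 0
  nat : ∀ {c d : MP_6e5bed_ag_PN.Ch ι} (h : c ≤ d) x, (V.ρ h).f ((f c).f x) = (f d).f x

variable {M : Bim C D} {V : PB (PA.con ι C) (PA.con ι D)}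

/-- the morphisms of complexes -/
def PCB.pcc (a : PCB M V) : PCC (bcx M) V.pc where
  f := fun c => psc (a.f c) (a.dd c)
  nat := fun {c d} h x => a.nat h x

/-- Lk1. (Induction on `L`, as `PAC.mul` in PN/Pc; `cP_kL`.) -/
theorem PCB.aug_l (a : PCB M V) (L : List ι) (c : FS ι) (r : C.A) (x : M.M) :
    ((a.pcc.aug L).g c).f (M.l r x) =
      ((cP V.pl L).q c).m ((kX (acx C) L c).f r) (((a.pcc.aug L).g c).f x) := by
  induction L generalizing c r x with
  | nil => rfl
  | cons l L ih =>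
    refine Eq.trans ?_ (cP_kL (V := V.pc) (V' := V.pc) (X := acx C) V.pl l L c
      (((a.pcc.aug L).g c).f x) ((a.f (c.ins l)).f x) 0 r).symm
    refine Prod.ext (Prod.ext (ih c r x) ?_) (map_zero _).symm
    refine ((a.f (c.ins l)).map_l r x).trans ?_
    rw [Dg.sp_zero]
    rfl

/-- Lk2. (`cP_kR`.) -/
theorem PCB.aug_r (a : PCB M V) (L : List ι) (c : FS ι) (r : D.A) (x : M.M) :
    ((a.pcc.aug L).g c).f (M.r r x) =
      ((cP V.pr L).q c).m (((a.pcc.aug L).g c).f x) ((kX (acx D) L c).f r) := by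
  induction L generalizing c r x with
  | nil => rfl
  | cons l L ih =>
    refine Eq.trans ?_ (cP_kR (V := V.pc) (V' := V.pc) (X := acx D) V.pr l L c
      (((a.pcc.aug L).g c).f x) ((a.f (c.ins l)).f x) 0 r).symm
    refine Prod.ext (Prod.ext (ih c r x) ((a.f (c.ins l)).map_r r x)) ?_
    refine Eq.symm ?_
    refine (congrArg (fun (F : _ →ₗ[k] _) => F _) (map_zero _)).trans ?_
    rfl

/-- THE AUGMENTATION. -/
def PCB.gm (a : PCB M V) (L : List ι) (c : FS ι) : GMap 0 M (cBB V L c) where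
  f := ((a.pcc.aug L).g c).f
  deg := fun {n x} hx => by
    rw [add_zero]
    exact ((a.pcc.aug L).g c).deg hx
  map_l := fun r x => by
    rw [Dg.sp_zero]
    exact a.aug_l L c r x
  map_r := fun r x => a.aug_r L c r x

theorem PCB.gm_dd (a : PCB M V) (L : List ι) (c : FS ι) : (a.gm L c).dd = 0 := by
  refine LinearMap.ext fun x => ?_
  rw [GMap.dd_apply, sg_zero, one_smul, LinearMap.zero_apply, sub_eq_zero]
  exact ((a.pcc.aug L).g c).d x

/-! ### Cup products -/

/-- Pairings of presheaves of bimodules, balanced over the presheaf `A`. -/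
structure PBP (R : PB (PA.con ι C) A) (N : PB A (PA.con ι D))
    (V : PB (PA.con ι C) (PA.con ι D)) where
  p : PP R.pc N.pc V.pc
  mid : ∀ (c : MP_6e5bed_ag_PN.Ch ι) (x : (R.M c).M) (a : (A.A c).A) (y : (N.M c).M),
    ((p.p c).m ((R.M c).r a x) y : (V.M c).M) = (p.p c).m x ((N.M c).l a y)
  left : ∀ (c : MP_6e5bed_ag_PN.Ch ι) (d : C.A) (x : (R.M c).M) (y : (N.M c).M),
    ((p.p c).m ((R.M c).l d x) y : (V.M c).M) = (V.M c).l d ((p.p c).m x y)
  right : ∀ (c : MP_6e5bed_ag_PN.Ch ι) (d : D.A) (x : (R.M c).M) (y : (N.M c).M),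
    ((p.p c).m x ((N.M c).r d y) : (V.M c).M) = (V.M c).r d ((p.p c).m x y)

variable {R : PB (PA.con ι C) A} {N : PB A (PA.con ι D)}

/-- Lk3. THE CUP PRODUCT. (`cP_assoc` three times: for `mid` the pairings `R.pr, p, N.pl, p`; for
`left` the pairings `R.pl, p, p, V.pl`; for `right` the pairings `p, V.pr, N.pr, p`.) -/
def PBP.cup (P : PBP R N V) (L : List ι) (c : FS ι) : BPr (cBL R L c) (cBR N L c) (cBB V L c) where
  p := (cP P.p L).q c
  mid := fun x w y => by
    exact cP_assoc R.pr P.p N.pl P.p (fun c x a y => P.mid c x a y) L c x w y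
  left := fun d x y => by
    exact cP_assoc R.pl P.p P.p V.pl (fun c d x y => P.left c d x y) L c ((kD C L c).f d) x y
  right := fun d x y => by
    exact (cP_assoc P.p V.pr N.pr P.p (fun c x y d => (P.right c d x y).symm) L c x y
      ((kD D L c).f d)).symm

theorem PBP.cup_v (P : PBP R N V) (L : List ι) (c : FS ι) (x : (cBL R L c).M)
    (y : (cBR N L c).M) : (P.cup L c).v x y = ((cP P.p L).q c).m x y := rfl

end Pool.Agent.MP_6e5bed_ag_BI
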