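import Pool.Agent.Lib.MP_6e5bed_ag_BI.SLa

set_option autoImplicit false
set_option linter.unusedVariables false

/-!
# MP_6e5bed_ag, THEOREM T, section 2: localisations and the scalar extension, exactness
-/

noncomputable section

namespace Pool.Agent.MP_6e5bed_ag_BI

open Pool.Agent.MP_6e5bed_ag_NC Pool.Agent.MP_6e5bed_ag_GG Pool.Agent.MP_6e5bed_ag_WW
open Pool.Agent.MP_6e5bed_ag_PN hiding Ch
open Pool.Agent.MP_6e5bed_ag_NS (Cx CHom ringH)

universe u

variable {k : Type u} [Field k] {i : Type} [Fintype i] {A : CA k i} {m : Ch i} {W : DGA k}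

private theorem SLc_l (g : GD A m) (K : Bim (ring k (A.A m)) W) (a : A.A m) (x : K.M) :
    slt g K 1 (K.l a x) = (sl g K).l (g.psi a) (slt g K 1 x) := by
  rw [slt_l, ← slt_r, one_mul, mul_one]

private theorem SLc_mul (g : GD A m) (K : Bim (ring k (A.A m)) W) (s t : g.S) (y : (sl g K).M) :
    (sl g K).l (s * t : g.S) y = (sl g K).l s ((sl g K).l t y) := (sl g K).l_mul s t y

private theorem SLc_one (g : GD A m) (K : Bim (ring k (A.A m)) W) (y : (sl g K).M) :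
    (sl g K).l (1 : g.S) y = y := (sl g K).l_one y

private theorem SLc_zero (g : GD A m) (K : Bim (ring k (A.A m)) W) (s : g.S) :
    slt g K s 0 = 0 := map_zero (tmB (Sb g) K s)

private theorem SLc_sub (g : GD A m) (K : Bim (ring k (A.A m)) W) (s : g.S) (x y : K.M) :
    slt g K s (x - y) = slt g K s x - slt g K s y := map_sub (tmB (Sb g) K s) x y

private theorem SLc_surj {g : GD A m} (h : GI g) (K : Bim (ring k (A.A m)) W) (y : (sl g K).M) :
    ∃ σ ∈ Dn g, ∃ x : K.M, slt g K 1 x = (sl g K).l (g.psi σ) y := (isL_sli h K).surj y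

private theorem SLc_inj {g : GD A m} (h : GI g) (K : Bim (ring k (A.A m)) W) (x : K.M)
    (hx : slt g K 1 x = 0) : ∃ σ ∈ Dn g, K.l σ x = 0 := (isL_sli h K).inj x hx

private theorem SLc_fl {K K' : Bim (ring k (A.A m)) W} (φ : GMap 0 K K') (a : A.A m) (x : K.M) :
    φ.f (K.l a x) = K'.l a (φ.f x) := by
  have h1 := φ.map_l a x
  rw [Dg.sp_zero] at h1
  exact h1

private theorem SLc_ml (g : GD A m) {K K' : Bim (ring k (A.A m)) W} (φ : GMap 0 K K') (s : g.S)
    (x : (sl g K).M) : (slm g φ).f ((sl g K).l s x) = (sl g K').l s ((slm g φ).f x) := by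
  have h1 := (slm g φ).map_l s x
  rw [Dg.sp_zero] at h1
  exact h1

private theorem SLc_cl {g : GD A m} (h : GI g) (K : Bim (ring k (A.A m)) W) (y : (sl g K).M)
    (hy : (sl g K).dg.d y = 0) :
    ∃ ρ ∈ Dn g, ∃ x : K.M, K.dg.d x = 0 ∧ slt g K 1 x = (sl g K).l (g.psi ρ) y := by
  obtain ⟨σ, hσ, x, hx⟩ := SLc_surj h K y
  have h1 : slt g K 1 (K.dg.d x) = 0 := by
    rw [← sl_d, hx, lring_d, hy, map_zero]
  obtain ⟨τ, hτ, h2⟩ := SLc_inj h K _ h1
  refine ⟨τ * σ, dn_mul g hτ hσ, K.l τ x, by rw [lring_d, h2], ?_⟩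
  rw [SLc_l, hx, map_mul, SLc_mul]

/-- SLb3. The scalar extension preserves quasi-isomorphisms. -/
theorem slm_qiso {g : GD A m} (h : GI g) {K K' : Bim (ring k (A.A m)) W} {φ : GMap 0 K K'}
    (hφ : QIso φ) : QIso (slm g φ) := by
  obtain ⟨hd, h1, h2⟩ := hφ
  refine ⟨slm_dd g hd, fun x hx hy => ?_, fun y hy => ?_⟩
  · obtain ⟨y, hy⟩ := hy
    obtain ⟨ρ, hρ, x1, hx1, hx1'⟩ := SLc_cl h K x hx
    obtain ⟨ρ', hρ', y0, hy0⟩ := SLc_surj h K' y
    have h3 : slt g K' 1 (K'.l ρ' (φ.f x1) - K'.l ρ (K'.dg.d y0)) = 0 := by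
      rw [SLc_sub, SLc_l, SLc_l, ← slm_t, hx1', SLc_ml, ← sl_d, hy0, lring_d, hy, sub_eq_zero,
        ← SLc_mul, ← SLc_mul, ← map_mul, ← map_mul, hρ'.1 ρ]
    obtain ⟨τ, hτ, h4⟩ := SLc_inj h K' _ h3
    have h5 : K'.dg.d (K'.l τ (K'.l ρ y0)) = φ.f (K.l τ (K.l ρ' x1)) := by
      rw [map_sub, sub_eq_zero] at h4
      rw [SLc_fl, SLc_fl, lring_d, lring_d, h4]
    obtain ⟨z, hz⟩ := h1 (K.l τ (K.l ρ' x1))
      (by rw [lring_d, lring_d, hx1, map_zero, map_zero]) ⟨_, h5⟩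
    obtain ⟨u, hu⟩ := (hτ.2.mul (hρ'.2.mul hρ.2)).exists_left_inv
    refine ⟨(sl g K).l u (slt g K 1 z), ?_⟩
    have key : (sl g K).l (u * (g.psi τ * (g.psi ρ' * g.psi ρ)) : g.S) x = x := by
      rw [hu, SLc_one]
    rw [SLc_mul, SLc_mul, SLc_mul] at key
    rw [lring_d, sl_d, hz, SLc_l, SLc_l, hx1']
    exact key
  · obtain ⟨ρ, hρ, y1, hy1, hy1'⟩ := SLc_cl h K' y hy
    obtain ⟨x1, hx1, z1, hz1⟩ := h2 y1 hy1
    obtain ⟨u, hu⟩ := hρ.2.exists_left_inv
    refine ⟨(sl g K).l u (slt g K 1 x1), by rw [lring_d, sl_d, hx1, SLc_zero, map_zero],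
      (sl g K').l u (slt g K' 1 z1), ?_⟩
    rw [lring_d, sl_d, hz1, SLc_sub, hy1', map_sub, ← SLc_mul, hu, SLc_one, SLc_ml, slm_t]

/-- SLb4. The scalar extension of an acyclic bimodule is acyclic. -/
theorem sl_acyc {g : GD A m} (h : GI g) {K : Bim (ring k (A.A m)) W} (hK : Acyc K) :
    Acyc (sl g K) := by
  intro x hx
  obtain ⟨ρ, hρ, x1, hx1, hx1'⟩ := SLc_cl h K x hx
  obtain ⟨z, hz⟩ := hK x1 hx1
  obtain ⟨u, hu⟩ := hρ.2.exists_left_inv
  exact ⟨(sl g K).l u (slt g K 1 z), by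
    rw [lring_d, sl_d, hz, hx1', ← SLc_mul, hu, SLc_one]⟩

/-- SLb5. The scalar extension of an exact sequence. -/
theorem slm_ex {g : GD A m} (h : GI g) {K' K K'' : Bim (ring k (A.A m)) W} {a : GMap 0 K' K}
    {b : GMap 0 K K''} (ha : a.dd = 0) (hb : b.dd = 0) (hi : Function.Injective a.f)
    (hs : Function.Surjective b.f) (he : ∀ x, b.f x = 0 ↔ ∃ y, a.f y = x) :
    Function.Injective (slm g a).f ∧ Function.Surjective (slm g b).f ∧
      ∀ x, (slm g b).f x = 0 ↔ ∃ y, (slm g a).f y = x := by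
  refine ⟨(injective_iff_map_eq_zero (slm g a).f).2 fun x hx => ?_, fun y => ?_, fun x => ?_⟩
  · obtain ⟨σ, hσ, x0, hx0⟩ := SLc_surj h K' x
    have h1 : slt g K 1 (a.f x0) = 0 := by
      rw [← slm_t, hx0, SLc_ml, hx, map_zero]
    obtain ⟨τ, hτ, h2⟩ := SLc_inj h K _ h1
    rw [← SLc_fl, ← map_zero a.f] at h2
    have h3 := hi h2
    obtain ⟨u, hu⟩ := (hτ.2.mul hσ.2).exists_left_inv
    have key : (sl g K').l (u * (g.psi τ * g.psi σ) : g.S) x = x := by
      rw [hu, SLc_one]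
    rw [SLc_mul, SLc_mul, ← hx0, ← SLc_l, h3, SLc_zero, map_zero] at key
    exact key.symm
  · obtain ⟨σ, hσ, y0, hy0⟩ := SLc_surj h K'' y
    obtain ⟨x0, rfl⟩ := hs y0
    obtain ⟨u, hu⟩ := hσ.2.exists_left_inv
    refine ⟨(sl g K).l u (slt g K 1 x0), ?_⟩
    rw [SLc_ml, slm_t, hy0, ← SLc_mul, hu, SLc_one]
  · constructor
    · intro hx
      obtain ⟨σ, hσ, x0, hx0⟩ := SLc_surj h K x
      have h1 : slt g K'' 1 (b.f x0) = 0 := by
        rw [← slm_t, hx0, SLc_ml, hx, map_zero]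
      obtain ⟨τ, hτ, h2⟩ := SLc_inj h K'' _ h1
      rw [← SLc_fl] at h2
      obtain ⟨y0, hy0⟩ := (he _).1 h2
      obtain ⟨u, hu⟩ := (hτ.2.mul hσ.2).exists_left_inv
      have key : (sl g K).l (u * (g.psi τ * g.psi σ) : g.S) x = x := by
        rw [hu, SLc_one]
      rw [SLc_mul, SLc_mul, ← hx0, ← SLc_l, ← hy0] at key
      exact ⟨(sl g K').l u (slt g K' 1 y0), by rw [SLc_ml, slm_t, key]⟩
    · rintro ⟨y, rfl⟩
      obtain ⟨σ, hσ, y0, hy0⟩ := SLc_surj h K' y
      have h1 : (slm g b).f ((slm g a).f (slt g K' 1 y0)) = 0 := by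
        rw [slm_t, slm_t, (he _).2 ⟨y0, rfl⟩, SLc_zero]
      rw [hy0, SLc_ml, SLc_ml] at h1
      obtain ⟨u, hu⟩ := hσ.2.exists_left_inv
      have key : (sl g K'').l (u * g.psi σ : g.S) ((slm g b).f ((slm g a).f y)) =
          (slm g b).f ((slm g a).f y) := by
        rw [hu, SLc_one]
      rw [SLc_mul, h1, map_zero] at key
      exact key.symm

/-- SLb6. If an element of `A_m`, not zero in `S`, kills `A_m K`, the scalar extension is zero.
PROOF. `a (a' x) = 0` for all `a'`, so `S psi(a) psi(A_m) ⊗ x = 0`; the two-sided ideal of `S`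
generated by `psi a` is `S` (`S` is simple), and every element of `S` is `psi a' / fn f`. -/
theorem sl_zero (g : GD A m) {K : Bim (ring k (A.A m)) W} {a : A.A m} (ha : g.psi a ≠ 0)
    (h : ∀ (a' : A.A m) (x : K.M), K.l a (K.l a' x) = 0) (y : (sl g K).M) : y = 0 := by
  have hadd : ∀ (s s' : g.S) (x : K.M), slt g K (s + s') x = slt g K s x + slt g K s' x :=
    fun s s' x => tm_add_left (M := Sb g) (N := K) s s' x
  have hz : ∀ x : K.M, slt g K 0 x = 0 := fun x => tm_zero_left (M := Sb g) (N := K) x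
  have hneg : ∀ (s : g.S) (x : K.M), slt g K s x = 0 → slt g K (-s) x = 0 := by
    intro s x hs
    have h1 := hadd (-s) s x
    rw [neg_add_cancel, hz, hs, add_zero] at h1
    exact h1.symm
  have ha' : ∀ (s t : g.S) (x : K.M), slt g K (s * g.psi a * t) x = 0 := by
    intro s t x
    obtain ⟨f, hf, a', ha'⟩ := g.surj t
    obtain ⟨v, hv⟩ := (g.unit f hf).exists_left_inv
    have hc : ∀ w : g.S, g.fn f * w = w * g.fn f := g.fn_comm f
    have hv' : v * g.fn f = 1 := hv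
    have hvc : g.psi a * v = v * g.psi a := by
      calc g.psi a * v = v * g.fn f * (g.psi a * v) := by rw [hv', one_mul]
        _ = v * (g.fn f * (g.psi a * v)) := mul_assoc _ _ _
        _ = v * (g.psi a * v * g.fn f) := by rw [hc]
        _ = v * g.psi a := by rw [mul_assoc (g.psi a), hv', mul_one]
    have ht : t = v * g.psi a' := by
      rw [ha', ← mul_assoc]
      change t = v * g.fn f * t
      rw [hv', one_mul]
    have h1 : s * g.psi a * t = s * v * g.psi (a * a') := by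
      rw [ht, map_mul, ← mul_assoc, mul_assoc s (g.psi a) v, hvc]
      simp only [mul_assoc]
    have h2 : K.l (a * a') x = K.l a (K.l a' x) := K.l_mul a a' x
    rw [h1, slt_r, h2, h, SLc_zero]
  have hsim : IsSimpleRing g.S := inferInstance
  let J : TwoSidedIdeal g.S := TwoSidedIdeal.mk'
    {c : g.S | ∀ (s t : g.S) (x : K.M), slt g K (s * c * t) x = 0}
    (fun s t x => by rw [mul_zero, zero_mul, hz])
    (fun {c c'} hc hc' s t x => by rw [mul_add, add_mul, hadd, hc, hc', add_zero])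
    (fun {c} hc s t x => by
      rw [mul_neg, neg_mul]
      exact hneg _ _ (hc s t x))
    (fun {c c'} hc s t x => by
      rw [← mul_assoc s c c']
      exact hc (s * c) t x)
    (fun {c c'} hc s t x => by
      rw [← mul_assoc s c c', mul_assoc (s * c) c' t]
      exact hc s (c' * t) x)
  have hJ : ∀ c, c ∈ J ↔ ∀ (s t : g.S) (x : K.M), slt g K (s * c * t) x = 0 := fun c =>
    TwoSidedIdeal.mem_mk' _ _ _ _ _ _ _
  have h1 : (1 : g.S) ∈ J := by
    rcases eq_bot_or_eq_top J with h2 | h2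
    · exfalso
      apply ha
      have h3 : g.psi a ∈ J := (hJ _).2 ha'
      rw [h2] at h3
      exact (TwoSidedIdeal.mem_bot _).1 h3
    · rw [h2]
      trivial
  refine sl_ind g K (P := fun y => y = 0) rfl ?_ ?_ y
  · intro x x' hx hx'
    rw [hx, hx', add_zero]
  · intro s x
    have h2 := (hJ 1).1 h1 s 1 x
    rwa [mul_one, mul_one] at h2

/-- SLb7. The scalar extension of a map which is a localisation at the functions in `fsg g`. -/
theorem slm_qiso_of_locS {g : GD A m} (h : GI g) {K K' : Bim (ring k (A.A m)) W}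
    {φ : GMap 0 K K'} (hd : φ.dd = 0)
    (hφ : LocS (S := fsg g) (V := K.M) (V' := K'.M) φ.f
      (fun s : fsg g => K.l (algebraMap (RR k m.1) (A.A m) s.1))
      (fun s : fsg g => K'.l (algebraMap (RR k m.1) (A.A m) s.1))) : QIso (slm g φ) := by
  refine qiso_of_bij' (slm_dd g hd) ⟨(injective_iff_map_eq_zero (slm g φ).f).2 fun x hx => ?_,
    fun y => ?_⟩
  · obtain ⟨σ, hσ, x0, hx0⟩ := SLc_surj h K x
    have h1 : slt g K' 1 (φ.f x0) = 0 := by
      rw [← slm_t, hx0, SLc_ml, hx, map_zero]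
    obtain ⟨τ, hτ, h2⟩ := SLc_inj h K' _ h1
    rw [← SLc_fl] at h2
    obtain ⟨s, hs⟩ := hφ.inj _ h2
    obtain ⟨u, hu⟩ := ((g.unit s.1 s.2).mul (hτ.2.mul hσ.2)).exists_left_inv
    have key : (sl g K).l (u * (g.psi (algebraMap (RR k m.1) (A.A m) s.1) *
        (g.psi τ * g.psi σ)) : g.S) x = x := by
      rw [hu, SLc_one]
    rw [SLc_mul, SLc_mul, SLc_mul, ← hx0, ← SLc_l, ← SLc_l, hs, SLc_zero, map_zero] at key
    exact key.symm
  · obtain ⟨σ, hσ, y0, hy0⟩ := SLc_surj h K' y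
    obtain ⟨s, x0, hx0⟩ := hφ.surj y0
    obtain ⟨u, hu⟩ := ((g.unit s.1 s.2).mul hσ.2).exists_left_inv
    refine ⟨(sl g K).l u (slt g K 1 x0), ?_⟩
    have key : (sl g K').l (u * (g.psi (algebraMap (RR k m.1) (A.A m) s.1) *
        g.psi σ) : g.S) y = y := by
      rw [hu, SLc_one]
    rw [SLc_mul, SLc_mul, ← hy0, ← SLc_l, ← hx0] at key
    rw [SLc_ml, slm_t]
    exact key

end Pool.Agent.MP_6e5bed_ag_BI
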