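import Pool.Agent.Lib.MP_6e5bed_ag_BI.SLb
import Pool.Agent.Lib.MP_6e5bed_ag_BI.SLc

set_option autoImplicit false
set_option linter.unusedVariables false

/-!
# MP_6e5bed_ag, THEOREM T, section 3: the class of a point
-/

noncomputable section

namespace Pool.Agent.MP_6e5bed_ag_BI

open Pool.Agent.MP_6e5bed_ag_NC Pool.Agent.MP_6e5bed_ag_GG Pool.Agent.MP_6e5bed_ag_WW
open Pool.Agent.MP_6e5bed_ag_PN hiding Ch
open Pool.Agent.MP_6e5bed_ag_NS (Cx CHom ringH)

universe u

variable {k : Type u} [Field k] {i : Type} [Fintype i] {A : CA k i} {m : Ch i}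

/-- the Čech complex of the `A_{m ∪ c}`, as a bimodule over `A_m` and the dg algebra of `A` -/
def DX (A : CA k i) (m : Ch i) : Bim (ring k (A.A m)) (TT A) :=
  (XF (MP_6e5bed_ag_GG.dgS A).bp).M m

/-- XG1. The scalar extension of the Čech complex of the `A_{m ∪ c}` has a perfect resolution.
PROOF. By `push2_fg (dgS_coh A) m` there are finitely many cocycles `s_l` of `DX A m` which generate
its cohomology over `RR k m.1`. The `1 ⊗ s_l` generate the cohomology of the scalar extension over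
`S`: for a cocycle `y` there are by `isL_sli` `σ ∈ Dn g` and `x` with `psi σ • y = 1 ⊗ x`;
`1 ⊗ d x = 0`, so there is `τ ∈ Dn g` with `τ d x = 0`; `τ x = ∑ r_l s_l + d w`. Then
`hasRes_of_gen` (WW/HRs), `gd_semisimple` (WW/RV). Compare `gen_loc`, `rv_hasRes` in WW/RV. -/
theorem hasRes_slDX {g : GD A m} (hg : GI g) (hS : Smooth (TT A)) : HasRes (sl g (DX A m)) := by
  have := gd_semisimple g
  obtain ⟨a, ha, n, s, hs, h⟩ := push2_fg (dgS_coh A) m
  have hL : IsL g (sli g (DX A m)) := isL_sli hg (DX A m)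
  let F : (DX A m).M → (sl g (DX A m)).M := fun x => slt g (DX A m) 1 x
  have hF : ∀ x, (sli g (DX A m)).f x = F x := fun x => rfl
  have hadd : ∀ x y, F (x + y) = F x + F y := fun x y => map_add (sli g (DX A m)).f x y
  have hsum : ∀ t : Fin n → (DX A m).M, F (∑ l, t l) = ∑ l, F (t l) :=
    fun t => map_sum (sli g (DX A m)).f t Finset.univ
  have h0 : F 0 = 0 := map_zero (sli g (DX A m)).f
  have hd : ∀ x, (sl g (DX A m)).dg.d (F x) = F ((DX A m).dg.d x) :=
    fun x => sl_d g (DX A m) 1 x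
  have hl : ∀ (b : A.A m) x, F ((DX A m).l b x) = (sl g (DX A m)).l (g.psi b) (F x) := by
    intro b x
    refine (slt_r g (DX A m) 1 b x).symm.trans (Eq.trans ?_ (slt_l g (DX A m) (g.psi b) 1 x).symm)
    rw [one_mul, mul_one]
  refine hasRes_of_gen hS (sl g (DX A m)) (fun l => F (s l)) (fun l => ?_) ?_
  · exact ((hd (s l)).trans (congrArg F (hs l))).trans h0
  · intro y hy
    obtain ⟨σ, hσ, x, hx⟩ := hL.surj y
    have hx' : F x = (sl g (DX A m)).l (g.psi σ) y := hx
    have h1 : F ((DX A m).dg.d x) = 0 := by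
      rw [← hd, hx', lring_d, hy, map_zero]
    obtain ⟨τ, hτ, hτ0⟩ := hL.inj _ h1
    have h2 : (DX A m).dg.d ((DX A m).l τ x) = 0 := (lring_d (DX A m) τ x).trans hτ0
    obtain ⟨r, w, hw⟩ := h _ h2
    have hw' : (DX A m).l τ x =
        ∑ l, (DX A m).l (algebraMap (RR k m.1) (A.A m) (r l)) (s l) + (DX A m).dg.d w := by
      refine (sub_eq_iff_eq_add'.1 hw.symm).trans ?_
      exact congrArg (· + _) (Finset.sum_congr rfl fun l _ => ha (r l) (s l))
    obtain ⟨u, hu⟩ := hτ.2.exists_left_inv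
    obtain ⟨v, hv⟩ := hσ.2.exists_left_inv
    have hm : ∀ (b c : g.S) (z : (sl g (DX A m)).M), (sl g (DX A m)).l (b * c) z =
        (sl g (DX A m)).l b ((sl g (DX A m)).l c z) := fun b c z => (sl g (DX A m)).l_mul b c z
    have h1' : ∀ z : (sl g (DX A m)).M, (sl g (DX A m)).l (1 : g.S) z = z :=
      fun z => (sl g (DX A m)).l_one z
    have h3 : (sl g (DX A m)).l v ((sl g (DX A m)).l u (F ((DX A m).l τ x))) = y := by
      rw [hl, ← hm u, hu, h1', hx', ← hm, hv, h1']
    refine ⟨fun l => v * (u * g.psi (algebraMap (RR k m.1) (A.A m) (r l))),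
      (sl g (DX A m)).l v ((sl g (DX A m)).l u (F w)), ?_⟩
    refine h3.symm.trans ?_
    rw [hw', hadd, hsum, map_add, map_sum, map_add, map_sum, ← hd, lring_d, lring_d]
    refine congrArg (· + _) (Finset.sum_congr rfl fun l _ => ?_)
    rw [hl, hm, hm]

/-- the class of the point -/
def xg (g : GD A m) (hg : GI g) (hS : Smooth (TT A)) : K0Q (ring k g.S) (TT A) :=
  rcls (sl g (DX A m)) (hasRes_slDX hg hS)

theorem pT (A : CA k i) : Proper (TT A) := proper_TT finBB

end Pool.Agent.MP_6e5bed_ag_BI
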