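import Pool.Agent.Lib.MP_6e5bed_ag_BI.Lj
import Pool.Agent.Lib.MP_6e5bed_ag_BI.Lk
import Pool.Agent.Lib.MP_6e5bed_ag_BI.XG

set_option autoImplicit false
set_option linter.unusedVariables false

/-!
# MP_6e5bed_ag, THEOREM T, LOC (16): the values of a presheaf of modules at the charts `m ∪ c`
-/

noncomputable section

namespace Pool.Agent.MP_6e5bed_ag_BI

open Pool.Agent.MP_6e5bed_ag_NC Pool.Agent.MP_6e5bed_ag_GG Pool.Agent.MP_6e5bed_ag_WW
open Pool.Agent.MP_6e5bed_ag_PN hiding Ch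
open Pool.Agent.MP_6e5bed_ag_NS (Cx CHom CPr ringH)

universe u

variable {k : Type u} [Field k] {i : Type} [Fintype i] {A : CA k i} {W : DGA k}

theorem un_r {m c d : Ch i} (h : c ≤ d) : un (m, c) ≤ un (m, d) := un_mono ⟨le_refl m, h⟩

/-- the presheaf `c ↦ X_{m ∪ c}`, with the actions of `A_m` and `W` -/
def VX (m : Ch i) (X : PB A.pa (PA.con i W)) :
    PB (PA.con i (ring k (A.A m))) (PA.con i W) where
  M := fun c => res (ringH (A.res (le_un1 (m, c)))) (DHom.id W) (X.M (un (m, c)))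
  ρ := fun {c d} h => gmk (DHom.id (ring k (A.A m))) (DHom.id W)
    (X := res (ringH (A.res (le_un1 (m, c)))) (DHom.id W) (X.M (un (m, c))))
    (Y := res (ringH (A.res (le_un1 (m, d)))) (DHom.id W) (X.M (un (m, d))))
    (X.ρ (un_r h)).f (X.ρ (un_r h)).deg
    (fun a x => (gm_l (X.ρ (un_r h)) (A.res (le_un1 (m, c)) a) x).trans
      (congrArg (fun b => (X.M (un (m, d))).l b ((X.ρ (un_r h)).f x))
        (A.res_res (le_un1 (m, c)) (un_r h) a)))
    (fun b x => gm_r (X.ρ (un_r h)) b x)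
  dd := fun {c d} h => gmk_dd _ _ _ _ _ _ (fun x => gm_d (X.dd (un_r h)) x)
  ρ_id := fun {c} h x => X.ρ_id (c := un (m, c)) (un_r h) x
  ρ_ρ := fun {c d e} h h' x =>
    X.ρ_ρ (c := un (m, c)) (d := un (m, d)) (e := un (m, e)) (un_r h) (un_r h') x

/-- the presheaf `c ↦ A_{m ∪ c}`, with the actions of `A_m` and `A_c` -/
def RX (A : CA k i) (m : Ch i) : PB (PA.con i (ring k (A.A m))) A.pa :=
  (MP_6e5bed_ag_GG.dgS A).bp.two.snd m

theorem RX_cBL (A : CA k i) (m : Ch i) : cBL (RX A m) (LL i) (FS.e i) = DX A m := rfl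

/-- the pairing on the chart `c` -/
def pXm (m : Ch i) (X : PB A.pa (PA.con i W)) (c : Ch i) :
    ((RX A m).M c).M →ₗ[k] (X.M c).M →ₗ[k] (X.M (un (m, c))).M :=
  LinearMap.mk₂ k (fun (a : A.A (un (m, c))) x => (X.M (un (m, c))).l a ((X.ρ (le_un2 (m, c))).f x))
    (fun a a' x => LinearMap.map_add₂ (X.M (un (m, c))).l a a' _)
    (fun t a x => LinearMap.map_smul₂ (X.M (un (m, c))).l t a _)
    (fun a x x' => (congrArg ((X.M (un (m, c))).l a)
      (map_add (X.ρ (le_un2 (m, c))).f x x')).trans (map_add _ _ _))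
    (fun t a x => (congrArg ((X.M (un (m, c))).l a)
      (map_smul (X.ρ (le_un2 (m, c))).f t x)).trans (map_smul _ _ _))

private theorem Lp_l (m : Ch i) (c : Ch i) (a : A.A m) (x : A.A (un (m, c))) :
    DgE.of A (((RX A m).M c).l a (x : DgE A (m, c))) = A.res (le_un1 (m, c)) a * x := by
  refine (DgE_tmul A (m, c) a 1 x).trans ?_
  rw [MulOpposite.unop_one, map_one, mul_one]
  rfl

private theorem Lp_r (m : Ch i) (c : Ch i) (b : A.A c) (x : A.A (un (m, c))) :
    DgE.of A (((RX A m).M c).r b (x : DgE A (m, c))) = x * A.res (le_un2 (m, c)) b := by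
  refine (DgE_tmul A (m, c) 1 (MulOpposite.op b) x).trans ?_
  rw [map_one, one_mul]
  rfl

/-- Lp1. THE PAIRING `A_{m ∪ c} × X_c → X_{m ∪ c}`, `(a, x) ↦ a res x`. -/
def pX (m : Ch i) (X : PB A.pa (PA.con i W)) : PBP (RX A m) X (VX m X) where
  p :=
    { p := fun c =>
        { m := pXm m X c
          deg := fun {n n' x y} hx hy => by
            have h1 : (X.M (un (m, c))).dg.IsDeg (n' + 0) ((X.ρ (le_un2 (m, c))).f y) :=
              (X.ρ (le_un2 (m, c))).deg hy
            rw [add_zero] at h1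
            exact (X.M (un (m, c))).l_deg hx h1
          d := fun x y => by
            refine ((X.M (un (m, c))).d_l x ((X.ρ (le_un2 (m, c))).f y)).trans ?_
            have h1 : (X.M (un (m, c))).dg.d ((X.ρ (le_un2 (m, c))).f y) =
                (X.ρ (le_un2 (m, c))).f ((X.M c).dg.d y) := gm_d (X.dd (le_un2 (m, c))) y
            rw [h1]
            rfl }
      nat := fun {c d} h x y => by
        refine (gm_l (X.ρ (un_r h)) x ((X.ρ (le_un2 (m, c))).f y)).trans ?_
        refine congrArg ((X.M (un (m, d))).l (A.res (un_r h) x)) ?_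
        exact (X.ρ_ρ (le_un2 (m, c)) (un_r h) y).trans (X.ρ_ρ h (le_un2 (m, d)) y).symm }
  mid := fun c x a y => by
    refine (congrArg (fun z => (X.M (un (m, c))).l z ((X.ρ (le_un2 (m, c))).f y))
      (Lp_r m c a x)).trans ?_
    refine ((X.M (un (m, c))).l_mul x (A.res (le_un2 (m, c)) a) _).trans ?_
    exact congrArg ((X.M (un (m, c))).l x) (gm_l (X.ρ (le_un2 (m, c))) a y).symm
  left := fun c d x y => by
    refine (congrArg (fun z => (X.M (un (m, c))).l z ((X.ρ (le_un2 (m, c))).f y))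
      (Lp_l m c d x)).trans ?_
    exact (X.M (un (m, c))).l_mul (A.res (le_un1 (m, c)) d) x _
  right := fun c d x y => by
    refine (congrArg ((X.M (un (m, c))).l x) (gm_r (X.ρ (le_un2 (m, c))) d y)).trans ?_
    exact (X.M (un (m, c))).l_r x d _

/-- Lp2. The restrictions `X_m → X_{m ∪ c}`. -/
def aX (m : Ch i) (X : PB A.pa (PA.con i W)) : PCB (X.M m) (VX m X) where
  f := fun c =>
    { f := (X.ρ (le_un1 (m, c))).f
      deg := fun {n x} hx => (X.ρ (le_un1 (m, c))).deg hx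
      map_l := fun a x => (X.ρ (le_un1 (m, c))).map_l a x
      map_r := fun b x => (X.ρ (le_un1 (m, c))).map_r b x }
  dd := fun c => X.dd (le_un1 (m, c))
  nat := fun {c d} h x => X.ρ_ρ (le_un1 (m, c)) (un_r h) x

private theorem Lp_bij (X : PB A.pa (PA.con i W)) {c d : Ch i} (h : c ≤ d) (h' : d ≤ c) :
    Function.Bijective (X.ρ h).f :=
  Function.bijective_iff_has_inverse.2 ⟨(X.ρ h').f,
    fun x => (X.ρ_ρ h h' x).trans (X.ρ_id (h.trans h') x),
    fun x => (X.ρ_ρ h' h x).trans (X.ρ_id (c := d) (h'.trans h) x)⟩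

/-- Lp3. PROOF. `aug_qi'` (Lj) for an element `l ∈ m` and the position `q : Ptr (LL i) l`
(`mem_LL`, see GG/Ev for the existence of `q`). The restriction from `m ∪ c` to `m ∪ c ∪ l` is
bijective, because `m ∪ c ∪ l ≤ m ∪ c`: the inverse is `X.ρ` in the other direction (`ρ_ρ`,
`ρ_id`). -/
theorem aX_qiso (m : Ch i) (X : PB A.pa (PA.con i W)) :
    QIso ((aX m X).gm (LL i) (FS.e i)) := by
  obtain ⟨l, hl⟩ := m.2.1
  obtain ⟨q⟩ := Ptr.ex (mem_LL l)
  refine ⟨(aX m X).gm_dd (LL i) (FS.e i), aug_qi' (aX m X).pcc l (fun c => ?_) q (FS.e i) ?_⟩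
  · refine Lp_bij X (un_r (le_ins' c l)) ?_
    exact Set.union_subset Set.subset_union_left
      (Set.insert_subset (Or.inl hl) Set.subset_union_right)
  · refine Lp_bij X (le_un1 (m, (FS.e i).ins l)) ?_
    exact Set.union_subset (le_refl m.1) (Set.insert_subset hl (Set.empty_subset _))

end Pool.Agent.MP_6e5bed_ag_BI
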