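import Pool.Agent.Lib.MP_6e5bed_ag_BI.Lp
import Pool.Agent.Lib.MP_6e5bed_ag_GG.LNu

set_option autoImplicit false
set_option linter.unusedVariables false

/-!
# MP_6e5bed_ag, THEOREM T, LOC (17): forgetting the outer algebras
-/

noncomputable section

namespace Pool.Agent.MP_6e5bed_ag_BI

open Pool.Agent.MP_6e5bed_ag_NC Pool.Agent.MP_6e5bed_ag_GG Pool.Agent.MP_6e5bed_ag_WW
open Pool.Agent.MP_6e5bed_ag_PN hiding Ch
open Pool.Agent.MP_6e5bed_ag_NS (Cx CHom CPr ringH)

universe u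

variable {k : Type u} [Field k] {i : Type} [Fintype i] {A : CA k i} {W : DGA k}

/-- The tensor product of an acyclic right module with a perfect bimodule is contractible. -/
private theorem lqContr {V W : DGA k} {X : Bim (base k) W} (hX : Acyc X) {P : Bim W V}
    (hP : Perf P) : Contr (tb X P) := by
  induction hP with
  | free =>
    have h1 : Acyc (fgR X) := hX
    have h2 : Contr (fgR X) := contr_of_acyc h1
    exact Contr.iso (tb_free_right X V).symm ((tbR (base k) (free (base k) V)).contr h2)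
  | contr h => exact (tbL X V).contr h
  | mid h _ _ h1 h2 => exact Contr.mid ((tbL X V).isExt h) h1 h2
  | left h _ _ h1 h2 => exact Contr.left ((tbL X V).isExt h) h1 h2
  | right h _ _ h1 h2 => exact Contr.right ((tbL X V).isExt h) h1 h2
  | summand h _ h1 => exact Contr.summand ((tbL X V).isSummand h) h1

/-- Lq1. PROOF. For an acyclic right module `Y` the tensor product `tb Y Z` is contractible
(`lNuContr` in GG/LNu is private: copy it), and its complex is the complex of
`tb Y (res (DHom.id _) (DHom.unit W) Z)` (`res_tb`, `Acyc.iso`, or directly). -/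
theorem lflat_rst {Z : Bim (TT A) W} (hZ : Perf Z) :
    LFlat (res (DHom.id (TT A)) (DHom.unit W) Z) := by
  intro X hX
  have h1 : Acyc (tb X Z) := (lqContr hX hZ).acyc
  exact h1

/-- Lq2. The maps in `LocP` are the same. -/
theorem qcl_rst {X : PB A.pa (PA.con i W)} (hX : QCl X) : QCl (PBRm.rst X) :=
  fun {c d} h {g} hg l hl => hX h hg l hl

/-- the map `ζ`, right linear over the base only -/
def zr {X : PB A.pa (PA.con i W)} {Z : Bim (TT A) W} (ζ : GMap 0 Z (cBR X (LL i) (FS.e i))) :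
    GMap 0 (res (DHom.id (TT A)) (DHom.unit W) Z) (cBR (PBRm.rst X) (LL i) (FS.e i)) where
  f := ζ.f
  deg := fun {n x} hx => ζ.deg hx
  map_l := fun a x => ζ.map_l a x
  map_r := fun b x => by
    have h1 : ζ.f (Z.r ((DHom.unit W).f b) x) =
        (cBR X (LL i) (FS.e i)).r ((DHom.unit W).f b) (ζ.f x) := ζ.map_r _ x
    have h2 := (PBRm.idb X).gm_r' (LL i) (FS.e i) b (ζ.f x)
    have h3 : ∀ y, ((cH (PBRm.idb X).pch (LL i)).g (FS.e i)).f y = y :=
      fun y => cH_id X.pc (LL i) (FS.e i) y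
    rw [h3, h3] at h2
    exact h1.trans h2.symm

/-- Lq3. -/
theorem zr_qiso {X : PB A.pa (PA.con i W)} {Z : Bim (TT A) W}
    {ζ : GMap 0 Z (cBR X (LL i) (FS.e i))} (h : QIso ζ) : QIso (zr ζ) :=
  ⟨h.1, h.2.1, h.2.2⟩

/-- the object of `RO` of the rows `A_{m ∪ c}`, without the left action of `A_m` -/
def rX (m : Ch i) (X : PB A.pa (PA.con i W)) : RO (PBRm.rst X) where
  R := PBL.rst (RX A m)
  Z := (VX m X).pc
  p := { p := (pX m X).p.p, nat := fun {c d} h x y => (pX m X).p.nat h x y }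
  bal := fun c x a y => (pX m X).mid c x a y

/-- the map `a ⊗ z ↦ a ∪ ζ z` -/
def fX (m : Ch i) (X : PB A.pa (PA.con i W)) {Z : Bim (TT A) W}
    (ζ : GMap 0 Z (cBR X (LL i) (FS.e i))) :
    GMap 0 (tb (DX A m) Z) (cBB (VX m X) (LL i) (FS.e i)) :=
  (ζ.tbL (cBL (RX A m) (LL i) (FS.e i))).comp ((pX m X).cup (LL i) (FS.e i)).gm (add_zero 0)

/-- Lq4. PROOF. The complexes are the same and the maps are equal on the pure tensors. (`RO.phi_tm`,
`BPr.gm_tm`, `GMap.tbL_tm`; use the bijection `tb (cBL (PBL.rst R) L c) Zt → tb (cBL R L c) Z` given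
by `gT`, see `LgNF` and `LgNF_bij` in GG/LgN, or that the tensor products are equal by definition.) -/
theorem good_cup (m : Ch i) (X : PB A.pa (PA.con i W)) {Z : Bim (TT A) W}
    {ζ : GMap 0 Z (cBR X (LL i) (FS.e i))} (hζ : QIso ζ)
    (h : (rX m X).Good (zr ζ) (zr_qiso hζ).1) : QIso (fX m X ζ) := by
  have h0 : (fX m X ζ).dd = 0 := comp_closed
    ((MP_6e5bed_ag_NC.tbL (cBL (RX A m) (LL i) (FS.e i)) W).closed hζ.1)
    ((pX m X).cup (LL i) (FS.e i)).gm_dd
  have h1 : ∀ x : (tb (DX A m) Z).M,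
      ((rX m X).phi (zr ζ) (zr_qiso hζ).1).f x = (fX m X ζ).f x := by
    refine tb_ind (M := DX A m) (N := Z) ?_ ?_ ?_
    · exact (map_zero _).trans (map_zero (fX m X ζ).f).symm
    · intro x y hx hy
      refine (map_add ((rX m X).phi (zr ζ) (zr_qiso hζ).1).f x y).trans ?_
      refine Eq.trans ?_ (map_add (fX m X ζ).f x y).symm
      exact congrArg₂ (fun a b => a + b) hx hy
    · intro x z
      refine ((rX m X).phi_tm (zr ζ) (zr_qiso hζ).1 x z).trans ?_
      refine Eq.symm ?_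
      change ((pX m X).cup (LL i) (FS.e i)).gm.f
        ((ζ.tbL (cBL (RX A m) (LL i) (FS.e i))).f (tm x z)) = _
      rw [GMap.tbL_tm, Dg.sp_zero, BPr.gm_tm]
      rfl
  refine ⟨h0, fun x hx hy => ?_, fun y hy => ?_⟩
  · obtain ⟨y, hy⟩ := hy
    exact h.1 x hx ⟨y, hy.trans (h1 x).symm⟩
  · obtain ⟨x, hx, z, hz⟩ := h.2 y hy
    exact ⟨x, hx, z, hz.trans (congrArg (fun t => y - t) (h1 x))⟩

end Pool.Agent.MP_6e5bed_ag_BI
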