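import Pool.Agent.Lib.MP_6e5bed_ag_BI.Lq
import Pool.Agent.Lib.MP_6e5bed_ag_BI.Lf

set_option autoImplicit false
set_option linter.unusedVariables false

/-!
# MP_6e5bed_ag, THEOREM T, LOC (18): the rows `A_{m ∪ c}` and the twists
-/

noncomputable section

namespace Pool.Agent.MP_6e5bed_ag_BI

open Pool.Agent.MP_6e5bed_ag_NC Pool.Agent.MP_6e5bed_ag_GG Pool.Agent.MP_6e5bed_ag_WW
open Pool.Agent.MP_6e5bed_ag_PN hiding Ch
open Pool.Agent.MP_6e5bed_ag_NS (Cx CHom CPr ringH)

universe u

variable {k : Type u} [Field k] {i : Type} [Fintype i] {A : CA k i} {W : DGA k}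

private theorem Lr_r (m : Ch i) (c : Ch i) (b : A.A c) (x : A.A (un (m, c))) :
    DgE.of A (((RX A m).M c).r b (x : DgE A (m, c))) = x * A.res (le_un2 (m, c)) b := by
  refine (DgE_tmul A (m, c) 1 (MulOpposite.op b) x).trans ?_
  rw [map_one, one_mul]
  rfl

private theorem Lr_deg {B : PA k i} (E : Idm A) (Q : PB A.pa B) (d : Ch i) (n : ℤ)
    (x : tzS E Q d) : (tzD E Q d).IsDeg n x ↔ (Q.M d).dg.IsDeg n x.1 :=
  Dg.sub_isDeg (Q.M d).dg (tzS E Q d) (tzS_ρ E Q d) (tzS_d E Q d) x n

/-- Lr1. The object `rX` is isomorphic to the object `tzO` for the idempotent one and without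
twist: `x ↦ ⟨x, _⟩` (`un (m, c)` and `mu m.fs c` are equal by definition; `0` th powers). -/
def rXt (m : Ch i) (X : PB A.pa (PA.con i W)) :
    ROH (rX m X) (tzO (Idm.one A) (MP_6e5bed_ag_PN.Ch.fs m) 0 (PBRm.rst X)) where
  f :=
    { f := fun c =>
        { f := LinearMap.codRestrict
            (tzS (Idm.one A) (dA A.pa) (mu (MP_6e5bed_ag_PN.Ch.fs m) c))
            (show A.A (un (m, c)) →ₗ[k] A.A (un (m, c)) from LinearMap.id)
            (fun x => by
              exact one_mul (M := A.A (un (m, c))) x)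
          deg := fun {n x} hx => by
            rw [add_zero]
            exact (Lr_deg (Idm.one A) (dA A.pa) (mu (MP_6e5bed_ag_PN.Ch.fs m) c) n _).2 hx
          map_l := fun a x => by
            rw [Dg.sp_zero]
            refine Subtype.ext ?_
            exact base_l ((rX m X).R.M c) a x
          map_r := fun b x => by
            refine Subtype.ext ?_
            exact Lr_r m c b x }
      dd := fun c => by
        refine LinearMap.ext fun x => ?_
        rw [GMap.dd_apply, sg_zero, one_smul, LinearMap.zero_apply, sub_eq_zero]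
        exact Subtype.ext rfl
      nat := fun {c d} h x => by
        refine Subtype.ext ?_
        change ttA A (MP_6e5bed_ag_PN.Ch.fs m) d (jj c) (jj_mem d) ^ 0 *
          A.res (mu_mono (MP_6e5bed_ag_PN.Ch.fs m) h) x = A.res (un_r h) x
        rw [pow_zero]
        exact one_mul (M := A.A (un (m, d))) _ }
  g :=
    { f := fun c =>
        { f := LinearMap.codRestrict
            (tzS (Idm.one A) (PBRm.rst X) (mu (MP_6e5bed_ag_PN.Ch.fs m) c))
            (show (X.M (un (m, c))).M →ₗ[k] (X.M (un (m, c))).M from LinearMap.id)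
            (fun x => by
              exact (X.M (un (m, c))).l_one x)
          deg := fun {n x} hx => by
            exact (Lr_deg (Idm.one A) (PBRm.rst X) (mu (MP_6e5bed_ag_PN.Ch.fs m) c) n _).2 hx
          d := fun x => by
            exact Subtype.ext rfl }
      nat := fun {c d} h x => by
        refine Subtype.ext ?_
        have h1 : (X.M (un (m, d))).l (show A.A (un (m, d)) from
            ttA A (MP_6e5bed_ag_PN.Ch.fs m) d (jj c) (jj_mem d) ^ 0) ((X.ρ (un_r h)).f x) =
              (X.M (un (m, d))).l (show A.A (un (m, d)) from 1) ((X.ρ (un_r h)).f x) :=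
          congrArg (fun z => (X.M (un (m, d))).l z ((X.ρ (un_r h)).f x))
            (pow_zero (M := A.A (un (m, d))) _)
        exact h1.trans ((X.M (un (m, d))).l_one _) }
  nat := fun c x y => by
    exact Subtype.ext rfl

/-- Lr2. (`Qi.of_bij`.) -/
theorem rXt_qi (m : Ch i) (X : PB A.pa (PA.con i W)) (c : Ch i) : QiAt (rXt m X) c := by
  refine ⟨Qi.of_bij ⟨fun x y h => ?_, fun y => ?_⟩, Qi.of_bij ⟨fun x y h => ?_, fun y => ?_⟩⟩
  · exact congrArg Subtype.val h
  · exact ⟨y.1, Subtype.ext rfl⟩
  · exact congrArg Subtype.val h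
  · exact ⟨y.1, Subtype.ext rfl⟩

end Pool.Agent.MP_6e5bed_ag_BI
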