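import Pool.Agent.Lib.MP_6e5bed_ag_BI.P2

set_option autoImplicit false
set_option linter.unusedVariables false

/-!
# MP_6e5bed_ag, THEOREM T, section 5: the property RP
-/

noncomputable section

namespace Pool.Agent.MP_6e5bed_ag_BI

open Pool.Agent.MP_6e5bed_ag_NC Pool.Agent.MP_6e5bed_ag_GG Pool.Agent.MP_6e5bed_ag_WW
open Pool.Agent.MP_6e5bed_ag_PN hiding Ch
open Pool.Agent.MP_6e5bed_ag_NS (Cx CHom ringH)

universe u

variable {k : Type u} [Field k] {i : Type} [Fintype i] {A : CA k i} {m : Ch i} {W : DGA k}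

/-- The composition of the class of the point with `z` is the class of the scalar extension of the
value of `X` at `m`. -/
def RP (g : GD A m) (hg : GI g) (hS : Smooth (TT A)) (X : PB A.pa (PA.con i W))
    (z : K0Q (TT A) W) : Prop :=
  ∃ h : HasRes (sl g (X.M m)), K0Q.comp (pT A) (xg g hg hS) z = rcls _ h

variable {g : GD A m} {hg : GI g} {hS : Smooth (TT A)}

private theorem RPc_iff {X X' : PB A.pa (PA.con i W)}
    {φ : GMap 0 (sl g (X.M m)) (sl g (X'.M m))} (h : QIso φ) {z : K0Q (TT A) W} :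
    RP g hg hS X z ↔ RP g hg hS X' z := by
  constructor
  · rintro ⟨h1, e⟩
    exact ⟨h1.of_qiso φ h, e.trans (rcls_qiso h1 (h1.of_qiso φ h) φ h)⟩
  · rintro ⟨h1, e⟩
    exact ⟨h1.of_qiso' φ h, e.trans (rcls_qiso (h1.of_qiso' φ h) h1 φ h).symm⟩

private theorem RPc_ses {X' X X'' : PB A.pa (PA.con i W)} {a : PBH X' X} {b : PBH X X''}
    (hg : GI g) (h : PBEx a b) : IsSes (sl g (X'.M m)) (sl g (X.M m)) (sl g (X''.M m)) := by
  obtain ⟨h1, h2, h3⟩ := h m
  obtain ⟨e1, e2, e3⟩ := slm_ex hg (a.dd m) (b.dd m) h1 h2 h3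
  exact ⟨slm g (a.f m), slm g (b.f m), slm_dd g (a.dd m), slm_dd g (b.dd m), e1, e2, e3⟩

private theorem RPc_zero {K : Bim (ring k g.S) W} (h : Acyc K)
    {x : K0Q (TT A) W →ₗ[ℚ] K0Q (ring k g.S) W} :
    ∃ h' : HasRes K, x 0 = rcls K h' :=
  ⟨HasRes.of_acyc h, (map_zero x).trans (rcls_acyc h _).symm⟩

private theorem RPc_mid {K' K K'' : Bim (ring k g.S) W} (h : IsSes K' K K'')
    {x : K0Q (TT A) W →ₗ[ℚ] K0Q (ring k g.S) W} {z' z'' : K0Q (TT A) W}
    (h' : ∃ h : HasRes K', x z' = rcls K' h) (h'' : ∃ h : HasRes K'', x z'' = rcls K'' h) :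
    ∃ h : HasRes K, x (z' + z'') = rcls K h := by
  obtain ⟨h1, e1⟩ := h'
  obtain ⟨h2, e2⟩ := h''
  refine ⟨h.mid h1 h2, ?_⟩
  rw [map_add, e1, e2, h.rcls h1 (h.mid h1 h2) h2]

private theorem RPc_right {K' K K'' : Bim (ring k g.S) W} (h : IsSes K' K K'')
    {x : K0Q (TT A) W →ₗ[ℚ] K0Q (ring k g.S) W} {z' z : K0Q (TT A) W}
    (h' : ∃ h : HasRes K', x z' = rcls K' h) (h'' : ∃ h : HasRes K, x z = rcls K h) :
    ∃ h : HasRes K'', x (z - z') = rcls K'' h := by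
  obtain ⟨h1, e1⟩ := h'
  obtain ⟨h2, e2⟩ := h''
  refine ⟨h.right h1 h2, ?_⟩
  rw [map_sub, e1, e2, h.rcls h1 h2 (h.right h1 h2), add_sub_cancel_left]

private theorem RPc_left {K' K K'' : Bim (ring k g.S) W} (h : IsSes K' K K'')
    {x : K0Q (TT A) W →ₗ[ℚ] K0Q (ring k g.S) W} {z z'' : K0Q (TT A) W}
    (h' : ∃ h : HasRes K, x z = rcls K h) (h'' : ∃ h : HasRes K'', x z'' = rcls K'' h) :
    ∃ h : HasRes K', x (z - z'') = rcls K' h := by
  obtain ⟨h1, e1⟩ := h'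
  obtain ⟨h2, e2⟩ := h''
  refine ⟨h.left h1 h2, ?_⟩
  rw [map_sub, e1, e2, h.rcls (h.left h1 h2) h1 h2, add_sub_cancel_right]

/-- RP1. Quasi-isomorphisms at `m`. (`slm_qiso`, `HasRes.of_qiso`, `HasRes.of_qiso'`,
`rcls_qiso`.) -/
theorem RP.iff_qiso {X X' : PB A.pa (PA.con i W)} {f : PBH X X'} (h : QIso (f.f m))
    {z : K0Q (TT A) W} : RP g hg hS X z ↔ RP g hg hS X' z := by
  exact RPc_iff (slm_qiso hg h)

/-- RP2. Localisations at `m`. (`slm_qiso_of_locS`.) -/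
theorem RP.iff_locS {X X' : PB A.pa (PA.con i W)} {f : PBH X X'}
    (h : LocS (S := fsg g) (V := (X.M m).M) (V' := (X'.M m).M) (f.f m).f
      (fun s : fsg g => (X.M m).l (algebraMap (RR k m.1) (A.A m) s.1))
      (fun s : fsg g => (X'.M m).l (algebraMap (RR k m.1) (A.A m) s.1)))
    {z : K0Q (TT A) W} : RP g hg hS X z ↔ RP g hg hS X' z := by
  exact RPc_iff (slm_qiso_of_locS hg (f.dd m) h)

/-- RP3. Acyclic at `m`. -/
theorem RP.of_acyc {X : PB A.pa (PA.con i W)} (h : Acyc (X.M m)) : RP g hg hS X 0 := by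
  exact RPc_zero (sl_acyc hg h)

/-- RP4. Exact sequences. (`slm_ex`, `IsSes.mid`, `IsSes.right`, `IsSes.left`, `IsSes.rcls`; see
CV/Ses, and `IsExt`/`BPEx.ses`, `hab.ses` in GG/Cls for the construction of `IsSes` from an exact
sequence of closed maps.) -/
theorem RP.mid {X' X X'' : PB A.pa (PA.con i W)} {a : PBH X' X} {b : PBH X X''}
    (h : PBEx a b) {z' z'' : K0Q (TT A) W} (h' : RP g hg hS X' z') (h'' : RP g hg hS X'' z'') :
    RP g hg hS X (z' + z'') := by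
  exact RPc_mid (RPc_ses hg h) h' h''

theorem RP.right {X' X X'' : PB A.pa (PA.con i W)} {a : PBH X' X} {b : PBH X X''}
    (h : PBEx a b) {z' z : K0Q (TT A) W} (h' : RP g hg hS X' z') (h'' : RP g hg hS X z) :
    RP g hg hS X'' (z - z') := by
  exact RPc_right (RPc_ses hg h) h' h''

theorem RP.left {X' X X'' : PB A.pa (PA.con i W)} {a : PBH X' X} {b : PBH X X''}
    (h : PBEx a b) {z z'' : K0Q (TT A) W} (h' : RP g hg hS X z) (h'' : RP g hg hS X'' z'') :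
    RP g hg hS X' (z - z'') := by
  exact RPc_left (RPc_ses hg h) h' h''

/-- RP5. Isomorphisms. -/
theorem RP.iff_bij {X X' : PB A.pa (PA.con i W)} (f : PBH X X')
    (hf : Function.Bijective (f.f m).f) {z : K0Q (TT A) W} :
    RP g hg hS X z ↔ RP g hg hS X' z := by
  exact RPc_iff (slm_qiso hg (qiso_of_bij' (f.dd m) hf))

end Pool.Agent.MP_6e5bed_ag_BI
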