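import Pool.Agent.Lib.MP_6e5bed_ag_BI.SLd

set_option autoImplicit false
set_option linter.unusedVariables false

/-!
# MP_6e5bed_ag, THEOREM T, section 2: localisations and the scalar extension
-/

noncomputable section

namespace Pool.Agent.MP_6e5bed_ag_BI

open Pool.Agent.MP_6e5bed_ag_NC Pool.Agent.MP_6e5bed_ag_GG Pool.Agent.MP_6e5bed_ag_WW
open Pool.Agent.MP_6e5bed_ag_PN hiding Ch
open Pool.Agent.MP_6e5bed_ag_NS (Cx CHom ringH)

universe u

variable {k : Type u} [Field k] {i : Type} [Fintype i] {A : CA k i} {m : Ch i}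

/-- the functions which are units in `S` -/
def fsg (g : GD A m) : Submonoid (RR k m.1) where
  carrier := {f | g.fn f ≠ 0}
  mul_mem' := fun {f f'} h h' => by
    change g.fn (f * f') ≠ 0
    rw [g.fn_mul]
    intro h0
    have h1 : IsUnit (g.fn f) := g.unit f h
    exact h' (h1.mul_right_eq_zero.1 h0)
  one_mem' := by
    change g.fn 1 ≠ 0
    rw [g.fn_one]
    exact g.ne

theorem mem_fsg {g : GD A m} {f : RR k m.1} : f ∈ fsg g ↔ g.fn f ≠ 0 := Iff.rfl

/-- SLa1. The denominators are closed under products; the functions in `fsg g` are denominators. -/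
theorem dn_one (g : GD A m) : (1 : A.A m) ∈ Dn g := by
  refine ⟨fun a => by rw [one_mul, mul_one], ?_⟩
  rw [map_one]
  exact isUnit_one

theorem dn_mul (g : GD A m) {σ τ : A.A m} (hσ : σ ∈ Dn g) (hτ : τ ∈ Dn g) :
    σ * τ ∈ Dn g := by
  refine ⟨fun a => ?_, ?_⟩
  · rw [mul_assoc, hτ.1, ← mul_assoc, hσ.1, mul_assoc]
  · rw [map_mul]
    exact hσ.2.mul hτ.2

theorem dn_fn (g : GD A m) {f : RR k m.1} (hf : f ∈ fsg g) :
    algebraMap (RR k m.1) (A.A m) f ∈ Dn g :=
  ⟨fun a => Algebra.commutes f a, g.unit f hf⟩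

/-- The elements of `S` which are, up to functions, images of the elements which kill the kernel
of `psi`. -/
private def SLaI (g : GD A m) (c : A.A m) : Prop := ∀ a, g.psi a = 0 → c * a = 0 ∧ a * c = 0

private theorem SLaI_mul_left {g : GD A m} {c : A.A m} (h : SLaI g c) (b : A.A m) :
    SLaI g (b * c) := by
  intro a ha
  refine ⟨?_, ?_⟩
  · rw [mul_assoc, (h a ha).1, mul_zero]
  · rw [← mul_assoc]
    refine (h (a * b) ?_).2
    rw [map_mul, ha, zero_mul]

private theorem SLaI_mul_right {g : GD A m} {c : A.A m} (h : SLaI g c) (b : A.A m) :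
    SLaI g (c * b) := by
  intro a ha
  refine ⟨?_, ?_⟩
  · rw [mul_assoc]
    refine (h (b * a) ?_).1
    rw [map_mul, ha, mul_zero]
  · rw [← mul_assoc, (h a ha).2, zero_mul]

private theorem SLaI_add {g : GD A m} {c d : A.A m} (h : SLaI g c) (h' : SLaI g d) :
    SLaI g (c + d) := fun a ha => by
  rw [add_mul, mul_add, (h a ha).1, (h a ha).2, (h' a ha).1, (h' a ha).2, add_zero]
  exact ⟨rfl, rfl⟩

private theorem SLaI_neg {g : GD A m} {c : A.A m} (h : SLaI g c) : SLaI g (-c) := fun a ha => by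
  rw [neg_mul, mul_neg, (h a ha).1, (h a ha).2, neg_zero]
  exact ⟨rfl, rfl⟩

private theorem SLa_fn (g : GD A m) (f : RR k m.1) (a : A.A m) :
    g.fn f * g.psi a = g.psi (algebraMap (RR k m.1) (A.A m) f * a) := by
  rw [map_mul]
  rfl

private theorem SLa_psi (g : GD A m) (a b : A.A m) : g.psi (a * b) = g.psi a * g.psi b :=
  map_mul g.psi a b

private theorem SLa_one {g : GD A m} (h : GI g) :
    ∃ f ∈ fsg g, ∃ c, SLaI g c ∧ g.psi c = g.fn f := by
  obtain ⟨c0, hc0, hI0⟩ := h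
  let J : TwoSidedIdeal g.S := TwoSidedIdeal.mk'
    {s | ∃ f ∈ fsg g, ∃ c, SLaI g c ∧ g.psi c = g.fn f * s}
    ⟨1, (fsg g).one_mem, 0, fun a _ => ⟨zero_mul a, mul_zero a⟩, by rw [map_zero, mul_zero]⟩
    (by
      rintro s t ⟨f, hf, c, hc, h1⟩ ⟨f', hf', c', hc', h2⟩
      refine ⟨f * f', (fsg g).mul_mem hf hf', algebraMap (RR k m.1) (A.A m) f' * c +
        algebraMap (RR k m.1) (A.A m) f * c',
        SLaI_add (SLaI_mul_left hc _) (SLaI_mul_left hc' _), ?_⟩
      rw [map_add, ← SLa_fn, ← SLa_fn, h1, h2, mul_add, g.fn_mul, ← mul_assoc, ← mul_assoc,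
        g.fn_comm f' (g.fn f)])
    (by
      rintro s ⟨f, hf, c, hc, h1⟩
      exact ⟨f, hf, -c, SLaI_neg hc, by rw [map_neg, h1, mul_neg]⟩)
    (by
      rintro r s ⟨f, hf, c, hc, h1⟩
      obtain ⟨e, he, a, ha⟩ := g.surj r
      refine ⟨e * f, (fsg g).mul_mem he hf, a * c, SLaI_mul_left hc a, ?_⟩
      have ha' : g.psi a = g.fn e * r := ha
      rw [map_mul, ha', h1, g.fn_mul, mul_assoc, ← mul_assoc r, ← g.fn_comm f r, mul_assoc,
        mul_assoc])
    (by
      rintro s r ⟨f, hf, c, hc, h1⟩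
      obtain ⟨e, he, a, ha⟩ := g.surj r
      refine ⟨f * e, (fsg g).mul_mem hf he, c * a, SLaI_mul_right hc a, ?_⟩
      have ha' : g.psi a = g.fn e * r := ha
      rw [map_mul, ha', h1, g.fn_mul, mul_assoc, ← mul_assoc s, ← g.fn_comm e s, mul_assoc,
        mul_assoc])
  have h1 : (1 : g.S) ∈ J := by
    refine IsSimpleRing.one_mem_of_ne_zero_mem J hc0 ?_
    change g.psi c0 ∈ TwoSidedIdeal.mk' _ _ _ _ _ _
    rw [TwoSidedIdeal.mem_mk']
    exact ⟨1, (fsg g).one_mem, c0, hI0, by rw [g.fn_one, one_mul]⟩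
  change (1 : g.S) ∈ TwoSidedIdeal.mk' _ _ _ _ _ _ at h1
  rw [TwoSidedIdeal.mem_mk'] at h1
  obtain ⟨f, hf, c, hc, h2⟩ := h1
  exact ⟨f, hf, c, hc, by rw [h2, mul_one]⟩

/-- SLa2. The kernel is killed by a denominator.
PROOF. Let `I` be the set of the `c` with `c * a = 0` and `a * c = 0` for all `a` in the kernel of
`psi`: a two-sided ideal. By `GI` its image in `S` is not zero; `S` is simple and every element of
`S` is `psi a / fn f`, so there are `c ∈ I` and `f ∈ fsg g` with `psi c = fn f`. So `c - f` is in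
the kernel, `c * (c - f) = 0 = (c - f) * c`, and `c² = f c` is central: `c a - a c` is in the
kernel (`fn f` is central), so `c (c a - a c) = 0`, `(c a - a c) c = 0`, `c² a = c a c = a c²`.
Take `σ = c * c`. -/
theorem gi_sigma {g : GD A m} (h : GI g) :
    ∃ σ ∈ Dn g, ∀ a, g.psi a = 0 → σ * a = 0 ∧ a * σ = 0 := by
  obtain ⟨f, hf, c, hc, h1⟩ := SLa_one h
  refine ⟨c * c, ⟨fun a => ?_, ?_⟩, fun a ha => ⟨?_, ?_⟩⟩
  · have h2 : g.psi (c * a - a * c) = 0 := by
      rw [map_sub, map_mul, map_mul, h1, g.fn_comm f (g.psi a), sub_self]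
    obtain ⟨h3, h4⟩ := hc _ h2
    rw [mul_sub, sub_eq_zero] at h3
    rw [sub_mul, sub_eq_zero] at h4
    rw [mul_assoc, h3, ← mul_assoc, h4, mul_assoc]
  · rw [map_mul, h1]
    exact (g.unit f hf).mul (g.unit f hf)
  · rw [mul_assoc, (hc a ha).1, mul_zero]
  · rw [← mul_assoc, (hc a ha).2, zero_mul]

variable {W : DGA k}

private theorem SLa_nat (g : GD A m) (K : Bim (ring k (A.A m)) W) (a : A.A m) (x : K.M) :
    (sli g K).f (K.l a x) = (sl g K).l (g.psi a) ((sli g K).f x) := by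
  refine Eq.trans ?_ (slt_l g K (g.psi a) 1 x).symm
  refine (slt_r g K 1 a x).symm.trans ?_
  rw [one_mul, mul_one]

private theorem SLa_surj (g : GD A m) (K : Bim (ring k (A.A m)) W) (y : (sl g K).M) :
    ∃ f ∈ fsg g, ∃ x : K.M, (sli g K).f x =
      (sl g K).l (g.psi (algebraMap (RR k m.1) (A.A m) f)) y := by
  refine sl_ind g K (P := fun y => ∃ f ∈ fsg g, ∃ x : K.M, (sli g K).f x =
    (sl g K).l (g.psi (algebraMap (RR k m.1) (A.A m) f)) y) ?_ ?_ ?_ y
  · exact ⟨1, (fsg g).one_mem, 0, by rw [map_zero]; exact (map_zero _).symm⟩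
  · rintro y z ⟨f, hf, x, hx⟩ ⟨f', hf', x', hx'⟩
    refine ⟨f * f', (fsg g).mul_mem hf hf', K.l (algebraMap (RR k m.1) (A.A m) f') x +
      K.l (algebraMap (RR k m.1) (A.A m) f) x', ?_⟩
    have h1 : ∀ (e e' : RR k m.1) (w : (sl g K).M),
        (sl g K).l (g.psi (algebraMap (RR k m.1) (A.A m) (e * e'))) w =
        (sl g K).l (g.psi (algebraMap (RR k m.1) (A.A m) e))
          ((sl g K).l (g.psi (algebraMap (RR k m.1) (A.A m) e')) w) := by
      intro e e' w
      refine Eq.trans ?_ ((sl g K).l_mul _ _ w)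
      refine congrArg (fun c : g.S => (sl g K).l c w) ?_
      change _ = g.psi _ * g.psi _
      rw [map_mul, map_mul]
    rw [map_add, SLa_nat, SLa_nat, hx, hx']
    refine Eq.trans ?_ (map_add ((sl g K).l _) y z).symm
    refine congrArg₂ (· + ·) ?_ (h1 f f' z).symm
    rw [mul_comm f f']
    exact (h1 f' f y).symm
  · intro s x
    obtain ⟨f, hf, a, ha⟩ := g.surj s
    refine ⟨f, hf, K.l a x, ?_⟩
    refine Eq.trans ?_ (slt_l g K _ s x).symm
    refine (slt_r g K 1 a x).symm.trans ?_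
    rw [one_mul, ha]

/-- the monoid of the denominators -/
private def SLaD (g : GD A m) : Submonoid (Subalgebra.center k (A.A m)) where
  carrier := {z | IsUnit (g.psi z.1)}
  mul_mem' := fun {x y} hx hy => by
    change IsUnit (g.psi (x.1 * y.1))
    rw [map_mul]
    exact IsUnit.mul hx hy
  one_mem' := by
    change IsUnit (g.psi 1)
    rw [map_one]
    exact isUnit_one

private def SLaD_mk {g : GD A m} {σ : A.A m} (h : σ ∈ Dn g) : SLaD g :=
  ⟨⟨σ, Subalgebra.mem_center_iff.2 fun b => (h.1 b).symm⟩, h.2⟩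

private theorem SLaD_mem {g : GD A m} (s : SLaD g) : s.1.1 ∈ Dn g :=
  ⟨fun a => (Subalgebra.mem_center_iff.1 s.1.2 a).symm, s.2⟩

/-- SLa3. `x ↦ 1 ⊗ x` is a localisation.
PROOF. surj: `sl_ind`; for `s ⊗ x` take `f ∈ fsg g`, `a` with `psi a = fn f * s` (`g.surj`):
`psi f • (s ⊗ x) = (fn f * s) ⊗ x = psi a ⊗ x = 1 ⊗ a x`; sums: common denominators (the elements of
`Dn g` are central, so they commute with everything, and `sli` is semilinear). inj: by
`LocS.tbR` (GG/TLocS) for `f = psi : A_m → S` (a localisation at the monoid `Dn g` by `gi_sigma`: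
if `psi a = 0` then `σ * a = 0`), `tb (diag) K → tb (Sb g) K`, and `K ≅ tb diag K`. -/
theorem isL_sli {g : GD A m} (h : GI g) (K : Bim (ring k (A.A m)) W) : IsL g (sli g K) := by
  refine ⟨sli_dd g K, fun y => ?_, fun x hx => ?_⟩
  · obtain ⟨f, hf, x, hx⟩ := SLa_surj g K y
    exact ⟨_, dn_fn g hf, x, hx⟩
  · obtain ⟨σ₀, hσ₀, hk⟩ := gi_sigma h
    have hL : LocS (S := SLaD g) (V := A.A m) (V' := g.S) g.psi.toLinearMap
        (fun s => LinearMap.mulLeft k s.1.1) (fun s => LinearMap.mulLeft k (g.psi s.1.1)) := by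
      refine ⟨fun s t x => mul_assoc _ _ _, fun s t x => ?_, fun s x => map_mul g.psi _ _,
        fun y => ?_, fun a ha => ?_⟩
      · change g.psi (s.1.1 * t.1.1) * x = g.psi s.1.1 * (g.psi t.1.1 * x)
        rw [map_mul, mul_assoc]
      · obtain ⟨f, hf, a, ha⟩ := g.surj y
        exact ⟨SLaD_mk (dn_fn g hf), a, ha⟩
      · exact ⟨SLaD_mk hσ₀, (hk a ha).1⟩
    have hT := LocS.tbR (X := diag (ring k (A.A m))) (X' := Sb g) hL
      (fun w x => SLa_psi g x w)
      (fun s w x => (mul_assoc (G := A.A m) s.1.1 x w).symm)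
      (fun s w x => (mul_assoc (G := g.S) (g.psi s.1.1) x (g.psi w)).symm) K
      (F := tlift (M := diag (ring k (A.A m))) (N := K) ((tmB (Sb g) K).comp g.psi.toLinearMap)
        (fun a b n => by
          refine Eq.trans ?_ (tm_r_l (M := Sb g) (N := K) (g.psi a) b n)
          exact congrArg (fun s : g.S => tm (M := Sb g) (N := K) s n) (SLa_psi g a b)))
      (T := fun s => (tb (diag (ring k (A.A m))) K).l s.1.1)
      (T' := fun s => (tb (Sb g) K).l (g.psi s.1.1))
      (fun x q => tlift_tm _ _ x q) (fun s x q => tb_l _ x q) (fun s x q => tb_l _ x q)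
    obtain ⟨s, hs⟩ := hT.inj (tm (M := diag (ring k (A.A m))) (N := K) (1 : A.A m) x) (by
      refine (tlift_tm _ _ _ _).trans ?_
      refine Eq.trans ?_ hx
      exact congrArg (fun s : g.S => tm (M := Sb g) (N := K) s x) (map_one g.psi))
    refine ⟨s.1.1, SLaD_mem s, ?_⟩
    have h1 := congrArg (tlift (M := diag (ring k (A.A m))) (N := K) K.l
      (fun a b n => K.l_mul a b n)) hs
    rw [map_zero] at h1
    refine Eq.trans ?_ h1
    have h2 := tb_l (M := diag (ring k (A.A m))) (N := K) s.1.1 (1 : A.A m) x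
    refine Eq.trans ?_ (congrArg (tlift (M := diag (ring k (A.A m))) (N := K) K.l
      (fun a b n => K.l_mul a b n)) h2).symm
    refine Eq.trans ?_ (tlift_tm _ _ _ _).symm
    exact congrArg (fun c : A.A m => K.l c x) (mul_one s.1.1).symm

/-- the image of `A_m` in `S` -/
private def SLaX (g : GD A m) : KBi k (A.A m) (A.A m) where
  M := LinearMap.range g.psi.toLinearMap
  l := LinearMap.mk₂ k (fun (a : A.A m) (s : LinearMap.range g.psi.toLinearMap) =>
      ⟨g.psi a * s.1, by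
        obtain ⟨_, b, rfl⟩ := s
        exact ⟨a * b, map_mul g.psi a b⟩⟩)
    (fun a a' s => Subtype.ext (by
      change g.psi (a + a') * s.1 = g.psi a * s.1 + g.psi a' * s.1
      rw [map_add, add_mul]))
    (fun c a s => Subtype.ext (by
      change g.psi (c • a) * s.1 = c • (g.psi a * s.1)
      rw [map_smul, smul_mul_assoc]))
    (fun a s s' => Subtype.ext (mul_add _ _ _))
    (fun c a s => Subtype.ext (mul_smul_comm _ _ _))
  r := LinearMap.mk₂ k (fun (a : A.A m) (s : LinearMap.range g.psi.toLinearMap) =>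
      ⟨s.1 * g.psi a, by
        obtain ⟨_, b, rfl⟩ := s
        exact ⟨b * a, map_mul g.psi b a⟩⟩)
    (fun a a' s => Subtype.ext (by
      change s.1 * g.psi (a + a') = s.1 * g.psi a + s.1 * g.psi a'
      rw [map_add, mul_add]))
    (fun c a s => Subtype.ext (by
      change s.1 * g.psi (c • a) = c • (s.1 * g.psi a)
      rw [map_smul, mul_smul_comm]))
    (fun a s s' => Subtype.ext (add_mul _ _ _))
    (fun c a s => Subtype.ext (smul_mul_assoc _ _ _))
  l_one := fun s => Subtype.ext (by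
    change g.psi 1 * s.1 = s.1
    rw [map_one, one_mul])
  r_one := fun s => Subtype.ext (by
    change s.1 * g.psi 1 = s.1
    rw [map_one, mul_one])
  l_mul := fun a a' s => Subtype.ext (by
    change g.psi (a * a') * s.1 = g.psi a * (g.psi a' * s.1)
    rw [map_mul, mul_assoc])
  r_mul := fun a a' s => Subtype.ext (by
    change s.1 * g.psi (a * a') = s.1 * g.psi a * g.psi a'
    rw [map_mul, mul_assoc])
  l_r := fun a b s => Subtype.ext (mul_assoc _ _ _).symm

private def SLaXm (g : GD A m) (a : A.A m) : (SLaX g).bim.M := ⟨g.psi a, a, rfl⟩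

private def SLaX1 (g : GD A m) : (SLaX g).bim.M := SLaXm g 1

private theorem SLa_beta (g : GD A m) (K : Bim (ring k (A.A m)) W)
    (hk : ∀ a, g.psi a = 0 → ∀ x : K.M, K.l a x = 0) :
    ∃ β : (SLaX g).bim.M →ₗ[k] K.M →ₗ[k] K.M, ∀ a, β (SLaXm g a) = K.l a := by
  obtain ⟨φ, hφ⟩ : ∃ φ : (A.A m ⧸ LinearMap.ker g.psi.toLinearMap) →ₗ[k] K.M →ₗ[k] K.M,
      ∀ a, φ ((LinearMap.ker g.psi.toLinearMap).mkQ a) = K.l a :=
    ⟨(LinearMap.ker g.psi.toLinearMap).liftQ K.l
      (fun a ha => LinearMap.ext fun x => hk a ha x), fun a => rfl⟩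
  refine ⟨φ.comp (LinearMap.quotKerEquivRange g.psi.toLinearMap).symm.toLinearMap,
    fun a => ?_⟩
  have h1 : (LinearMap.quotKerEquivRange g.psi.toLinearMap).symm (SLaXm g a) =
      (LinearMap.ker g.psi.toLinearMap).mkQ a := by
    rw [LinearEquiv.symm_apply_eq]
    rfl
  refine Eq.trans ?_ (hφ a)
  exact congrArg φ h1

/-- SLa4. The same with the functions `fsg g` as denominators, and without the isolation, if the
kernel of `psi` acts as zero on `K`.
PROOF. As before; inj: `LocS.tbR` for `f = id : S' → S`, or directly: `psi : A_m → S` factors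
through `A_m / ker psi → S`, which is a localisation at `fsg g`, and `K = (A_m/ker psi) ⊗ K`. -/
theorem locS_sli_of_kill (g : GD A m) (K : Bim (ring k (A.A m)) W)
    (hk : ∀ a, g.psi a = 0 → ∀ x : K.M, K.l a x = 0) :
    LocS (S := fsg g) (V := K.M) (V' := (sl g K).M) (sli g K).f
      (fun s : fsg g => K.l (algebraMap (RR k m.1) (A.A m) s.1))
      (fun s : fsg g => (sl g K).l (g.fn s.1)) := by
  refine ⟨fun s t x => ?_, fun s t x => ?_, fun s x => SLa_nat g K _ x, fun y => ?_,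
    fun x hx => ?_⟩
  · refine Eq.trans ?_ (K.l_mul _ _ x)
    refine congrArg (fun c : A.A m => K.l c x) ?_
    exact map_mul (algebraMap (RR k m.1) (A.A m)) s.1 t.1
  · refine Eq.trans ?_ ((sl g K).l_mul _ _ x)
    exact congrArg (fun c : g.S => (sl g K).l c x) (g.fn_mul s.1 t.1)
  · obtain ⟨f, hf, x, hx⟩ := SLa_surj g K y
    exact ⟨⟨f, hf⟩, x, hx⟩
  · have hL : LocS (S := fsg g) (V := LinearMap.range g.psi.toLinearMap) (V' := g.S)
        (LinearMap.range g.psi.toLinearMap).subtype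
        (fun s => (SLaX g).l (algebraMap (RR k m.1) (A.A m) s.1))
        (fun s => LinearMap.mulLeft k (g.fn s.1)) := by
      refine ⟨fun s t x => ?_, fun s t x => ?_, fun s x => rfl, fun y => ?_, fun a ha => ?_⟩
      · refine Eq.trans ?_ ((SLaX g).l_mul _ _ x)
        refine congrArg (fun c : A.A m => (SLaX g).l c x) ?_
        exact map_mul (algebraMap (RR k m.1) (A.A m)) s.1 t.1
      · change g.fn (s.1 * t.1) * x = g.fn s.1 * (g.fn t.1 * x)
        rw [g.fn_mul, mul_assoc]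
      · obtain ⟨f, hf, a, ha⟩ := g.surj y
        exact ⟨⟨f, hf⟩, ⟨g.psi a, a, rfl⟩, ha⟩
      · exact ⟨1, by rw [show a = 0 from Subtype.ext ha, map_zero]⟩
    have hT := LocS.tbR (X := (SLaX g).bim) (X' := Sb g) hL
      (fun w x => rfl) (fun s w x => (SLaX g).l_r _ _ _)
      (fun s w x => (mul_assoc (G := g.S) (g.fn s.1) x (g.psi w)).symm) K
      (F := tlift (M := (SLaX g).bim) (N := K)
        ((tmB (Sb g) K).comp (LinearMap.range g.psi.toLinearMap).subtype)
        (fun a b n => tm_r_l (M := Sb g) (N := K) a.1 b n))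
      (T := fun s => (tb (SLaX g).bim K).l (algebraMap (RR k m.1) (A.A m) s.1))
      (T' := fun s => (tb (Sb g) K).l (g.fn s.1))
      (fun x q => tlift_tm _ _ x q) (fun s x q => tb_l _ x q) (fun s x q => tb_l _ x q)
    obtain ⟨s, hs⟩ := hT.inj (tm (M := (SLaX g).bim) (N := K) (SLaX1 g) x) (by
      refine (tlift_tm _ _ _ _).trans ?_
      refine Eq.trans ?_ hx
      exact congrArg (fun s : g.S => tm (M := Sb g) (N := K) s x) (map_one g.psi))
    refine ⟨s, ?_⟩
    obtain ⟨β, hβ⟩ := SLa_beta g K hk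
    have hβr : ∀ (p : (SLaX g).bim.M) (b : A.A m) (n : K.M),
        β ((SLaX g).bim.r b p) n = β p (K.l b n) := by
      intro p b n
      obtain ⟨a, rfl⟩ : ∃ a, SLaXm g a = p := by
        obtain ⟨_, a, rfl⟩ := p
        exact ⟨a, rfl⟩
      have h1 : (SLaX g).bim.r b (SLaXm g a) = SLaXm g (a * b) :=
        Subtype.ext (map_mul g.psi a b).symm
      rw [h1, hβ, hβ]
      exact K.l_mul a b n
    have h1 := congrArg (tlift (M := (SLaX g).bim) (N := K) β hβr) hs
    rw [map_zero] at h1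
    refine Eq.trans ?_ h1
    have h2 := tb_l (M := (SLaX g).bim) (N := K) (algebraMap (RR k m.1) (A.A m) s.1)
      (SLaX1 g) x
    refine Eq.trans ?_ (congrArg (tlift (M := (SLaX g).bim) (N := K) β hβr) h2).symm
    refine Eq.trans ?_ (tlift_tm _ _ _ _).symm
    have h3 : (SLaX g).bim.l (algebraMap (RR k m.1) (A.A m) s.1) (SLaX1 g) =
        SLaXm g (algebraMap (RR k m.1) (A.A m) s.1) := by
      refine Subtype.ext ?_
      change g.psi _ * g.psi 1 = g.psi _
      rw [map_one, mul_one]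
    rw [h3, hβ]

/-- SLa5. -/
theorem isL_sli_of_kill (g : GD A m) (K : Bim (ring k (A.A m)) W)
    (hk : ∀ a, g.psi a = 0 → ∀ x : K.M, K.l a x = 0) : IsL g (sli g K) := by
  have h := locS_sli_of_kill g K hk
  refine ⟨sli_dd g K, fun y => ?_, fun x hx => ?_⟩
  · obtain ⟨s, x, hx⟩ := h.surj y
    exact ⟨_, dn_fn g s.2, x, hx⟩
  · obtain ⟨s, hs⟩ := h.inj x hx
    exact ⟨_, dn_fn g s.2, hs⟩

end Pool.Agent.MP_6e5bed_ag_BI
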