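import Pool.Agent.Lib.MP_6e5bed_ag_BI.SLa

set_option autoImplicit false
set_option linter.unusedVariables false

/-!
# MP_6e5bed_ag, THEOREM T, section 2: localisations and the scalar extension, continued
-/

noncomputable section

namespace Pool.Agent.MP_6e5bed_ag_BI

open Pool.Agent.MP_6e5bed_ag_NC Pool.Agent.MP_6e5bed_ag_GG Pool.Agent.MP_6e5bed_ag_WW
open Pool.Agent.MP_6e5bed_ag_PN hiding Ch
open Pool.Agent.MP_6e5bed_ag_NS (Cx CHom ringH)

universe u

variable {k : Type u} [Field k] {i : Type} [Fintype i] {A : CA k i} {m : Ch i} {W : DGA k}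

/-- the underlying bilinear map -/
private def SLb_b (g : GD A m) {K : Bim (ring k (A.A m)) W} {M : Bim (ring k g.S) W}
    (φ : GMap 0 K (res (ringH g.psi) (DHom.id W) M)) : g.S →ₗ[k] K.M →ₗ[k] M.M :=
  LinearMap.compl₂ (show g.S →ₗ[k] M.M →ₗ[k] M.M from M.l) (show K.M →ₗ[k] M.M from φ.f)

private theorem SLb_b_apply (g : GD A m) {K : Bim (ring k (A.A m)) W} {M : Bim (ring k g.S) W}
    (φ : GMap 0 K (res (ringH g.psi) (DHom.id W) M)) (s : g.S) (x : K.M) :
    SLb_b g φ s x = M.l s (φ.f x) := rfl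

private theorem SLb_map {P Q : DGA k} {X Y : Bim P Q} (φ : GMap 0 X Y) (a : P.A) (x : X.M) :
    φ.f (X.l a x) = Y.l a (φ.f x) := by
  have h := φ.map_l a x
  rw [Dg.sp_zero] at h
  exact h

section ring

variable {R : Type u} [Ring R] [Algebra k R] {Q : DGA k} (M : Bim (ring k R) Q)

private theorem SLb_one (x : M.M) : M.l (1 : R) x = x := M.l_one x

private theorem SLb_mul (s t : R) (x : M.M) : M.l (s * t : R) x = M.l s (M.l t x) := M.l_mul s t x

private theorem SLb_zero (x : M.M) : M.l (0 : R) x = 0 := LinearMap.map_zero₂ M.l x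

private theorem SLb_ld (s : R) (x : M.M) : M.dg.d (M.l s x) = M.l s (M.dg.d x) := by
  have h2 : (ring k R).dg.d s = 0 := rfl
  have h3 : (ring k R).dg.s s = s := Dg.conc_s (k := k) s
  refine (M.d_l s x).trans ?_
  refine (congrArg₂ (fun u v : (ring k R).A => M.l u x + M.l v (M.dg.d x)) h2 h3).trans ?_
  exact (congrArg (fun u : M.M => u + M.l s (M.dg.d x)) (LinearMap.map_zero₂ M.l x)).trans
    (zero_add _)

private theorem SLb_unit {s : R} (hs : IsUnit s) {x : M.M} (h : M.l s x = 0) : x = 0 := by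
  obtain ⟨t, ht⟩ := hs.exists_left_inv
  have h1 : M.l t (M.l s x) = 0 := (congrArg (M.l t) h).trans (map_zero _)
  have h2 : M.l (1 : R) x = M.l (t * s : R) x := congrArg (fun u : R => M.l u x) ht.symm
  exact (SLb_one M x).symm.trans (h2.trans ((SLb_mul M t s x).trans h1))

end ring

private theorem SLb_l (g : GD A m) {K : Bim (ring k (A.A m)) W} {M : Bim (ring k g.S) W}
    (φ : GMap 0 K (res (ringH g.psi) (DHom.id W) M)) (a : A.A m) (x : K.M) :
    φ.f (K.l a x) = M.l (g.psi a) (φ.f x) := SLb_map φ a x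

private theorem SLb_r (g : GD A m) {K : Bim (ring k (A.A m)) W} {M : Bim (ring k g.S) W}
    (φ : GMap 0 K (res (ringH g.psi) (DHom.id W) M)) (w : W.A) (x : K.M) :
    φ.f (K.r w x) = M.r w (φ.f x) := φ.map_r w x

private theorem SLb_bal (g : GD A m) {K : Bim (ring k (A.A m)) W} {M : Bim (ring k g.S) W}
    (φ : GMap 0 K (res (ringH g.psi) (DHom.id W) M)) (s : (Sb g).M) (a : (ring k (A.A m)).A)
    (x : K.M) : SLb_b g φ ((Sb g).r a s) x = SLb_b g φ s (K.l a x) := by
  refine Eq.trans ?_ (congrArg (M.l s) (SLb_l g φ a x)).symm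
  exact M.l_mul s (g.psi a) (φ.f x)

/-- the underlying linear map -/
private def SLb_f (g : GD A m) {K : Bim (ring k (A.A m)) W} {M : Bim (ring k g.S) W}
    (φ : GMap 0 K (res (ringH g.psi) (DHom.id W) M)) : (sl g K).M →ₗ[k] M.M :=
  tlift (M := Sb g) (N := K) (SLb_b g φ) (SLb_bal g φ)

private theorem SLb_f_t (g : GD A m) {K : Bim (ring k (A.A m)) W} {M : Bim (ring k g.S) W}
    (φ : GMap 0 K (res (ringH g.psi) (DHom.id W) M)) (s : g.S) (x : K.M) :
    SLb_f g φ (slt g K s x) = M.l s (φ.f x) :=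
  tlift_tm (M := Sb g) (N := K) (SLb_b g φ) (SLb_bal g φ) s x

/-- the extension of a semilinear map to the scalar extension -/
private def SLb_g (g : GD A m) {K : Bim (ring k (A.A m)) W} {M : Bim (ring k g.S) W}
    (φ : GMap 0 K (res (ringH g.psi) (DHom.id W) M)) : GMap 0 (sl g K) M where
  f := SLb_f g φ
  deg := fun {i x} hx => by
    refine tb_degMap (M := Sb g) (N := K) (Z := M.dg) (n := 0) (SLb_f g φ)
      (fun {i j v w} hv hw => ?_) hx
    have h1 : M.dg.IsDeg (j + 0) (φ.f w) := φ.deg hw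
    have h2 : M.dg.IsDeg (i + (j + 0)) (M.l v (φ.f w)) := M.l_deg hv h1
    have h3 : SLb_f g φ (tm (M := Sb g) (N := K) v w) = M.l v (φ.f w) := SLb_f_t g φ v w
    have h4 : M.dg.IsDeg (i + j + 0) (M.l v (φ.f w)) := by
      rw [add_assoc]
      exact h2
    exact (congrArg (M.dg.IsDeg (i + j + 0)) h3).mpr h4
  map_l := fun s x => by
    rw [Dg.sp_zero]
    refine sl_ind g K (P := fun x => SLb_f g φ ((sl g K).l s x) = M.l s (SLb_f g φ x)) ?_ ?_ ?_ x
    · simp only [map_zero]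
    · intro x y hx hy
      rw [map_add, map_add, map_add, map_add, hx, hy]
    · intro t x
      refine (congrArg (SLb_f g φ) (slt_l g K s t x)).trans ((SLb_f_t g φ _ x).trans ?_)
      exact (SLb_mul M s t (φ.f x)).trans (congrArg (M.l s) (SLb_f_t g φ t x)).symm
  map_r := fun w x => by
    refine sl_ind g K (P := fun x => SLb_f g φ ((sl g K).r w x) = M.r w (SLb_f g φ x)) ?_ ?_ ?_ x
    · simp only [map_zero]
    · intro x y hx hy
      rw [map_add, map_add, map_add, map_add, hx, hy]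
    · intro t x
      have h1 : (sl g K).r w (slt g K t x) = slt g K t (K.r w x) :=
        tb_r (M := Sb g) (N := K) w t x
      refine (congrArg (SLb_f g φ) h1).trans ((SLb_f_t g φ t (K.r w x)).trans ?_)
      refine (congrArg (M.l t) (SLb_r g φ w x)).trans ?_
      exact (M.l_r t w (φ.f x)).trans (congrArg (M.r w) (SLb_f_t g φ t x)).symm

private theorem SLb_dd (g : GD A m) {K : Bim (ring k (A.A m)) W} {M : Bim (ring k g.S) W}
    (φ : GMap 0 K (res (ringH g.psi) (DHom.id W) M)) (hφ : φ.dd = 0) : (SLb_g g φ).dd = 0 := by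
  refine LinearMap.ext fun x => ?_
  rw [GMap.dd_apply, sg_zero, one_smul, LinearMap.zero_apply, sub_eq_zero]
  change M.dg.d (SLb_f g φ x) = SLb_f g φ ((sl g K).dg.d x)
  refine sl_ind g K (P := fun x => M.dg.d (SLb_f g φ x) = SLb_f g φ ((sl g K).dg.d x)) ?_ ?_ ?_ x
  · simp only [map_zero]
  · intro x y hx hy
    rw [map_add, map_add, map_add, map_add, hx, hy]
  · intro t x
    have h1 : M.dg.d (φ.f x) = φ.f (K.dg.d x) := GMap.d_f_zero hφ x
    refine (congrArg M.dg.d (SLb_f_t g φ t x)).trans ((SLb_ld M t (φ.f x)).trans ?_)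
    refine (congrArg (M.l t) h1).trans ?_
    exact (SLb_f_t g φ t (K.dg.d x)).symm.trans (congrArg (SLb_f g φ) (sl_d g K t x)).symm

/-- SLb1. A semilinear map extends to the scalar extension.
PROOF. `TensorProduct.lift` over `k` of `(s, x) ↦ M.l s (φ x)` is zero on the relations of `tb`
(compare `tbL`, `lin_tm`, or the construction of morphisms from `tb` in the files PN/Cmp, GG/Cmp,
PN/Asc...). -/
theorem exists_lift (g : GD A m) {K : Bim (ring k (A.A m)) W} {M : Bim (ring k g.S) W}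
    (φ : GMap 0 K (res (ringH g.psi) (DHom.id W) M)) (hφ : φ.dd = 0) :
    ∃ ψ : GMap 0 (sl g K) M, ψ.dd = 0 ∧ ∀ s x, ψ.f (slt g K s x) = M.l s (φ.f x) :=
  ⟨SLb_g g φ, SLb_dd g φ hφ, SLb_f_t g φ⟩

/-- SLb2. If `φ : K → M` is a localisation and `x ↦ 1 ⊗ x` too, the scalar extension of `K` is
`M`.
PROOF. surj: `y = (psi σ)⁻¹ φ x`. inj: `y = (psi σ)⁻¹ (1 ⊗ x)`, `φ x = 0` so `τ x = 0`. -/
theorem exists_lift_bij (g : GD A m) {K : Bim (ring k (A.A m)) W} {M : Bim (ring k g.S) W}
    {φ : GMap 0 K (res (ringH g.psi) (DHom.id W) M)} (hφ : IsL g φ) (hK : IsL g (sli g K)) :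
    ∃ ψ : GMap 0 (sl g K) M, QIso ψ ∧ Function.Bijective ψ.f ∧
      ∀ s x, ψ.f (slt g K s x) = M.l s (φ.f x) := by
  obtain ⟨ψ, h0, h1⟩ := exists_lift g φ hφ.dd
  have hb : Function.Bijective ψ.f := by
    refine ⟨(injective_iff_map_eq_zero ψ.f).2 fun y hy => ?_, fun y => ?_⟩
    · obtain ⟨σ, hσ, x, hx⟩ := hK.surj y
      have hl : ψ.f ((sl g K).l (g.psi σ) y) = M.l (g.psi σ) (ψ.f y) := SLb_map ψ (g.psi σ) y
      have h2 : φ.f x = 0 := by
        have h3 : ψ.f ((sl g K).l (g.psi σ) y) = 0 := by rw [hl, hy, map_zero]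
        have h4 : ψ.f (slt g K 1 x) = 0 := (congrArg ψ.f hx).trans h3
        exact (SLb_one M (φ.f x)).symm.trans ((h1 1 x).symm.trans h4)
      obtain ⟨τ, hτ, h3⟩ := hφ.inj x h2
      have h4 : (sl g K).l (g.psi τ) ((sli g K).f x) = 0 := by
        have h5 := SLb_l g (sli g K) τ x
        exact h5.symm.trans ((congrArg (sli g K).f h3).trans (map_zero _))
      have h5 : (sl g K).l (g.psi τ) ((sl g K).l (g.psi σ) y) = 0 :=
        (congrArg ((sl g K).l (g.psi τ)) hx).symm.trans h4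
      exact SLb_unit (sl g K) hσ.2 (SLb_unit (sl g K) hτ.2 h5)
    · obtain ⟨σ, hσ, x, hx⟩ := hφ.surj y
      obtain ⟨s, hs⟩ := hσ.2.exists_left_inv
      refine ⟨slt g K s x, (h1 s x).trans ?_⟩
      refine (congrArg (M.l s) hx).trans ((SLb_mul M s (g.psi σ) y).symm.trans ?_)
      exact (congrArg (fun u : g.S => M.l u y) hs).trans (SLb_one M y)
  exact ⟨ψ, qiso_of_bij' h0 hb, hb, h1⟩

/-- SLb8. Associativity. (`asG`, `asI` in PN or WW/Asc: the associativity of `tb`.) -/
theorem sl_tb (g : GD A m) {W' : DGA k} (K : Bim (ring k (A.A m)) W) (Y : Bim W W') :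
    BIso (sl g (tb K Y)) (tb (sl g K) Y) :=
  BIso.of_bij (asI (Sb g) K Y) (asI_dd (Sb g) K Y) (asI_bij (Sb g) K Y)

/-- SLb9. Restriction of scalars along `psi` followed by the scalar extension: `S ⊗_{A_m} M = M`
for a bimodule `M` over `S`.
PROOF. The identity is a localisation (`IsL`: surjective by `σ = 1`; injective); SLa5 and SLb2. -/
theorem sl_res (g : GD A m) (M : Bim (ring k g.S) W) :
    BIso (sl g (res (ringH g.psi) (DHom.id W) M)) M := by
  have hφ : IsL g (GMap.id (res (ringH g.psi) (DHom.id W) M)) :=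
    { dd := LinearMap.ext GMap.dd_id
      surj := fun y => ⟨1, dn_one g, y, by
        have h1 : M.l (g.psi 1) y = y :=
          (congrArg (fun u : g.S => M.l u y) (map_one g.psi)).trans (SLb_one M y)
        exact h1.symm⟩
      inj := fun x hx => ⟨1, dn_one g, by
        have h1 : x = 0 := hx
        rw [h1, map_zero]⟩ }
  have hK : IsL g (sli g (res (ringH g.psi) (DHom.id W) M)) :=
    isL_sli_of_kill g _ fun a ha x => by
      have h1 : M.l (g.psi a) x = 0 :=
        (congrArg (fun u : g.S => M.l u x) ha).trans (SLb_zero M x)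
      exact h1
  obtain ⟨ψ, hq, hb, -⟩ := exists_lift_bij g hφ hK
  exact BIso.of_bij ψ hq.1 hb

end Pool.Agent.MP_6e5bed_ag_BI
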