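import Pool.Agent.Lib.MP_6e5bed_ag_WW.StepF

set_option autoImplicit false
set_option linter.unusedVariables false

/-!
# MP_6e5bed_ag, THEOREM T, section 1: the generic algebra as a bimodule, scalar extension
-/

noncomputable section

namespace Pool.Agent.MP_6e5bed_ag_BI

open Pool.Agent.MP_6e5bed_ag_NC Pool.Agent.MP_6e5bed_ag_GG Pool.Agent.MP_6e5bed_ag_WW
open Pool.Agent.MP_6e5bed_ag_PN hiding Ch
open Pool.Agent.MP_6e5bed_ag_NS (Cx CHom ringH)

universe u

variable {k : Type u} [Field k] {i : Type} [Fintype i] {A : CA k i} {m : Ch i}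

/-- the generic algebra `S` as a bimodule over `S` and `A_m` -/
def sbK (g : GD A m) : KBi k g.S (A.A m) where
  M := g.S
  l := LinearMap.mul k g.S
  r := LinearMap.mk₂ k (fun (a : A.A m) (s : g.S) => s * g.psi a)
    (fun a a' s => by rw [map_add, mul_add])
    (fun c a s => by rw [map_smul, mul_smul_comm])
    (fun a s s' => add_mul _ _ _)
    (fun c a s => smul_mul_assoc _ _ _)
  l_one := fun s => one_mul s
  r_one := fun s => by
    change s * g.psi 1 = s
    rw [map_one, mul_one]
  l_mul := fun s s' t => mul_assoc _ _ _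
  r_mul := fun a a' s => by
    change s * g.psi (a * a') = s * g.psi a * g.psi a'
    rw [map_mul, mul_assoc]
  l_r := fun s a t => (mul_assoc _ _ _).symm

/-- the generic algebra `S` as a bimodule over `S` and `A_m` -/
def Sb (g : GD A m) : Bim (ring k g.S) (ring k (A.A m)) := (sbK g).bim

theorem Sb_l (g : GD A m) (s : g.S) (t : g.S) : (Sb g).l s t = (s * t : g.S) := rfl

theorem Sb_r (g : GD A m) (a : A.A m) (t : g.S) : (Sb g).r a t = (t * g.psi a : g.S) := rfl

variable {W : DGA k}

/-- the scalar extension `S ⊗_{A_m} K` -/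
def sl (g : GD A m) (K : Bim (ring k (A.A m)) W) : Bim (ring k g.S) W := tb (Sb g) K

/-- the pure tensors -/
def slt (g : GD A m) (K : Bim (ring k (A.A m)) W) (s : g.S) (x : K.M) : (sl g K).M :=
  tm (M := Sb g) (N := K) s x

/-- the scalar extension of a morphism -/
def slm (g : GD A m) {K K' : Bim (ring k (A.A m)) W} (φ : GMap 0 K K') :
    GMap 0 (sl g K) (sl g K') := φ.tbL (Sb g)

theorem slm_t (g : GD A m) {K K' : Bim (ring k (A.A m)) W} (φ : GMap 0 K K') (s : g.S)
    (x : K.M) : (slm g φ).f (slt g K s x) = slt g K' s (φ.f x) := tbL_tm0 (Sb g) φ s x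

theorem slm_dd (g : GD A m) {K K' : Bim (ring k (A.A m)) W} {φ : GMap 0 K K'} (h : φ.dd = 0) :
    (slm g φ).dd = 0 := tbL_dd' (Sb g) φ h

/-- The map `x ↦ 1 ⊗ x`. -/
def sli (g : GD A m) (K : Bim (ring k (A.A m)) W) :
    GMap 0 K (res (ringH g.psi) (DHom.id W) (sl g K)) :=
  gmk (ringH g.psi) (DHom.id W) (X := K) (Y := sl g K)
    (tmB (Sb g) K (1 : g.S))
    (fun {i x} hx => by
      have h1 := tb_deg (M := Sb g) (N := K) (i := 0) (j := i) (m := (1 : g.S)) (n := x)
        (Dg.conc_deg (k := k) (1 : g.S)) hx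
      rw [zero_add] at h1
      rw [add_zero]
      exact h1)
    (fun a x => by
      have h1 := tm_r_l (M := Sb g) (N := K) (1 : g.S) a x
      have h2 := tb_l (M := Sb g) (N := K) (g.psi a) (1 : g.S) x
      refine h1.symm.trans (Eq.trans ?_ h2.symm)
      refine congrArg (fun s : g.S => tm (M := Sb g) (N := K) s x) ?_
      change (1 : g.S) * g.psi a = g.psi a * 1
      rw [one_mul, mul_one])
    (fun w x => (tb_r (M := Sb g) (N := K) w (1 : g.S) x).symm)

theorem sli_apply (g : GD A m) (K : Bim (ring k (A.A m)) W) (x : K.M) :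
    (sli g K).f x = slt g K 1 x := rfl

theorem sl_d (g : GD A m) (K : Bim (ring k (A.A m)) W) (s : g.S) (x : K.M) :
    (sl g K).dg.d (slt g K s x) = slt g K s (K.dg.d x) := by
  refine (tb_d (M := Sb g) (N := K) s x).trans ?_
  have h1 : (Sb g).dg.d s = 0 := rfl
  have h2 : (Sb g).dg.s s = s := Dg.conc_s (k := k) s
  rw [h1, h2]
  refine Eq.trans (congrArg (· + _) (tm_zero_left (M := Sb g) (N := K) x)) ?_
  exact zero_add _

theorem sli_dd (g : GD A m) (K : Bim (ring k (A.A m)) W) : (sli g K).dd = 0 := by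
  refine LinearMap.ext fun x => ?_
  rw [GMap.dd_apply, sg_zero, one_smul, LinearMap.zero_apply, sub_eq_zero]
  exact sl_d g K 1 x

theorem slt_l (g : GD A m) (K : Bim (ring k (A.A m)) W) (s t : g.S) (x : K.M) :
    (sl g K).l s (slt g K t x) = slt g K (s * t) x := tb_l (M := Sb g) (N := K) s t x

theorem slt_r (g : GD A m) (K : Bim (ring k (A.A m)) W) (t : g.S) (a : A.A m) (x : K.M) :
    slt g K (t * g.psi a) x = slt g K t (K.l a x) := tm_r_l (M := Sb g) (N := K) t a x

theorem sl_ind (g : GD A m) (K : Bim (ring k (A.A m)) W) {P : (sl g K).M → Prop} (h0 : P 0)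
    (hadd : ∀ x y, P x → P y → P (x + y)) (h : ∀ (s : g.S) (x : K.M), P (slt g K s x))
    (x : (sl g K).M) : P x := tb_ind (M := Sb g) (N := K) h0 hadd h x

/-- the denominators: the central elements of `A_m` which are units in `S` -/
def Dn (g : GD A m) : Set (A.A m) := {σ | (∀ a, σ * a = a * σ) ∧ IsUnit (g.psi σ)}

/-- The kernel of `A_m → S` is killed by an element, from the left and from the right, which is not
zero in `S`: the generic point is isolated. -/
def GI (g : GD A m) : Prop :=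
  ∃ c : A.A m, g.psi c ≠ 0 ∧ ∀ a, g.psi a = 0 → c * a = 0 ∧ a * c = 0

/-- A semilinear map which is a localisation at the denominators. -/
structure IsL (g : GD A m) {K : Bim (ring k (A.A m)) W} {M : Bim (ring k g.S) W}
    (φ : GMap 0 K (res (ringH g.psi) (DHom.id W) M)) : Prop where
  dd : φ.dd = 0
  surj : ∀ y : M.M, ∃ σ ∈ Dn g, ∃ x : K.M, φ.f x = M.l (g.psi σ) y
  inj : ∀ x : K.M, φ.f x = 0 → ∃ σ ∈ Dn g, K.l σ x = 0

end Pool.Agent.MP_6e5bed_ag_BI
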