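import Pool.Agent.Lib.MP_6e5bed_ag_BI.K4p
import Pool.Agent.Lib.MP_6e5bed_ag_BI.Coh2

set_option autoImplicit false
set_option linter.unusedVariables false

/-!
# MP_6e5bed_ag, THEOREM T, section 9: the step
-/

noncomputable section

namespace Pool.Agent.MP_6e5bed_ag_BI

open Pool.Agent.MP_6e5bed_ag_NC Pool.Agent.MP_6e5bed_ag_GG Pool.Agent.MP_6e5bed_ag_WW
open Pool.Agent.MP_6e5bed_ag_PN hiding Ch
open Pool.Agent.MP_6e5bed_ag_NS (Cx CHom ringH)

universe u

variable {k : Type u} [Field k] {i : Type} [Fintype i]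

/-- StT. The function `Gm` of the reduced bisheaf `E` with isolated generic point: every class `y`
over `S` has a lift `z`; `Gm` of the value at the point of a coherent bisheaf in the support of `E`
is the class of the bisheaf.
PROOF. As `stepW_of` (WW/StepA) with `Gm := Gam0 ..`, `sData A E m hR` (WW/StepF), `k4p`, `coh2`. -/
theorem stT (A : CA k i) (hL : LOC A) (hS : Smooth (TT A))
    (J : Submodule ℚ (K0Q (TT A) (TT A))) (E : BS A A) (m : Ch i) (hE : E.Coh) (hR : Red E m)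
    (hg : GI hR.gd)
    (ih : ∀ F : BS A A, F.Coh → ann E < ann F →
      (clf A A finBB hS hS (bs_noe A A) J).cl F = 0) :
    ∃ Gm : K0Q (ring k hR.gd.S) (TT A) →ₗ[ℚ] (K0Q (TT A) (TT A) ⧸ J),
      (∀ {x : Type} [Fintype x] (B : CA k x) (_ : Smooth (TT B)) (hB : Proper (TT B))
        (y : K0Q (ring k hR.gd.S) (TT B)), ∃ z : K0Q (TT A) (TT B),
          (∀ w : K0Q (TT B) (TT A), Gm (K0Q.comp hB y w) = J.mkQ (K0Q.comp hB z w)) ∧
          K0Q.comp (pT A) (xg hR.gd hg hS) z = y ∧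
          ∀ (m' : Ch i) (g' : GD A m') (hg' : GI g'), (∃ a ∈ ann E m', g'.psi a ≠ 0) →
            K0Q.comp (pT A) (xg g' hg' hS) z = 0) ∧
      ∀ (F : BS A A) (_ : F.Coh) (_ : ann E ≤ ann F) (r : HasRes F.bp.BB),
        Gm (K0Q.comp (pT A) (xg hR.gd hg hS) (rcls F.bp.BB r)) = J.mkQ (rcls F.bp.BB r) := by
  have hRes : ∀ Z : BS A A, Z.Coh → HasRes Z.bp.BB := fun Z hZ => hasRes_BB finBB hS hS hZ
  have hq : ∀ (Z : BS A A) (h : Z.Coh), (clf A A finBB hS hS (bs_noe A A) J).cl Z =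
      J.mkQ (rcls Z.bp.BB (hRes Z h)) := fun Z hZ => clf_cl finBB hS hS (bs_noe A A) J hZ
  have hX := sData A E m hR
  have h53 : ∀ {x : Type} [Fintype x] (B : CA k x) (M : Bim (ring k hR.gd.S) (TT B)), Perf M →
      SB (ann E) m (sgR hR) (BPB.cmp (ss hR.gd.cone) M (YY B)) ∧
        BdM m (BPB.cmp (ss hR.gd.cone) M (YY B)) :=
    fun B M hM => h53_of (bs_noe A B) hX.qcl hX.kl (hX.free B) hM
  have hGm := fun (M : Bim (ring k hR.gd.S) (TT A)) (hM : Perf M) =>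
    Gam0_cls (bs_noe A A) ih hX.qcl (fun M hM => (h53 A M hM).1) M hM
  refine ⟨Gam0 (hR := hR) (bs_noe A A) ih hX.qcl (fun M hM => (h53 A M hM).1), ?_, ?_⟩
  · intro x _ B hB' hB y
    exact k4p hL (bs_noe A A) ih hRes hq hS hB' hB hg hGm (fun M hM => h53 B M hM) y
  · intro F hF hF' r
    exact (coh2 hL (bs_noe A A) ih hRes hq hS hS hg hGm hF hF').trans (hq F hF)

end Pool.Agent.MP_6e5bed_ag_BI
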