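import Pool.Agent.Lib.MP_6e5bed_ag_BI.TS
import Pool.Agent.Lib.MP_6e5bed_ag_BI.EDef

set_option autoImplicit false
set_option linter.unusedVariables false
set_option linter.unusedSectionVars false

/-!
# MP_6e5bed_ag, THEOREM T: the two forms of the algebra of endomorphisms
-/

noncomputable section

namespace Pool.Agent.MP_6e5bed_ag_Tc

open MvPolynomial Pool.Agent.MP_6e5bed_ag_Pn
open Pool.Agent.MP_6e5bed_ag_SP (DG)

universe u

section

variable {n : ℕ} {k E A : Type u} [Field k] [Ring E] [Algebra k E]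
  [Algebra (MvPolynomial (Fin (n + 1)) k) E] [Ring A] [Algebra k A]
  [Algebra (MvPolynomial (Fin (n + 1)) k) A]

/-- `IsRGam` depends only on the homogeneous elements. -/
theorem isRGam_iff (e : E →+* A) (he : Function.Injective e)
    (hk : ∀ c : k, e (algebraMap k E c) = algebraMap k A c)
    (hs : ∀ (p : MvPolynomial (Fin (n + 1)) k) a, e (p • a) = p • e a) {ℰ : ℕ → Submodule k E}
    {𝒜 : ℕ → Submodule k A} (hd : ∀ d a, a ∈ ℰ d ↔ e a ∈ 𝒜 d)
    (hr : ∀ d, ∀ b ∈ 𝒜 d, ∃ a, e a = b) {T : Type u} [Ring T] [Algebra k T] (X : DG k T) :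
    IsRGam n ℰ X ↔ IsRGam n 𝒜 X := by
  have hr' : ∀ d, ∀ b ∈ 𝒜 d, ∃ a ∈ ℰ d, e a = b := by
    intro d b hb
    obtain ⟨a, rfl⟩ := hr d b hb
    exact ⟨a, (hd d a).2 hb, rfl⟩
  constructor
  · rintro ⟨B, _, _, r, q, ee, hq, hc⟩
    have hi : ∀ a, Function.invFun e (e a) = a := Function.leftInverse_invFun he
    refine ⟨B, inferInstance, inferInstance, r, fun I m b => q I m (Function.invFun e b), ee, ?_, hc⟩
    refine ⟨?_, ?_, ?_, ?_, ?_, ?_, ?_⟩
    · intro I m a b ha hb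
      obtain ⟨a, ha', rfl⟩ := hr' _ _ ha
      obtain ⟨b, hb', rfl⟩ := hr' _ _ hb
      show q I m (Function.invFun e _) = q I m (Function.invFun e _) + q I m (Function.invFun e _)
      rw [← map_add, hi, hi, hi]
      exact hq.add I m _ _ ha' hb'
    · intro I l m a b ha hb
      obtain ⟨a, ha', rfl⟩ := hr' _ _ ha
      obtain ⟨b, hb', rfl⟩ := hr' _ _ hb
      show q I (l + m) (Function.invFun e _) =
        q I l (Function.invFun e _) * q I m (Function.invFun e _)
      rw [← map_mul, hi, hi, hi]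
      exact hq.mul I l m _ _ ha' hb'
    · intro I c
      show q I 0 (Function.invFun e _) = _
      rw [← hk, hi]
      exact hq.const I c
    · intro I m a ha
      obtain ⟨a, ha', rfl⟩ := hr' _ _ ha
      show q I (m + 1) (Function.invFun e _) = q I m (Function.invFun e _)
      rw [← hs, hi, hi]
      exact hq.step I m _ ha'
    · intro I b
      obtain ⟨m, a, ha, h1⟩ := hq.surj I b
      refine ⟨m, e a, (hd _ _).1 ha, ?_⟩
      show q I m (Function.invFun e _) = _
      rw [hi]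
      exact h1
    · intro I m a ha h0
      obtain ⟨a, ha', rfl⟩ := hr' _ _ ha
      rw [hi] at h0
      obtain ⟨l, hl⟩ := hq.zero I m _ ha' h0
      exact ⟨l, by rw [← hs, hl, map_zero]⟩
    · intro I J hIJ m a ha
      obtain ⟨a, ha', rfl⟩ := hr' _ _ ha
      show r I J hIJ (q I m (Function.invFun e _)) = q J m (Function.invFun e _)
      rw [← hs, hi, hi]
      exact hq.res I J hIJ m _ ha'
  · rintro ⟨B, _, _, r, q, ee, hq, hc⟩
    refine ⟨B, inferInstance, inferInstance, r, fun I m b => q I m (e b), ee, ?_, hc⟩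
    refine ⟨?_, ?_, ?_, ?_, ?_, ?_, ?_⟩
    · intro I m a b ha hb
      show q I m (e (a + b)) = _
      rw [map_add]
      exact hq.add I m _ _ ((hd _ _).1 ha) ((hd _ _).1 hb)
    · intro I l m a b ha hb
      show q I (l + m) (e (a * b)) = _
      rw [map_mul]
      exact hq.mul I l m _ _ ((hd _ _).1 ha) ((hd _ _).1 hb)
    · intro I c
      show q I 0 (e (algebraMap k E c)) = _
      rw [hk]
      exact hq.const I c
    · intro I m a ha
      show q I (m + 1) (e _) = _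
      rw [hs]
      exact hq.step I m _ ((hd _ _).1 ha)
    · intro I b
      obtain ⟨m, a, ha, h1⟩ := hq.surj I b
      obtain ⟨a, ha', rfl⟩ := hr' _ _ ha
      exact ⟨m, a, ha', h1⟩
    · intro I m a ha h0
      obtain ⟨l, hl⟩ := hq.zero I m _ ((hd _ _).1 ha) h0
      refine ⟨l, he ?_⟩
      rw [hs, hl, map_zero]
    · intro I J hIJ m a ha
      show r I J hIJ (q I m (e a)) = q J m (e _)
      rw [hs]
      exact hq.res I J hIJ m _ ((hd _ _).1 ha)

end

section

variable {n : ℕ} {k Γ : Type u} [Field k] [Ring Γ] [Algebra k Γ]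
  [Algebra (MvPolynomial (Fin (n + 1)) k) Γ] {𝒢 : ℕ → Submodule k Γ}

theorem isEnd_iff (d : ℕ) (f : Matrix (Fin (n + 1)) (Fin (n + 1)) Γ) :
    IsEnd n 𝒢 d f ↔ f ∈ EndDeg n 𝒢 d := by
  show (∀ p q : Fin (n + 1), (q : ℕ) ≤ d + p ∧ f p q ∈ 𝒢 (d + p - q) ∨ f p q = 0) ↔
    ∀ p q : Fin (n + 1), f p q ∈ GrZ 𝒢 ((d : ℤ) + ((p : ℕ) : ℤ) - ((q : ℕ) : ℤ))
  refine forall_congr' fun p => forall_congr' fun q => ?_
  rcases le_or_gt (q : ℕ) (d + p) with hq | hq
  · have h1 : (d : ℤ) + ((p : ℕ) : ℤ) - ((q : ℕ) : ℤ) = ((d + (p : ℕ) - (q : ℕ) : ℕ) : ℤ) := by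
      omega
    rw [h1, GrZ_nat]
    constructor
    · rintro (⟨_, h⟩ | h)
      · exact h
      · rw [h]; exact Submodule.zero_mem _
    · exact fun h => Or.inl ⟨hq, h⟩
  · rw [GrZ_neg 𝒢 (by omega), Submodule.mem_bot]
    constructor
    · rintro (⟨h, _⟩ | h)
      · exact absurd h (not_le.2 hq)
      · exact h
    · exact Or.inr

theorem endD_eq (d : ℕ) : EndD n 𝒢 d = EndDeg n 𝒢 d := by
  have h1 : {f | IsEnd n 𝒢 d f} = (EndDeg n 𝒢 d : Set _) :=
    Set.ext fun f => isEnd_iff d f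
  unfold EndD
  rw [h1, Submodule.span_eq]

variable [IsScalarTower k (MvPolynomial (Fin (n + 1)) k) Γ]

theorem isREnd_iff (h : IsGr n 𝒢) {T : Type u} [Ring T] [Algebra k T] (X : DG k T) :
    IsREnd n 𝒢 X ↔ IsRGam n (EndGr h) X := by
  have h1 : EndD n 𝒢 = EndDeg n 𝒢 := funext fun d => endD_eq d
  unfold IsREnd
  rw [h1]
  refine (isRGam_iff (EndG h).val.toRingHom Subtype.val_injective (fun c => rfl) ?_
    (fun d a => mem_EndGr h) ?_ X).symm
  · intro p a
    rw [Algebra.smul_def]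
    show (algebraMap (MvPolynomial (Fin (n + 1)) k) (EndG h) p : EndG h).1 * a.1 = p • a.1
    rw [EndG_algebraMap, Algebra.smul_def]
  · intro d b hb
    exact ⟨⟨b, (mem_EndG h).2 (Submodule.mem_iSup_of_mem d hb)⟩, rfl⟩

end

end Pool.Agent.MP_6e5bed_ag_Tc
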