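import Pool.Agent.Lib.MP_6e5bed_ag_BI.TB
import Pool.Agent.Lib.MP_6e5bed_ag_BI.EFin
import Pool.Agent.Lib.MP_6e5bed_ag_GV.VCe

set_option autoImplicit false
set_option linter.unusedVariables false
set_option linter.unusedSectionVars false

/-!
# MP_6e5bed_ag, THEOREM T: the final theorem, in the form of the hand-in
-/

noncomputable section

namespace Pool.Agent.MP_6e5bed_ag_Tc

open CategoryTheory MonoidalCategory MvPolynomial Pool.Agent.MP_6e5bed_ag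
  Pool.Agent.MP_6e5bed_ag_BI
open Pool.Agent.MP_6e5bed_ag_Pn hiding IsoFam
open Pool.Agent.MP_6e5bed_ag_SP (DG SmPr NCMot)

universe u v w x

section

variable {C : Type w} [Category.{v} C] [MonoidalCategory C] [Preadditive C] {J : Type x}
  (V : J → C)

theorem eqMod_of_thr {U : C} {z z' : U ⟶ U} (h : Thr V (z - z')) : EqMod V z z' := by
  obtain ⟨N, N', a, f, g, f', g', h1⟩ := h
  refine ⟨N, N', a, f, g, f', g', ?_⟩
  rw [add_assoc, ← h1, add_sub_cancel]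

end

section

variable {n : ℕ} {k Γ : Type u} [Field k] [Ring Γ] [Algebra (MvPolynomial (Fin (n + 1)) k) Γ]

/-- the same simple quotient -/
def SQuo.toSQ (z : SQuo n k Γ) : SQ n k Γ where
  F := z.F
  a := z.a
  Q := z.Q
  π := z.π
  pt := z.pt
  quo := z.quo

/-- the same simple quotient -/
def ofSQ (z : SQ n k Γ) : SQuo n k Γ where
  F := z.F
  a := z.a
  Q := z.Q
  π := z.π
  pt := z.pt
  quo := z.quo

variable [Algebra k Γ] {𝒢 : ℕ → Submodule k Γ}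

theorem isoFam_of {J : Type v} {M : J → Type u} [∀ α, Field (M α)] [∀ α, Algebra k (M α)]
    {ι : Type} {K : ι → Type u} [∀ s, Field (K s)] [∀ s, Algebra k (K s)] {P : ι → SQuo n k Γ}
    (h : IsoFam 𝒢 M K P) :
    Pool.Agent.MP_6e5bed_ag_Pn.IsoFam 𝒢 M fun s => (P s).toSQ where
  isol s := by
    obtain ⟨d, c, hc, h1, h2⟩ := h.isol s
    exact ⟨d, c, hc, h1, h2⟩
  ne s t hst hS := hst (h.ne s t hS)
  all z := by
    rcases h.all (ofSQ z) with ⟨s, hs⟩ | ⟨α, φ, h1, h2⟩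
    · exact Or.inl ⟨s, hs⟩
    · exact Or.inr ⟨α, φ, h1, h2⟩

end

/-- The centres of the simple quotients are isomorphic if they are isomorphic to the same field. -/
theorem ciso_of {n n' : ℕ} {k Γ Γ' : Type u} [Field k] [Ring Γ]
    [Algebra (MvPolynomial (Fin (n + 1)) k) Γ] [Ring Γ']
    [Algebra (MvPolynomial (Fin (n' + 1)) k) Γ'] {z : SQuo n k Γ} {z' : SQuo n' k Γ'}
    {L : Type u} [Field L] [Algebra k L] (h : CenIso k z.F z.Q L) (h' : CenIso k z'.F z'.Q L) :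
    CIso z.toSQ.cen z'.toSQ.cen := by
  obtain ⟨φ, h1, h2⟩ := h
  obtain ⟨φ', h1', h2'⟩ := h'
  let e : Subalgebra.center z.toSQ.F z.toSQ.Q ≃+* L := RingEquiv.ofBijective φ h1
  let e' : Subalgebra.center z'.toSQ.F z'.toSQ.Q ≃+* L := RingEquiv.ofBijective φ' h1'
  refine ⟨e.trans e'.symm, fun c => ?_⟩
  show e'.symm (e (z.toSQ.cen c)) = z'.toSQ.cen c
  rw [RingEquiv.symm_apply_eq]
  exact (h2 c).trans (h2' c).symm

variable {n : ℕ} {k Γ : Type u} [Field k] [Ring Γ] [Algebra k Γ]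
  [Algebra (MvPolynomial (Fin (n + 1)) k) Γ] [IsScalarTower k (MvPolynomial (Fin (n + 1)) k) Γ]
  {𝒢 : ℕ → Submodule k Γ} {n' : ℕ} {Γ' : Type u} [Ring Γ'] [Algebra k Γ']
  [Algebra (MvPolynomial (Fin (n' + 1)) k) Γ'] [IsScalarTower k (MvPolynomial (Fin (n' + 1)) k) Γ']
  {𝒢' : ℕ → Submodule k Γ'}

/-- The dg algebra exists. -/
theorem exists_rend (h : IsGr n 𝒢) :
    ∃ (T : Type u) (_ : Ring T) (_ : Algebra k T) (X : DG k T), IsREnd n 𝒢 X := by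
  obtain ⟨T, i1, i2, X, hX⟩ := MP_6e5bed_ag_GG.exists_rgam (isGr_EndG h)
  exact ⟨T, i1, i2, X, (isREnd_iff h X).2 hX⟩

variable {C : Type (u + 1)} [Category.{u + 1} C] [MonoidalCategory C]
  [SymmetricCategory C] [Preadditive C] [MonoidalPreadditive C] [Linear ℚ C] (H : NCMot k C)

/-- THEOREM T. -/
theorem main (h : IsGr n 𝒢) (h' : IsGr n' 𝒢') {J : Type (u + 1)} {m : J → ℕ}
    {M : J → Type u} [∀ a, Field (M a)] [∀ a, Algebra k (M a)]
    {y : ∀ a, Fin (m a + 1) → (M a)ˣ} {S : J → Type u} [∀ a, Ring (S a)]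
    [∀ a, Algebra k (S a)] {Y : ∀ a, DG k (S a)} (hY : ∀ a, SmPr (Y a))
    (hV : ∀ a, IsVar (y a) (Y a)) {ι : Type} [Finite ι] {K : ι → Type u} [∀ s, Field (K s)]
    [∀ s, Algebra k (K s)] {P : ι → SQuo n k Γ} {P' : ι → SQuo n' k Γ'}
    (hP : IsoFam 𝒢 M K P) (hP' : IsoFam 𝒢' M K P') {T T' : Type u} [Ring T] [Algebra k T]
    [Ring T'] [Algebra k T'] {X : DG k T} {X' : DG k T'} (hX : SmPr X) (hX' : SmPr X')
    (hR : IsREnd n 𝒢 X) (hR' : IsREnd n' 𝒢' X') :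
    IsoMod (fun a => H.U (Y a) (hY a)) (H.U X hX) (H.U X' hX') ∧
    ((∀ a, KimuraFinite (H.U (Y a) (hY a))) →
      (KimuraFinite (H.U X hX) ↔ KimuraFinite (H.U X' hX'))) := by
  haveI := Fintype.ofFinite ι
  have hZ : ∀ a, ∃ Z : MP_6e5bed_ag_GG.XT k, Z.Gen ∧
      Nonempty (MP_6e5bed_ag_SP.Rep (Y a) (MP_6e5bed_ag_GG.TT Z.ca)) ∧
      Nonempty (M a ≃ₐ[k] Z.M) := by
    intro a
    obtain ⟨Z, h1, h2, h3⟩ := MP_6e5bed_ag_GG.isVar_xt (hV a)
    exact ⟨Z, h1, h3, h2⟩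
  obtain ⟨⟨f, g, h1, h2⟩, h3⟩ := main_t H h h' ((isREnd_iff h X).1 hR) hX
    ((isREnd_iff h' X').1 hR') hX' hY hZ (isoFam_of hP) (isoFam_of hP')
    (fun s => ciso_of (hP.cen s) (hP'.cen s))
  exact ⟨⟨f, g, eqMod_of_thr _ h1, eqMod_of_thr _ h2⟩, h3⟩

end Pool.Agent.MP_6e5bed_ag_Tc
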