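import Pool.Agent.Lib.MP_6e5bed_ag_GP.VDef

set_option autoImplicit false

/-!
# Statement definitions of THEOREM T (MP_6e5bed_ag): the algebra of endomorphisms of
`Γ ⊕ Γ(1) ⊕ … ⊕ Γ(n)`, isolated simple quotients, isomorphisms modulo a family of objects
-/

noncomputable section

namespace Pool.Agent.MP_6e5bed_ag_Tc

open CategoryTheory MonoidalCategory Pool.Agent.MP_6e5bed_ag_Pn
open Pool.Agent.MP_6e5bed_ag_SP (DG)

universe u v w x

section

variable (n : ℕ) {k Γ : Type u} [Field k] [Ring Γ] [Algebra k Γ]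
  [Algebra (MvPolynomial (Fin (n + 1)) k) Γ] (𝒢 : ℕ → Submodule k Γ)

/-- The matrix `f` is a homogeneous endomorphism of degree `d` of `Γ ⊕ Γ(1) ⊕ … ⊕ Γ(n)`: the
entry in the row `p` and the column `q` has the degree `d + p - q` (it is zero if `d + p < q`). -/
def IsEnd (d : ℕ) (f : Matrix (Fin (n + 1)) (Fin (n + 1)) Γ) : Prop :=
  ∀ p q : Fin (n + 1), (q : ℕ) ≤ d + p ∧ f p q ∈ 𝒢 (d + p - q) ∨ f p q = 0

/-- The homogeneous endomorphisms of degree `d` of `Γ ⊕ Γ(1) ⊕ … ⊕ Γ(n)`. -/
def EndD (d : ℕ) : Submodule k (Matrix (Fin (n + 1)) (Fin (n + 1)) Γ) :=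
  Submodule.span k {f | IsEnd n 𝒢 d f}

/-- The dg algebra `X` is `RΓ(Pⁿ, End(Γ~ ⊕ … ⊕ Γ~(n)))`. (`IsRGam` depends only on the homogeneous
elements: the `EndD n 𝒢 d`, `d ≥ 0`, form the graded algebra of the endomorphisms of
`Γ ⊕ Γ(1) ⊕ … ⊕ Γ(n)`.) -/
def IsREnd {T : Type u} [Ring T] [Algebra k T] (X : DG k T) : Prop := IsRGam n (EndD n 𝒢) X

end

/-- A simple quotient `Q` of the algebra `Γ ⊗ F`, where `a` is a point of the projective space of
dimension `n` over `k` with the residue field `F`. -/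
structure SQuo (n : ℕ) (k Γ : Type u) [Field k] [Ring Γ]
    [Algebra (MvPolynomial (Fin (n + 1)) k) Γ] : Type (u + 1) where
  F : Type u
  [fld : Field F]
  [algF : Algebra k F]
  a : Fin (n + 1) → F
  Q : Type u
  [ring : Ring Q]
  [algQ : Algebra F Q]
  π : Γ →+* Q
  pt : IsPoint k a
  quo : IsQuo k a π

attribute [instance] SQuo.fld SQuo.algF SQuo.ring SQuo.algQ

section

variable (k F Q L : Type u) [Field k] [Field F] [Algebra k F] [Ring Q] [Algebra F Q] [Field L]
  [Algebra k L]

/-- The centre of the `F`-algebra `Q` embeds over `k` into the field `L`, which is finite over it. -/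
def CenFin : Prop :=
  ∃ φ : Subalgebra.center F Q →+* L, φ.Finite ∧ ∀ c : k,
    φ (algebraMap F _ (algebraMap k F c)) = algebraMap k L c

/-- The centre of the `F`-algebra `Q` is isomorphic over `k` to the field `L`. -/
def CenIso : Prop :=
  ∃ φ : Subalgebra.center F Q →+* L, Function.Bijective φ ∧ ∀ c : k,
    φ (algebraMap F _ (algebraMap k F c)) = algebraMap k L c

end

section

variable {n : ℕ} {k Γ : Type u} [Field k] [Ring Γ] [Algebra (MvPolynomial (Fin (n + 1)) k) Γ]

/-- the element `x` is in the kernel -/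
def SQuo.Ker (z : SQuo n k Γ) (x : Γ) : Prop := z.π x = 0

variable [Algebra k Γ] (𝒢 : ℕ → Submodule k Γ)

/-- The two simple quotients are the same: their kernels have the same homogeneous elements. -/
def SQuo.Same (z z' : SQuo n k Γ) : Prop := ∀ d, ∀ x ∈ 𝒢 d, z.Ker x ↔ z'.Ker x

/-- The simple quotient is isolated: there is a homogeneous element which annihilates the kernel
and is not in the kernel. -/
def SQuo.Isol (z : SQuo n k Γ) : Prop :=
  ∃ d, ∃ c ∈ 𝒢 d, ¬ z.Ker c ∧ ∀ e, ∀ x ∈ 𝒢 e, z.Ker x → c * x = 0 ∧ x * c = 0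

/-- The `P s` are different isolated simple quotients with the centres `K s`, and the centres of
all the other simple quotients embed over `k` into the fields `M α`, which are finite over them. -/
structure IsoFam {J : Type v} (M : J → Type u) [∀ α, Field (M α)] [∀ α, Algebra k (M α)]
    {ι : Type} (K : ι → Type u) [∀ s, Field (K s)] [∀ s, Algebra k (K s)]
    (P : ι → SQuo n k Γ) : Prop where
  isol : ∀ s, (P s).Isol 𝒢
  cen : ∀ s, CenIso k (P s).F (P s).Q (K s)
  ne : ∀ s t, (P s).Same 𝒢 (P t) → s = t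
  all : ∀ z : SQuo n k Γ, (∃ s, z.Same 𝒢 (P s)) ∨ ∃ α, CenFin k z.F z.Q (M α)

end

section

variable {C : Type w} [Category.{v} C] [MonoidalCategory C] [Preadditive C] {J : Type x}
  (V : J → C)

/-- The endomorphisms `z` and `z'` of the object `U` differ by a finite sum of compositions of
morphisms through the objects `V a` and through the unit object. -/
def EqMod {U : C} (z z' : U ⟶ U) : Prop :=
  ∃ (N N' : ℕ) (a : Fin N → J) (f : ∀ i, U ⟶ V (a i)) (g : ∀ i, V (a i) ⟶ U)
    (f' : Fin N' → (U ⟶ 𝟙_ C)) (g' : Fin N' → (𝟙_ C ⟶ U)),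
    z = z' + ∑ i, f i ≫ g i + ∑ i, f' i ≫ g' i

/-- The objects `U` and `U'` are isomorphic modulo the morphisms which factor through the objects
`V a` and the unit object. -/
def IsoMod (U U' : C) : Prop :=
  ∃ (f : U ⟶ U') (g : U' ⟶ U), EqMod V (𝟙 U) (f ≫ g) ∧ EqMod V (𝟙 U') (g ≫ f)

end

end Pool.Agent.MP_6e5bed_ag_Tc
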