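import Pool.Agent.Lib.MP_6e5bed_ag_BI.RPc

set_option autoImplicit false
set_option linter.unusedVariables false

/-!
# MP_6e5bed_ag, THEOREM T, section 6: the way-out induction with the classes of the points
-/

noncomputable section

namespace Pool.Agent.MP_6e5bed_ag_BI

open Pool.Agent.MP_6e5bed_ag_NC Pool.Agent.MP_6e5bed_ag_GG Pool.Agent.MP_6e5bed_ag_WW
open Pool.Agent.MP_6e5bed_ag_PN hiding Ch
open Pool.Agent.MP_6e5bed_ag_NS (Cx CHom ringH)

universe u

variable {k : Type u} [Field k] {i j x : Type} [Fintype i] [Fintype j] [Fintype x]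
  {A : CA k i} {A' : CA k j} {B : CA k x} {V : Type*} [AddCommGroup V] {E : BS A A'} {m : Ch i}

/-- THE PROPERTY OF SECTION 6: `z` computes the Euler characteristics of `X ⊗ U ⊗ Y`, the value at
the point, and is zero at the points which are not in the support of `E`. -/
structure WP (hR : Red E m) (cl : AddFn (S := bs A A') Sh.Coh V) (q : K0Q (TT A) (TT A') →+ V)
    {W : DGA k} (hW : Proper W) (hg : GI hR.gd) (hS : Smooth (TT A))
    (X : PB A.pa (PA.con i W)) (z : K0Q (TT A) W) : Prop where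
  cp : CP hR cl q hW X z
  rp : RP hR.gd hg hS X z
  zr : ∀ (m' : Ch i) (g' : GD A m') (hg' : GI g'), (∃ a ∈ ann E m', g'.psi a ≠ 0) →
    K0Q.comp (pT A) (xg g' hg' hS) z = 0

variable {hR : Red E m} {cl : AddFn (S := bs A A') Sh.Coh V} {q : K0Q (TT A) (TT A') →+ V}
  (hL : LOC A) (hN : (bs A A').Noe) (ih : ∀ F : BS A A', F.Coh → ann E < ann F → cl.cl F = 0)
  (hRes : ∀ Z : BS A A', Z.Coh → HasRes Z.bp.BB)
  (hq : ∀ (Z : BS A A') (h : Z.Coh), cl.cl Z = q (rcls Z.bp.BB (hRes Z h)))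
  (hA : Smooth (TT A)) (hB : Smooth (TT B)) (hP : Proper (TT B)) (hg : GI hR.gd)

theorem WY.fsg_eq {hR : Red E m} : fsg hR.gd = sgR hR := SetLike.ext fun f => hR.gd_fn f

include hL hN ih hq hB in
/-- WY1. Coherent bisheaves, and those which are coherent over the generic point.
PROOF. As `CP.of_sco` (WW/K2), with the class of the coherent subsheaf `N` from `hZ.ex`:
`CP.of_coh`, `CP.iff_locS`; `p2_coh` for the point of `E` and `RP.iff_locS` with `XF_locS (SIso.incl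
h1)` (`fsg hR.gd` and `sgR hR` are the same set: `Red.gd_fn`); `p2_tor` for the other points
(`ann E ≤ ann N`). -/
theorem WP.of_sco {Z : BS A B} (hZ : SCo (ann E) m (sgR hR) Z) :
    ∃ z, WP hR cl q hP hg hA (XF Z.bp) z := by
  obtain ⟨N, hN', h1⟩ := hZ.ex
  have hI : ann E ≤ ann N.sh := hZ.ann.trans (ann_sub Z N)
  have r : HasRes N.sh.bp.BB := hasRes_BB finBB hA hB hN'
  have h2 : SIso m (fsg hR.gd) N.incl := by
    rw [WY.fsg_eq]
    exact SIso.incl h1
  refine ⟨rcls _ r, ?_, ?_, ?_⟩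
  · refine (CP.iff_locS hN ih (qcl_push2 (Sh.bp_qc N.sh) _ _)
      (qcl_push2 (Sh.bp_qc Z) _ _) (kl_bp hI).XF (kl_bp hZ.ann).XF
      (XF_locS (SIso.incl h1))).1 ?_
    exact CP.of_coh hN ih q hRes hq hA hB hP hN' hI r
  · exact (RP.iff_locS (f := XFm N.incl.bp) (XF_locS h2)).1 (p2_coh hL hA hB hg hN' r)
  · intro m' g' hg' ⟨a, ha, ha'⟩
    exact p2_tor hL hA hB hg' hN' r ⟨a, hI m' ha, ha'⟩

section zr

variable {W : DGA k} {hW : Proper W} {hS : Smooth (TT A)} {hg : GI hR.gd}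

include hN ih in
theorem WY.of_acyc {X : PB A.pa (PA.con i W)} (hX : QCl X) (kX : KlX (ann E) X)
    (h : Acyc (X.M m)) : WP hR cl q hW hg hS X 0 where
  cp := CP.of_acyc hN ih hX kX h
  rp := RP.of_acyc h
  zr := fun m' g' hg' _ => map_zero _

include hN ih in
theorem WY.iff_qiso {X X' : PB A.pa (PA.con i W)} (hX : QCl X) (hX' : QCl X')
    (kX : KlX (ann E) X) (kX' : KlX (ann E) X') {f : PBH X X'} (h : QIso (f.f m))
    {z : K0Q (TT A) W} : WP hR cl q hW hg hS X z ↔ WP hR cl q hW hg hS X' z :=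
  ⟨fun w => ⟨(CP.iff_qiso hN ih hX hX' kX kX' h).1 w.cp, (RP.iff_qiso h).1 w.rp, w.zr⟩,
    fun w => ⟨(CP.iff_qiso hN ih hX hX' kX kX' h).2 w.cp, (RP.iff_qiso h).2 w.rp, w.zr⟩⟩

include hN ih in
theorem WY.mid {X' X X'' : PB A.pa (PA.con i W)} {a : PBH X' X} {b : PBH X X''}
    (h : PBEx a b) (hX : QCl X) (kX : KlX (ann E) X) {z' z'' : K0Q (TT A) W}
    (h' : WP hR cl q hW hg hS X' z') (h'' : WP hR cl q hW hg hS X'' z'') :
    WP hR cl q hW hg hS X (z' + z'') where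
  cp := CP.mid hN ih h hX kX h'.cp h''.cp
  rp := RP.mid h h'.rp h''.rp
  zr := fun m' g' hg' ht => by
    rw [map_add, h'.zr m' g' hg' ht, h''.zr m' g' hg' ht, add_zero]

include hN ih in
theorem WY.right {X' X X'' : PB A.pa (PA.con i W)} {a : PBH X' X} {b : PBH X X''}
    (h : PBEx a b) (hX : QCl X'') (kX : KlX (ann E) X'') {z' z : K0Q (TT A) W}
    (h' : WP hR cl q hW hg hS X' z') (h'' : WP hR cl q hW hg hS X z) :
    WP hR cl q hW hg hS X'' (z - z') where
  cp := CP.right hN ih h hX kX h'.cp h''.cp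
  rp := RP.right h h'.rp h''.rp
  zr := fun m' g' hg' ht => by
    rw [map_sub, h'.zr m' g' hg' ht, h''.zr m' g' hg' ht, sub_zero]

include hN ih in
theorem WY.left {X' X X'' : PB A.pa (PA.con i W)} {a : PBH X' X} {b : PBH X X''}
    (h : PBEx a b) (hX : QCl X') (kX : KlX (ann E) X') {z z'' : K0Q (TT A) W}
    (h' : WP hR cl q hW hg hS X z) (h'' : WP hR cl q hW hg hS X'' z'') :
    WP hR cl q hW hg hS X' (z - z'') where
  cp := CP.left hN ih h hX kX h'.cp h''.cp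
  rp := RP.left h h'.rp h''.rp
  zr := fun m' g' hg' ht => by
    rw [map_sub, h'.zr m' g' hg' ht, h''.zr m' g' hg' ht, sub_zero]

end zr

include hL hN ih hq hB in
/-- the property satisfies the conditions of the way-out induction -/
theorem WY.way : WayP (ann E) m (sgR hR)
    (fun F : BPB A B => ∃ z, WP hR cl q hP hg hA (XF F) z) where
  acy := fun {F} hQ hK h => ⟨0, WY.of_acyc hN ih (qcl_push2 hQ _ _) hK.XF
    (cC_acy (V := (F.two.snd m).pc) (fun b => h b) (LL x) (FS.e x))⟩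
  qi := fun {F G} f hF hG kF kG h => exists_congr (fun z =>
    WY.iff_qiso hN ih (qcl_push2 hF _ _) (qcl_push2 hG _ _) kF.XF kG.XF (f := XFm f)
      ((f.two.snd m).qisoL (fun b => h b) (LL x) (FS.e x)))
  mid := fun {F' F F'' a b} h q1 q2 q3 k1 k2 k3 ⟨z', h'⟩ ⟨z'', h''⟩ =>
    ⟨z' + z'', WY.mid hN ih (PB2Ex.push2 (i := a.two) (p := b.two) (fun c c' => h (c, c')) _ _)
      (qcl_push2 q2 _ _) k2.XF h' h''⟩
  right := fun {F' F F'' a b} h q1 q2 q3 k1 k2 k3 ⟨z', h'⟩ ⟨z, h''⟩ =>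
    ⟨z - z', WY.right hN ih (PB2Ex.push2 (i := a.two) (p := b.two) (fun c c' => h (c, c')) _ _)
      (qcl_push2 q3 _ _) k3.XF h' h''⟩
  left := fun {F' F F'' a b} h q1 q2 q3 k1 k2 k3 ⟨z, h'⟩ ⟨z'', h''⟩ =>
    ⟨z - z'', WY.left hN ih (PB2Ex.push2 (i := a.two) (p := b.two) (fun c c' => h (c, c')) _ _)
      (qcl_push2 q1 _ _) k1.XF h' h''⟩
  sh := fun {Z} hZ => WP.of_sco hL hN ih hRes hq hA hB hP hg hZ

include hL hN ih hq hB in
/-- WY2. The way-out induction.
PROOF. As `cp_way` (WW/K2): a structure `WayP (ann E) m (sgR hR)` for the property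
`fun F => ∃ z, WP .. (XF F) z`, with the classes `0`, `z' + z''`, `z - z'`, `z - z''`, `CP.of_acyc`
etc. and `RP.of_acyc`, `RP.iff_qiso`, `RP.mid`, `RP.right`, `RP.left`; `zr` by linearity. -/
theorem WP.of_sb {F : BPB A B} (hS : SB (ann E) m (sgR hR) F) (hM : BdM m F) :
    ∃ z, WP hR cl q hP hg hA (XF F) z :=
  (WY.way hL hN ih hRes hq hA hB hP hg).all hS hM

end Pool.Agent.MP_6e5bed_ag_BI
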